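import Pool.Agent.HNS.Defs

/-!
# From the definition of perfect graphs
-/

set_option autoImplicit false
set_option linter.unusedSectionVars false

open scoped Classical

namespace Pool.Agent.HNS

variable {ι : Type} [DecidableEq ι]

theorem pk_of_chrom (n : ℕ) (G : SimpleGraph (Fin n))
    (h : ∀ s : Set (Fin n), (G.induce s).chromaticNumber = ((G.induce s).cliqueNum : ℕ∞)) :
    Pk G := by
  intro W N hK
  have hcl : (G.induce (W : Set (Fin n))).cliqueNum ≤ N := by
    obtain ⟨t, ht⟩ := (G.induce (W : Set (Fin n))).exists_isNClique_cliqueNum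
    have h1 : (t.map (Function.Embedding.subtype _)).card = (G.induce (W : Set (Fin n))).cliqueNum := by
      rw [Finset.card_map]
      exact ht.card_eq
    rw [← h1]
    refine hK _ ?_ ?_
    · intro i hi
      obtain ⟨x, _, rfl⟩ := Finset.mem_map.1 hi
      exact x.2
    · intro a ha b hb hab
      obtain ⟨x, hx, rfl⟩ := Finset.mem_map.1 ha
      obtain ⟨y, hy, rfl⟩ := Finset.mem_map.1 hb
      have hxy : x ≠ y := fun hh => hab (by rw [hh])
      exact ht.isClique (Finset.mem_coe.2 hx) (Finset.mem_coe.2 hy) hxy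
  have hcol : (G.induce (W : Set (Fin n))).Colorable N := by
    rw [← SimpleGraph.chromaticNumber_le_iff_colorable, h]
    exact_mod_cast hcl
  obtain ⟨c⟩ := hcol
  refine ⟨fun j => W.filter fun i => ∃ hi : i ∈ (W : Set (Fin n)), c ⟨i, hi⟩ = j, ?_, ?_⟩
  · intro j
    refine ⟨Finset.filter_subset _ _, ?_⟩
    intro a ha b hb hab
    obtain ⟨h1, h2⟩ := (Finset.mem_filter.1 ha).2
    obtain ⟨h3, h4⟩ := (Finset.mem_filter.1 hb).2
    have hadj : (G.induce (W : Set (Fin n))).Adj ⟨a, h1⟩ ⟨b, h3⟩ := hab
    exact c.valid hadj (h2.trans h4.symm)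
  · intro i hi
    have h5 : (Finset.univ.filter fun j => i ∈ W.filter fun i =>
        ∃ hi : i ∈ (W : Set (Fin n)), c ⟨i, hi⟩ = j) = {c ⟨i, hi⟩} := by
      ext j
      simp only [Finset.mem_filter, Finset.mem_univ, true_and, Finset.mem_singleton]
      constructor
      · rintro ⟨_, h6, h7⟩
        exact h7.symm
      · intro h6
        exact ⟨hi, hi, h6.symm⟩
    rw [h5, Finset.card_singleton]

end Pool.Agent.HNS
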