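import Pool.Agent.HNS.Defs

/-!
# The weighted colouring property passes to the complement (Lovasz)

PROOF. Induction on `N`. A clique of `Gᶜ` is a stable set of `G` and conversely (clq_compl,
stb_compl), so: all stable sets `T ⊆ W` of `G` have weight `≤ N`; find `N` cliques covering each
`i ∈ W` exactly `w i` times. `N = 0`: all `w i = 0` on `W` (singletons), nothing to do.
`N + 1`: claim: there is a clique `K ⊆ W' := W.filter (0 < w ·)` which meets every stable set
`T ⊆ W` with `w(T) = N + 1`. Then `w - 1_K` has stable weights `≤ N` (if `w(T) = N+1` then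
`|T ∩ K| ≥ 1`), induction, and add `K`. Proof of the claim: otherwise choose for every clique
`K ⊆ W'` a stable `S K ⊆ W` with `w(S K) = N + 1`, `S K ∩ K = ∅`. Let `Q` be the finset of all
cliques `K ⊆ W'` (`∅ ∈ Q`), and `w' i = #{K ∈ Q : i ∈ S K}`. For a clique `K0 ⊆ W'`:
`∑ i ∈ K0, w' i = ∑_{K ∈ Q} |K0 ∩ S K| ≤ |Q| - 1` (each term `≤ 1`, the term `K = K0` is `0`).
By `h` for `W'`, `w'`, `|Q| - 1` there are stable sets `T j`, `j < |Q| - 1`, with
`#{j : i ∈ T j} = w' i` on `W'`, `T j ⊆ W'`. So `∑_{i ∈ W'} w' i * w i = ∑_j w(T j) ≤ (|Q|-1)(N+1)`,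
but also `= ∑_{K ∈ Q} w(S K ∩ W') = ∑_{K ∈ Q} w(S K) = |Q| (N+1)` (vertices outside `W'` have
weight `0`). Contradiction.
-/

set_option autoImplicit false
set_option linter.unusedSectionVars false

open scoped Classical

namespace Pool.Agent.HNS

variable {ι : Type} [DecidableEq ι]

/-- double counting with weights -/
theorem wcc_double {β : Type*} (A : Finset ι) (Q : Finset β) (S : β → Finset ι) (w : ι → ℕ) :
    ∑ i ∈ A, (Q.filter fun K => i ∈ S K).card * w i = ∑ K ∈ Q, ∑ i ∈ A ∩ S K, w i := by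
  have h1 : ∀ i ∈ A, (Q.filter fun K => i ∈ S K).card * w i =
      ∑ K ∈ Q, if i ∈ S K then w i else 0 := by
    intro i _
    rw [Finset.card_filter, Finset.sum_mul]
    apply Finset.sum_congr rfl
    intro K _
    split_ifs <;> simp
  rw [Finset.sum_congr rfl h1, Finset.sum_comm]
  apply Finset.sum_congr rfl
  intro K _
  rw [← Finset.sum_filter]
  congr 1

theorem wcc_double_one {β : Type*} (A : Finset ι) (Q : Finset β) (S : β → Finset ι) :
    ∑ i ∈ A, (Q.filter fun K => i ∈ S K).card = ∑ K ∈ Q, (A ∩ S K).card := by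
  have := wcc_double A Q S (fun _ => 1)
  simpa using this

theorem wcc_step {G : SimpleGraph ι} (h : WC G) (W : Finset ι) (w : ι → ℕ) (N : ℕ)
    (hT : ∀ T ⊆ W, Stb G T → ∑ i ∈ T, w i ≤ N + 1) :
    ∃ K ⊆ W, Clq G K ∧ (∀ i ∈ K, 0 < w i) ∧
      ∀ T ⊆ W, Stb G T → ∑ i ∈ T, w i = N + 1 → ∃ x, x ∈ T ∧ x ∈ K := by
  by_contra hcon
  push Not at hcon
  set W' := W.filter (fun i => 0 < w i) with hW'
  set Q := W'.powerset.filter (Clq G) with hQ
  have hex : ∀ K ∈ Q, ∃ T ⊆ W, Stb G T ∧ ∑ i ∈ T, w i = N + 1 ∧ ∀ x ∈ T, x ∉ K := by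
    intro K hK
    rw [hQ, Finset.mem_filter, Finset.mem_powerset] at hK
    exact hcon K (hK.1.trans (Finset.filter_subset _ _)) hK.2
      (fun i hi => (Finset.mem_filter.1 (hK.1 hi)).2)
  choose! S hS using hex
  have hQ0 : (∅ : Finset ι) ∈ Q := by
    rw [hQ, Finset.mem_filter, Finset.mem_powerset]
    exact ⟨Finset.empty_subset _, clq_empty G⟩
  obtain ⟨M, hM⟩ : ∃ M, Q.card = M + 1 :=
    ⟨Q.card - 1, by have := Finset.card_pos.2 ⟨_, hQ0⟩; omega⟩
  have hbound : ∀ K0 ⊆ W', Clq G K0 → ∑ i ∈ K0, (Q.filter fun K => i ∈ S K).card ≤ M := by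
    intro K0 hK0 hc
    have hK0Q : K0 ∈ Q := by
      rw [hQ, Finset.mem_filter, Finset.mem_powerset]
      exact ⟨hK0, hc⟩
    rw [wcc_double_one, ← Finset.add_sum_erase Q _ hK0Q]
    have h0 : (K0 ∩ S K0).card = 0 := by
      rw [Finset.card_eq_zero, Finset.eq_empty_iff_forall_notMem]
      intro x hx
      rw [Finset.mem_inter] at hx
      exact (hS K0 hK0Q).2.2.2 x hx.2 hx.1
    rw [h0, zero_add]
    have h1 : ∑ K ∈ Q.erase K0, (K0 ∩ S K).card ≤ ∑ K ∈ Q.erase K0, 1 := by
      apply Finset.sum_le_sum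
      intro K hK
      rw [Finset.inter_comm]
      exact inter_card_le (hS K (Finset.mem_of_mem_erase hK)).2.1 hc
    refine h1.trans ?_
    rw [Finset.sum_const, smul_eq_mul, mul_one, Finset.card_erase_of_mem hK0Q, hM]
    omega
  obtain ⟨T, hT1, hT2⟩ := h W' (fun i => (Q.filter fun K => i ∈ S K).card) M hbound
  have e1 : ∑ i ∈ W', (Q.filter fun K => i ∈ S K).card * w i = (M + 1) * (N + 1) := by
    rw [wcc_double]
    have h1 : ∀ K ∈ Q, ∑ i ∈ W' ∩ S K, w i = N + 1 := by
      intro K hK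
      rw [← (hS K hK).2.2.1]
      apply Finset.sum_subset Finset.inter_subset_right
      intro x hx hx'
      by_contra h0
      apply hx'
      rw [Finset.mem_inter, hW', Finset.mem_filter]
      exact ⟨⟨(hS K hK).1 hx, Nat.pos_of_ne_zero h0⟩, hx⟩
    rw [Finset.sum_congr rfl h1, Finset.sum_const, smul_eq_mul, hM]
  have e2 : ∑ i ∈ W', (Q.filter fun K => i ∈ S K).card * w i ≤ M * (N + 1) := by
    have h1 : ∑ i ∈ W', (Q.filter fun K => i ∈ S K).card * w i =
        ∑ i ∈ W', (Finset.univ.filter fun j => i ∈ T j).card * w i := by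
      apply Finset.sum_congr rfl
      intro i hi
      rw [hT2 i hi]
    rw [h1, wcc_double]
    have h2 : ∀ j ∈ (Finset.univ : Finset (Fin M)), ∑ i ∈ W' ∩ T j, w i ≤ N + 1 := by
      intro j _
      apply hT _ (Finset.inter_subset_left.trans (Finset.filter_subset _ _))
      exact (hT1 j).2.mono Finset.inter_subset_right
    refine (Finset.sum_le_sum h2).trans ?_
    rw [Finset.sum_const, smul_eq_mul, Finset.card_univ, Fintype.card_fin]
  rw [e1] at e2
  nlinarith

theorem wcc_main {G : SimpleGraph ι} (h : WC G) (W : Finset ι) (N : ℕ) :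
    ∀ w : ι → ℕ, (∀ T ⊆ W, Stb G T → ∑ i ∈ T, w i ≤ N) →
      ∃ K : Fin N → Finset ι, (∀ j, K j ⊆ W ∧ Clq G (K j)) ∧
        ∀ i ∈ W, (Finset.univ.filter fun j => i ∈ K j).card = w i := by
  induction N with
  | zero =>
    intro w hT
    refine ⟨fun j => j.elim0, fun j => j.elim0, fun i hi => ?_⟩
    have h1 := hT {i} (Finset.singleton_subset_iff.2 hi) (stb_singleton G i)
    rw [Finset.sum_singleton] at h1
    have h2 : (Finset.univ : Finset (Fin 0)) = ∅ := Finset.univ_eq_empty
    rw [h2, Finset.filter_empty, Finset.card_empty]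
    omega
  | succ N ih =>
    intro w hT
    obtain ⟨K, hKW, hK, hpos, hmeet⟩ := wcc_step h W w N hT
    have hw : ∀ i, w i = (w i - if i ∈ K then 1 else 0) + if i ∈ K then 1 else 0 := by
      intro i
      split_ifs with hi
      · have := hpos i hi
        omega
      · omega
    obtain ⟨T, hT1, hT2⟩ := ih (fun i => w i - if i ∈ K then 1 else 0) (by
      intro T hTW hTs
      have h1 : ∑ i ∈ T, w i = ∑ i ∈ T, (w i - if i ∈ K then 1 else 0) +
          ∑ i ∈ T, (if i ∈ K then 1 else 0) := by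
        rw [← Finset.sum_add_distrib]
        exact Finset.sum_congr rfl fun i _ => hw i
      have h2 := hT T hTW hTs
      rcases eq_or_ne (∑ i ∈ T, w i) (N + 1) with h3 | h3
      · obtain ⟨x, hx, hxK⟩ := hmeet T hTW hTs h3
        have h4 : 1 ≤ ∑ i ∈ T, (if i ∈ K then 1 else 0) := by
          have := Finset.single_le_sum (f := fun i => if i ∈ K then 1 else 0)
            (fun i _ => Nat.zero_le _) hx
          simpa [hxK] using this
        omega
      · omega)
    refine ⟨Fin.cons K T, ?_, ?_⟩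
    · intro j
      refine Fin.cases ?_ (fun j => ?_) j
      · exact ⟨hKW, hK⟩
      · exact hT1 j
    · intro i hi
      rw [Fin.card_filter_univ_succ]
      have e : (Finset.univ.filter fun j : Fin N => i ∈ (Fin.cons K T : Fin (N + 1) → Finset ι)
          j.succ).card = w i - if i ∈ K then 1 else 0 := by
        simp only [Fin.cons_succ]
        exact hT2 i hi
      simp only [Fin.cons_zero]
      rw [e]
      have := hw i
      split_ifs with hi' <;> simp only [hi', if_true, if_false] at this ⊢ <;> omega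

theorem wc_compl {G : SimpleGraph ι} (h : WC G) : WC Gᶜ := by
  intro W w N hK
  obtain ⟨T, h1, h2⟩ := wcc_main h W N w (fun T hT hs => hK T hT (clq_compl.2 hs))
  exact ⟨T, fun j => ⟨(h1 j).1, stb_compl.2 (h1 j).2⟩, h2⟩

end Pool.Agent.HNS
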