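import Pool.Agent.HNS.Defs

/-!
# Weighted colouring from 0/1 colouring

PROOF. Strong induction on the total weight `∑ i ∈ W, w i` (for all `w`, `N`, `W` fixed or not).
(1) If `w i ≤ 1` for all `i ∈ W`: apply `h` to `W' = W.filter (w · = 1)` (for `K ⊆ W'` a clique
`K.card = ∑ i ∈ K, w i ≤ N`); a vertex with `w i = 0` is in no `T j`, since `T j ⊆ W'`.
(2) Otherwise there is `v ∈ W` with `2 ≤ w v`. Let `w' = w - 1_v` (Function.update). `N ≥ 2` because
`{v}` is a clique.
 (2a) If all cliques `K ⊆ W` have `w'(K) ≤ N - 1`: induction for `w'`, `N - 1`, and add the class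
 `{v}` (Fin.cons / Fin.snoc and `N = (N-1)+1`).
 (2b) Otherwise some clique `K0 ⊆ W` has `w'(K0) = N`. Induction for `w'`, `N` gives classes `T j`;
 as `w' v ≥ 1` there is `j0` with `v ∈ A := T j0`. Let `w'' i = w i - (if i ∈ A then 1 else 0)`.
 Note `w i ≥ 1` for `i ∈ A` (the count of `i` is `w' i ≥ 1`). Claim: every clique `K ⊆ W` has
 `w''(K) = w(K) - |A ∩ K| ≤ N - 1`. If `v ∈ K` then `w(K) = w'(K) + 1`, and `w(K) ≤ N`, `|A ∩ K| ≥ 1`.
 If `v ∉ K`, `w(K) = w'(K)`; if `w'(K) ≤ N - 1` fine; if `w'(K) = N` then `N = ∑_j |T j ∩ K|` with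
 every term `≤ 1` (inter_card_le), so `|A ∩ K| = 1`. Induction for `w''`, `N - 1` (smaller total),
 and add the class `A`.
(Useful: `∑ i ∈ K, (card of j with i ∈ T j) = ∑ j, (T j ∩ K).card`, by Finset.sum_comm.)
-/

set_option autoImplicit false
set_option linter.unusedSectionVars false

open scoped Classical

namespace Pool.Agent.HNS

variable {ι : Type} [DecidableEq ι]

theorem wc_of_pk {G : SimpleGraph ι} (h : Pk G) : WC G := by
  intro W w N hw
  induction hn : ∑ i ∈ W, w i using Nat.strong_induction_on generalizing w N with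
  | _ n ih =>
  by_cases hone : ∀ i ∈ W, w i ≤ 1
  · obtain ⟨T, hT, hc⟩ := h (W.filter fun i => w i = 1) N (fun K hK hKc => by
      have h1 : ∑ i ∈ K, w i = K.card := by
        rw [Finset.card_eq_sum_ones]
        exact Finset.sum_congr rfl fun i hi => (Finset.mem_filter.1 (hK hi)).2
      rw [← h1]
      exact hw K (hK.trans (Finset.filter_subset _ _)) hKc)
    refine ⟨T, fun j => ⟨(hT j).1.trans (Finset.filter_subset _ _), (hT j).2⟩, fun i hi => ?_⟩
    by_cases h1 : w i = 1
    · rw [hc i (Finset.mem_filter.2 ⟨hi, h1⟩), h1]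
    · have h2 : w i = 0 := by
        have := hone i hi
        omega
      rw [h2, Finset.card_eq_zero, Finset.filter_eq_empty_iff]
      intro j _ hij
      exact h1 (Finset.mem_filter.1 ((hT j).1 hij)).2
  · push Not at hone
    obtain ⟨v, hvW, hv⟩ := hone
    have hle : ∀ i, Function.update w v (w v - 1) i ≤ w i := by
      intro i
      by_cases hi : i = v
      · rw [hi, Function.update_self]
        omega
      · rw [Function.update_of_ne hi]
    obtain ⟨T, hT, hc⟩ := ih _ (by
        rw [← hn]
        refine Finset.sum_lt_sum (fun i _ => hle i) ⟨v, hvW, ?_⟩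
        rw [Function.update_self]
        omega) (Function.update w v (w v - 1)) N
      (fun K hK hKc => (Finset.sum_le_sum fun i _ => hle i).trans (hw K hK hKc)) rfl
    have hvc := hc v hvW
    rw [Function.update_self] at hvc
    obtain ⟨j0, hj0⟩ := Finset.card_pos.1 (show 0 < (Finset.univ.filter fun j => v ∈ T j).card by
      omega)
    have hvA : v ∈ T j0 := (Finset.mem_filter.1 hj0).2
    have hA : ∀ i ∈ T j0, 1 ≤ w i := by
      intro i hi
      have h1 : 0 < (Finset.univ.filter fun j => i ∈ T j).card :=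
        Finset.card_pos.2 ⟨j0, Finset.mem_filter.2 ⟨Finset.mem_univ _, hi⟩⟩
      rw [hc i ((hT j0).1 hi)] at h1
      exact lt_of_lt_of_le h1 (hle i)
    obtain ⟨M, rfl⟩ : ∃ M, N = M + 1 := ⟨N - 1, by have := j0.2; omega⟩
    have hsplit : ∀ i, w i = (w i - if i ∈ T j0 then 1 else 0) + if i ∈ T j0 then 1 else 0 := by
      intro i
      by_cases hi : i ∈ T j0
      · have := hA i hi
        rw [if_pos hi]
        omega
      · rw [if_neg hi]
        omega
    have hkey : ∀ K : Finset ι, ∑ i ∈ K, w i
        = ∑ i ∈ K, (w i - if i ∈ T j0 then 1 else 0) + (T j0 ∩ K).card := by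
      intro K
      rw [Finset.sum_congr rfl fun i _ => hsplit i, Finset.sum_add_distrib, Finset.inter_comm,
        ← Finset.filter_mem_eq_inter, Finset.card_filter]
    have hcl : ∀ K ⊆ W, Clq G K → ∑ i ∈ K, (w i - if i ∈ T j0 then 1 else 0) ≤ M := by
      intro K hK hKc
      have h1 := hw K hK hKc
      have h2 := hkey K
      by_cases h3 : 0 < (T j0 ∩ K).card
      · omega
      · have hvK : v ∉ K := fun hvK => h3 (Finset.card_pos.2 ⟨v, Finset.mem_inter.2 ⟨hvA, hvK⟩⟩)
        have h4 : ∑ i ∈ K, w i = ∑ j, (T j ∩ K).card := by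
          have h5 : ∀ i ∈ K, w i = ∑ j, if i ∈ T j then 1 else 0 := by
            intro i hi
            have h6 : i ≠ v := fun h7 => hvK (h7 ▸ hi)
            have h8 := hc i (hK hi)
            rw [Function.update_of_ne h6] at h8
            rw [← h8, Finset.card_filter]
          rw [Finset.sum_congr rfl h5, Finset.sum_comm]
          refine Finset.sum_congr rfl fun j _ => ?_
          rw [Finset.inter_comm, ← Finset.filter_mem_eq_inter, Finset.card_filter]
        have h9 : ∑ j, (T j ∩ K).card ≤ M := by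
          rw [← Finset.add_sum_erase _ _ (Finset.mem_univ j0)]
          have h10 : ∑ j ∈ Finset.univ.erase j0, (T j ∩ K).card
              ≤ ∑ j ∈ (Finset.univ : Finset (Fin (M + 1))).erase j0, 1 :=
            Finset.sum_le_sum fun j _ => inter_card_le (hT j).2 hKc
          rw [← Finset.card_eq_sum_ones, Finset.card_erase_of_mem (Finset.mem_univ _),
            Finset.card_univ, Fintype.card_fin] at h10
          omega
        omega
    obtain ⟨T', hT', hc'⟩ := ih _ (by
        rw [← hn, hkey W]
        have : 0 < (T j0 ∩ W).card := Finset.card_pos.2 ⟨v, Finset.mem_inter.2 ⟨hvA, hvW⟩⟩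
        omega) (fun i => w i - if i ∈ T j0 then 1 else 0) M hcl rfl
    refine ⟨Fin.cons (T j0) T', fun j => ?_, fun i hi => ?_⟩
    · refine Fin.cases ?_ (fun j => ?_) j
      · exact hT j0
      · exact hT' j
    · rw [Finset.card_filter, Fin.sum_univ_succ]
      simp only [Fin.cons_zero, Fin.cons_succ]
      have h1 := hc' i hi
      rw [Finset.card_filter] at h1
      rw [h1]
      have h2 := hsplit i
      omega

end Pool.Agent.HNS
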