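import Pool.Agent.HNS.Fsm
import Pool.Agent.HNS.Wcp
import Pool.Agent.HNS.Wcc
import Pool.Agent.HNS.Chr
import Pool.Agent.K3R.HanF

/-!
# Hansen polytopes of perfect graphs: the theorem
-/

set_option autoImplicit false

namespace Pool.Agent.HNS

open Pool.Agent.K3R (NF HS toE XF HS_finite NF_le_image NF_le_XF)

theorem poly (n : ℕ) (G : SimpleGraph (Fin n))
    (hG : ∀ s : Set (Fin n), (G.induce s).chromaticNumber = ((G.induce s).cliqueNum : ℕ∞)) :
    (3 : ℕ∞) ^ (n + 1) ≤ (XF (convexHull ℝ (toE n '' HS G Finset.univ))).encard := by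
  have hW : WC G := wc_of_pk (pk_of_chrom n G hG)
  have hP : PF G := ⟨hW, wc_compl hW⟩
  have h1 := hs_bound hP (Finset.univ : Finset (Fin n))
  rw [Finset.card_univ, Fintype.card_fin] at h1
  have hfin := HS_finite G (Finset.univ : Finset (Fin n))
  have hinj : Function.Injective (toE n) := by
    unfold toE
    exact LinearEquiv.injective _
  have h2 := NF_le_image hfin (toE n) hinj 0
  have h3 : (fun x => toE n x + 0) '' HS G Finset.univ = toE n '' HS G Finset.univ := by
    simp only [add_zero]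
  rw [h3] at h2
  refine le_trans ?_ (NF_le_XF (hfin.image _))
  have h4 : ((3 ^ (n + 1) : ℕ) : ℕ∞) ≤ (NF (toE n '' HS G Finset.univ) : ℕ∞) := by
    exact_mod_cast h1.trans h2
  push_cast at h4
  exact h4

end Pool.Agent.HNS
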