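import Pool.Agent.HNS.Str

/-!
# Every letter is defined

PROOF. Suppose `¬ sL u i`. Let `N = u.2.card` and `w j = #{K ∈ u.2 : j ∈ K} + (if j = i then 1 else 0)`.
For `T ⊆ W` stable: `∑_{j ∈ T} #{K ∈ u.2 : j ∈ K} = ∑_{K ∈ u.2} |T ∩ K|`, all terms `≤ 1`. If
`T ∈ u.1` it is `N`, and `i ∉ T`, so `w(T) = N`. If `T ∉ u.1` some term is `0` (mem_fst), so the sum
is `≤ N - 1` and `w(T) ≤ N`. `starK` with `r = i` (`w i ≥ 1`) gives a clique `K ⊆ W`, `i ∈ K`,
with `|T ∩ K| = 1` for all stable `T ⊆ W` of weight `N`, in particular for all `T ∈ u.1`. So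
`K ∈ u.2` by mem_snd, and `kL u i`.
-/

set_option autoImplicit false
set_option linter.unusedSectionVars false

open scoped Classical

namespace Pool.Agent.HNS

variable {ι : Type} [DecidableEq ι]

/-- double counting -/
theorem cov_double (A : Finset ι) (Q : Finset (Finset ι)) :
    ∑ j ∈ A, (Q.filter fun K => j ∈ K).card = ∑ K ∈ Q, (A ∩ K).card := by
  have h1 : ∀ j ∈ A, (Q.filter fun K => j ∈ K).card = ∑ K ∈ Q, if j ∈ K then 1 else 0 := by
    intro j _
    rw [Finset.card_filter]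
  rw [Finset.sum_congr rfl h1, Finset.sum_comm]
  apply Finset.sum_congr rfl
  intro K _
  rw [← Finset.card_filter]
  congr 1

theorem cover {G : SimpleGraph ι} (h : PF G) {W : Finset ι} {u : Wrd ι} (hu : u ∈ Wd G W) {i : ι}
    (hi : i ∈ W) : sL u i ∨ kL u i := by
  by_cases hs : sL u i
  · exact Or.inl hs
  right
  have hsum : ∀ T : Finset ι, ∑ j ∈ T, ((u.2.filter fun K => j ∈ K).card +
      if j = i then 1 else 0) = ∑ K ∈ u.2, (T ∩ K).card + if i ∈ T then 1 else 0 := by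
    intro T
    rw [Finset.sum_add_distrib, cov_double, Finset.sum_ite_eq']
  have h1 : ∀ T ∈ u.1, ∑ j ∈ T, ((u.2.filter fun K => j ∈ K).card +
      if j = i then 1 else 0) = u.2.card := by
    intro T hT
    have hiT : i ∉ T := fun h => hs ⟨T, hT, h⟩
    rw [hsum, if_neg hiT, Finset.sum_congr rfl (fun K hK => card_eq hu hT hK)]
    simp
  have h2 : ∀ T ⊆ W, Stb G T → ∑ j ∈ T, ((u.2.filter fun K => j ∈ K).card +
      if j = i then 1 else 0) ≤ u.2.card := by
    intro T hTW hTs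
    by_cases hT : T ∈ u.1
    · exact (h1 T hT).le
    · rw [hsum]
      have h3 : ∃ K ∈ u.2, (T ∩ K).card ≠ 1 := by
        by_contra hc
        push Not at hc
        exact hT ((mem_fst hu).2 ⟨hTW, hTs, hc⟩)
      obtain ⟨K, hK, hK1⟩ := h3
      have h4 : (T ∩ K).card = 0 := by
        have := inter_card_le hTs (snd_clq hu hK)
        omega
      rw [← Finset.add_sum_erase u.2 _ hK, h4, zero_add]
      have h5 : ∑ K ∈ u.2.erase K, (T ∩ K).card ≤ ∑ K ∈ u.2.erase K, 1 :=
        Finset.sum_le_sum fun K' hK' =>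
          inter_card_le hTs (snd_clq hu (Finset.mem_of_mem_erase hK'))
      rw [Finset.sum_const, smul_eq_mul, mul_one, Finset.card_erase_of_mem hK] at h5
      have h6 : 0 < u.2.card := Finset.card_pos.2 ⟨K, hK⟩
      split_ifs <;> omega
  obtain ⟨K, hKW, hKc, hiK, hKT⟩ := starK h h2 hi (by simp)
  refine ⟨K, ?_, hiK⟩
  exact (mem_snd hu).2 ⟨hKW, hKc, fun T hT => hKT T (fst_sub hu hT) (fst_stb hu hT) (h1 T hT)⟩

end Pool.Agent.HNS
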