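import Pool.Agent.HNS.Defs2

/-!
# Deletion of vertices

PROOF. Let `u ∈ Wd G W` have no letter `a` on `A`. For `T ∈ u.1`, `K ∈ u.2`: `T ∩ K` contains no
`i ∈ A`. Hence `T \ A ∈ u.1` (it meets every `K ∈ u.2`; use mem_fst') and `K \ A ∈ u.2`. From this
`del_mem`, `sL_del`, `kL_del` are direct (for `del_mem`: if `T ⊆ W \ A` is stable and meets all
`K ∈ u.2` disjoint from `A` then it meets every `K ∈ u.2` since it meets `K \ A`).
`del_inj`: let `T ∈ u.1`. To see `T ∈ u'.1`: for `K ∈ u'.2` we have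
`K \ A ∈ (del A u').2 = (del A u).2 ⊆ u.2`, so `T` meets `K \ A ⊆ K`; use mem_fst' (`T ⊆ W` stable).
Symmetric, and the same for the second components.
`del_surj`: for `v ∈ Wd G (W \ A)` take `u.1 = {T ⊆ W stable : T \ A ∈ v.1}`,
`u.2 = {K ⊆ W clique : K \ A ∈ v.2}` (filters of `W.powerset`). Every such `T` and `K` meet in
exactly one vertex (they meet by `v`, at most one by inter_card_le), which lies outside `A`, so
there is no letter `a` on `A`. Closedness: if `T ⊆ W` is stable and meets all `K ∈ u.2`, then it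
meets all `K ∈ v.2 ⊆ u.2` (outside `A`), so `T \ A ∈ v.1`. `del A u = v` is clear.
`del_card`, `del_sum`: bijection `del A` (Finset.card_bij / Finset.sum_bij).
`sL_ext`: if `i ∈ T ∈ u.1` then `T \ A ∈ v.1` and `insert i (T \ A) ⊆ T` is stable. Conversely if
`T ∈ v.1 = (del A u).1` and `insert i T` is stable then `insert i T ∈ u.1` by mem_fst'.
-/

set_option autoImplicit false
set_option linter.unusedSectionVars false

open scoped Classical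

namespace Pool.Agent.HNS

variable {ι : Type} [DecidableEq ι]

theorem del_mem_fst {A : Finset ι} {u : Wrd ι} {T : Finset ι} :
    T ∈ (del A u).1 ↔ T ∈ u.1 ∧ Disjoint T A := by
  unfold del
  rw [Finset.mem_filter]

theorem del_mem_snd {A : Finset ι} {u : Wrd ι} {K : Finset ι} :
    K ∈ (del A u).2 ↔ K ∈ u.2 ∧ Disjoint K A := by
  unfold del
  rw [Finset.mem_filter]

theorem del_sdiff_fst {G : SimpleGraph ι} {W A : Finset ι} {u : Wrd ι} (hu : u ∈ Wd G W)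
    (hA : Uns A u) {T : Finset ι} (hT : T ∈ u.1) : T \ A ∈ u.1 := by
  refine mem_fst' hu (Finset.sdiff_subset.trans (fst_sub hu hT))
    ((fst_stb hu hT).mono Finset.sdiff_subset) fun K hK => ?_
  obtain ⟨x, h1, h2⟩ := exists_of_card (card_eq hu hT hK)
  refine ⟨x, Finset.mem_sdiff.2 ⟨h1, fun hx => ?_⟩, h2⟩
  exact hA x hx ⟨⟨T, hT, h1⟩, ⟨K, hK, h2⟩⟩

theorem del_sdiff_snd {G : SimpleGraph ι} {W A : Finset ι} {u : Wrd ι} (hu : u ∈ Wd G W)
    (hA : Uns A u) {K : Finset ι} (hK : K ∈ u.2) : K \ A ∈ u.2 := by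
  refine mem_snd' hu (Finset.sdiff_subset.trans (snd_sub hu hK))
    ((snd_clq hu hK).mono Finset.sdiff_subset) fun T hT => ?_
  obtain ⟨x, h1, h2⟩ := exists_of_card (card_eq hu hT hK)
  refine ⟨x, h1, Finset.mem_sdiff.2 ⟨h2, fun hx => ?_⟩⟩
  exact hA x hx ⟨⟨T, hT, h1⟩, ⟨K, hK, h2⟩⟩

theorem del_sdiff_fst' {G : SimpleGraph ι} {W A : Finset ι} {u : Wrd ι} (hu : u ∈ Wd G W)
    (hA : Uns A u) {T : Finset ι} (hT : T ∈ u.1) : T \ A ∈ (del A u).1 :=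
  del_mem_fst.2 ⟨del_sdiff_fst hu hA hT, Finset.sdiff_disjoint⟩

theorem del_sdiff_snd' {G : SimpleGraph ι} {W A : Finset ι} {u : Wrd ι} (hu : u ∈ Wd G W)
    (hA : Uns A u) {K : Finset ι} (hK : K ∈ u.2) : K \ A ∈ (del A u).2 :=
  del_mem_snd.2 ⟨del_sdiff_snd hu hA hK, Finset.sdiff_disjoint⟩

theorem del_mem {G : SimpleGraph ι} {W A : Finset ι} {u : Wrd ι} (hu : u ∈ Wd G W)
    (hA : Uns A u) : del A u ∈ Wd G (W \ A) := by
  refine mem_Wd.2 ⟨fun T => ⟨fun hT => ?_, fun hT => ?_⟩, fun K => ⟨fun hK => ?_, fun hK => ?_⟩⟩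
  · rw [del_mem_fst] at hT
    refine ⟨Finset.subset_sdiff.2 ⟨fst_sub hu hT.1, hT.2⟩, fst_stb hu hT.1, fun K hK => ?_⟩
    exact card_eq hu hT.1 (del_mem_snd.1 hK).1
  · obtain ⟨h1, h2, h3⟩ := hT
    rw [Finset.subset_sdiff] at h1
    refine del_mem_fst.2 ⟨mem_fst' hu h1.1 h2 fun K hK => ?_, h1.2⟩
    obtain ⟨x, hx, hx'⟩ := exists_of_card (h3 _ (del_sdiff_snd' hu hA hK))
    exact ⟨x, hx, (Finset.mem_sdiff.1 hx').1⟩
  · rw [del_mem_snd] at hK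
    refine ⟨Finset.subset_sdiff.2 ⟨snd_sub hu hK.1, hK.2⟩, snd_clq hu hK.1, fun T hT => ?_⟩
    exact card_eq hu (del_mem_fst.1 hT).1 hK.1
  · obtain ⟨h1, h2, h3⟩ := hK
    rw [Finset.subset_sdiff] at h1
    refine del_mem_snd.2 ⟨mem_snd' hu h1.1 h2 fun T hT => ?_, h1.2⟩
    obtain ⟨x, hx, hx'⟩ := exists_of_card (h3 _ (del_sdiff_fst' hu hA hT))
    exact ⟨x, (Finset.mem_sdiff.1 hx).1, hx'⟩

theorem sL_del {G : SimpleGraph ι} {W A : Finset ι} {u : Wrd ι} (hu : u ∈ Wd G W)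
    (hA : Uns A u) {i : ι} (hi : i ∉ A) : sL (del A u) i ↔ sL u i := by
  constructor
  · rintro ⟨T, hT, h⟩
    exact ⟨T, (del_mem_fst.1 hT).1, h⟩
  · rintro ⟨T, hT, h⟩
    exact ⟨T \ A, del_sdiff_fst' hu hA hT, Finset.mem_sdiff.2 ⟨h, hi⟩⟩

theorem kL_del {G : SimpleGraph ι} {W A : Finset ι} {u : Wrd ι} (hu : u ∈ Wd G W)
    (hA : Uns A u) {i : ι} (hi : i ∉ A) : kL (del A u) i ↔ kL u i := by
  constructor
  · rintro ⟨K, hK, h⟩
    exact ⟨K, (del_mem_snd.1 hK).1, h⟩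
  · rintro ⟨K, hK, h⟩
    exact ⟨K \ A, del_sdiff_snd' hu hA hK, Finset.mem_sdiff.2 ⟨h, hi⟩⟩

theorem del_inj_fst {G : SimpleGraph ι} {W A : Finset ι} {u u' : Wrd ι} (hu : u ∈ Wd G W)
    (hu' : u' ∈ Wd G W) (hA' : Uns A u') (h : del A u = del A u') {T : Finset ι}
    (hT : T ∈ u.1) : T ∈ u'.1 := by
  refine mem_fst' hu' (fst_sub hu hT) (fst_stb hu hT) fun K hK => ?_
  have h1 := del_sdiff_snd' hu' hA' hK
  rw [← h] at h1
  obtain ⟨x, hx, hx'⟩ := exists_of_card (card_eq hu hT (del_mem_snd.1 h1).1)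
  exact ⟨x, hx, (Finset.mem_sdiff.1 hx').1⟩

theorem del_inj_snd {G : SimpleGraph ι} {W A : Finset ι} {u u' : Wrd ι} (hu : u ∈ Wd G W)
    (hu' : u' ∈ Wd G W) (hA' : Uns A u') (h : del A u = del A u') {K : Finset ι}
    (hK : K ∈ u.2) : K ∈ u'.2 := by
  refine mem_snd' hu' (snd_sub hu hK) (snd_clq hu hK) fun T hT => ?_
  have h1 := del_sdiff_fst' hu' hA' hT
  rw [← h] at h1
  obtain ⟨x, hx, hx'⟩ := exists_of_card (card_eq hu (del_mem_fst.1 h1).1 hK)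
  exact ⟨x, (Finset.mem_sdiff.1 hx).1, hx'⟩

theorem del_inj {G : SimpleGraph ι} {W A : Finset ι} {u u' : Wrd ι} (hu : u ∈ Wd G W)
    (hu' : u' ∈ Wd G W) (hA : Uns A u) (hA' : Uns A u') (h : del A u = del A u') : u = u' := by
  refine Prod.ext (Finset.ext fun T => ⟨fun hT => ?_, fun hT => ?_⟩)
    (Finset.ext fun K => ⟨fun hK => ?_, fun hK => ?_⟩)
  · exact del_inj_fst hu hu' hA' h hT
  · exact del_inj_fst hu' hu hA h.symm hT
  · exact del_inj_snd hu hu' hA' h hK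
  · exact del_inj_snd hu' hu hA h.symm hK

theorem del_surj {G : SimpleGraph ι} {W A : Finset ι} {v : Wrd ι} (hv : v ∈ Wd G (W \ A)) :
    ∃ u ∈ Wd G W, Uns A u ∧ del A u = v := by
  have h1 : ∀ T ∈ v.1, T ⊆ W ∧ Disjoint T A ∧ T \ A = T := by
    intro T hT
    have h := Finset.subset_sdiff.1 (fst_sub hv hT)
    exact ⟨h.1, h.2, Finset.sdiff_eq_self_of_disjoint h.2⟩
  have h2 : ∀ K ∈ v.2, K ⊆ W ∧ Disjoint K A ∧ K \ A = K := by
    intro K hK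
    have h := Finset.subset_sdiff.1 (snd_sub hv hK)
    exact ⟨h.1, h.2, Finset.sdiff_eq_self_of_disjoint h.2⟩
  obtain ⟨u, hu1, hu2⟩ : ∃ u : Wrd ι, (∀ T, T ∈ u.1 ↔ T ⊆ W ∧ Stb G T ∧ T \ A ∈ v.1) ∧
      ∀ K, K ∈ u.2 ↔ K ⊆ W ∧ Clq G K ∧ K \ A ∈ v.2 := by
    refine ⟨(W.powerset.filter fun T => Stb G T ∧ T \ A ∈ v.1,
      W.powerset.filter fun K => Clq G K ∧ K \ A ∈ v.2), fun T => ?_, fun K => ?_⟩
    · rw [Finset.mem_filter, Finset.mem_powerset]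
    · rw [Finset.mem_filter, Finset.mem_powerset]
  have hmeet : ∀ T ∈ u.1, ∀ K ∈ u.2, ∃ x, x ∉ A ∧ x ∈ T ∧ x ∈ K := by
    intro T hT K hK
    obtain ⟨x, hx, hx'⟩ := exists_of_card (card_eq hv ((hu1 T).1 hT).2.2 ((hu2 K).1 hK).2.2)
    rw [Finset.mem_sdiff] at hx hx'
    exact ⟨x, hx.2, hx.1, hx'.1⟩
  have hcard : ∀ T ∈ u.1, ∀ K ∈ u.2, (T ∩ K).card = 1 := by
    intro T hT K hK
    obtain ⟨x, -, hx, hx'⟩ := hmeet T hT K hK
    exact inter_card_eq ((hu1 T).1 hT).2.1 ((hu2 K).1 hK).2.1 hx hx'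
  have hW : u ∈ Wd G W := by
    refine mem_Wd.2 ⟨fun T => ⟨fun hT => ?_, fun hT => ?_⟩, fun K => ⟨fun hK => ?_, fun hK => ?_⟩⟩
    · exact ⟨((hu1 T).1 hT).1, ((hu1 T).1 hT).2.1, fun K hK => hcard T hT K hK⟩
    · obtain ⟨a1, a2, a3⟩ := hT
      refine (hu1 T).2 ⟨a1, a2, mem_fst' hv (Finset.sdiff_subset_sdiff a1 le_rfl)
        (a2.mono Finset.sdiff_subset) fun K hK => ?_⟩
      obtain ⟨b1, b2, b3⟩ := h2 K hK
      obtain ⟨x, hx, hx'⟩ := exists_of_card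
        (a3 K ((hu2 K).2 ⟨b1, snd_clq hv hK, by rw [b3]; exact hK⟩))
      exact ⟨x, Finset.mem_sdiff.2 ⟨hx, Finset.disjoint_left.1 b2 hx'⟩, hx'⟩
    · exact ⟨((hu2 K).1 hK).1, ((hu2 K).1 hK).2.1, fun T hT => hcard T hT K hK⟩
    · obtain ⟨a1, a2, a3⟩ := hK
      refine (hu2 K).2 ⟨a1, a2, mem_snd' hv (Finset.sdiff_subset_sdiff a1 le_rfl)
        (a2.mono Finset.sdiff_subset) fun T hT => ?_⟩
      obtain ⟨b1, b2, b3⟩ := h1 T hT
      obtain ⟨x, hx, hx'⟩ := exists_of_card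
        (a3 T ((hu1 T).2 ⟨b1, fst_stb hv hT, by rw [b3]; exact hT⟩))
      exact ⟨x, hx, Finset.mem_sdiff.2 ⟨hx', Finset.disjoint_left.1 b2 hx⟩⟩
  refine ⟨u, hW, fun i hi hsk => ?_, ?_⟩
  · obtain ⟨⟨T, hT, hiT⟩, ⟨K, hK, hiK⟩⟩ := hsk
    obtain ⟨x, hxA, hx, hx'⟩ := hmeet T hT K hK
    have hle := inter_card_le ((hu1 T).1 hT).2.1 ((hu2 K).1 hK).2.1
    have := Finset.card_le_one.1 hle i (Finset.mem_inter.2 ⟨hiT, hiK⟩) x
      (Finset.mem_inter.2 ⟨hx, hx'⟩)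
    exact hxA (this ▸ hi)
  · refine Prod.ext (Finset.ext fun T => ?_) (Finset.ext fun K => ?_)
    · rw [del_mem_fst, hu1]
      constructor
      · rintro ⟨⟨-, -, a⟩, b⟩
        rwa [Finset.sdiff_eq_self_of_disjoint b] at a
      · intro hT
        obtain ⟨b1, b2, b3⟩ := h1 T hT
        exact ⟨⟨b1, fst_stb hv hT, by rw [b3]; exact hT⟩, b2⟩
    · rw [del_mem_snd, hu2]
      constructor
      · rintro ⟨⟨-, -, a⟩, b⟩
        rwa [Finset.sdiff_eq_self_of_disjoint b] at a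
      · intro hK
        obtain ⟨b1, b2, b3⟩ := h2 K hK
        exact ⟨⟨b1, snd_clq hv hK, by rw [b3]; exact hK⟩, b2⟩

theorem del_card (G : SimpleGraph ι) (W A : Finset ι) (P : Wrd ι → Prop) :
    ((Wd G W).filter fun u => Uns A u ∧ P (del A u)).card = ((Wd G (W \ A)).filter P).card := by
  refine Finset.card_bij (fun u _ => del A u) ?_ ?_ ?_
  · intro u hu
    rw [Finset.mem_filter] at hu ⊢
    exact ⟨del_mem hu.1 hu.2.1, hu.2.2⟩
  · intro u hu u' hu' h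
    rw [Finset.mem_filter] at hu hu'
    exact del_inj hu.1 hu'.1 hu.2.1 hu'.2.1 h
  · intro v hv
    rw [Finset.mem_filter] at hv
    obtain ⟨u, hu, hA, hd⟩ := del_surj hv.1
    exact ⟨u, Finset.mem_filter.2 ⟨hu, hA, by rw [hd]; exact hv.2⟩, hd⟩

theorem del_sum (G : SimpleGraph ι) (W A : Finset ι) (f : Wrd ι → ℕ) :
    ∑ u ∈ (Wd G W).filter (Uns A), f (del A u) = ∑ v ∈ Wd G (W \ A), f v := by
  refine Finset.sum_bij (fun u _ => del A u) ?_ ?_ ?_ fun _ _ => rfl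
  · intro u hu
    rw [Finset.mem_filter] at hu
    exact del_mem hu.1 hu.2
  · intro u hu u' hu' h
    rw [Finset.mem_filter] at hu hu'
    exact del_inj hu.1 hu'.1 hu.2 hu'.2 h
  · intro v hv
    obtain ⟨u, hu, hA, hd⟩ := del_surj hv
    exact ⟨u, Finset.mem_filter.2 ⟨hu, hA⟩, hd⟩

theorem sL_ext {G : SimpleGraph ι} {W A : Finset ι} {u : Wrd ι} (hu : u ∈ Wd G W)
    (hA : Uns A u) {i : ι} (hi : i ∈ A) (hiW : i ∈ W) :
    sL u i ↔ ∃ T ∈ (del A u).1, Stb G (insert i T) := by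
  constructor
  · rintro ⟨T, hT, h⟩
    refine ⟨T \ A, del_sdiff_fst' hu hA hT, (fst_stb hu hT).mono ?_⟩
    exact Finset.insert_subset h Finset.sdiff_subset
  · rintro ⟨T, hT, h⟩
    have hT' := (del_mem_fst.1 hT).1
    refine ⟨insert i T, mem_fst' hu (Finset.insert_subset hiW (fst_sub hu hT')) h
      fun K hK => ?_, Finset.mem_insert_self _ _⟩
    obtain ⟨x, hx, hx'⟩ := exists_of_card (card_eq hu hT' hK)
    exact ⟨x, Finset.mem_insert_of_mem hx, hx'⟩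

theorem kL_ext {G : SimpleGraph ι} {W A : Finset ι} {u : Wrd ι} (hu : u ∈ Wd G W)
    (hA : Uns A u) {i : ι} (hi : i ∈ A) (hiW : i ∈ W) :
    kL u i ↔ ∃ K ∈ (del A u).2, Clq G (insert i K) := by
  constructor
  · rintro ⟨K, hK, h⟩
    refine ⟨K \ A, del_sdiff_snd' hu hA hK, (snd_clq hu hK).mono ?_⟩
    exact Finset.insert_subset h Finset.sdiff_subset
  · rintro ⟨K, hK, h⟩
    have hK' := (del_mem_snd.1 hK).1
    refine ⟨insert i K, mem_snd' hu (Finset.insert_subset hiW (snd_sub hu hK')) h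
      fun T hT => ?_, Finset.mem_insert_self _ _⟩
    obtain ⟨x, hx, hx'⟩ := exists_of_card (card_eq hu hT hK')
    exact ⟨x, hx, Finset.mem_insert_of_mem hx'⟩

end Pool.Agent.HNS
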