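import Pool.Agent.HNS.Lft
import Pool.Agent.HNS.Del

/-!
# The words 0 and 1, existence of a word with a given support

PROOF. `wz`: no stable set meets the clique `∅`, so the first component is `∅`; every clique of `W`
is in the second one. `wo` is dual. The letters: singletons are cliques and stable.
`exists_Sp`: by induction over finsets `B ⊆ A` there is `u ∈ Wd G A` with `kL u i` for all `i ∈ A`
and `sL u i` for all `i ∈ B` (start: `wz G A`; step `insert r B`: if `sL u r` keep `u`, else `lift`
at `r`). With `B = A` all letters are `a`. Write `A = W \ (W \ A)` and use `del_surj` (with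
`W \ A` in place of `A`): the support of the extended word is `A` (`Uns` off `A`; sL_del, kL_del on
`A`).
-/

set_option autoImplicit false
set_option linter.unusedSectionVars false

open scoped Classical

namespace Pool.Agent.HNS

variable {ι : Type} [DecidableEq ι]

theorem wz_mem (G : SimpleGraph ι) (W : Finset ι) : wz G W ∈ Wd G W := by
  rw [mem_Wd]
  constructor
  · intro T
    constructor
    · intro h
      exact absurd h (Finset.notMem_empty T)
    · rintro ⟨_, _, h⟩
      have h1 : (∅ : Finset ι) ∈ (wz G W).2 := by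
        show ∅ ∈ W.powerset.filter (Clq G)
        rw [Finset.mem_filter, Finset.mem_powerset]
        exact ⟨Finset.empty_subset W, clq_empty G⟩
      have h2 := h ∅ h1
      rw [Finset.inter_empty, Finset.card_empty] at h2
      exact absurd h2 (by norm_num)
  · intro K
    show K ∈ W.powerset.filter (Clq G) ↔ _
    rw [Finset.mem_filter, Finset.mem_powerset]
    constructor
    · rintro ⟨h1, h2⟩
      exact ⟨h1, h2, fun T hT => absurd hT (Finset.notMem_empty T)⟩
    · rintro ⟨h1, h2, _⟩
      exact ⟨h1, h2⟩

theorem wo_mem (G : SimpleGraph ι) (W : Finset ι) : wo G W ∈ Wd G W := by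
  rw [mem_Wd]
  constructor
  · intro T
    show T ∈ W.powerset.filter (Stb G) ↔ _
    rw [Finset.mem_filter, Finset.mem_powerset]
    constructor
    · rintro ⟨h1, h2⟩
      exact ⟨h1, h2, fun K hK => absurd hK (Finset.notMem_empty K)⟩
    · rintro ⟨h1, h2, _⟩
      exact ⟨h1, h2⟩
  · intro K
    constructor
    · intro h
      exact absurd h (Finset.notMem_empty K)
    · rintro ⟨_, _, h⟩
      have h1 : (∅ : Finset ι) ∈ (wo G W).1 := by
        show ∅ ∈ W.powerset.filter (Stb G)
        rw [Finset.mem_filter, Finset.mem_powerset]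
        exact ⟨Finset.empty_subset W, stb_empty G⟩
      have h2 := h ∅ h1
      rw [Finset.empty_inter, Finset.card_empty] at h2
      exact absurd h2 (by norm_num)

theorem wz_ne_wo (G : SimpleGraph ι) (W : Finset ι) : wz G W ≠ wo G W := by
  intro h
  have h1 : (∅ : Finset ι) ∈ (wo G W).1 := by
    show ∅ ∈ W.powerset.filter (Stb G)
    rw [Finset.mem_filter, Finset.mem_powerset]
    exact ⟨Finset.empty_subset W, stb_empty G⟩
  rw [← h] at h1
  exact absurd h1 (Finset.notMem_empty _)

theorem sL_wz (G : SimpleGraph ι) (W : Finset ι) (i : ι) : ¬ sL (wz G W) i := by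
  rintro ⟨T, hT, _⟩
  exact absurd hT (Finset.notMem_empty T)

theorem kL_wz (G : SimpleGraph ι) (W : Finset ι) (i : ι) : kL (wz G W) i ↔ i ∈ W := by
  constructor
  · exact kL_mem (wz_mem G W)
  · intro hi
    refine ⟨{i}, ?_, Finset.mem_singleton_self i⟩
    show {i} ∈ W.powerset.filter (Clq G)
    rw [Finset.mem_filter, Finset.mem_powerset, Finset.singleton_subset_iff]
    exact ⟨hi, clq_singleton G i⟩

theorem sL_wo (G : SimpleGraph ι) (W : Finset ι) (i : ι) : sL (wo G W) i ↔ i ∈ W := by
  constructor
  · exact sL_mem (wo_mem G W)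
  · intro hi
    refine ⟨{i}, ?_, Finset.mem_singleton_self i⟩
    show {i} ∈ W.powerset.filter (Stb G)
    rw [Finset.mem_filter, Finset.mem_powerset, Finset.singleton_subset_iff]
    exact ⟨hi, stb_singleton G i⟩

theorem kL_wo (G : SimpleGraph ι) (W : Finset ι) (i : ι) : ¬ kL (wo G W) i := by
  rintro ⟨K, hK, _⟩
  exact absurd hK (Finset.notMem_empty K)

theorem exists_Sp {G : SimpleGraph ι} (h : PF G) {W A : Finset ι} (hA : A ⊆ W) :
    ∃ u ∈ Wd G W, Sp W u = A := by
  have key : ∀ B : Finset ι, B ⊆ A →
      ∃ u ∈ Wd G A, (∀ i ∈ A, kL u i) ∧ ∀ i ∈ B, sL u i := by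
    intro B
    induction B using Finset.induction_on with
    | empty =>
      intro _
      exact ⟨wz G A, wz_mem G A, fun i hi => (kL_wz G A i).2 hi,
        fun i hi => absurd hi (Finset.notMem_empty i)⟩
    | insert r B hr ih =>
      intro hB
      have hrA : r ∈ A := hB (Finset.mem_insert_self r B)
      obtain ⟨u, hu, hk, hs⟩ := ih fun i hi => hB (Finset.mem_insert_of_mem hi)
      by_cases hsr : sL u r
      · refine ⟨u, hu, hk, fun i hi => ?_⟩
        rcases Finset.mem_insert.1 hi with rfl | hi
        · exact hsr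
        · exact hs i hi
      · obtain ⟨u', hu', h1, h2, h3, _⟩ := lift h hu hrA (hk r hrA) hsr
        refine ⟨u', hu', fun i hi => h1 i (hk i hi), fun i hi => ?_⟩
        rcases Finset.mem_insert.1 hi with rfl | hi
        · exact h3
        · exact h2 i (hs i hi)
  obtain ⟨v, hv, hk, hs⟩ := key A (Finset.Subset.refl A)
  have hWA : W \ (W \ A) = A := Finset.sdiff_sdiff_eq_self hA
  obtain ⟨u, hu, hU, hd⟩ := del_surj (A := W \ A) (v := v) (W := W) (G := G) (by rw [hWA]; exact hv)
  refine ⟨u, hu, ?_⟩
  ext i
  rw [mem_Sp]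
  constructor
  · rintro ⟨hi, h1, h2⟩
    by_contra hiA
    exact hU i (Finset.mem_sdiff.2 ⟨hi, hiA⟩) ⟨h1, h2⟩
  · intro hi
    have hni : i ∉ W \ A := fun hc => (Finset.mem_sdiff.1 hc).2 hi
    refine ⟨hA hi, ?_, ?_⟩
    · rw [← sL_del hu hU hni, hd]
      exact hs i hi
    · rw [← kL_del hu hU hni, hd]
      exact hk i hi

end Pool.Agent.HNS
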