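import Pool.Agent.HNS.Bas
import Pool.Agent.HNS.Exs
import Pool.Agent.HNS.Cov

/-!
# Summation over the supports

PROOF. `Sg_fib`: Finset.sum_fiberwise_of_maps_to (`Sp R y ⊆ R`). `cA_of_le`: by `exists_Sp` there is
at least one word with support `A`. `cA_two`: `CC_two` (`Zr R y ∪ M0` and `On R y ∪ M1` are disjoint).
`cA_empty`: the words `wz G R ≠ wo G R` have empty support; `Zr R (wz G R) = R`,
`On R (wz G R) = ∅`, `Zr R (wo G R) = ∅`, `On R (wo G R) = R`. `cA_pair`: two different words, each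
contributes at least 2.
-/

set_option autoImplicit false
set_option linter.unusedSectionVars false

open scoped Classical

namespace Pool.Agent.HNS

variable {ι : Type} [DecidableEq ι]

theorem Sg_fib (G : SimpleGraph ι) (R M0 M1 : Finset ι) :
    Sg G R M0 M1 = ∑ A ∈ R.powerset, cA G R M0 M1 A := by
  unfold Sg cA
  exact (Finset.sum_fiberwise_of_maps_to (s := Wd G R) (t := R.powerset) (g := fun y => Sp R y)
    (fun y _ => Finset.mem_powerset.2 (Finset.filter_subset _ _)) _).symm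

theorem cA_of_le {G : SimpleGraph ι} (h : PF G) {R M0 M1 A : Finset ι} (hA : A ⊆ R) {c : ℕ}
    (H : ∀ y ∈ Wd G R, Sp R y = A → c ≤ CC G (Zr R y ∪ M0) (On R y ∪ M1)) :
    c ≤ cA G R M0 M1 A := by
  obtain ⟨u, hu, hs⟩ := exists_Sp h hA
  refine (H u hu hs).trans ?_
  unfold cA
  exact Finset.single_le_sum (f := fun y => CC G (Zr R y ∪ M0) (On R y ∪ M1))
    (fun _ _ => Nat.zero_le _) (Finset.mem_filter.2 ⟨hu, hs⟩)

theorem dj_Zr_On {R M0 M1 : Finset ι} (y : Wrd ι) (d0 : Disjoint R M0)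
    (d1 : Disjoint R M1) (d : Disjoint M0 M1) : Disjoint (Zr R y ∪ M0) (On R y ∪ M1) := by
  have hZ : Zr R y ⊆ R := Finset.filter_subset _ _
  have hO : On R y ⊆ R := Finset.filter_subset _ _
  rw [Finset.disjoint_union_left, Finset.disjoint_union_right, Finset.disjoint_union_right]
  refine ⟨⟨?_, Finset.disjoint_of_subset_left hZ d1⟩,
    (Finset.disjoint_of_subset_left hO d0).symm, d⟩
  rw [Finset.disjoint_left]
  intro i h1 h2
  exact (mem_Zr.1 h1).2.2 (mem_On.1 h2).2.1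

theorem cA_two {G : SimpleGraph ι} (h : PF G) {R M0 M1 A : Finset ι} (d0 : Disjoint R M0)
    (d1 : Disjoint R M1) (d : Disjoint M0 M1) (hA : A ⊆ R) : 2 ≤ cA G R M0 M1 A :=
  cA_of_le h hA fun y _ _ => CC_two h (dj_Zr_On y d0 d1 d)

theorem cA_pair_le {G : SimpleGraph ι} {R M0 M1 A : Finset ι} {y y' : Wrd ι} (hy : y ∈ Wd G R)
    (hy' : y' ∈ Wd G R) (hne : y ≠ y') (hA : Sp R y = A) (hA' : Sp R y' = A) :
    CC G (Zr R y ∪ M0) (On R y ∪ M1) + CC G (Zr R y' ∪ M0) (On R y' ∪ M1) ≤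
      cA G R M0 M1 A := by
  unfold cA
  have h1 : ({y, y'} : Finset (Wrd ι)) ⊆ (Wd G R).filter (fun y => Sp R y = A) := by
    intro v hv
    rw [Finset.mem_insert, Finset.mem_singleton] at hv
    rcases hv with rfl | rfl
    · exact Finset.mem_filter.2 ⟨hy, hA⟩
    · exact Finset.mem_filter.2 ⟨hy', hA'⟩
  have h2 := Finset.sum_le_sum_of_subset
    (f := fun y => CC G (Zr R y ∪ M0) (On R y ∪ M1)) h1
  rw [Finset.sum_pair hne] at h2
  exact h2

theorem cA_empty {G : SimpleGraph ι} (h : PF G) {R M0 M1 : Finset ι} :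
    CC G (R ∪ M0) M1 + CC G M0 (R ∪ M1) ≤ cA G R M0 M1 ∅ := by
  have e1 : Sp R (wz G R) = ∅ := by
    rw [Finset.eq_empty_iff_forall_notMem]
    intro i hi
    exact sL_wz G R i (mem_Sp.1 hi).2.1
  have e2 : Sp R (wo G R) = ∅ := by
    rw [Finset.eq_empty_iff_forall_notMem]
    intro i hi
    exact kL_wo G R i (mem_Sp.1 hi).2.2
  have e3 : Zr R (wz G R) = R := by
    ext i
    rw [mem_Zr, kL_wz]
    exact ⟨fun h => h.1, fun h => ⟨h, h, sL_wz G R i⟩⟩
  have e4 : On R (wz G R) = ∅ := by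
    rw [Finset.eq_empty_iff_forall_notMem]
    intro i hi
    exact sL_wz G R i (mem_On.1 hi).2.1
  have e5 : Zr R (wo G R) = ∅ := by
    rw [Finset.eq_empty_iff_forall_notMem]
    intro i hi
    exact kL_wo G R i (mem_Zr.1 hi).2.1
  have e6 : On R (wo G R) = R := by
    ext i
    rw [mem_On, sL_wo]
    exact ⟨fun h => h.1, fun h => ⟨h, h, kL_wo G R i⟩⟩
  have h1 := cA_pair_le (M0 := M0) (M1 := M1) (wz_mem G R) (wo_mem G R) (wz_ne_wo G R) e1 e2
  rw [e3, e4, e5, e6, Finset.empty_union, Finset.empty_union] at h1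
  exact h1

theorem cA_pair {G : SimpleGraph ι} (h : PF G) {R M0 M1 A : Finset ι} (d0 : Disjoint R M0)
    (d1 : Disjoint R M1) (d : Disjoint M0 M1) {y y' : Wrd ι} (hy : y ∈ Wd G R)
    (hy' : y' ∈ Wd G R) (hne : y ≠ y') (hA : Sp R y = A) (hA' : Sp R y' = A) :
    4 ≤ cA G R M0 M1 A := by
  have h1 := cA_pair_le (M0 := M0) (M1 := M1) hy hy' hne hA hA'
  have h2 := CC_two h (dj_Zr_On y d0 d1 d)
  have h3 := CC_two h (dj_Zr_On y' d0 d1 d)
  omega

end Pool.Agent.HNS
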