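import Pool.Agent.HNS.Unq

/-!
# The intervals are laminar

PROOF. Let `X1 = C ∪ S`, `X2 = C' ∪ S'`, `R1`, `R2` the sets `Rs`. `A` contains `X1` and `X2` and is
contained in `X1 ∪ R1` and `X2 ∪ R2`.
(1) `X1 ⊆ X2` or `X2 ⊆ X1`: let `v ∈ X1 \ X2`, `w ∈ X2 \ X1`; then `v ∈ R2` and `w ∈ R1`.
 `v ∈ C`: `w ~ v` (`w ∈ R1`), so `w ∈ C'` (`v ∈ R2` is anticomplete to `S'`). `v` has a neighbour `s ∈ S`,
 `w ≁ s` (`w ∈ R1`). If `s ∉ X2` then `s ∈ R2` is complete to `C'`, so `s ~ w`, contradiction. So `s ∈ X2`,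
 and `v ~ s`, `v ∈ R2` give `s ∈ C'`; `w`, `s` are two different vertices of the clique `C'`
 (`w ∉ X1`), contradiction.
 `v ∈ S`: `w ≁ v`, `v ≠ w`, so `w ∉ C'`, `w ∈ S'`. `v` has a non-neighbour `c ∈ C`, `w ~ c`. If `c ∉ X2` then
 `c ∈ R2` is anticomplete to `S'`, contradiction. So `c ∈ X2`, `v ≁ c` (and `c ≠ v`), `v ∈ R2` complete to
 `C'`, so `c ∈ S'`; `c ~ w` in the stable set `S'`, contradiction.
(2) If `X1 ⊆ X2`: by `bal_unique` (`Z = C'`, `O = S'`) `C ⊆ C'`, `S ⊆ S'`, so `R2 ⊆ R1`; moreover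
 `X2 ⊆ A ⊆ X1 ∪ R1`. So `Icc X2 (X2 ∪ R2) ⊆ Icc X1 (X1 ∪ R1)`.
-/

set_option autoImplicit false
set_option linter.unusedSectionVars false

open scoped Classical

namespace Pool.Agent.HNS

variable {ι : Type} [DecidableEq ι]

theorem lam_mem_Rs {G : SimpleGraph ι} {W C S : Finset ι} {r : ι} :
    r ∈ Rs G W C S ↔ (r ∈ W ∧ r ∉ C ∧ r ∉ S) ∧ (∀ c ∈ C, G.Adj r c) ∧ ∀ s ∈ S, ¬ G.Adj r s := by
  unfold Rs
  rw [Finset.mem_filter, Finset.mem_sdiff, Finset.mem_union, not_or]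

/-- (1): the two bases are comparable -/
theorem lam_sub_or_sub {G : SimpleGraph ι} {W C S C' S' : Finset ι} (hb : Bal G C S)
    (hb' : Bal G C' S') (h1 : C ∪ S ⊆ C' ∪ S' ∪ Rs G W C' S')
    (h2 : C' ∪ S' ⊆ C ∪ S ∪ Rs G W C S) :
    C ∪ S ⊆ C' ∪ S' ∨ C' ∪ S' ⊆ C ∪ S := by
  by_contra hcon
  rw [not_or] at hcon
  obtain ⟨v, hv, hv'⟩ := Finset.not_subset.1 hcon.1
  obtain ⟨w, hw, hw'⟩ := Finset.not_subset.1 hcon.2
  -- elements outside the second base are in the second set `Rs`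
  have hR2 : ∀ x ∈ C ∪ S, x ∉ C' ∪ S' →
      (∀ c ∈ C', G.Adj x c) ∧ ∀ s ∈ S', ¬ G.Adj x s := by
    intro x hx hx'
    rcases Finset.mem_union.1 (h1 hx) with h | h
    · exact absurd h hx'
    · exact (lam_mem_Rs.1 h).2
  have hR1 : ∀ x ∈ C' ∪ S', x ∉ C ∪ S →
      (∀ c ∈ C, G.Adj x c) ∧ ∀ s ∈ S, ¬ G.Adj x s := by
    intro x hx hx'
    rcases Finset.mem_union.1 (h2 hx) with h | h
    · exact absurd h hx'
    · exact (lam_mem_Rs.1 h).2
  have hv2 := hR2 v hv hv'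
  have hw1 := hR1 w hw hw'
  rcases Finset.mem_union.1 hv with hvC | hvS
  · have hwv : G.Adj w v := hw1.1 v hvC
    have hwC : w ∈ C' := by
      rcases Finset.mem_union.1 hw with h | h
      · exact h
      · exact absurd hwv.symm (hv2.2 w h)
    obtain ⟨s, hs, hvs⟩ := hb.hC v hvC
    have hws : ¬ G.Adj w s := hw1.2 s hs
    have hsX2 : s ∈ C' ∪ S' := by
      by_contra hsn
      exact hws ((hR2 s (Finset.mem_union_right _ hs) hsn).1 w hwC).symm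
    have hsC : s ∈ C' := by
      rcases Finset.mem_union.1 hsX2 with h | h
      · exact h
      · exact absurd hvs (hv2.2 s h)
    have hne : w ≠ s := by
      rintro rfl
      exact hw' (Finset.mem_union_right _ hs)
    exact hws (hb'.clq w hwC s hsC hne)
  · have hwv : ¬ G.Adj w v := hw1.2 v hvS
    have hwS : w ∈ S' := by
      rcases Finset.mem_union.1 hw with h | h
      · exact absurd (hv2.1 w h).symm hwv
      · exact h
    obtain ⟨c, hc, hvc⟩ := hb.hS v hvS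
    have hwc : G.Adj w c := hw1.1 c hc
    have hcX2 : c ∈ C' ∪ S' := by
      by_contra hcn
      exact (hR2 c (Finset.mem_union_left _ hc) hcn).2 w hwS hwc.symm
    have hcS : c ∈ S' := by
      rcases Finset.mem_union.1 hcX2 with h | h
      · exact absurd (hv2.1 c h) hvc
      · exact h
    exact hb'.stb c hcS w hwS hwc.symm

/-- (2): inclusion of the intervals -/
theorem lam_iv_sub {G : SimpleGraph ι} {W C S C' S' : Finset ι} (hb : Bal G C S)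
    (hb' : Bal G C' S') (h : C ∪ S ⊆ C' ∪ S') (h2 : C' ∪ S' ⊆ C ∪ S ∪ Rs G W C S) :
    Iv G W C' S' ⊆ Iv G W C S := by
  obtain ⟨hC, hS⟩ := bal_unique hb hb'.clq hb'.stb h
  intro B hB
  obtain ⟨hB1, hB2⟩ := Finset.mem_Icc.1 hB
  refine Finset.mem_Icc.2 ⟨h.trans hB1, ?_⟩
  intro x hx
  rcases Finset.mem_union.1 (hB2 hx) with hx' | hx'
  · exact h2 hx'
  · have h3 := lam_mem_Rs.1 hx'
    refine Finset.mem_union_right _ (lam_mem_Rs.2 ⟨⟨h3.1.1, ?_, ?_⟩, ?_, ?_⟩)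
    · exact fun hxc => h3.1.2.1 (hC hxc)
    · exact fun hxs => h3.1.2.2 (hS hxs)
    · exact fun c hc => h3.2.1 c (hC hc)
    · exact fun s hs => h3.2.2 s (hS hs)

theorem iv_lam {G : SimpleGraph ι} {W C S C' S' : Finset ι} (hb : Bal G C S)
    (hb' : Bal G C' S') {A : Finset ι} (h1 : A ∈ Iv G W C S) (h2 : A ∈ Iv G W C' S') :
    Iv G W C S ⊆ Iv G W C' S' ∨ Iv G W C' S' ⊆ Iv G W C S := by
  obtain ⟨hX1, hA1⟩ := Finset.mem_Icc.1 h1
  obtain ⟨hX2, hA2⟩ := Finset.mem_Icc.1 h2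
  rcases lam_sub_or_sub hb hb' (hX1.trans hA2) (hX2.trans hA1) with h | h
  · exact Or.inr (lam_iv_sub hb hb' h (hX2.trans hA1))
  · exact Or.inl (lam_iv_sub hb' hb h (hX1.trans hA2))

end Pool.Agent.HNS
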