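import Pool.Agent.HNS.Defs2

/-!
# Summation over a laminar family

PROOF. Induction on `F.card`. `F = ∅`: trivial. Otherwise let `I ∈ F` have maximal cardinality, and
`F' = F.filter (Disjoint I)` (`I ∉ F'` unless `I = ∅`; if `I = ∅` then all members of `F` are empty and
both sides are `0`). Every `J ∈ F` is in `F'` or nested with `I`, then `J ⊆ I` (if `I ⊆ J` then `J = I` by
maximality). So the union of `F` is the disjoint union of `I` and the union of `F'`.
-/

set_option autoImplicit false
set_option linter.unusedSectionVars false

open scoped Classical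

namespace Pool.Agent.HNS

variable {ι : Type} [DecidableEq ι]

theorem lam_sum {α : Type} [DecidableEq α] (F : Finset (Finset α)) (c : α → ℕ)
    (hl : ∀ I ∈ F, ∀ J ∈ F, Disjoint I J ∨ I ⊆ J ∨ J ⊆ I)
    (hc : ∀ I ∈ F, 4 * I.card ≤ ∑ i ∈ I, c i) :
    4 * (F.biUnion id).card ≤ ∑ i ∈ F.biUnion id, c i := by
  induction F using Finset.strongInduction with
  | H F ih =>
    rcases F.eq_empty_or_nonempty with rfl | hne
    · simp
    obtain ⟨I, hI, hmax⟩ := Finset.exists_max_image F Finset.card hne
    rcases I.eq_empty_or_nonempty with hI0 | hIne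
    · have hall : ∀ J ∈ F, J = ∅ := by
        intro J hJ
        have h1 := hmax J hJ
        rw [hI0, Finset.card_empty] at h1
        exact Finset.card_eq_zero.1 (Nat.le_zero.1 h1)
      have hun : F.biUnion id = ∅ := by
        rw [Finset.eq_empty_iff_forall_notMem]
        intro x hx
        obtain ⟨J, hJ, hxJ⟩ := Finset.mem_biUnion.1 hx
        rw [hall J hJ] at hxJ
        exact absurd hxJ (Finset.notMem_empty _)
      rw [hun]
      simp
    · have hss : F.filter (fun J => Disjoint I J) ⊂ F := by
        refine ⟨Finset.filter_subset _ _, fun hcon => ?_⟩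
        have h1 := (Finset.mem_filter.1 (hcon hI)).2
        obtain ⟨x, hx⟩ := hIne
        exact Finset.disjoint_left.1 h1 hx hx
      have h1 := ih (F.filter fun J => Disjoint I J) hss
        (fun J hJ K hK => hl J (Finset.mem_filter.1 hJ).1 K (Finset.mem_filter.1 hK).1)
        (fun J hJ => hc J (Finset.mem_filter.1 hJ).1)
      have hdis : Disjoint I ((F.filter fun J => Disjoint I J).biUnion id) := by
        rw [Finset.disjoint_biUnion_right]
        intro J hJ
        exact (Finset.mem_filter.1 hJ).2
      have hun : F.biUnion id = I ∪ (F.filter fun J => Disjoint I J).biUnion id := by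
        ext x
        rw [Finset.mem_union, Finset.mem_biUnion, Finset.mem_biUnion]
        constructor
        · rintro ⟨J, hJ, hx⟩
          rcases hl I hI J hJ with h2 | h2 | h2
          · exact Or.inr ⟨J, Finset.mem_filter.2 ⟨hJ, h2⟩, hx⟩
          · have h3 : I = J := Finset.eq_of_subset_of_card_le h2 (hmax J hJ)
            rw [← h3] at hx
            exact Or.inl hx
          · exact Or.inl (h2 hx)
        · rintro (hx | ⟨J, hJ, hx⟩)
          · exact ⟨I, hI, hx⟩
          · exact ⟨J, (Finset.mem_filter.1 hJ).1, hx⟩
      rw [hun, Finset.card_union_of_disjoint hdis, Finset.sum_union hdis]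
      have h2 := hc I hI
      omega

end Pool.Agent.HNS
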