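import Pool.Agent.HNS.Pgd
import Pool.Agent.HNS.Lam
import Pool.Agent.HNS.Lms
import Pool.Agent.HNS.Fib

/-!
# The bound for antichain graphs

PROOF. Let `F` be the finset of all `Iv G W C S` with `C, S ⊆ W`, `Bal G C S`,
`4 * |Iv| ≤ ∑_{B ∈ Iv} cA B` (image of a filter of `W.powerset ×ˢ W.powerset`), `U = F.biUnion id`. All
members of `Iv` are subsets of `W` (`Rs ⊆ W`), so `U ⊆ W.powerset`. `iv_lam` and `lam_sum`:
`4 * |U| ≤ ∑_{B ∈ U} cA B`. Let `L = {A ∈ W.powerset \ U : cA A < 4}`. For `A ∈ L` we have `W \ A ∉ L`: if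
`cA (W \ A) < 4` then by `pair_good` `A ∈ U` or `W \ A ∈ U`, so `W \ A ∈ U`. As `A ↦ W \ A` is injective on
`W.powerset`, `2 * |L| ≤ 2 ^ |W|`. By `Sg_fib` (`cA ≥ 2` on `L` by `cA_two`, `cA ≥ 4` on the rest):
`Sg ≥ 4 * |U| + 4 * (2 ^ |W| - |U| - |L|) + 2 * |L| = 4 * 2 ^ |W| - 2 * |L| ≥ 3 * 2 ^ |W|`.
-/

set_option autoImplicit false
set_option linter.unusedSectionVars false

open scoped Classical

namespace Pool.Agent.HNS

variable {ι : Type} [DecidableEq ι]

/-- the good intervals -/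
noncomputable def anfGood (G : SimpleGraph ι) (W : Finset ι) : Finset (Finset (Finset ι)) :=
  ((W.powerset ×ˢ W.powerset).filter fun q => Bal G q.1 q.2 ∧
    4 * (Iv G W q.1 q.2).card ≤ ∑ B ∈ Iv G W q.1 q.2, cA G W ∅ ∅ B).image
    fun q => Iv G W q.1 q.2

theorem mem_anfGood {G : SimpleGraph ι} {W : Finset ι} {I : Finset (Finset ι)} :
    I ∈ anfGood G W ↔ ∃ C S : Finset ι, C ⊆ W ∧ S ⊆ W ∧ Bal G C S ∧
      4 * (Iv G W C S).card ≤ ∑ B ∈ Iv G W C S, cA G W ∅ ∅ B ∧ Iv G W C S = I := by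
  unfold anfGood
  rw [Finset.mem_image]
  constructor
  · rintro ⟨⟨C, S⟩, hq, rfl⟩
    rw [Finset.mem_filter, Finset.mem_product, Finset.mem_powerset, Finset.mem_powerset] at hq
    exact ⟨C, S, hq.1.1, hq.1.2, hq.2.1, hq.2.2, rfl⟩
  · rintro ⟨C, S, h1, h2, h3, h4, rfl⟩
    refine ⟨(C, S), ?_, rfl⟩
    rw [Finset.mem_filter, Finset.mem_product, Finset.mem_powerset, Finset.mem_powerset]
    exact ⟨⟨h1, h2⟩, h3, h4⟩

theorem anf_Rs_sub (G : SimpleGraph ι) (W C S : Finset ι) : Rs G W C S ⊆ W := by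
  unfold Rs
  exact (Finset.filter_subset _ _).trans Finset.sdiff_subset

theorem anf_Iv_sub {G : SimpleGraph ι} {W C S : Finset ι} (h : C ∪ S ⊆ W) {A : Finset ι}
    (hA : A ∈ Iv G W C S) : A ⊆ W := by
  unfold Iv at hA
  rw [Finset.mem_Icc] at hA
  exact hA.2.trans (Finset.union_subset h (anf_Rs_sub G W C S))

theorem anti_bound {G : SimpleGraph ι} (h : PF G) {W : Finset ι} (ha : Anti G W W)
    (h2 : 2 ≤ W.card) : 3 * 2 ^ W.card ≤ Sg G W ∅ ∅ := by
  set U : Finset (Finset ι) := (anfGood G W).biUnion id with hU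
  have hUW : U ⊆ W.powerset := by
    intro A hA
    rw [hU, Finset.mem_biUnion] at hA
    obtain ⟨I, hI, hAI⟩ := hA
    obtain ⟨C, S, h3, h4, -, -, rfl⟩ := mem_anfGood.1 hI
    exact Finset.mem_powerset.2 (anf_Iv_sub (Finset.union_subset h3 h4) hAI)
  have hsum : 4 * U.card ≤ ∑ B ∈ U, cA G W ∅ ∅ B := by
    refine lam_sum _ _ ?_ ?_
    · intro I hI J hJ
      obtain ⟨C, S, -, -, hb, -, rfl⟩ := mem_anfGood.1 hI
      obtain ⟨C', S', -, -, hb', -, rfl⟩ := mem_anfGood.1 hJ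
      by_cases hd : Disjoint (Iv G W C S) (Iv G W C' S')
      · exact Or.inl hd
      · rw [Finset.not_disjoint_iff] at hd
        obtain ⟨A, h5, h6⟩ := hd
        exact Or.inr (iv_lam hb hb' h5 h6)
    · intro I hI
      obtain ⟨C, S, -, -, -, h3, rfl⟩ := mem_anfGood.1 hI
      exact h3
  set L : Finset (Finset ι) := (W.powerset \ U).filter fun A => cA G W ∅ ∅ A < 4 with hL
  have hLW : L ⊆ W.powerset := by
    rw [hL]
    exact (Finset.filter_subset _ _).trans Finset.sdiff_subset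
  have hLc : 2 * L.card ≤ 2 ^ W.card := by
    have hdis : Disjoint L (L.image fun A => W \ A) := by
      rw [Finset.disjoint_left]
      intro B hB hB'
      rw [Finset.mem_image] at hB'
      obtain ⟨A, hA, hAB⟩ := hB'
      rw [hL, Finset.mem_filter, Finset.mem_sdiff, Finset.mem_powerset] at hA hB
      obtain ⟨⟨hAW, hAU⟩, hcA⟩ := hA
      obtain ⟨⟨hBW, hBU⟩, hcB⟩ := hB
      rw [← hAB] at hcB hBU
      obtain ⟨C, S, hb, hCS, h4, hor⟩ := pair_good h hAW ha h2 hcA hcB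
      have hI : Iv G W C S ∈ anfGood G W :=
        mem_anfGood.2 ⟨C, S, Finset.subset_union_left.trans hCS,
          Finset.subset_union_right.trans hCS, hb, h4, rfl⟩
      rcases hor with h5 | h5
      · exact hAU (Finset.mem_biUnion.2 ⟨_, hI, h5⟩)
      · exact hBU (Finset.mem_biUnion.2 ⟨_, hI, h5⟩)
    have hinj : (L.image fun A => W \ A).card = L.card := by
      refine Finset.card_image_of_injOn ?_
      intro A hA B hB hAB
      have hA' := Finset.mem_powerset.1 (hLW hA)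
      have hB' := Finset.mem_powerset.1 (hLW hB)
      have hAB' : W \ A = W \ B := hAB
      rw [← Finset.sdiff_sdiff_eq_self hA', hAB', Finset.sdiff_sdiff_eq_self hB']
    have hsub : L ∪ (L.image fun A => W \ A) ⊆ W.powerset := by
      refine Finset.union_subset hLW ?_
      intro B hB
      rw [Finset.mem_image] at hB
      obtain ⟨A, -, rfl⟩ := hB
      exact Finset.mem_powerset.2 Finset.sdiff_subset
    have := Finset.card_le_card hsub
    rw [Finset.card_union_of_disjoint hdis, hinj, Finset.card_powerset] at this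
    omega
  have h4 : ∀ A ∈ (W.powerset \ U) \ L, 4 ≤ cA G W ∅ ∅ A := by
    intro A hA
    rw [Finset.mem_sdiff] at hA
    by_contra hlt
    exact hA.2 (by rw [hL]; exact Finset.mem_filter.2 ⟨hA.1, not_le.1 hlt⟩)
  have hL2 : ∀ A ∈ L, 2 ≤ cA G W ∅ ∅ A := fun A hA =>
    cA_two h (Finset.disjoint_empty_right _) (Finset.disjoint_empty_right _)
      (Finset.disjoint_empty_right _) (Finset.mem_powerset.1 (hLW hA))
  have hLs : L ⊆ W.powerset \ U := by
    rw [hL]
    exact Finset.filter_subset _ _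
  have e1 : Sg G W ∅ ∅ = ∑ A ∈ U, cA G W ∅ ∅ A + (∑ A ∈ L, cA G W ∅ ∅ A +
      ∑ A ∈ (W.powerset \ U) \ L, cA G W ∅ ∅ A) := by
    rw [Sg_fib, ← Finset.sum_sdiff hUW, ← Finset.sum_sdiff hLs]
    ring
  have b1 : L.card * 2 ≤ ∑ A ∈ L, cA G W ∅ ∅ A := by
    have := Finset.card_nsmul_le_sum L (fun A => cA G W ∅ ∅ A) 2 hL2
    simpa using this
  have b2 : ((W.powerset \ U) \ L).card * 4 ≤ ∑ A ∈ (W.powerset \ U) \ L, cA G W ∅ ∅ A := by
    have := Finset.card_nsmul_le_sum ((W.powerset \ U) \ L) (fun A => cA G W ∅ ∅ A) 4 h4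
    simpa using this
  have c1 : ((W.powerset \ U) \ L).card + L.card = (W.powerset \ U).card :=
    Finset.card_sdiff_add_card_eq_card hLs
  have c2 : (W.powerset \ U).card + U.card = 2 ^ W.card := by
    rw [Finset.card_sdiff_add_card_eq_card hUW, Finset.card_powerset]
  rw [e1]
  omega

end Pool.Agent.HNS
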