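import Pool.Agent.HNS.Defs2

/-!
# Complement: swap the two components

All statements are direct: `Clq Gᶜ = Stb G`, `Stb Gᶜ = Clq G`, `T ∩ K = K ∩ T`, and `Prod.swap`
exchanges `sL` and `kL` (definitionally). `CC_compl`: the bijection `Prod.swap` between
`Wd Gᶜ (Y ∪ X)` and `Wd G (X ∪ Y)`. `Sg_compl`: sum over `y.swap`, with
`Zr R y.swap = On R y`. `domA_compl`, `domN_compl`: unfold; `v = x` is excluded by `¬ G.Adj r x`.
-/

set_option autoImplicit false
set_option linter.unusedSectionVars false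

open scoped Classical

namespace Pool.Agent.HNS

variable {ι : Type} [DecidableEq ι]

theorem swap_mem {G : SimpleGraph ι} {W : Finset ι} {u : Wrd ι} :
    u.swap ∈ Wd Gᶜ W ↔ u ∈ Wd G W := by
  rw [mem_Wd, mem_Wd]
  unfold IsWd
  rw [and_comm]
  have e1 : ∀ K : Finset ι, (K ⊆ W ∧ Clq Gᶜ K ∧ ∀ T ∈ u.swap.1, (T ∩ K).card = 1) ↔
      (K ⊆ W ∧ Stb G K ∧ ∀ T ∈ u.2, (K ∩ T).card = 1) := by
    intro K
    rw [clq_compl]
    refine and_congr Iff.rfl (and_congr Iff.rfl (forall₂_congr fun T _ => ?_))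
    rw [Finset.inter_comm]
  have e2 : ∀ K : Finset ι, (K ⊆ W ∧ Stb Gᶜ K ∧ ∀ T ∈ u.swap.2, (K ∩ T).card = 1) ↔
      (K ⊆ W ∧ Clq G K ∧ ∀ T ∈ u.1, (T ∩ K).card = 1) := by
    intro K
    rw [stb_compl]
    refine and_congr Iff.rfl (and_congr Iff.rfl (forall₂_congr fun T _ => ?_))
    rw [Finset.inter_comm]
  refine and_congr (forall_congr' fun T => ?_) (forall_congr' fun T => ?_)
  · rw [e1 T]
    rfl
  · rw [e2 T]
    rfl

theorem sL_swap (u : Wrd ι) (i : ι) : sL u.swap i ↔ kL u i := Iff.rfl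

theorem kL_swap (u : Wrd ι) (i : ι) : kL u.swap i ↔ sL u i := Iff.rfl

theorem Zr_swap (W : Finset ι) (u : Wrd ι) : Zr W u.swap = On W u := by
  unfold Zr On
  refine Finset.filter_congr fun i _ => ?_
  rw [sL_swap, kL_swap]

theorem On_swap (W : Finset ι) (u : Wrd ι) : On W u.swap = Zr W u := by
  unfold Zr On
  refine Finset.filter_congr fun i _ => ?_
  rw [sL_swap, kL_swap]

theorem Sp_swap (W : Finset ι) (u : Wrd ι) : Sp W u.swap = Sp W u := by
  unfold Sp
  refine Finset.filter_congr fun i _ => ?_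
  rw [sL_swap, kL_swap, and_comm]

theorem CC_compl (G : SimpleGraph ι) (X Y : Finset ι) : CC Gᶜ Y X = CC G X Y := by
  unfold CC
  refine Finset.card_bij' (fun u _ => u.swap) (fun u _ => u.swap) ?_ ?_ ?_ ?_
  · intro u hu
    rw [Finset.mem_filter] at hu ⊢
    refine ⟨?_, hu.2.2, hu.2.1⟩
    rw [← swap_mem, Prod.swap_swap, Finset.union_comm]
    exact hu.1
  · intro u hu
    rw [Finset.mem_filter] at hu ⊢
    refine ⟨?_, hu.2.2, hu.2.1⟩
    rw [swap_mem, Finset.union_comm]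
    exact hu.1
  · intro u _
    exact Prod.swap_swap u
  · intro u _
    exact Prod.swap_swap u

theorem Sg_compl (G : SimpleGraph ι) (R M0 M1 : Finset ι) : Sg Gᶜ R M1 M0 = Sg G R M0 M1 := by
  unfold Sg
  refine Finset.sum_bij' (fun u _ => u.swap) (fun u _ => u.swap) ?_ ?_ ?_ ?_ ?_
  · intro u hu
    rw [← swap_mem, Prod.swap_swap]
    exact hu
  · intro u hu
    rw [swap_mem]
    exact hu
  · intro u _
    exact Prod.swap_swap u
  · intro u _
    exact Prod.swap_swap u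
  · intro u _
    rw [Zr_swap, On_swap, CC_compl]

theorem cA_compl (G : SimpleGraph ι) (R M0 M1 A : Finset ι) :
    cA Gᶜ R M1 M0 A = cA G R M0 M1 A := by
  unfold cA
  refine Finset.sum_bij' (fun u _ => u.swap) (fun u _ => u.swap) ?_ ?_ ?_ ?_ ?_
  · intro u hu
    rw [Finset.mem_filter] at hu ⊢
    rw [← swap_mem, Prod.swap_swap, Sp_swap]
    exact hu
  · intro u hu
    rw [Finset.mem_filter] at hu ⊢
    rw [swap_mem, Sp_swap]
    exact hu
  · intro u _
    exact Prod.swap_swap u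
  · intro u _
    exact Prod.swap_swap u
  · intro u _
    rw [Zr_swap, On_swap, CC_compl]

theorem domA_compl {G : SimpleGraph ι} {W : Finset ι} {x r : ι} :
    DomA Gᶜ W x r ↔ DomN G W x r := by
  unfold DomA DomN
  rw [SimpleGraph.compl_adj]
  constructor
  · rintro ⟨⟨h1, h2⟩, h3⟩
    refine ⟨h1, h2, fun v hv hrv => ?_⟩
    by_contra hxv
    have hne : x ≠ v := by
      rintro rfl
      exact h2 hrv.symm
    rcases h3 v hv ((G.compl_adj x v).2 ⟨hne, hxv⟩) with h | h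
    · exact hrv.ne h.symm
    · exact ((G.compl_adj r v).1 h).2 hrv
  · rintro ⟨h1, h2, h3⟩
    refine ⟨⟨h1, h2⟩, fun v hv hxv => ?_⟩
    by_cases hvr : v = r
    · exact Or.inl hvr
    · refine Or.inr ((G.compl_adj r v).2 ⟨fun h => hvr h.symm, fun h => ?_⟩)
      exact ((G.compl_adj x v).1 hxv).2 (h3 v hv h)

theorem domN_compl {G : SimpleGraph ι} {W : Finset ι} {x r : ι} :
    DomN Gᶜ W x r ↔ DomA G W x r := by
  rw [← domA_compl, compl_compl]

theorem spl_compl {G : SimpleGraph ι} {R : Finset ι} : Spl Gᶜ R ↔ Spl G R := by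
  unfold Spl
  constructor
  · rintro ⟨Z, O, h1, h2, h3, h4⟩
    exact ⟨O, Z, by rw [Finset.union_comm]; exact h1, h2.symm, stb_compl.1 h4, clq_compl.1 h3⟩
  · rintro ⟨Z, O, h1, h2, h3, h4⟩
    exact ⟨O, Z, by rw [Finset.union_comm]; exact h1, h2.symm, clq_compl.2 h4, stb_compl.2 h3⟩

theorem thr_compl {G : SimpleGraph ι} {R : Finset ι} : Thr Gᶜ R ↔ Thr G R := by
  unfold Thr
  refine forall_congr' fun Q => forall₂_congr fun _ _ => ?_
  refine exists_congr fun q => and_congr Iff.rfl ?_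
  rw [or_comm]
  refine or_congr ?_ ?_
  · refine forall₂_congr fun v _ => ?_
    rw [SimpleGraph.compl_adj]
    constructor
    · intro h hne
      by_contra hc
      exact h ⟨fun h => hne h.symm, hc⟩
    · intro h hc
      exact hc.2 (h (fun h => hc.1 h.symm))
  · refine forall₂_congr fun v _ => ?_
    rw [SimpleGraph.compl_adj]
    constructor
    · intro h hc
      exact (h hc.ne.symm).2 hc
    · intro h hne
      exact ⟨fun h => hne h.symm, h⟩

theorem lst_compl {G : SimpleGraph ι} {P E D : Finset ι} (h : Lst G P E D) : Lst Gᶜ P D E := by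
  refine ⟨h.ne, h.dPD, h.dPE, h.dED.symm, thr_compl.2 h.thr, clq_compl.2 h.stbD,
    stb_compl.2 h.clqE, ?_, ?_⟩
  · intro e he
    obtain ⟨T, h1, h2, h3, h4⟩ := h.hD e he
    refine ⟨T, h1, clq_compl.2 h2, fun p hp hpT => ?_, fun k hk => ?_⟩
    · obtain ⟨t, ht, hpt⟩ := h3 p hp hpT
      exact ⟨t, ht, fun hc => ((G.compl_adj p t).1 hc).2 hpt⟩
    · refine (G.compl_adj e k).2 ⟨?_, h4 k hk⟩
      rintro rfl
      exact (Finset.disjoint_left.1 h.dPD (h1 hk)) he
  · intro d hd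
    obtain ⟨K, h1, h2, h3, h4⟩ := h.hE d hd
    refine ⟨K, h1, stb_compl.2 h2, fun p hp hpK => ?_, fun k hk hc => ?_⟩
    · obtain ⟨t, ht, hpt⟩ := h3 p hp hpK
      refine ⟨t, ht, (G.compl_adj p t).2 ⟨?_, hpt⟩⟩
      rintro rfl
      exact hpK ht
    · exact ((G.compl_adj d k).1 hc).2 (h4 k hk)

end Pool.Agent.HNS
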