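import Pool.Agent.HNS.Lft
import Pool.Agent.HNS.Del
import Pool.Agent.HNS.Swp

/-!
# Counting form of the lift lemma
-/

set_option autoImplicit false
set_option linter.unusedSectionVars false

open scoped Classical

namespace Pool.Agent.HNS

variable {ι : Type} [DecidableEq ι]

/-- a word is determined by its first component -/
theorem cnt_ext {G : SimpleGraph ι} {W : Finset ι} {u v : Wrd ι} (hu : u ∈ Wd G W)
    (hv : v ∈ Wd G W) (h : u.1 = v.1) : u = v := by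
  refine Prod.ext h (Finset.ext fun K => ?_)
  rw [mem_snd hu, mem_snd hv, h]

theorem cnt_step {G : SimpleGraph ι} (h : PF G) {W A X Y : Finset ι} {r : ι} (hr : r ∈ W)
    (hrA : r ∉ A) (hX : Disjoint X A) (hY : Disjoint Y A) {u : Wrd ι} (hu : u ∈ Wd G W)
    (hA : Uns A u) (h1 : ∀ i ∈ X, sL u i) (h2 : ∀ i ∈ Y, kL u i) (h3 : kL u r)
    (h4 : ¬ sL u r) :
    ∃ u' ∈ Wd G W, (Uns A u' ∧ (∀ i ∈ X, sL u' i) ∧ (∀ i ∈ Y, kL u' i) ∧
      sL u' r ∧ kL u' r) ∧ (del A u).1 = (del A u').1.filter (fun T => r ∉ T) := by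
  have hr' : r ∈ W \ A := Finset.mem_sdiff.2 ⟨hr, hrA⟩
  obtain ⟨v', hv', k1, s1, s2, e⟩ := lift h (del_mem hu hA) hr' ((kL_del hu hA hrA).2 h3)
    (fun h' => h4 ((sL_del hu hA hrA).1 h'))
  obtain ⟨u', hu', hA', e'⟩ := del_surj hv'
  have hXA : ∀ i ∈ X, i ∉ A := fun i hi => Finset.disjoint_left.1 hX hi
  have hYA : ∀ i ∈ Y, i ∉ A := fun i hi => Finset.disjoint_left.1 hY hi
  refine ⟨u', hu', ⟨hA', ?_, ?_, ?_, ?_⟩, ?_⟩
  · intro i hi
    rw [← sL_del hu' hA' (hXA i hi), e']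
    exact s1 i ((sL_del hu hA (hXA i hi)).2 (h1 i hi))
  · intro i hi
    rw [← kL_del hu' hA' (hYA i hi), e']
    exact k1 i ((kL_del hu hA (hYA i hi)).2 (h2 i hi))
  · rw [← sL_del hu' hA' hrA, e']
    exact s2
  · rw [← kL_del hu' hA' hrA, e']
    exact k1 r ((kL_del hu hA hrA).2 h3)
  · rw [e', e]

theorem cnt_lift0 {G : SimpleGraph ι} (h : PF G) {W A X Y : Finset ι} {r : ι} (hr : r ∈ W)
    (hrA : r ∉ A) (hX : Disjoint X A) (hY : Disjoint Y A) :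
    ((Wd G W).filter fun u => Uns A u ∧ (∀ i ∈ X, sL u i) ∧ (∀ i ∈ Y, kL u i) ∧
      kL u r ∧ ¬ sL u r).card ≤
    ((Wd G W).filter fun u => Uns A u ∧ (∀ i ∈ X, sL u i) ∧ (∀ i ∈ Y, kL u i) ∧
      sL u r ∧ kL u r).card := by
  have key : ∀ u : Wrd ι, ∃ u' : Wrd ι, u ∈ (Wd G W).filter (fun u => Uns A u ∧
      (∀ i ∈ X, sL u i) ∧ (∀ i ∈ Y, kL u i) ∧ kL u r ∧ ¬ sL u r) →
      u' ∈ (Wd G W).filter (fun u => Uns A u ∧ (∀ i ∈ X, sL u i) ∧ (∀ i ∈ Y, kL u i) ∧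
      sL u r ∧ kL u r) ∧ (del A u).1 = (del A u').1.filter (fun T => r ∉ T) := by
    intro u
    by_cases hu : u ∈ (Wd G W).filter (fun u => Uns A u ∧
      (∀ i ∈ X, sL u i) ∧ (∀ i ∈ Y, kL u i) ∧ kL u r ∧ ¬ sL u r)
    · obtain ⟨a1, a2, a3, a4, a5, a6⟩ := Finset.mem_filter.1 hu
      obtain ⟨u', b1, b2, b3⟩ := cnt_step h hr hrA hX hY a1 a2 a3 a4 a5 a6
      exact ⟨u', fun _ => ⟨Finset.mem_filter.2 ⟨b1, b2⟩, b3⟩⟩
    · exact ⟨u, fun h' => absurd h' hu⟩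
  choose F hF using key
  refine Finset.card_le_card_of_injOn F (fun u hu => (hF u hu).1) ?_
  intro u hu u' hu' he
  have e1 := (hF u hu).2
  have e2 := (hF u' hu').2
  rw [he, ← e2] at e1
  obtain ⟨a1, a2, _⟩ := Finset.mem_filter.1 (Finset.mem_coe.1 hu)
  obtain ⟨b1, b2, _⟩ := Finset.mem_filter.1 (Finset.mem_coe.1 hu')
  exact del_inj a1 b1 a2 b2 (cnt_ext (del_mem a1 a2) (del_mem b1 b2) e1)

theorem cnt_lift1 {G : SimpleGraph ι} (h : PF G) {W A X Y : Finset ι} {r : ι} (hr : r ∈ W)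
    (hrA : r ∉ A) (hX : Disjoint X A) (hY : Disjoint Y A) :
    ((Wd G W).filter fun u => Uns A u ∧ (∀ i ∈ X, sL u i) ∧ (∀ i ∈ Y, kL u i) ∧
      sL u r ∧ ¬ kL u r).card ≤
    ((Wd G W).filter fun u => Uns A u ∧ (∀ i ∈ X, sL u i) ∧ (∀ i ∈ Y, kL u i) ∧
      sL u r ∧ kL u r).card := by
  have h0 := cnt_lift0 (G := Gᶜ) h.compl hr hrA hY hX
  have hun : ∀ u : Wrd ι, Uns A u.swap ↔ Uns A u := by
    intro u
    unfold Uns
    refine forall₂_congr fun i _ => ?_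
    rw [sL_swap, kL_swap]
    tauto
  have hinj : Function.Injective (Prod.swap : Wrd ι → Wrd ι) := Prod.swap_injective
  have e1 : ((Wd G W).filter fun u => Uns A u ∧ (∀ i ∈ X, sL u i) ∧ (∀ i ∈ Y, kL u i) ∧
      sL u r ∧ ¬ kL u r).card = ((Wd Gᶜ W).filter fun u => Uns A u ∧ (∀ i ∈ Y, sL u i) ∧
      (∀ i ∈ X, kL u i) ∧ kL u r ∧ ¬ sL u r).card := by
    refine Finset.card_bij (fun u _ => u.swap) ?_ (fun _ _ _ _ e => hinj e) ?_
    · intro u hu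
      obtain ⟨a1, a2, a3, a4, a5, a6⟩ := Finset.mem_filter.1 hu
      exact Finset.mem_filter.2 ⟨swap_mem.2 a1, (hun u).2 a2, a4, a3, a5, a6⟩
    · intro v hv
      obtain ⟨a1, a2, a3, a4, a5, a6⟩ := Finset.mem_filter.1 hv
      refine ⟨v.swap, Finset.mem_filter.2 ⟨?_, (hun v).2 a2, a4, a3, a5, a6⟩, Prod.swap_swap v⟩
      have := swap_mem (G := G) (W := W) (u := v.swap)
      rw [Prod.swap_swap] at this
      exact this.1 a1
  have e2 : ((Wd G W).filter fun u => Uns A u ∧ (∀ i ∈ X, sL u i) ∧ (∀ i ∈ Y, kL u i) ∧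
      sL u r ∧ kL u r).card = ((Wd Gᶜ W).filter fun u => Uns A u ∧ (∀ i ∈ Y, sL u i) ∧
      (∀ i ∈ X, kL u i) ∧ sL u r ∧ kL u r).card := by
    refine Finset.card_bij (fun u _ => u.swap) ?_ (fun _ _ _ _ e => hinj e) ?_
    · intro u hu
      obtain ⟨a1, a2, a3, a4, a5, a6⟩ := Finset.mem_filter.1 hu
      exact Finset.mem_filter.2 ⟨swap_mem.2 a1, (hun u).2 a2, a4, a3, a6, a5⟩
    · intro v hv
      obtain ⟨a1, a2, a3, a4, a5, a6⟩ := Finset.mem_filter.1 hv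
      refine ⟨v.swap, Finset.mem_filter.2 ⟨?_, (hun v).2 a2, a4, a3, a6, a5⟩, Prod.swap_swap v⟩
      have := swap_mem (G := G) (W := W) (u := v.swap)
      rw [Prod.swap_swap] at this
      exact this.1 a1
  rw [e1, e2]
  exact h0

end Pool.Agent.HNS
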