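import Pool.Agent.HNS.Mon
import Pool.Agent.HNS.Exs
import Pool.Agent.HNS.Cnt
import Pool.Agent.HNS.Cov
import Pool.Agent.HNS.Swp

/-!
# Lower bounds for `CC`

PROOF. `CC_two`: `CC_mono` from `CC G ∅ ∅`, whose words `wz G ∅ ≠ wo G ∅` are two.
`CC_four0`: by `CC_mono` enough `4 ≤ CC G {a, b} ∅`. Let `W = {a, b}`. By `del_card` (`A = {b}`,
`W \ {b} = {a}`) the words `u ∈ Wd G W` with no letter `a` at `b` and `sL u a` are
`CC G {a} ∅ ≥ 2` many. For such a `u`: `sL u a` gives `T ∈ u.1`; `T' = T.erase b ∈ (del {b} u).1`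
or directly: `insert b T` is stable and meets every `K ∈ u.2`, so `insert b T ∈ u.1` (mem_fst') and
`sL u b`: the letter at `b` is `1`. By `cnt_lift1` (`A = ∅`, `X = {a}`) there are at least as many
words with `sL u a` and letter `a` at `b`. Both kinds are counted in `CC G {a, b} ∅`.
`CC_four1`: complement (CC_compl).
-/

set_option autoImplicit false
set_option linter.unusedSectionVars false

open scoped Classical

namespace Pool.Agent.HNS

variable {ι : Type} [DecidableEq ι]

private theorem Bas_empty {G : SimpleGraph ι} : 2 ≤ CC G ∅ ∅ := by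
  unfold CC
  refine Finset.one_lt_card.2 ⟨wz G (∅ ∪ ∅), ?_, wo G (∅ ∪ ∅), ?_, wz_ne_wo G _⟩
  · rw [Finset.mem_filter]
    exact ⟨wz_mem G _, fun i hi => absurd hi (Finset.notMem_empty i),
      fun i hi => absurd hi (Finset.notMem_empty i)⟩
  · rw [Finset.mem_filter]
    exact ⟨wo_mem G _, fun i hi => absurd hi (Finset.notMem_empty i),
      fun i hi => absurd hi (Finset.notMem_empty i)⟩

theorem CC_two {G : SimpleGraph ι} (h : PF G) {X Y : Finset ι} (d : Disjoint X Y) :
    2 ≤ CC G X Y :=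
  Bas_empty.trans (CC_mono h (Finset.empty_subset X) (Finset.empty_subset Y) d)

private theorem Bas_pair {G : SimpleGraph ι} (h : PF G) {a b : ι} (hab : a ≠ b)
    (hn : ¬ G.Adj a b) : 4 ≤ CC G {a, b} ∅ := by
  have hW : ({a, b} : Finset ι) ∪ ∅ = {a, b} := Finset.union_empty _
  have haW : a ∈ ({a, b} : Finset ι) := Finset.mem_insert_self a _
  have hbW : b ∈ ({a, b} : Finset ι) := Finset.mem_insert_of_mem (Finset.mem_singleton_self b)
  have hnadj : ∀ x ∈ ({a, b} : Finset ι), ∀ y ∈ ({a, b} : Finset ι), ¬ G.Adj x y := by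
    intro x hx y hy
    rw [Finset.mem_insert, Finset.mem_singleton] at hx hy
    rcases hx with rfl | rfl <;> rcases hy with rfl | rfl
    · exact G.loopless.irrefl _
    · exact hn
    · exact fun hh => hn hh.symm
    · exact G.loopless.irrefl _
  -- the words with letter 1 at b
  have h1 : 2 ≤ ((Wd G {a, b}).filter fun u => Uns ∅ u ∧ (∀ i ∈ ({a} : Finset ι), sL u i) ∧
      (∀ i ∈ (∅ : Finset ι), kL u i) ∧ sL u b ∧ ¬ kL u b).card := by
    have e1 := del_card G {a, b} {b} (fun v => sL v a)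
    have e2 : ({a, b} : Finset ι) \ {b} = {a} := by
      ext x
      rw [Finset.mem_sdiff, Finset.mem_insert, Finset.mem_singleton, Finset.mem_singleton]
      constructor
      · rintro ⟨rfl | rfl, h2⟩
        · rfl
        · exact absurd rfl h2
      · rintro rfl
        exact ⟨Or.inl rfl, hab⟩
    have e3 : 2 ≤ ((Wd G {a}).filter fun v => sL v a).card := by
      have := CC_two h (X := {a}) (Y := ∅) (Finset.disjoint_empty_right _)
      unfold CC at this
      rw [Finset.union_empty] at this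
      refine this.trans (Finset.card_le_card ?_)
      intro u hu
      rw [Finset.mem_filter] at hu ⊢
      exact ⟨hu.1, hu.2.1 a (Finset.mem_singleton_self a)⟩
    rw [e2] at e1
    rw [← e1] at e3
    refine e3.trans (Finset.card_le_card ?_)
    intro u hu
    rw [Finset.mem_filter] at hu ⊢
    obtain ⟨hu, hun, hs⟩ := hu
    have hsa : sL u a := (sL_del hu hun (fun hh => hab (Finset.mem_singleton.1 hh))).1 hs
    have hsb : sL u b := by
      obtain ⟨T, hT, haT⟩ := hsa
      refine ⟨insert b T, mem_fst' hu ?_ ?_ ?_, Finset.mem_insert_self b T⟩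
      · exact Finset.insert_subset hbW (fst_sub hu hT)
      · intro x hx y hy
        exact hnadj x (Finset.insert_subset hbW (fst_sub hu hT) hx) y
          (Finset.insert_subset hbW (fst_sub hu hT) hy)
      · intro K hK
        obtain ⟨x, h1, h2⟩ := exists_of_card (card_eq hu hT hK)
        exact ⟨x, Finset.mem_insert_of_mem h1, h2⟩
    refine ⟨hu, ?_, ?_, ?_, hsb, ?_⟩
    · exact fun i hi => absurd hi (Finset.notMem_empty i)
    · intro i hi
      rw [Finset.mem_singleton.1 hi]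
      exact hsa
    · exact fun i hi => absurd hi (Finset.notMem_empty i)
    · exact fun hk => hun b (Finset.mem_singleton_self b) ⟨hsb, hk⟩
  have h2 := cnt_lift1 h (W := {a, b}) (A := ∅) (X := {a}) (Y := ∅) (r := b) hbW
    (Finset.notMem_empty b) (Finset.disjoint_empty_right _) (Finset.disjoint_empty_right _)
  have h3 : 2 ≤ ((Wd G {a, b}).filter fun u => Uns ∅ u ∧ (∀ i ∈ ({a} : Finset ι), sL u i) ∧
      (∀ i ∈ (∅ : Finset ι), kL u i) ∧ sL u b ∧ kL u b).card := h1.trans h2
  have hdisj : Disjoint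
      ((Wd G {a, b}).filter fun u => Uns ∅ u ∧ (∀ i ∈ ({a} : Finset ι), sL u i) ∧
        (∀ i ∈ (∅ : Finset ι), kL u i) ∧ sL u b ∧ ¬ kL u b)
      ((Wd G {a, b}).filter fun u => Uns ∅ u ∧ (∀ i ∈ ({a} : Finset ι), sL u i) ∧
        (∀ i ∈ (∅ : Finset ι), kL u i) ∧ sL u b ∧ kL u b) := by
    rw [Finset.disjoint_left]
    intro u hu hu'
    rw [Finset.mem_filter] at hu hu'
    exact hu.2.2.2.2.2 hu'.2.2.2.2.2
  have hsub : ((Wd G {a, b}).filter fun u => Uns ∅ u ∧ (∀ i ∈ ({a} : Finset ι), sL u i) ∧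
        (∀ i ∈ (∅ : Finset ι), kL u i) ∧ sL u b ∧ ¬ kL u b) ∪
      ((Wd G {a, b}).filter fun u => Uns ∅ u ∧ (∀ i ∈ ({a} : Finset ι), sL u i) ∧
        (∀ i ∈ (∅ : Finset ι), kL u i) ∧ sL u b ∧ kL u b) ⊆
      ((Wd G {a, b}).filter fun u => (∀ i ∈ ({a, b} : Finset ι), sL u i) ∧
        ∀ i ∈ (∅ : Finset ι), kL u i) := by
    intro u hu
    rw [Finset.mem_union, Finset.mem_filter, Finset.mem_filter] at hu
    rw [Finset.mem_filter]
    have key : u ∈ Wd G {a, b} ∧ (∀ i ∈ ({a} : Finset ι), sL u i) ∧ sL u b := by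
      rcases hu with hu | hu
      · exact ⟨hu.1, hu.2.2.1, hu.2.2.2.2.1⟩
      · exact ⟨hu.1, hu.2.2.1, hu.2.2.2.2.1⟩
    refine ⟨key.1, ?_, fun i hi => absurd hi (Finset.notMem_empty i)⟩
    intro i hi
    rw [Finset.mem_insert, Finset.mem_singleton] at hi
    rcases hi with rfl | rfl
    · exact key.2.1 i (Finset.mem_singleton_self i)
    · exact key.2.2
  have h4 := Finset.card_le_card hsub
  rw [Finset.card_union_of_disjoint hdisj] at h4
  unfold CC
  rw [hW]
  omega

theorem CC_four0 {G : SimpleGraph ι} (h : PF G) {X Y : Finset ι} (d : Disjoint X Y) {a b : ι}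
    (ha : a ∈ X) (hb : b ∈ X) (hab : a ≠ b) (hn : ¬ G.Adj a b) : 4 ≤ CC G X Y := by
  refine (Bas_pair h hab hn).trans (CC_mono h ?_ (Finset.empty_subset Y) d)
  intro x hx
  rw [Finset.mem_insert, Finset.mem_singleton] at hx
  rcases hx with rfl | rfl
  · exact ha
  · exact hb

theorem CC_four1 {G : SimpleGraph ι} (h : PF G) {X Y : Finset ι} (d : Disjoint X Y) {a b : ι}
    (ha : a ∈ Y) (hb : b ∈ Y) (hn : G.Adj a b) : 4 ≤ CC G X Y := by
  rw [← CC_compl]
  refine CC_four0 h.compl d.symm ha hb hn.ne ?_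
  rw [SimpleGraph.compl_adj]
  exact fun hh => hh.2 hn

end Pool.Agent.HNS
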