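import Pool.Agent.HNS.Cnt
import Pool.Agent.HNS.Cov

/-!
# Monotonicity

PROOF of `CC_mono`: by induction it is enough to add one vertex `r ∉ X ∪ Y` to `X` (`CC_insX`) or to
`Y` (`CC_insY`). `CC_insX`: let `W = insert r (X ∪ Y)`, `W \ {r} = X ∪ Y`. By `del_card` with
`A = {r}`, `CC G X Y` is the number of `u ∈ Wd G W` without letter `a` at `r`, `sL` on `X`, `kL` on
`Y`; by `cover` at `r` this is `b0 + b1` (letter `0` or `1` at `r`), `b0 ≤ a` by `cnt_lift0`
(`A = ∅`), and `CC G (insert r X) Y = a + b1`. `CC_insY` uses `cnt_lift1`, or CC_compl.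
For `Sg_mono`: `Zr R y`, `On R y ⊆ R` are disjoint from each other and from `M0`, `M1`.
-/

set_option autoImplicit false
set_option linter.unusedSectionVars false

open scoped Classical

namespace Pool.Agent.HNS

variable {ι : Type} [DecidableEq ι]

theorem CC_insX {G : SimpleGraph ι} (h : PF G) {X Y : Finset ι} {r : ι} (hX : r ∉ X)
    (hY : r ∉ Y) : CC G X Y ≤ CC G (insert r X) Y := by
  have hW : insert r (X ∪ Y) \ {r} = X ∪ Y := by
    ext i
    simp only [Finset.mem_sdiff, Finset.mem_insert, Finset.mem_union, Finset.mem_singleton]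
    constructor
    · rintro ⟨h1 | h1, h2⟩
      · exact absurd h1 h2
      · exact h1
    · intro h1
      refine ⟨Or.inr h1, ?_⟩
      rintro rfl
      rcases h1 with h1 | h1
      · exact hX h1
      · exact hY h1
  have hXr : ∀ i ∈ X, i ∉ ({r} : Finset ι) := by
    intro i hi h1
    rw [Finset.mem_singleton] at h1
    exact hX (h1 ▸ hi)
  have hYr : ∀ i ∈ Y, i ∉ ({r} : Finset ι) := by
    intro i hi h1
    rw [Finset.mem_singleton] at h1
    exact hY (h1 ▸ hi)
  have h1 := del_card G (insert r (X ∪ Y)) {r} (fun u => (∀ i ∈ X, sL u i) ∧ ∀ i ∈ Y, kL u i)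
  rw [hW] at h1
  have h2 : CC G X Y = ((Wd G (insert r (X ∪ Y))).filter fun u =>
      Uns {r} u ∧ ((∀ i ∈ X, sL (del {r} u) i) ∧ ∀ i ∈ Y, kL (del {r} u) i)).card := by
    unfold CC
    convert h1.symm
  have h3 := cnt_lift0 h (W := insert r (X ∪ Y)) (A := ∅) (X := X) (Y := Y) (r := r)
    (Finset.mem_insert_self _ _) (Finset.notMem_empty _) (Finset.disjoint_empty_right _)
    (Finset.disjoint_empty_right _)
  have h4 : CC G (insert r X) Y =
      ((Wd G (insert r (X ∪ Y))).filter fun u => Uns ∅ u ∧ (∀ i ∈ X, sL u i) ∧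
        (∀ i ∈ Y, kL u i) ∧ sL u r ∧ kL u r).card +
      ((Wd G (insert r (X ∪ Y))).filter fun u => (∀ i ∈ X, sL u i) ∧
        (∀ i ∈ Y, kL u i) ∧ sL u r ∧ ¬ kL u r).card := by
    unfold CC
    rw [Finset.insert_union, ← Finset.card_union_of_disjoint]
    · congr 1
      ext u
      simp only [Finset.mem_filter, Finset.mem_union, Finset.mem_insert, forall_eq_or_imp]
      constructor
      · rintro ⟨hu, ⟨h5, h6⟩, h7⟩
        by_cases hk : kL u r
        · exact Or.inl ⟨hu, fun i hi => absurd hi (Finset.notMem_empty i), h6, h7, h5, hk⟩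
        · exact Or.inr ⟨hu, h6, h7, h5, hk⟩
      · rintro (⟨hu, _, h6, h7, h5, _⟩ | ⟨hu, h6, h7, h5, _⟩)
        · exact ⟨hu, ⟨h5, h6⟩, h7⟩
        · exact ⟨hu, ⟨h5, h6⟩, h7⟩
    · rw [Finset.disjoint_left]
      intro u h5 h6
      rw [Finset.mem_filter] at h5 h6
      exact h6.2.2.2.2 h5.2.2.2.2.2
  have h5 : ((Wd G (insert r (X ∪ Y))).filter fun u =>
      Uns {r} u ∧ ((∀ i ∈ X, sL (del {r} u) i) ∧ ∀ i ∈ Y, kL (del {r} u) i)).card ≤
      ((Wd G (insert r (X ∪ Y))).filter fun u => Uns ∅ u ∧ (∀ i ∈ X, sL u i) ∧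
        (∀ i ∈ Y, kL u i) ∧ kL u r ∧ ¬ sL u r).card +
      ((Wd G (insert r (X ∪ Y))).filter fun u => (∀ i ∈ X, sL u i) ∧
        (∀ i ∈ Y, kL u i) ∧ sL u r ∧ ¬ kL u r).card := by
    refine le_trans (Finset.card_le_card ?_) (Finset.card_union_le _ _)
    intro u hu
    rw [Finset.mem_filter] at hu
    obtain ⟨hu, hU, hs, hk⟩ := hu
    have hs' : ∀ i ∈ X, sL u i := fun i hi => (sL_del hu hU (hXr i hi)).1 (hs i hi)
    have hk' : ∀ i ∈ Y, kL u i := fun i hi => (kL_del hu hU (hYr i hi)).1 (hk i hi)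
    have hUr := hU r (Finset.mem_singleton_self r)
    rw [Finset.mem_union, Finset.mem_filter, Finset.mem_filter]
    rcases cover h hu (Finset.mem_insert_self r _) with hc | hc
    · exact Or.inr ⟨hu, hs', hk', hc, fun h6 => hUr ⟨hc, h6⟩⟩
    · exact Or.inl ⟨hu, fun i hi => absurd hi (Finset.notMem_empty i), hs', hk', hc,
        fun h6 => hUr ⟨h6, hc⟩⟩
  rw [h2, h4]
  exact h5.trans (Nat.add_le_add_right h3 _)

theorem CC_insY {G : SimpleGraph ι} (h : PF G) {X Y : Finset ι} {r : ι} (hX : r ∉ X)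
    (hY : r ∉ Y) : CC G X Y ≤ CC G X (insert r Y) := by
  rw [← CC_compl G X Y, ← CC_compl G X (insert r Y)]
  exact CC_insX h.compl hY hX

theorem CC_mono {G : SimpleGraph ι} (h : PF G) {X' X Y' Y : Finset ι} (hX : X' ⊆ X)
    (hY : Y' ⊆ Y) (hd : Disjoint X Y) : CC G X' Y' ≤ CC G X Y := by
  have hA : ∀ D : Finset ι, Disjoint D X' → Disjoint D Y' → CC G X' Y' ≤ CC G (X' ∪ D) Y' := by
    intro D
    induction D using Finset.induction_on with
    | empty => intro _ _; rw [Finset.union_empty]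
    | insert r D hr ih =>
      intro h1 h2
      rw [Finset.disjoint_insert_left] at h1 h2
      refine (ih h1.2 h2.2).trans ?_
      rw [Finset.union_insert]
      exact CC_insX h (by rw [Finset.mem_union, not_or]; exact ⟨h1.1, hr⟩) h2.1
  have hB : ∀ D : Finset ι, Disjoint D Y' → Disjoint D X → CC G X Y' ≤ CC G X (Y' ∪ D) := by
    intro D
    induction D using Finset.induction_on with
    | empty => intro _ _; rw [Finset.union_empty]
    | insert r D hr ih =>
      intro h1 h2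
      rw [Finset.disjoint_insert_left] at h1 h2
      refine (ih h1.2 h2.2).trans ?_
      rw [Finset.union_insert]
      exact CC_insY h h2.1 (by rw [Finset.mem_union, not_or]; exact ⟨h1.1, hr⟩)
  have h1 := hA (X \ X') Finset.sdiff_disjoint
    (Disjoint.mono Finset.sdiff_subset hY hd)
  rw [Finset.union_sdiff_of_subset hX] at h1
  have h2 := hB (Y \ Y') Finset.sdiff_disjoint
    (Disjoint.mono_left Finset.sdiff_subset hd.symm)
  rw [Finset.union_sdiff_of_subset hY] at h2
  exact h1.trans h2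

theorem Sg_mono {G : SimpleGraph ι} (h : PF G) {R M0' M0 M1' M1 : Finset ι} (h0 : M0' ⊆ M0)
    (h1 : M1' ⊆ M1) (d0 : Disjoint R M0) (d1 : Disjoint R M1) (d : Disjoint M0 M1) :
    Sg G R M0' M1' ≤ Sg G R M0 M1 := by
  unfold Sg
  refine Finset.sum_le_sum fun y _ => ?_
  refine CC_mono h (Finset.union_subset_union_right h0) (Finset.union_subset_union_right h1) ?_
  have hz : Zr R y ⊆ R := Finset.filter_subset _ _
  have ho : On R y ⊆ R := Finset.filter_subset _ _
  have hzo : Disjoint (Zr R y) (On R y) := by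
    rw [Finset.disjoint_left]
    intro i h2 h3
    exact (mem_Zr.1 h2).2.2 (mem_On.1 h3).2.1
  rw [Finset.disjoint_union_left, Finset.disjoint_union_right, Finset.disjoint_union_right]
  exact ⟨⟨hzo, Disjoint.mono_left hz d1⟩, ⟨(Disjoint.mono_left ho d0).symm, d⟩⟩

end Pool.Agent.HNS
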