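import Pool.Agent.HNS.Ebb
import Pool.Agent.HNS.Fib

/-!
# The interval inequality

PROOF of `itv`: with `g` from `emb`, `Sg G Rs Mz Mo = ∑_{y ∈ Wd G Rs} CC G (Zr W (g y) ∪ ∅) (On W (g y) ∪ ∅)`.
The words `g y` are different, and `Sp W (g y) ∈ Iv G W C S`; so the sum is at most
`∑_{v ∈ Wd G W, Sp W v ∈ Iv} CC G (Zr W v ∪ ∅) (On W v ∪ ∅) = ∑_{A ∈ Iv} cA G W ∅ ∅ A`.
`Iv_card`: Finset.card_Icc_finset, `Rs` is disjoint from `C ∪ S`.
`bal_four`: `g (wz G Rs) ≠ g (wo G Rs)` both have support `C ∪ S`; `cA_pair`.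
-/

set_option autoImplicit false
set_option linter.unusedSectionVars false

open scoped Classical

namespace Pool.Agent.HNS

variable {ι : Type} [DecidableEq ι]

theorem itv {G : SimpleGraph ι} (h : PF G) {W C S : Finset ι} (hb : Bal G C S)
    (hW : C ∪ S ⊆ W) :
    Sg G (Rs G W C S) (Mz G W C S) (Mo G W C S) ≤ ∑ A ∈ Iv G W C S, cA G W ∅ ∅ A := by
  obtain ⟨g, hinj, hg⟩ := emb h hb hW
  set F : Wrd ι → ℕ := fun u => CC G (Zr W u ∪ ∅) (On W u ∪ ∅) with hF
  have h1 : Sg G (Rs G W C S) (Mz G W C S) (Mo G W C S) = ∑ y ∈ Wd G (Rs G W C S), F (g y) := by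
    unfold Sg
    refine Finset.sum_congr rfl fun y hy => ?_
    obtain ⟨-, -, h3, h4⟩ := hg y hy
    rw [hF]
    simp only
    rw [h3, h4, Finset.union_empty, Finset.union_empty]
  have h2 : ∑ y ∈ Wd G (Rs G W C S), F (g y) = ∑ u ∈ (Wd G (Rs G W C S)).image g, F u :=
    (Finset.sum_image hinj).symm
  have h3 : (Wd G (Rs G W C S)).image g ⊆ (Wd G W).filter fun u => Sp W u ∈ Iv G W C S := by
    intro u hu
    obtain ⟨y, hy, rfl⟩ := Finset.mem_image.1 hu
    obtain ⟨k1, k2, -, -⟩ := hg y hy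
    refine Finset.mem_filter.2 ⟨k1, ?_⟩
    unfold Iv
    rw [Finset.mem_Icc, k2]
    refine ⟨Finset.subset_union_left, Finset.union_subset_union_right ?_⟩
    intro i hi
    exact (mem_Sp.1 hi).1
  have h4 : ∑ u ∈ (Wd G W).filter (fun u => Sp W u ∈ Iv G W C S), F u =
      ∑ A ∈ Iv G W C S, cA G W ∅ ∅ A := by
    rw [← Finset.sum_fiberwise_of_maps_to (s := (Wd G W).filter fun u => Sp W u ∈ Iv G W C S)
      (t := Iv G W C S) (g := Sp W) (fun u hu => (Finset.mem_filter.1 hu).2)]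
    refine Finset.sum_congr rfl fun A hA => ?_
    unfold cA
    rw [Finset.filter_filter]
    refine Finset.sum_congr ?_ fun _ _ => rfl
    refine Finset.filter_congr fun u _ => ?_
    constructor
    · exact fun hh => hh.2
    · intro hh
      refine ⟨?_, hh⟩
      rw [hh]
      exact hA
  rw [h1, h2, ← h4]
  exact Finset.sum_le_sum_of_subset h3

theorem Iv_card (G : SimpleGraph ι) (W C S : Finset ι) :
    (Iv G W C S).card = 2 ^ (Rs G W C S).card := by
  unfold Iv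
  rw [Finset.card_Icc_finset Finset.subset_union_left]
  congr 1
  have hd : Disjoint (C ∪ S) (Rs G W C S) := by
    rw [Finset.disjoint_left]
    intro a ha hr
    exact (Rs_prop a hr).1 ha
  rw [Finset.card_union_of_disjoint hd]
  omega

theorem bal_four {G : SimpleGraph ι} (h : PF G) {W C S : Finset ι} (hb : Bal G C S)
    (hW : C ∪ S ⊆ W) : 4 ≤ cA G W ∅ ∅ (C ∪ S) := by
  obtain ⟨g, hinj, hg⟩ := emb h hb hW
  obtain ⟨k1, k2, -, -⟩ := hg _ (wz_mem G (Rs G W C S))
  obtain ⟨l1, l2, -, -⟩ := hg _ (wo_mem G (Rs G W C S))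
  have e1 : Sp (Rs G W C S) (wz G (Rs G W C S)) = ∅ := by
    rw [Finset.eq_empty_iff_forall_notMem]
    intro i hi
    exact sL_wz _ _ i (mem_Sp.1 hi).2.1
  have e2 : Sp (Rs G W C S) (wo G (Rs G W C S)) = ∅ := by
    rw [Finset.eq_empty_iff_forall_notMem]
    intro i hi
    exact kL_wo _ _ i (mem_Sp.1 hi).2.2
  rw [e1, Finset.union_empty] at k2
  rw [e2, Finset.union_empty] at l2
  refine cA_pair h (Finset.disjoint_empty_right _) (Finset.disjoint_empty_right _)
    (Finset.disjoint_empty_right _) k1 l1 ?_ k2 l2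
  intro he
  exact wz_ne_wo G (Rs G W C S) (hinj (wz_mem G _) (wo_mem G _) he)

end Pool.Agent.HNS
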