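import Pool.Agent.HNS.Defs

/-!
# Hansen polytopes of perfect graphs: combinatorial definitions
-/

set_option autoImplicit false
set_option linter.unusedSectionVars false

open scoped Classical

namespace Pool.Agent.HNS

variable {ι : Type} [DecidableEq ι]

/-- split graph: `R` is the disjoint union of a clique and a stable set -/
def Spl (G : SimpleGraph ι) (R : Finset ι) : Prop :=
  ∃ Z O : Finset ι, Z ∪ O = R ∧ Disjoint Z O ∧ Clq G Z ∧ Stb G O

/-- obstruction against a split partition of `R ∪ {m}` with `m` on the stable side -/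
def Obs (G : SimpleGraph ι) (R : Finset ι) (m : ι) : Prop :=
  ∃ o ∈ R, G.Adj o m ∧
    ((∃ o' ∈ R, o' ≠ o ∧ G.Adj o' m ∧ ¬ G.Adj o o') ∨
      ∃ z ∈ R, ∃ z' ∈ R, z ≠ o ∧ z' ≠ o ∧ G.Adj z z' ∧ ¬ G.Adj z m ∧ ¬ G.Adj z' m ∧
        ¬ G.Adj z o ∧ ¬ G.Adj z' o)

/-- threshold: every nonempty subset has a dominating or an isolated vertex -/
def Thr (G : SimpleGraph ι) (P : Finset ι) : Prop :=
  ∀ Q ⊆ P, Q.Nonempty →
    ∃ q ∈ Q, (∀ v ∈ Q, v ≠ q → G.Adj q v) ∨ ∀ v ∈ Q, ¬ G.Adj q v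

/-- the local structure at a thin set: `P` threshold, `E` a clique of vertices complete to a
maximal clique of `P`, `D` a stable set of vertices anticomplete to a maximal stable set of `P` -/
structure Lst (G : SimpleGraph ι) (P E D : Finset ι) : Prop where
  ne : P.Nonempty
  dPE : Disjoint P E
  dPD : Disjoint P D
  dED : Disjoint E D
  thr : Thr G P
  clqE : Clq G E
  stbD : Stb G D
  hE : ∀ e ∈ E, ∃ K ⊆ P, Clq G K ∧ (∀ p ∈ P, p ∉ K → ∃ k ∈ K, ¬ G.Adj p k) ∧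
    ∀ k ∈ K, G.Adj e k
  hD : ∀ d ∈ D, ∃ T ⊆ P, Stb G T ∧ (∀ p ∈ P, p ∉ T → ∃ t ∈ T, G.Adj p t) ∧
    ∀ t ∈ T, ¬ G.Adj d t

/-- balanced split pair: clique `C`, stable set `S`, both maximal in `C ∪ S` -/
structure Bal (G : SimpleGraph ι) (C S : Finset ι) : Prop where
  ne : C.Nonempty
  dCS : Disjoint C S
  clq : Clq G C
  stb : Stb G S
  hC : ∀ c ∈ C, ∃ s ∈ S, G.Adj c s
  hS : ∀ s ∈ S, ∃ c ∈ C, ¬ G.Adj s c

/-- vertices of `W` outside `C ∪ S`, complete to `C` and anticomplete to `S` -/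
noncomputable def Rs (G : SimpleGraph ι) (W C S : Finset ι) : Finset ι :=
  (W \ (C ∪ S)).filter fun r => (∀ c ∈ C, G.Adj r c) ∧ ∀ s ∈ S, ¬ G.Adj r s

/-- the other vertices with constant letter `0` -/
noncomputable def Mz (G : SimpleGraph ι) (W C S : Finset ι) : Finset ι :=
  (W \ (C ∪ S ∪ Rs G W C S)).filter fun m =>
    ∃ s ∈ S, G.Adj m s ∧ ∀ c ∈ C, G.Adj c s → G.Adj m c

/-- the other vertices with constant letter `1` -/
noncomputable def Mo (G : SimpleGraph ι) (W C S : Finset ι) : Finset ι :=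
  (W \ (C ∪ S ∪ Rs G W C S)).filter fun m =>
    ∃ c ∈ C, ¬ G.Adj m c ∧ ∀ s ∈ S, ¬ G.Adj c s → ¬ G.Adj m s

/-- the interval of sets between `C ∪ S` and `C ∪ S ∪ Rs` -/
noncomputable def Iv (G : SimpleGraph ι) (W C S : Finset ι) : Finset (Finset ι) :=
  Finset.Icc (C ∪ S) (C ∪ S ∪ Rs G W C S)

/-- no two vertices of `R` are comparable with respect to the vertex set `H` -/
def Anti (G : SimpleGraph ι) (R H : Finset ι) : Prop :=
  ∀ x ∈ R, ∀ r ∈ R, ¬ DomA G H x r ∧ ¬ DomN G H x r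

/-- the letter of `u` at `r` is coded by two Booleans: `(true, true)` is `a`,
`(false, true)` is `0`, `(true, false)` is `1` -/
def lt (u : Wrd ι) (r : ι) (s k : Bool) : Prop := (sL u r ↔ s = true) ∧ (kL u r ↔ k = true)

/-- pairs of words, perpendicular off `r`, with given letters at `r` -/
noncomputable def nn (G : SimpleGraph ι) (R H M0 M1 : Finset ι) (r : ι) (s k s' k' : Bool) : ℕ :=
  ((Wd G R ×ˢ Wd G H).filter fun p =>
    (∀ i ∈ R.erase r, perp p.1 p.2 i) ∧ (∀ i ∈ M0, sL p.2 i) ∧ (∀ i ∈ M1, kL p.2 i) ∧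
      lt p.1 r s k ∧ lt p.2 r s' k').card

/-- the word `0` -/
noncomputable def wz (G : SimpleGraph ι) (W : Finset ι) : Wrd ι := (∅, W.powerset.filter (Clq G))

/-- the word `1` -/
noncomputable def wo (G : SimpleGraph ι) (W : Finset ι) : Wrd ι := (W.powerset.filter (Stb G), ∅)

end Pool.Agent.HNS
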