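import Pool.Agent.HNS.Cov
import Pool.Agent.HNS.Defs2
import Pool.Agent.HNS.Swp

/-!
# Letters and adjacency
-/

set_option autoImplicit false
set_option linter.unusedSectionVars false

open scoped Classical

namespace Pool.Agent.HNS

variable {ι : Type} [DecidableEq ι]

theorem domA_letter {G : SimpleGraph ι} {W : Finset ι} {u : Wrd ι} (hu : u ∈ Wd G W) {x r : ι}
    (hx : x ∈ W) (h : DomA G W x r) (h1 : sL u r) (h2 : ¬ kL u r) : sL u x ∧ ¬ kL u x := by
  obtain ⟨T, hT, hrT⟩ := h1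
  obtain ⟨hadj, hdom⟩ := h
  have hTW := fst_sub hu hT
  have hTs := fst_stb hu hT
  constructor
  · refine ⟨insert x (T.erase r), ?_, Finset.mem_insert_self _ _⟩
    refine mem_fst' hu ?_ ?_ ?_
    · intro v hv
      rcases Finset.mem_insert.1 hv with rfl | hv
      · exact hx
      · exact hTW (Finset.mem_of_mem_erase hv)
    · have key : ∀ v ∈ T.erase r, ¬ G.Adj x v := by
        intro v hv hxv
        rw [Finset.mem_erase] at hv
        rcases hdom v (hTW hv.2) hxv with h3 | h3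
        · exact hv.1 h3
        · exact hTs r hrT v hv.2 h3
      intro a ha b hb hab
      rcases Finset.mem_insert.1 ha with e | ha'
      · rcases Finset.mem_insert.1 hb with e' | hb'
        · rw [e, e'] at hab
          exact G.loopless.irrefl _ hab
        · rw [e] at hab
          exact key b hb' hab
      · rcases Finset.mem_insert.1 hb with e' | hb'
        · rw [e'] at hab
          exact key a ha' hab.symm
        · exact hTs a (Finset.mem_of_mem_erase ha') b (Finset.mem_of_mem_erase hb') hab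
    · intro K hK
      obtain ⟨t, ht1, ht2⟩ := exists_of_card (card_eq hu hT hK)
      refine ⟨t, Finset.mem_insert_of_mem (Finset.mem_erase.2 ⟨?_, ht1⟩), ht2⟩
      rintro rfl
      exact h2 ⟨K, hK, ht2⟩
  · rintro ⟨K, hK, hxK⟩
    obtain ⟨t, ht1, ht2⟩ := exists_of_card (card_eq hu hT hK)
    have htr : t ≠ r := by
      rintro rfl
      exact h2 ⟨K, hK, ht2⟩
    have htx : x ≠ t := by
      rintro rfl
      exact hTs x ht1 r hrT hadj
    have hxt := snd_clq hu hK x hxK t ht2 htx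
    rcases hdom t (hTW ht1) hxt with h3 | h3
    · exact htr h3
    · exact hTs r hrT t ht1 h3

theorem domN_letter {G : SimpleGraph ι} {W : Finset ι} {u : Wrd ι} (hu : u ∈ Wd G W) {x r : ι}
    (hx : x ∈ W) (h : DomN G W x r) (h1 : kL u r) (h2 : ¬ sL u r) : kL u x ∧ ¬ sL u x :=
  domA_letter (G := Gᶜ) (u := u.swap) (swap_mem.2 hu) hx (domA_compl.2 h) h1 h2

theorem anti_letter {G : SimpleGraph ι} (h : PF G) {W : Finset ι} {u : Wrd ι} (hu : u ∈ Wd G W)
    (hne : (Sp W u).Nonempty) {i : ι} (hi : i ∈ W) (hiA : i ∉ Sp W u)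
    (ha : ∀ v ∈ Sp W u, ¬ G.Adj i v) : sL u i ∧ ¬ kL u i := by
  obtain ⟨v, hv⟩ := hne
  obtain ⟨_, ⟨T, hT, _⟩, _⟩ := mem_Sp.1 hv
  have hk : ¬ kL u i := by
    rintro ⟨K, hK, hiK⟩
    obtain ⟨t, ht1, ht2⟩ := exists_of_card (card_eq hu hT hK)
    have htS : t ∈ Sp W u := mem_Sp.2 ⟨fst_sub hu hT ht1, ⟨T, hT, ht1⟩, ⟨K, hK, ht2⟩⟩
    have hne : i ≠ t := by
      rintro rfl
      exact hiA htS
    exact ha t htS (snd_clq hu hK i hiK t ht2 hne)
  exact ⟨(cover h hu hi).resolve_right hk, hk⟩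

theorem full_letter {G : SimpleGraph ι} (h : PF G) {W : Finset ι} {u : Wrd ι} (hu : u ∈ Wd G W)
    (hne : (Sp W u).Nonempty) {i : ι} (hi : i ∈ W) (hiA : i ∉ Sp W u)
    (ha : ∀ v ∈ Sp W u, G.Adj i v) : kL u i ∧ ¬ sL u i := by
  refine anti_letter (G := Gᶜ) (u := u.swap) h.compl (swap_mem.2 hu) ?_ hi ?_ ?_
  · rw [Sp_swap]
    exact hne
  · rw [Sp_swap]
    exact hiA
  · intro v hv
    rw [Sp_swap] at hv
    rw [SimpleGraph.compl_adj]
    exact fun h' => h'.2 (ha v hv)

end Pool.Agent.HNS
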