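import Pool.Agent.HNS.P4c
import Pool.Agent.HNS.Itv
import Pool.Agent.HNS.Ltr

/-!
# The path with four vertices: `Sg ≥ 64`

PROOF. `R = {x, r, s, t}`, path `x - r - s - t`. `Sg_fib`: sum over the 16 subsets `A` of `R`, bounds:
`A = ∅`: `cA_empty`, `CC_p4`, `CC_p4'`: `≥ 16`. `A = R`: `bal_four` with `C = {r, s}`, `S = {x, t}`,
`W = R`: `≥ 4`. The eight sets `{x}, {r}, {s}, {t}, {x,r}, {s,t}, {x,s}, {r,t}`: `≥ 4` (below). The
remaining six sets: `≥ 2` (cA_two). Total `16 + 4 + 32 + 12 = 64`.
For the eight sets use `cA_of_le`; let `y` be a word with support `A`.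
`{x}`: `s`, `t` are anticomplete to `A`, letters `1` (anti_letter), adjacent: CC_four1. `{t}`: same
with `x`, `r`. `{r}`: `x`, `s` are complete to `A`, letters `0` (full_letter), nonadjacent: CC_four0.
`{s}`: same with `r`, `t`. `{x,r}`: `t` has letter `1` (anti). `s` has letter `1`: if `s ∈ K ∈ y.2`,
let `x ∈ T ∈ y.1`; `T` meets `K` in a vertex of the support, not `r` (`x ∈ T`), so `x ∈ K`, but
`x ≁ s`. So `s`, `t` are adjacent ones: CC_four1. `{s,t}`: mirror image (`t, s, r, x`).
`{x,s}`: `r` has letter `0` (full). `t` has letter `0`: if `t ∈ T ∈ y.1`, let `s ∈ K ∈ y.2`; `T` meets `K` in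
a vertex of the support, not `s` (`t ∈ T`), so `x ∈ K`, but `x ≁ s`. `r ≁ t`: CC_four0. `{r,t}`:
mirror image.
-/

set_option autoImplicit false
set_option linter.unusedSectionVars false

open scoped Classical

namespace Pool.Agent.HNS

variable {ι : Type} [DecidableEq ι]

theorem sum_pow1 (t : ι) (f : Finset ι → ℕ) :
    ∑ A ∈ ({t} : Finset ι).powerset, f A = f ∅ + f {t} := by
  have := Finset.sum_powerset_insert (Finset.notMem_empty t) f
  rw [Finset.powerset_empty, Finset.sum_singleton, Finset.sum_singleton,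
    insert_empty_eq] at this
  exact this

theorem sum_pow2 {s t : ι} (hs : s ∉ ({t} : Finset ι)) (f : Finset ι → ℕ) :
    ∑ A ∈ ({s, t} : Finset ι).powerset, f A = f ∅ + f {t} + (f {s} + f {s, t}) := by
  rw [Finset.sum_powerset_insert hs f, sum_pow1, sum_pow1 t (fun A => f (insert s A)),
    insert_empty_eq]

theorem sum_pow3 {r s t : ι} (hr : r ∉ ({s, t} : Finset ι)) (hs : s ∉ ({t} : Finset ι))
    (f : Finset ι → ℕ) :
    ∑ A ∈ ({r, s, t} : Finset ι).powerset, f A = f ∅ + f {t} + (f {s} + f {s, t}) +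
      (f {r} + f {r, t} + (f {r, s} + f {r, s, t})) := by
  rw [Finset.sum_powerset_insert hr f, sum_pow2 hs, sum_pow2 hs (fun A => f (insert r A)),
    insert_empty_eq]

theorem sum_pow4 {x r s t : ι} (hx : x ∉ ({r, s, t} : Finset ι)) (hr : r ∉ ({s, t} : Finset ι))
    (hs : s ∉ ({t} : Finset ι)) (f : Finset ι → ℕ) :
    ∑ A ∈ ({x, r, s, t} : Finset ι).powerset, f A = f ∅ + f {t} + (f {s} + f {s, t}) +
      (f {r} + f {r, t} + (f {r, s} + f {r, s, t})) +
      (f {x} + f {x, t} + (f {x, s} + f {x, s, t}) +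
      (f {x, r} + f {x, r, t} + (f {x, r, s} + f {x, r, s, t}))) := by
  rw [Finset.sum_powerset_insert hx f, sum_pow3 hr hs, sum_pow3 hr hs (fun A => f (insert x A)),
    insert_empty_eq]

theorem one_pair {G : SimpleGraph ι} (h : PF G) {R : Finset ι} {y : Wrd ι} {a b : ι}
    (ha : a ∈ R) (hb : b ∈ R) (la : sL y a ∧ ¬ kL y a) (lb : sL y b ∧ ¬ kL y b)
    (hab : G.Adj a b) : 4 ≤ CC G (Zr R y ∪ ∅) (On R y ∪ ∅) :=
  CC_four1 h (dj_Zr_On y (Finset.disjoint_empty_right _) (Finset.disjoint_empty_right _)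
    (Finset.disjoint_empty_right _))
    (Finset.mem_union_left _ (mem_On.2 ⟨ha, la⟩)) (Finset.mem_union_left _ (mem_On.2 ⟨hb, lb⟩)) hab

theorem zero_pair {G : SimpleGraph ι} (h : PF G) {R : Finset ι} {y : Wrd ι} {a b : ι}
    (ha : a ∈ R) (hb : b ∈ R) (la : kL y a ∧ ¬ sL y a) (lb : kL y b ∧ ¬ sL y b)
    (hab : a ≠ b) (hn : ¬ G.Adj a b) : 4 ≤ CC G (Zr R y ∪ ∅) (On R y ∪ ∅) :=
  CC_four0 h (dj_Zr_On y (Finset.disjoint_empty_right _) (Finset.disjoint_empty_right _)
    (Finset.disjoint_empty_right _))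
    (Finset.mem_union_left _ (mem_Zr.2 ⟨ha, la⟩)) (Finset.mem_union_left _ (mem_Zr.2 ⟨hb, lb⟩))
    hab hn

/-- four of the sixteen supports, the others follow by symmetry -/
theorem p4_half {G : SimpleGraph ι} (h : PF G) {R : Finset ι} {x r s t : ι}
    (hxR : x ∈ R) (hrR : r ∈ R) (hsR : s ∈ R) (htR : t ∈ R)
    (h1 : G.Adj x r) (h2 : G.Adj r s)
    (h3 : G.Adj s t) (h4 : ¬ G.Adj x s) (h5 : ¬ G.Adj x t) (h6 : ¬ G.Adj r t)
    (hxs : x ≠ s) (hxt : x ≠ t) (hrt : r ≠ t) :
    4 ≤ cA G R ∅ ∅ {x} ∧ 4 ≤ cA G R ∅ ∅ {r} ∧ 4 ≤ cA G R ∅ ∅ {x, r} ∧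
      4 ≤ cA G R ∅ ∅ {x, s} := by
  have hxr : x ≠ r := h1.ne
  have hrs : r ≠ s := h2.ne
  have hst : s ≠ t := h3.ne
  refine ⟨?_, ?_, ?_, ?_⟩
  · refine cA_of_le h (Finset.singleton_subset_iff.2 hxR) fun y hy hA => ?_
    have hne : (Sp R y).Nonempty := by
      rw [hA]
      exact Finset.singleton_nonempty x
    have ls := anti_letter h hy hne hsR (by
      rw [hA, Finset.mem_singleton]
      exact hxs.symm) (by
      intro v hv
      rw [hA, Finset.mem_singleton] at hv
      rw [hv]
      exact fun h => h4 h.symm)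
    have lt := anti_letter h hy hne htR (by
      rw [hA, Finset.mem_singleton]
      exact hxt.symm) (by
      intro v hv
      rw [hA, Finset.mem_singleton] at hv
      rw [hv]
      exact fun h => h5 h.symm)
    exact one_pair h hsR htR ls lt h3
  · refine cA_of_le h (Finset.singleton_subset_iff.2 hrR) fun y hy hA => ?_
    have hne : (Sp R y).Nonempty := by
      rw [hA]
      exact Finset.singleton_nonempty r
    have lx := full_letter h hy hne hxR (by
      rw [hA, Finset.mem_singleton]
      exact hxr) (by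
      intro v hv
      rw [hA, Finset.mem_singleton] at hv
      rw [hv]
      exact h1)
    have ls := full_letter h hy hne hsR (by
      rw [hA, Finset.mem_singleton]
      exact hrs.symm) (by
      intro v hv
      rw [hA, Finset.mem_singleton] at hv
      rw [hv]
      exact h2.symm)
    exact zero_pair h hxR hsR lx ls hxs h4
  · refine cA_of_le h (Finset.insert_subset hxR (Finset.singleton_subset_iff.2 hrR))
      fun y hy hA => ?_
    have memA : ∀ i, i ∈ Sp R y ↔ i = x ∨ i = r := by
      intro i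
      rw [hA, Finset.mem_insert, Finset.mem_singleton]
    have hne : (Sp R y).Nonempty := ⟨x, (memA x).2 (Or.inl rfl)⟩
    have lt := anti_letter h hy hne htR (by
      rw [memA]
      rintro (e | e)
      · exact hxt e.symm
      · exact hrt e.symm) (by
      intro v hv
      rcases (memA v).1 hv with e | e
      · rw [e]
        exact fun h => h5 h.symm
      · rw [e]
        exact fun h => h6 h.symm)
    have ks : ¬ kL y s := by
      rintro ⟨K, hK, hsK⟩
      obtain ⟨T, hT, hxT⟩ := (mem_Sp.1 ((memA x).2 (Or.inl rfl))).2.1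
      obtain ⟨z, hzT, hzK⟩ := exists_of_card (card_eq hy hT hK)
      have hz : z ∈ Sp R y := mem_Sp.2 ⟨fst_sub hy hT hzT, ⟨T, hT, hzT⟩, ⟨K, hK, hzK⟩⟩
      rcases (memA z).1 hz with e | e
      · rw [e] at hzK
        exact h4 (snd_clq hy hK x hzK s hsK hxs)
      · rw [e] at hzT
        exact fst_stb hy hT x hxT r hzT h1
    exact one_pair h hsR htR ⟨(cover h hy hsR).resolve_right ks, ks⟩ lt h3
  · refine cA_of_le h (Finset.insert_subset hxR (Finset.singleton_subset_iff.2 hsR))
      fun y hy hA => ?_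
    have memA : ∀ i, i ∈ Sp R y ↔ i = x ∨ i = s := by
      intro i
      rw [hA, Finset.mem_insert, Finset.mem_singleton]
    have hne : (Sp R y).Nonempty := ⟨x, (memA x).2 (Or.inl rfl)⟩
    have lr := full_letter h hy hne hrR (by
      rw [memA]
      rintro (e | e)
      · exact hxr e.symm
      · exact hrs e) (by
      intro v hv
      rcases (memA v).1 hv with e | e
      · rw [e]
        exact h1.symm
      · rw [e]
        exact h2)
    have st : ¬ sL y t := by
      rintro ⟨T, hT, htT⟩
      obtain ⟨K, hK, hsK⟩ := (mem_Sp.1 ((memA s).2 (Or.inr rfl))).2.2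
      obtain ⟨z, hzT, hzK⟩ := exists_of_card (card_eq hy hT hK)
      have hz : z ∈ Sp R y := mem_Sp.2 ⟨fst_sub hy hT hzT, ⟨T, hT, hzT⟩, ⟨K, hK, hzK⟩⟩
      rcases (memA z).1 hz with e | e
      · rw [e] at hzK
        exact h4 (snd_clq hy hK x hzK s hsK hxs)
      · rw [e] at hzT
        exact fst_stb hy hT s hzT t htT h3
    exact zero_pair h hrR htR lr ⟨(cover h hy htR).resolve_left st, st⟩ hrt h6

theorem p4 {G : SimpleGraph ι} (h : PF G) {x r s t : ι} (h1 : G.Adj x r) (h2 : G.Adj r s)
    (h3 : G.Adj s t) (h4 : ¬ G.Adj x s) (h5 : ¬ G.Adj x t) (h6 : ¬ G.Adj r t) :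
    64 ≤ Sg G {x, r, s, t} ∅ ∅ := by
  have hxs : x ≠ s := by
    rintro rfl
    exact h5 h3
  have hxt : x ≠ t := by
    rintro rfl
    exact h4 h3.symm
  have hrt : r ≠ t := by
    rintro rfl
    exact h5 h1
  have hxr : x ≠ r := h1.ne
  have hrs : r ≠ s := h2.ne
  have hst : s ≠ t := h3.ne
  have nx : x ∉ ({r, s, t} : Finset ι) := by
    simp only [Finset.mem_insert, Finset.mem_singleton, not_or]
    exact ⟨hxr, hxs, hxt⟩
  have nr : r ∉ ({s, t} : Finset ι) := by
    simp only [Finset.mem_insert, Finset.mem_singleton, not_or]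
    exact ⟨hrs, hrt⟩
  have ns : s ∉ ({t} : Finset ι) := by
    rw [Finset.mem_singleton]
    exact hst
  rw [Sg_fib, sum_pow4 nx nr ns]
  have b8 := CC_p4 h h1 h2 h3 h4 h5 h6
  have b8' := CC_p4' h h1 h2 h3 h4 h5 h6
  have bR : 4 ≤ cA G ({x, r, s, t} : Finset ι) ∅ ∅ {x, r, s, t} := by
    have hb : Bal G {r, s} {x, t} := by
      refine ⟨⟨r, Finset.mem_insert_self _ _⟩, ?_, ?_, ?_, ?_, ?_⟩
      · rw [Finset.disjoint_left]
        intro i hi hi'
        simp only [Finset.mem_insert, Finset.mem_singleton] at hi hi'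
        rcases hi with e | e <;> rcases hi' with e' | e'
        · exact hxr (e'.symm.trans e)
        · exact hrt (e.symm.trans e')
        · exact hxs (e'.symm.trans e)
        · exact hst (e.symm.trans e')
      · intro a ha b hb hab
        simp only [Finset.mem_insert, Finset.mem_singleton] at ha hb
        rcases ha with e | e <;> rcases hb with e' | e'
        · exact absurd (e.trans e'.symm) hab
        · rw [e, e']
          exact h2
        · rw [e, e']
          exact h2.symm
        · exact absurd (e.trans e'.symm) hab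
      · intro a ha b hb
        simp only [Finset.mem_insert, Finset.mem_singleton] at ha hb
        rcases ha with e | e <;> rcases hb with e' | e'
        · rw [e, e']
          exact G.loopless.irrefl x
        · rw [e, e']
          exact h5
        · rw [e, e']
          exact fun h => h5 h.symm
        · rw [e, e']
          exact G.loopless.irrefl t
      · intro c hc
        simp only [Finset.mem_insert, Finset.mem_singleton] at hc
        rcases hc with e | e
        · refine ⟨x, Finset.mem_insert_self _ _, ?_⟩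
          rw [e]
          exact h1.symm
        · refine ⟨t, Finset.mem_insert_of_mem (Finset.mem_singleton_self _), ?_⟩
          rw [e]
          exact h3
      · intro c hc
        simp only [Finset.mem_insert, Finset.mem_singleton] at hc
        rcases hc with e | e
        · refine ⟨s, Finset.mem_insert_of_mem (Finset.mem_singleton_self _), ?_⟩
          rw [e]
          exact h4
        · refine ⟨r, Finset.mem_insert_self _ _, ?_⟩
          rw [e]
          exact fun h => h6 h.symm
    have hset : ({r, s} : Finset ι) ∪ {x, t} = {x, r, s, t} := by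
      ext i
      simp only [Finset.mem_insert, Finset.mem_singleton, Finset.mem_union]
      constructor
      · rintro ((e | e) | (e | e))
        · exact Or.inr (Or.inl e)
        · exact Or.inr (Or.inr (Or.inl e))
        · exact Or.inl e
        · exact Or.inr (Or.inr (Or.inr e))
      · rintro (e | e | e | e)
        · exact Or.inr (Or.inl e)
        · exact Or.inl (Or.inl e)
        · exact Or.inl (Or.inr e)
        · exact Or.inr (Or.inr e)
    have := bal_four h (W := ({x, r, s, t} : Finset ι)) hb (le_of_eq hset)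
    rw [hset] at this
    exact this
  obtain ⟨R, hR⟩ : ∃ R : Finset ι, R = {x, r, s, t} := ⟨_, rfl⟩
  have memR : ∀ i, i ∈ R ↔ i = x ∨ i = r ∨ i = s ∨ i = t := by
    intro i
    rw [hR]
    simp only [Finset.mem_insert, Finset.mem_singleton]
  rw [← hR] at b8 b8' bR ⊢
  have xR : x ∈ R := (memR x).2 (Or.inl rfl)
  have rR : r ∈ R := (memR r).2 (Or.inr (Or.inl rfl))
  have sR : s ∈ R := (memR s).2 (Or.inr (Or.inr (Or.inl rfl)))
  have tR : t ∈ R := (memR t).2 (Or.inr (Or.inr (Or.inr rfl)))
  have b0 := cA_empty h (R := R) (M0 := ∅) (M1 := ∅)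
  rw [Finset.union_empty] at b0
  obtain ⟨c1, c2, c3, c4⟩ := p4_half h xR rR sR tR h1 h2 h3 h4 h5 h6 hxs hxt hrt
  obtain ⟨c5, c6, c7, c8⟩ := p4_half h tR sR rR xR h3.symm h2.symm h1.symm
    (fun h => h6 h.symm) (fun h => h5 h.symm) (fun h => h4 h.symm) hrt.symm hxt.symm hxs.symm
  rw [Finset.pair_comm t s] at c7
  rw [Finset.pair_comm t r] at c8
  have two : ∀ A ⊆ R, 2 ≤ cA G R ∅ ∅ A := fun A hA =>
    cA_two h (Finset.disjoint_empty_right _) (Finset.disjoint_empty_right _)
      (Finset.disjoint_empty_right _) hA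
  have d1 := two {x, t} (Finset.insert_subset xR (Finset.singleton_subset_iff.2 tR))
  have d2 := two {r, s} (Finset.insert_subset rR (Finset.singleton_subset_iff.2 sR))
  have d3 := two {r, s, t} (Finset.insert_subset rR (Finset.insert_subset sR
    (Finset.singleton_subset_iff.2 tR)))
  have d4 := two {x, s, t} (Finset.insert_subset xR (Finset.insert_subset sR
    (Finset.singleton_subset_iff.2 tR)))
  have d5 := two {x, r, t} (Finset.insert_subset xR (Finset.insert_subset rR
    (Finset.singleton_subset_iff.2 tR)))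
  have d6 := two {x, r, s} (Finset.insert_subset xR (Finset.insert_subset rR
    (Finset.singleton_subset_iff.2 sR)))
  omega

end Pool.Agent.HNS
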