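import Pool.Agent.HNS.Prs

/-!
# Splitting the pairs by the letters at `r` (1)

`H = R ∪ M0 ∪ M1`. The three letters at `r` are coded by `(true, true)` (a), `(false, true)` (0),
`(true, false)` (1); see `lt`. By `cover` every word over a set containing `r` has exactly one of
the three letters at `r`.
PROOF of `nn_sum`: `Sg_eq`; a pair of `PR` is a pair which is perpendicular on `R.erase r`, satisfies
the `M`-conditions and has different letters at `r`; the six disjoint classes.
-/

set_option autoImplicit false
set_option linter.unusedSectionVars false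

open scoped Classical

namespace Pool.Agent.HNS

variable {ι : Type} [DecidableEq ι]

theorem lt_cases {G : SimpleGraph ι} (h : PF G) {W : Finset ι} {u : Wrd ι} (hu : u ∈ Wd G W)
    {r : ι} (hr : r ∈ W) : lt u r true true ∨ lt u r false true ∨ lt u r true false := by
  have hc := cover h hu hr
  unfold lt
  by_cases h1 : sL u r <;> by_cases h2 : kL u r <;> simp_all

theorem lt_unique {u : Wrd ι} {r : ι} {s k s' k' : Bool} (h : lt u r s k) (h' : lt u r s' k') :
    s = s' ∧ k = k' := by
  unfold lt at h h'
  obtain ⟨a, b⟩ := h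
  obtain ⟨a', b'⟩ := h'
  have e1 : (s = true) ↔ (s' = true) := a.symm.trans a'
  have e2 : (k = true) ↔ (k' = true) := b.symm.trans b'
  constructor
  · cases s <;> cases s' <;> simp_all
  · cases k <;> cases k' <;> simp_all

private theorem Nia_split {R : Finset ι} {r : ι} (hr : r ∈ R) (P : ι → Prop) :
    (∀ i ∈ R, P i) ↔ (∀ i ∈ R.erase r, P i) ∧ P r := by
  constructor
  · intro h
    exact ⟨fun i hi => h i (Finset.mem_of_mem_erase hi), h r hr⟩
  · rintro ⟨h1, h2⟩ i hi
    by_cases hir : i = r
    · rw [hir]; exact h2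
    · exact h1 i (Finset.mem_erase.2 ⟨hir, hi⟩)

theorem nn_sum {G : SimpleGraph ι} (h : PF G) {R M0 M1 : Finset ι} (d0 : Disjoint R M0)
    (d1 : Disjoint R M1) {r : ι} (hr : r ∈ R) :
    Sg G R M0 M1 =
      nn G R (R ∪ M0 ∪ M1) M0 M1 r true true false true +
      nn G R (R ∪ M0 ∪ M1) M0 M1 r true true true false +
      nn G R (R ∪ M0 ∪ M1) M0 M1 r false true true true +
      nn G R (R ∪ M0 ∪ M1) M0 M1 r true false true true +
      nn G R (R ∪ M0 ∪ M1) M0 M1 r false true true false +
      nn G R (R ∪ M0 ∪ M1) M0 M1 r true false false true := by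
  rw [Sg_eq h d0 d1]
  unfold PR nn
  simp only [Finset.card_filter]
  rw [← Finset.sum_add_distrib, ← Finset.sum_add_distrib, ← Finset.sum_add_distrib,
    ← Finset.sum_add_distrib, ← Finset.sum_add_distrib]
  refine Finset.sum_congr rfl fun p hp => ?_
  rw [Finset.mem_product] at hp
  have hrH : r ∈ R ∪ M0 ∪ M1 := Finset.mem_union_left _ (Finset.mem_union_left _ hr)
  have hc1 := cover h hp.1 hr
  have hc2 := cover h hp.2 hrH
  have hsplit : (∀ i ∈ R, perp p.1 p.2 i) ↔
      (∀ i ∈ R.erase r, perp p.1 p.2 i) ∧ perp p.1 p.2 r := Nia_split hr _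
  have hperp : perp p.1 p.2 r ↔
      ¬ ((sL p.1 r ↔ sL p.2 r) ∧ (kL p.1 r ↔ kL p.2 r)) := Iff.rfl
  simp only [hsplit, hperp, lt]
  by_cases hA : ∀ i ∈ R.erase r, perp p.1 p.2 i
  · by_cases hB : ∀ i ∈ M0, sL p.2 i
    · by_cases hC : ∀ i ∈ M1, kL p.2 i
      · have hA' := eq_true hA
        have hB' := eq_true hB
        have hC' := eq_true hC
        clear hsplit hperp hA hB hC
        by_cases a1 : sL p.1 r <;> by_cases a2 : kL p.1 r <;> by_cases a3 : sL p.2 r <;>
          by_cases a4 : kL p.2 r <;> simp only [hA', hB', hC', a1, a2, a3, a4, true_and] <;>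
          simp_all
      · have hC' := eq_false hC
        simp only [hC', and_false, false_and, if_false]
    · have hB' := eq_false hB
      simp only [hB', and_false, false_and, if_false]
  · have hA' := eq_false hA
    simp only [hA', false_and, if_false]

end Pool.Agent.HNS
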