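import Pool.Agent.HNS.Prs
import Pool.Agent.HNS.Nia

/-!
# Splitting the pairs by the letters at `r` (2)
-/

set_option autoImplicit false
set_option linter.unusedSectionVars false

open scoped Classical

namespace Pool.Agent.HNS

variable {ι : Type} [DecidableEq ι]

/-- the common condition -/
def NibQ (R M0 M1 : Finset ι) (r : ι) (y u : Wrd ι) : Prop :=
  (∀ i ∈ R.erase r, perp y u i) ∧ (∀ i ∈ M0, sL u i) ∧ ∀ i ∈ M1, kL u i

theorem Nib_eq (G : SimpleGraph ι) (R H M0 M1 : Finset ι) (r : ι) (s k s' k' : Bool) :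
    nn G R H M0 M1 r s k s' k' = ∑ y ∈ Wd G R, ∑ u ∈ Wd G H,
      if NibQ R M0 M1 r y u ∧ lt y r s k ∧ lt u r s' k' then 1 else 0 := by
  unfold nn
  rw [Finset.card_filter, Finset.sum_product]
  refine Finset.sum_congr rfl fun y _ => Finset.sum_congr rfl fun u _ => if_congr ?_ rfl rfl
  unfold NibQ
  simp only [and_assoc]

theorem Nib_sum (G : SimpleGraph ι) (R : Finset ι) (r : ι) (F : Wrd ι → ℕ) :
    ∑ v ∈ Wd G (R.erase r), F v = ∑ y ∈ Wd G R, if Uns {r} y then F (del {r} y) else 0 := by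
  rw [Finset.erase_eq, ← del_sum, Finset.sum_filter]

theorem Nib_uns (r : ι) (y : Wrd ι) : Uns {r} y ↔ ¬ (sL y r ∧ kL y r) := by
  unfold Uns
  simp

theorem Nib_perp {G : SimpleGraph ι} {R : Finset ι} {r i : ι} {y : Wrd ι} (hy : y ∈ Wd G R)
    (hu : Uns {r} y) (hi : i ≠ r) (u : Wrd ι) : perp (del {r} y) u i ↔ perp y u i := by
  have hi' : i ∉ ({r} : Finset ι) := by rwa [Finset.mem_singleton]
  unfold perp
  rw [sL_del hy hu hi', kL_del hy hu hi']

theorem Nib_perp' {G : SimpleGraph ι} {R : Finset ι} {r i : ι} {u : Wrd ι} (hy : u ∈ Wd G R)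
    (hu : Uns {r} u) (hi : i ≠ r) (y : Wrd ι) : perp y (del {r} u) i ↔ perp y u i := by
  have hi' : i ∉ ({r} : Finset ι) := by rwa [Finset.mem_singleton]
  unfold perp
  rw [sL_del hy hu hi', kL_del hy hu hi']

theorem Nib_four (y u : Wrd ι) (r : ι) (q : Prop) (h1 : sL y r ∨ kL y r)
    (h2 : sL u r ∨ kL u r) :
    ((if Uns {r} y then (if Uns {r} u then (if q then 1 else 0) else 0) else 0 : ℕ)) =
      (if q ∧ lt y r false true ∧ lt u r false true then 1 else 0) +
      (if q ∧ lt y r true false ∧ lt u r true false then 1 else 0) +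
      (if q ∧ lt y r false true ∧ lt u r true false then 1 else 0) +
      (if q ∧ lt y r true false ∧ lt u r false true then 1 else 0) := by
  unfold lt
  rw [Nib_uns, Nib_uns]
  by_cases hq : q <;> by_cases a1 : sL y r <;> by_cases a2 : kL y r <;>
    by_cases a3 : sL u r <;> by_cases a4 : kL u r <;> simp_all

theorem Nib_fours (y u : Wrd ι) (r : ι) (q : Prop) (h1 : sL y r ∨ kL y r)
    (h2 : sL u r ∨ kL u r) :
    ((if Uns {r} y then (if q ∧ sL u r then 1 else 0) else 0 : ℕ)) =
      (if q ∧ lt y r false true ∧ lt u r true true then 1 else 0) +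
      (if q ∧ lt y r false true ∧ lt u r true false then 1 else 0) +
      (if q ∧ lt y r true false ∧ lt u r true true then 1 else 0) +
      (if q ∧ lt y r true false ∧ lt u r true false then 1 else 0) := by
  unfold lt
  rw [Nib_uns]
  by_cases hq : q <;> by_cases a1 : sL y r <;> by_cases a2 : kL y r <;>
    by_cases a3 : sL u r <;> by_cases a4 : kL u r <;> simp_all

theorem Nib_fourk (y u : Wrd ι) (r : ι) (q : Prop) (h1 : sL y r ∨ kL y r)
    (h2 : sL u r ∨ kL u r) :
    ((if Uns {r} y then (if q ∧ kL u r then 1 else 0) else 0 : ℕ)) =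
      (if q ∧ lt y r false true ∧ lt u r true true then 1 else 0) +
      (if q ∧ lt y r false true ∧ lt u r false true then 1 else 0) +
      (if q ∧ lt y r true false ∧ lt u r true true then 1 else 0) +
      (if q ∧ lt y r true false ∧ lt u r false true then 1 else 0) := by
  unfold lt
  rw [Nib_uns]
  by_cases hq : q <;> by_cases a1 : sL y r <;> by_cases a2 : kL y r <;>
    by_cases a3 : sL u r <;> by_cases a4 : kL u r <;> simp_all

theorem Nib_ite (S : Finset (Wrd ι)) (c : Prop) (A : Wrd ι → ℕ) :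
    (if c then ∑ u ∈ S, A u else 0) = ∑ u ∈ S, if c then A u else 0 := by
  by_cases hc : c
  · simp only [if_pos hc]
  · simp only [if_neg hc, Finset.sum_const_zero]

theorem nn_del {G : SimpleGraph ι} (h : PF G) {R M0 M1 : Finset ι} (d0 : Disjoint R M0)
    (d1 : Disjoint R M1) {r : ι} (hr : r ∈ R) :
    Sg G (R.erase r) M0 M1 =
      nn G R (R ∪ M0 ∪ M1) M0 M1 r false true false true +
      nn G R (R ∪ M0 ∪ M1) M0 M1 r true false true false +
      nn G R (R ∪ M0 ∪ M1) M0 M1 r false true true false +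
      nn G R (R ∪ M0 ∪ M1) M0 M1 r true false false true := by
  have r0 : r ∉ M0 := Finset.disjoint_left.1 d0 hr
  have r1 : r ∉ M1 := Finset.disjoint_left.1 d1 hr
  have hrH : r ∈ R ∪ M0 ∪ M1 := Finset.mem_union_left _ (Finset.mem_union_left _ hr)
  have hH : R.erase r ∪ M0 ∪ M1 = (R ∪ M0 ∪ M1).erase r := by
    rw [Finset.erase_union_distrib, Finset.erase_union_distrib, Finset.erase_eq_of_notMem r0,
      Finset.erase_eq_of_notMem r1]
  have hsub := Finset.erase_subset r R
  rw [Sg_eq h (Finset.disjoint_of_subset_left hsub d0) (Finset.disjoint_of_subset_left hsub d1),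
    hH]
  unfold PR
  rw [Finset.card_filter, Finset.sum_product, Nib_sum, Nib_eq, Nib_eq, Nib_eq, Nib_eq,
    ← Finset.sum_add_distrib, ← Finset.sum_add_distrib, ← Finset.sum_add_distrib]
  refine Finset.sum_congr rfl fun y hy => ?_
  rw [Nib_sum, ← Finset.sum_add_distrib, ← Finset.sum_add_distrib, ← Finset.sum_add_distrib,
    Nib_ite]
  refine Finset.sum_congr rfl fun u hu => ?_
  rw [← Nib_four y u r (NibQ R M0 M1 r y u) (cover h hy hr) (cover h hu hrH)]
  refine if_ctx_congr Iff.rfl (fun hy2 => ?_) (fun _ => rfl)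
  refine if_ctx_congr Iff.rfl (fun hu2 => ?_) (fun _ => rfl)
  refine if_congr ?_ rfl rfl
  unfold NibQ
  refine and_congr ?_ (and_congr ?_ ?_)
  · refine forall₂_congr fun i hi => ?_
    have hir := Finset.ne_of_mem_erase hi
    rw [Nib_perp hy hy2 hir, Nib_perp' hu hu2 hir]
  · refine forall₂_congr fun i hi => ?_
    refine sL_del hu hu2 ?_
    rw [Finset.mem_singleton]
    rintro rfl
    exact r0 hi
  · refine forall₂_congr fun i hi => ?_
    refine kL_del hu hu2 ?_
    rw [Finset.mem_singleton]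
    rintro rfl
    exact r1 hi

theorem nn_M0 {G : SimpleGraph ι} (h : PF G) {R M0 M1 : Finset ι} (d0 : Disjoint R M0)
    (d1 : Disjoint R M1) {r : ι} (hr : r ∈ R) :
    Sg G (R.erase r) (insert r M0) M1 =
      nn G R (R ∪ M0 ∪ M1) M0 M1 r false true true true +
      nn G R (R ∪ M0 ∪ M1) M0 M1 r false true true false +
      nn G R (R ∪ M0 ∪ M1) M0 M1 r true false true true +
      nn G R (R ∪ M0 ∪ M1) M0 M1 r true false true false := by
  have hrH : r ∈ R ∪ M0 ∪ M1 := Finset.mem_union_left _ (Finset.mem_union_left _ hr)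
  have hH : R.erase r ∪ insert r M0 ∪ M1 = R ∪ M0 ∪ M1 := by
    ext i
    simp only [Finset.mem_union, Finset.mem_erase, Finset.mem_insert]
    constructor
    · rintro ((⟨_, hi⟩ | (rfl | hi)) | hi)
      · exact Or.inl (Or.inl hi)
      · exact Or.inl (Or.inl hr)
      · exact Or.inl (Or.inr hi)
      · exact Or.inr hi
    · rintro ((hi | hi) | hi)
      · by_cases hir : i = r
        · exact Or.inl (Or.inr (Or.inl hir))
        · exact Or.inl (Or.inl ⟨hir, hi⟩)
      · exact Or.inl (Or.inr (Or.inr hi))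
      · exact Or.inr hi
  have hsub := Finset.erase_subset r R
  have dd : Disjoint (R.erase r) (insert r M0) := by
    rw [Finset.disjoint_insert_right]
    exact ⟨Finset.notMem_erase r R, Finset.disjoint_of_subset_left hsub d0⟩
  rw [Sg_eq h dd (Finset.disjoint_of_subset_left hsub d1), hH]
  unfold PR
  rw [Finset.card_filter, Finset.sum_product, Nib_sum, Nib_eq, Nib_eq, Nib_eq, Nib_eq,
    ← Finset.sum_add_distrib, ← Finset.sum_add_distrib, ← Finset.sum_add_distrib]
  refine Finset.sum_congr rfl fun y hy => ?_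
  rw [← Finset.sum_add_distrib, ← Finset.sum_add_distrib, ← Finset.sum_add_distrib,
    Nib_ite]
  refine Finset.sum_congr rfl fun u hu => ?_
  rw [← Nib_fours y u r (NibQ R M0 M1 r y u) (cover h hy hr) (cover h hu hrH)]
  refine if_ctx_congr Iff.rfl (fun hy2 => ?_) (fun _ => rfl)
  refine if_congr ?_ rfl rfl
  unfold NibQ
  have e1 : (∀ i ∈ R.erase r, perp (del {r} y) u i) ↔ ∀ i ∈ R.erase r, perp y u i :=
    forall₂_congr fun i hi => Nib_perp hy hy2 (Finset.ne_of_mem_erase hi) u
  have e2 : (∀ i ∈ insert r M0, sL u i) ↔ sL u r ∧ ∀ i ∈ M0, sL u i :=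
    Finset.forall_mem_insert _ _ _
  simp only [e1, e2]
  tauto

theorem nn_M1 {G : SimpleGraph ι} (h : PF G) {R M0 M1 : Finset ι} (d0 : Disjoint R M0)
    (d1 : Disjoint R M1) {r : ι} (hr : r ∈ R) :
    Sg G (R.erase r) M0 (insert r M1) =
      nn G R (R ∪ M0 ∪ M1) M0 M1 r false true true true +
      nn G R (R ∪ M0 ∪ M1) M0 M1 r false true false true +
      nn G R (R ∪ M0 ∪ M1) M0 M1 r true false true true +
      nn G R (R ∪ M0 ∪ M1) M0 M1 r true false false true := by
  have hrH : r ∈ R ∪ M0 ∪ M1 := Finset.mem_union_left _ (Finset.mem_union_left _ hr)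
  have hH : R.erase r ∪ M0 ∪ insert r M1 = R ∪ M0 ∪ M1 := by
    ext i
    simp only [Finset.mem_union, Finset.mem_erase, Finset.mem_insert]
    constructor
    · rintro ((⟨_, hi⟩ | hi) | (rfl | hi))
      · exact Or.inl (Or.inl hi)
      · exact Or.inl (Or.inr hi)
      · exact Or.inl (Or.inl hr)
      · exact Or.inr hi
    · rintro ((hi | hi) | hi)
      · by_cases hir : i = r
        · exact Or.inr (Or.inl hir)
        · exact Or.inl (Or.inl ⟨hir, hi⟩)
      · exact Or.inl (Or.inr hi)
      · exact Or.inr (Or.inr hi)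
  have hsub := Finset.erase_subset r R
  have dd : Disjoint (R.erase r) (insert r M1) := by
    rw [Finset.disjoint_insert_right]
    exact ⟨Finset.notMem_erase r R, Finset.disjoint_of_subset_left hsub d1⟩
  rw [Sg_eq h (Finset.disjoint_of_subset_left hsub d0) dd, hH]
  unfold PR
  rw [Finset.card_filter, Finset.sum_product, Nib_sum, Nib_eq, Nib_eq, Nib_eq, Nib_eq,
    ← Finset.sum_add_distrib, ← Finset.sum_add_distrib, ← Finset.sum_add_distrib]
  refine Finset.sum_congr rfl fun y hy => ?_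
  rw [← Finset.sum_add_distrib, ← Finset.sum_add_distrib, ← Finset.sum_add_distrib,
    Nib_ite]
  refine Finset.sum_congr rfl fun u hu => ?_
  rw [← Nib_fourk y u r (NibQ R M0 M1 r y u) (cover h hy hr) (cover h hu hrH)]
  refine if_ctx_congr Iff.rfl (fun hy2 => ?_) (fun _ => rfl)
  refine if_congr ?_ rfl rfl
  unfold NibQ
  have e1 : (∀ i ∈ R.erase r, perp (del {r} y) u i) ↔ ∀ i ∈ R.erase r, perp y u i :=
    forall₂_congr fun i hi => Nib_perp hy hy2 (Finset.ne_of_mem_erase hi) u
  have e2 : (∀ i ∈ insert r M1, kL u i) ↔ kL u r ∧ ∀ i ∈ M1, kL u i :=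
    Finset.forall_mem_insert _ _ _
  simp only [e1, e2]
  tauto

end Pool.Agent.HNS
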