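import Pool.Agent.HNS.Prs
import Pool.Agent.HNS.Nia
import Pool.Agent.HNS.Cnt
import Pool.Agent.HNS.Ltr

/-!
# Inequalities between the classes

PROOF of `nn_left`: group the pairs by the second word `u ∈ Wd G H` (with its conditions and letter
`(s', k')` at `r`). For fixed `u` the first words are `y ∈ Wd G R` with `perp y u i` on `R.erase r`,
i.e. (perp_iff with the roles exchanged, perp_comm; `Sp H u ∩ R` etc.) `Uns A y` with
`A = (Sp H u ∩ R).erase r`, `sL y` on `X = (Zr H u ∩ R).erase r`, `kL y` on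
`Y = (On H u ∩ R).erase r`, and letter `(s, k)` at `r`. If `(s, k) = (false, true)` use `cnt_lift0`,
if `(true, false)` use `cnt_lift1`, if `(true, true)` trivial, and `(false, false)` is impossible by
`cover`. `nn_right`: group by the first word `y`: `A = (Sp R y).erase r`,
`X = (Zr R y).erase r ∪ M0`, `Y = (On R y).erase r ∪ M1`.
PROOF of the vanishing lemmas: `nn_zero11`: letter `1` at `r` in both words gives letter `1` at
`x ∈ R.erase r` in both words (domA_letter; for `y` use `DomA G R x r`), not perpendicular at `x`.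
`nn_zero00`: domN_letter. `nn_zeroM1`: letter `1` of `u` at `r` gives letter `1` at `x ∈ M1`, but
`kL u x`. `nn_zeroM0`: similar. `nn_symm`: `Prod.swap`, perp_comm.
-/

set_option autoImplicit false
set_option linter.unusedSectionVars false

open scoped Classical

namespace Pool.Agent.HNS

variable {ι : Type} [DecidableEq ι]

private theorem Nic_core {G : SimpleGraph ι} (h : PF G) {W A X Y : Finset ι} {r : ι} (hr : r ∈ W)
    (hrA : r ∉ A) (hX : Disjoint X A) (hY : Disjoint Y A) (s k : Bool) :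
    ((Wd G W).filter fun u => (Uns A u ∧ (∀ i ∈ X, sL u i) ∧ (∀ i ∈ Y, kL u i)) ∧
      lt u r s k).card ≤
    ((Wd G W).filter fun u => (Uns A u ∧ (∀ i ∈ X, sL u i) ∧ (∀ i ∈ Y, kL u i)) ∧
      lt u r true true).card := by
  have htt : ((Wd G W).filter fun u => Uns A u ∧ (∀ i ∈ X, sL u i) ∧ (∀ i ∈ Y, kL u i) ∧
      sL u r ∧ kL u r).card ≤
      ((Wd G W).filter fun u => (Uns A u ∧ (∀ i ∈ X, sL u i) ∧ (∀ i ∈ Y, kL u i)) ∧
      lt u r true true).card := by
    refine Finset.card_le_card ?_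
    intro u hu
    rw [Finset.mem_filter] at hu ⊢
    obtain ⟨h0, h1, h2, h3, h4, h5⟩ := hu
    exact ⟨h0, ⟨h1, h2, h3⟩, ⟨fun _ => rfl, fun _ => h4⟩, ⟨fun _ => rfl, fun _ => h5⟩⟩
  cases s <;> cases k
  · rw [Finset.filter_false_of_mem]
    · rw [Finset.card_empty]
      exact Nat.zero_le _
    · rintro u hu ⟨_, h1, h2⟩
      rcases cover h hu hr with h3 | h3
      · exact Bool.false_ne_true (h1.1 h3)
      · exact Bool.false_ne_true (h2.1 h3)
  · refine le_trans (Finset.card_le_card ?_) ((cnt_lift0 h hr hrA hX hY).trans htt)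
    intro u hu
    rw [Finset.mem_filter] at hu ⊢
    obtain ⟨h0, ⟨h1, h2, h3⟩, h4, h5⟩ := hu
    exact ⟨h0, h1, h2, h3, h5.2 rfl, fun hh => Bool.false_ne_true (h4.1 hh)⟩
  · refine le_trans (Finset.card_le_card ?_) ((cnt_lift1 h hr hrA hX hY).trans htt)
    intro u hu
    rw [Finset.mem_filter] at hu ⊢
    obtain ⟨h0, ⟨h1, h2, h3⟩, h4, h5⟩ := hu
    exact ⟨h0, h1, h2, h3, h4.2 rfl, fun hh => Bool.false_ne_true (h5.1 hh)⟩
  · exact le_rfl

private theorem Nic_core' {G : SimpleGraph ι} (h : PF G) {W A X Y : Finset ι} {r : ι} (hr : r ∈ W)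
    (hrA : r ∉ A) (hX : Disjoint X A) (hY : Disjoint Y A) (s k : Bool) {P Q : Wrd ι → Prop}
    [DecidablePred P] [DecidablePred Q]
    (hP : ∀ u ∈ Wd G W, P u → (Uns A u ∧ (∀ i ∈ X, sL u i) ∧ (∀ i ∈ Y, kL u i)) ∧ lt u r s k)
    (hQ : ∀ u ∈ Wd G W, (Uns A u ∧ (∀ i ∈ X, sL u i) ∧ (∀ i ∈ Y, kL u i)) ∧
      lt u r true true → Q u) :
    ((Wd G W).filter P).card ≤ ((Wd G W).filter Q).card := by
  refine le_trans (Finset.card_le_card ?_) ((Nic_core h hr hrA hX hY s k).trans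
    (Finset.card_le_card ?_))
  · intro u hu
    rw [Finset.mem_filter] at hu ⊢
    exact ⟨hu.1, hP u hu.1 hu.2⟩
  · intro u hu
    rw [Finset.mem_filter] at hu ⊢
    exact ⟨hu.1, hQ u hu.1 hu.2⟩

private theorem Nic_right_sum {α β : Type*} (A : Finset α) (B : Finset β) (p : α × β → Prop)
    [DecidablePred p] :
    ((A ×ˢ B).filter p).card = ∑ b ∈ B, (A.filter fun a => p (a, b)).card := by
  rw [Finset.card_filter, Finset.sum_product_right]
  exact Finset.sum_congr rfl fun b _ => (Finset.card_filter _ _).symm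

private theorem Nic_left_sum {α β : Type*} (A : Finset α) (B : Finset β) (p : α × β → Prop)
    [DecidablePred p] :
    ((A ×ˢ B).filter p).card = ∑ a ∈ A, (B.filter fun b => p (a, b)).card := by
  rw [Finset.card_filter, Finset.sum_product]
  exact Finset.sum_congr rfl fun b _ => (Finset.card_filter _ _).symm

theorem nn_left {G : SimpleGraph ι} (h : PF G) {R M0 M1 : Finset ι} (d0 : Disjoint R M0)
    (d1 : Disjoint R M1) {r : ι} (hr : r ∈ R) (s k s' k' : Bool) :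
    nn G R (R ∪ M0 ∪ M1) M0 M1 r s k s' k' ≤
      nn G R (R ∪ M0 ∪ M1) M0 M1 r true true s' k' := by
  unfold nn
  rw [Nic_right_sum, Nic_right_sum]
  refine Finset.sum_le_sum fun u hu => ?_
  by_cases hc : (∀ i ∈ M0, sL u i) ∧ (∀ i ∈ M1, kL u i) ∧ lt u r s' k'
  · have hpe : ∀ y ∈ Wd G R, ∀ i ∈ R.erase r, (perp y u i ↔
        (i ∈ Sp (R ∪ M0 ∪ M1) u → ¬ (sL y i ∧ kL y i)) ∧
        (i ∈ Zr (R ∪ M0 ∪ M1) u → sL y i) ∧ (i ∈ On (R ∪ M0 ∪ M1) u → kL y i)) := by
      intro y hy i hi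
      have hiR : i ∈ R := Finset.mem_of_mem_erase hi
      rw [perp_comm]
      exact perp_iff h hu hy (Finset.mem_union_left _ (Finset.mem_union_left _ hiR)) hiR
    refine Nic_core' h (A := (Sp (R ∪ M0 ∪ M1) u ∩ R).erase r)
      (X := (Zr (R ∪ M0 ∪ M1) u ∩ R).erase r) (Y := (On (R ∪ M0 ∪ M1) u ∩ R).erase r) hr
      (Finset.notMem_erase r _) ?_ ?_ s k ?_ ?_
    · rw [Finset.disjoint_left]
      intro i hi hi'
      rw [Finset.mem_erase, Finset.mem_inter] at hi hi'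
      exact (mem_Zr.1 hi.2.1).2.2 (mem_Sp.1 hi'.2.1).2.1
    · rw [Finset.disjoint_left]
      intro i hi hi'
      rw [Finset.mem_erase, Finset.mem_inter] at hi hi'
      exact (mem_On.1 hi.2.1).2.2 (mem_Sp.1 hi'.2.1).2.2
    · rintro y hy ⟨h1, _, _, h4, _⟩
      refine ⟨⟨?_, ?_, ?_⟩, h4⟩
      · intro i hi
        rw [Finset.mem_erase, Finset.mem_inter] at hi
        exact ((hpe y hy i (Finset.mem_erase.2 ⟨hi.1, hi.2.2⟩)).1
          (h1 i (Finset.mem_erase.2 ⟨hi.1, hi.2.2⟩))).1 hi.2.1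
      · intro i hi
        rw [Finset.mem_erase, Finset.mem_inter] at hi
        exact ((hpe y hy i (Finset.mem_erase.2 ⟨hi.1, hi.2.2⟩)).1
          (h1 i (Finset.mem_erase.2 ⟨hi.1, hi.2.2⟩))).2.1 hi.2.1
      · intro i hi
        rw [Finset.mem_erase, Finset.mem_inter] at hi
        exact ((hpe y hy i (Finset.mem_erase.2 ⟨hi.1, hi.2.2⟩)).1
          (h1 i (Finset.mem_erase.2 ⟨hi.1, hi.2.2⟩))).2.2 hi.2.1
    · rintro y hy ⟨⟨h1, h2, h3⟩, h4⟩
      refine ⟨?_, hc.1, hc.2.1, h4, hc.2.2⟩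
      intro i hi
      have hi' := Finset.mem_erase.1 hi
      refine (hpe y hy i hi).2 ⟨fun hh => ?_, fun hh => ?_, fun hh => ?_⟩
      · exact h1 i (Finset.mem_erase.2 ⟨hi'.1, Finset.mem_inter.2 ⟨hh, hi'.2⟩⟩)
      · exact h2 i (Finset.mem_erase.2 ⟨hi'.1, Finset.mem_inter.2 ⟨hh, hi'.2⟩⟩)
      · exact h3 i (Finset.mem_erase.2 ⟨hi'.1, Finset.mem_inter.2 ⟨hh, hi'.2⟩⟩)
  · rw [Finset.filter_false_of_mem]
    · rw [Finset.card_empty]
      exact Nat.zero_le _
    · rintro y _ ⟨_, h2, h3, _, h5⟩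
      exact hc ⟨h2, h3, h5⟩

theorem nn_right {G : SimpleGraph ι} (h : PF G) {R M0 M1 : Finset ι} (d0 : Disjoint R M0)
    (d1 : Disjoint R M1) {r : ι} (hr : r ∈ R) (s k s' k' : Bool) :
    nn G R (R ∪ M0 ∪ M1) M0 M1 r s k s' k' ≤
      nn G R (R ∪ M0 ∪ M1) M0 M1 r s k true true := by
  unfold nn
  rw [Nic_left_sum, Nic_left_sum]
  refine Finset.sum_le_sum fun y hy => ?_
  by_cases hc : lt y r s k
  · have hpe : ∀ u ∈ Wd G (R ∪ M0 ∪ M1), ∀ i ∈ R, (perp y u i ↔
        (i ∈ Sp R y → ¬ (sL u i ∧ kL u i)) ∧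
        (i ∈ Zr R y → sL u i) ∧ (i ∈ On R y → kL u i)) := by
      intro u hu i hiR
      exact perp_iff h hy hu hiR (Finset.mem_union_left _ (Finset.mem_union_left _ hiR))
    refine Nic_core' h (A := (Sp R y).erase r) (X := (Zr R y).erase r ∪ M0)
      (Y := (On R y).erase r ∪ M1) (Finset.mem_union_left _ (Finset.mem_union_left _ hr))
      (Finset.notMem_erase r _) ?_ ?_ s' k' ?_ ?_
    · rw [Finset.disjoint_left]
      intro i hi hi'
      rw [Finset.mem_union, Finset.mem_erase] at hi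
      rw [Finset.mem_erase] at hi'
      rcases hi with hi | hi
      · exact (mem_Zr.1 hi.2).2.2 (mem_Sp.1 hi'.2).2.1
      · exact Finset.disjoint_left.1 d0 (mem_Sp.1 hi'.2).1 hi
    · rw [Finset.disjoint_left]
      intro i hi hi'
      rw [Finset.mem_union, Finset.mem_erase] at hi
      rw [Finset.mem_erase] at hi'
      rcases hi with hi | hi
      · exact (mem_On.1 hi.2).2.2 (mem_Sp.1 hi'.2).2.2
      · exact Finset.disjoint_left.1 d1 (mem_Sp.1 hi'.2).1 hi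
    · rintro u hu ⟨h1, h2, h3, _, h5⟩
      refine ⟨⟨?_, ?_, ?_⟩, h5⟩
      · intro i hi
        rw [Finset.mem_erase] at hi
        have hiR : i ∈ R := (mem_Sp.1 hi.2).1
        exact ((hpe u hu i hiR).1 (h1 i (Finset.mem_erase.2 ⟨hi.1, hiR⟩))).1 hi.2
      · intro i hi
        rw [Finset.mem_union, Finset.mem_erase] at hi
        rcases hi with hi | hi
        · have hiR : i ∈ R := (mem_Zr.1 hi.2).1
          exact ((hpe u hu i hiR).1 (h1 i (Finset.mem_erase.2 ⟨hi.1, hiR⟩))).2.1 hi.2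
        · exact h2 i hi
      · intro i hi
        rw [Finset.mem_union, Finset.mem_erase] at hi
        rcases hi with hi | hi
        · have hiR : i ∈ R := (mem_On.1 hi.2).1
          exact ((hpe u hu i hiR).1 (h1 i (Finset.mem_erase.2 ⟨hi.1, hiR⟩))).2.2 hi.2
        · exact h3 i hi
    · rintro u hu ⟨⟨h1, h2, h3⟩, h4⟩
      refine ⟨?_, fun i hi => h2 i (Finset.mem_union_right _ hi),
        fun i hi => h3 i (Finset.mem_union_right _ hi), hc, h4⟩
      intro i hi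
      have hi' := Finset.mem_erase.1 hi
      refine (hpe u hu i hi'.2).2 ⟨fun hh => ?_, fun hh => ?_, fun hh => ?_⟩
      · exact h1 i (Finset.mem_erase.2 ⟨hi'.1, hh⟩)
      · exact h2 i (Finset.mem_union_left _ (Finset.mem_erase.2 ⟨hi'.1, hh⟩))
      · exact h3 i (Finset.mem_union_left _ (Finset.mem_erase.2 ⟨hi'.1, hh⟩))
  · rw [Finset.filter_false_of_mem]
    · rw [Finset.card_empty]
      exact Nat.zero_le _
    · rintro u _ ⟨_, _, _, h4, _⟩
      exact hc h4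

theorem nn_zero11 {G : SimpleGraph ι} {R M0 M1 : Finset ι} {x r : ι}
    (hx : x ∈ R) (hd : DomA G (R ∪ M0 ∪ M1) x r) :
    nn G R (R ∪ M0 ∪ M1) M0 M1 r true false true false = 0 := by
  unfold nn
  rw [Finset.card_eq_zero, Finset.filter_eq_empty_iff]
  rintro ⟨y, u⟩ hp ⟨h1, _, _, h4, h5⟩
  rw [Finset.mem_product] at hp
  have hdR : DomA G R x r :=
    ⟨hd.1, fun v hv => hd.2 v (Finset.mem_union_left _ (Finset.mem_union_left _ hv))⟩
  have hy := domA_letter hp.1 hx hdR (h4.1.2 rfl) (fun hh => Bool.false_ne_true (h4.2.1 hh))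
  have hu := domA_letter hp.2 (Finset.mem_union_left _ (Finset.mem_union_left _ hx)) hd
    (h5.1.2 rfl) (fun hh => Bool.false_ne_true (h5.2.1 hh))
  have hxr : x ≠ r := hd.1.ne
  refine h1 x (Finset.mem_erase.2 ⟨hxr, hx⟩) ⟨?_, ?_⟩
  · exact ⟨fun _ => hu.1, fun _ => hy.1⟩
  · exact ⟨fun hh => absurd hh hy.2, fun hh => absurd hh hu.2⟩

theorem nn_zero00 {G : SimpleGraph ι} {R M0 M1 : Finset ι} {x r : ι}
    (hx : x ∈ R) (hd : DomN G (R ∪ M0 ∪ M1) x r) :
    nn G R (R ∪ M0 ∪ M1) M0 M1 r false true false true = 0 := by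
  unfold nn
  rw [Finset.card_eq_zero, Finset.filter_eq_empty_iff]
  rintro ⟨y, u⟩ hp ⟨h1, _, _, h4, h5⟩
  rw [Finset.mem_product] at hp
  have hdR : DomN G R x r :=
    ⟨hd.1, hd.2.1, fun v hv => hd.2.2 v (Finset.mem_union_left _ (Finset.mem_union_left _ hv))⟩
  have hy := domN_letter hp.1 hx hdR (h4.2.2 rfl) (fun hh => Bool.false_ne_true (h4.1.1 hh))
  have hu := domN_letter hp.2 (Finset.mem_union_left _ (Finset.mem_union_left _ hx)) hd
    (h5.2.2 rfl) (fun hh => Bool.false_ne_true (h5.1.1 hh))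
  refine h1 x (Finset.mem_erase.2 ⟨hd.1, hx⟩) ⟨?_, ?_⟩
  · exact ⟨fun hh => absurd hh hy.2, fun hh => absurd hh hu.2⟩
  · exact ⟨fun _ => hu.1, fun _ => hy.1⟩

theorem nn_zeroM1 {G : SimpleGraph ι} {R M0 M1 : Finset ι} {x r : ι}
    (hx : x ∈ M1) (hd : DomA G (R ∪ M0 ∪ M1) x r) (s k : Bool) :
    nn G R (R ∪ M0 ∪ M1) M0 M1 r s k true false = 0 := by
  unfold nn
  rw [Finset.card_eq_zero, Finset.filter_eq_empty_iff]
  rintro ⟨y, u⟩ hp ⟨_, _, h3, _, h5⟩
  rw [Finset.mem_product] at hp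
  have hu := domA_letter hp.2 (Finset.mem_union_right _ hx) hd
    (h5.1.2 rfl) (fun hh => Bool.false_ne_true (h5.2.1 hh))
  exact hu.2 (h3 x hx)

theorem nn_zeroM0 {G : SimpleGraph ι} {R M0 M1 : Finset ι} {x r : ι}
    (hx : x ∈ M0) (hd : DomN G (R ∪ M0 ∪ M1) x r) (s k : Bool) :
    nn G R (R ∪ M0 ∪ M1) M0 M1 r s k false true = 0 := by
  unfold nn
  rw [Finset.card_eq_zero, Finset.filter_eq_empty_iff]
  rintro ⟨y, u⟩ hp ⟨_, h2, _, _, h5⟩
  rw [Finset.mem_product] at hp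
  have hu := domN_letter hp.2 (Finset.mem_union_left _ (Finset.mem_union_right _ hx)) hd
    (h5.2.2 rfl) (fun hh => Bool.false_ne_true (h5.1.1 hh))
  exact hu.2 (h2 x hx)

theorem nn_symm (G : SimpleGraph ι) (R : Finset ι) (r : ι) (s k s' k' : Bool) :
    nn G R R ∅ ∅ r s k s' k' = nn G R R ∅ ∅ r s' k' s k := by
  unfold nn
  refine Finset.card_nbij' Prod.swap Prod.swap ?_ ?_ (fun _ _ => rfl) (fun _ _ => rfl)
  · rintro ⟨y, u⟩ hp
    simp only [Finset.coe_filter, Finset.mem_product, Set.mem_ofPred_eq, Prod.swap_prod_mk] at hp ⊢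
    obtain ⟨⟨h0, h0'⟩, h1, _, _, h4, h5⟩ := hp
    exact ⟨⟨h0', h0⟩, fun i hi => (perp_comm _ _ _).1 (h1 i hi),
      fun i hi => absurd hi (Finset.notMem_empty i),
      fun i hi => absurd hi (Finset.notMem_empty i), h5, h4⟩
  · rintro ⟨y, u⟩ hp
    simp only [Finset.coe_filter, Finset.mem_product, Set.mem_ofPred_eq, Prod.swap_prod_mk] at hp ⊢
    obtain ⟨⟨h0, h0'⟩, h1, _, _, h4, h5⟩ := hp
    exact ⟨⟨h0', h0⟩, fun i hi => (perp_comm _ _ _).1 (h1 i hi),
      fun i hi => absurd hi (Finset.notMem_empty i),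
      fun i hi => absurd hi (Finset.notMem_empty i), h5, h4⟩

end Pool.Agent.HNS
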