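import Pool.Agent.HNS.Nia
import Pool.Agent.HNS.Nib
import Pool.Agent.HNS.Nic

/-!
# The relative pair lemma

Write `n_{ij}` for the class with letters `i` (first word), `j` (second word) at `r`;
`Sg(R) = n_{a0} + n_{a1} + n_{0a} + n_{1a} + n_{01} + n_{10}` (nn_sum),
`Sg(R - r) = n_{00} + n_{11} + n_{01} + n_{10}` (nn_del), `n_{aj} ≥ n_{ij}`, `n_{ia} ≥ n_{ij}`.
`rpl_R`, DomA: `n_{11} = 0`; `n_{a0}, n_{0a} ≥ n_{00}`, `n_{1a} ≥ n_{10}`, `n_{a1} ≥ n_{01}`.
`rpl_R`, DomN: `n_{00} = 0`; `n_{a1}, n_{1a} ≥ n_{11}`, `n_{a0} ≥ n_{10}`, `n_{0a} ≥ n_{01}`.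
`rpl_M1`: `n_{01} = n_{11} = 0`; `n_{a0}, n_{0a} ≥ n_{00}`, `n_{1a} ≥ n_{10}`, and `n_{10}`.
`rpl_M0`: `n_{00} = n_{10} = 0`; `n_{a1}, n_{1a} ≥ n_{11}`, `n_{0a} ≥ n_{01}`, and `n_{01}`.
`rpl_halfN` (`M0 = M1 = ∅`, `n_{ij} = n_{ji}`, `n_{00} = 0`): by nn_M1
`2 Sg(R - r; ∅, {r}) = 2 (n_{0a} + n_{00} + n_{1a} + n_{10}) = Sg(R)`.
`rpl_halfA`: `n_{11} = 0`, `2 Sg(R - r; {r}, ∅) = 2 (n_{0a} + n_{01} + n_{1a} + n_{11}) = Sg(R)`.
-/

set_option autoImplicit false
set_option linter.unusedSectionVars false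

open scoped Classical

namespace Pool.Agent.HNS

variable {ι : Type} [DecidableEq ι]

theorem rpl_R {G : SimpleGraph ι} (h : PF G) {R M0 M1 : Finset ι} (d0 : Disjoint R M0)
    (d1 : Disjoint R M1) {x r : ι} (hx : x ∈ R) (hr : r ∈ R)
    (hd : DomA G (R ∪ M0 ∪ M1) x r ∨ DomN G (R ∪ M0 ∪ M1) x r) :
    2 * Sg G (R.erase r) M0 M1 ≤ Sg G R M0 M1 := by
  rw [nn_sum h d0 d1 hr, nn_del h d0 d1 hr]
  rcases hd with hd | hd
  · have h0 := nn_zero11 hx hd
    have h1 := nn_left h d0 d1 hr false true false true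
    have h2 := nn_right h d0 d1 hr false true false true
    have h3 := nn_right h d0 d1 hr true false false true
    have h4 := nn_left h d0 d1 hr false true true false
    omega
  · have h0 := nn_zero00 hx hd
    have h1 := nn_left h d0 d1 hr true false true false
    have h2 := nn_right h d0 d1 hr true false true false
    have h3 := nn_left h d0 d1 hr true false false true
    have h4 := nn_right h d0 d1 hr false true true false
    omega

theorem rpl_M1 {G : SimpleGraph ι} (h : PF G) {R M0 M1 : Finset ι} (d0 : Disjoint R M0)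
    (d1 : Disjoint R M1) {x r : ι} (hx : x ∈ M1) (hr : r ∈ R)
    (hd : DomA G (R ∪ M0 ∪ M1) x r) :
    2 * Sg G (R.erase r) M0 M1 ≤ Sg G R M0 M1 := by
  rw [nn_sum h d0 d1 hr, nn_del h d0 d1 hr]
  have h0 := nn_zeroM1 (R := R) (M0 := M0) hx hd false true
  have h0' := nn_zeroM1 (R := R) (M0 := M0) hx hd true false
  have h1 := nn_left h d0 d1 hr false true false true
  have h2 := nn_right h d0 d1 hr false true false true
  have h3 := nn_right h d0 d1 hr true false false true
  omega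

theorem rpl_M0 {G : SimpleGraph ι} (h : PF G) {R M0 M1 : Finset ι} (d0 : Disjoint R M0)
    (d1 : Disjoint R M1) {x r : ι} (hx : x ∈ M0) (hr : r ∈ R)
    (hd : DomN G (R ∪ M0 ∪ M1) x r) :
    2 * Sg G (R.erase r) M0 M1 ≤ Sg G R M0 M1 := by
  rw [nn_sum h d0 d1 hr, nn_del h d0 d1 hr]
  have h0 := nn_zeroM0 (R := R) (M1 := M1) hx hd false true
  have h0' := nn_zeroM0 (R := R) (M1 := M1) hx hd true false
  have h1 := nn_left h d0 d1 hr true false true false
  have h2 := nn_right h d0 d1 hr true false true false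
  have h3 := nn_right h d0 d1 hr false true true false
  omega

theorem rpl_halfN {G : SimpleGraph ι} (h : PF G) {R : Finset ι} {x r : ι} (hx : x ∈ R)
    (hr : r ∈ R) (hd : DomN G R x r) : 2 * Sg G (R.erase r) ∅ {r} ≤ Sg G R ∅ ∅ := by
  have e := Finset.disjoint_empty_right R
  have s := nn_sum h e e hr
  have t := nn_M1 h e e hr
  have h0 := nn_zero00 (M0 := ∅) (M1 := ∅) hx (by simpa only [Finset.union_empty] using hd)
  simp only [Finset.union_empty, insert_empty_eq] at s t h0
  have e1 := nn_symm G R r true true false true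
  have e2 := nn_symm G R r true true true false
  have e3 := nn_symm G R r false true true false
  omega

theorem rpl_halfA {G : SimpleGraph ι} (h : PF G) {R : Finset ι} {x r : ι} (hx : x ∈ R)
    (hr : r ∈ R) (hd : DomA G R x r) : 2 * Sg G (R.erase r) {r} ∅ ≤ Sg G R ∅ ∅ := by
  have e := Finset.disjoint_empty_right R
  have s := nn_sum h e e hr
  have t := nn_M0 h e e hr
  have h0 := nn_zero11 (M0 := ∅) (M1 := ∅) hx (by simpa only [Finset.union_empty] using hd)
  simp only [Finset.union_empty, insert_empty_eq] at s t h0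
  have e1 := nn_symm G R r true true false true
  have e2 := nn_symm G R r true true true false
  have e3 := nn_symm G R r false true true false
  omega

end Pool.Agent.HNS
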