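import Pool.Agent.HNS.Fib
import Pool.Agent.HNS.Rpl
import Pool.Agent.HNS.Mon

/-!
# Small instances

PROOF. `Sg_empty`: `Sg_fib` (only `A = ∅`), `cA_empty`, `CC_two`. `Sg_one`: `Sg_fib`: the supports
`∅` (`cA_empty`, `CC_two` twice: `≥ 4`) and `{r}` (`cA_two`). `Sg_single1`: `Sg_mono` from
`Sg G {r} ∅ {m}`; there `DomA G ({r} ∪ ∅ ∪ {m}) m r`, so by `rpl_M1` it is at least
`2 * Sg G ({r}.erase r) ∅ {m} ≥ 8`. `Sg_single0`: the same with `rpl_M0`, or complement.
-/

set_option autoImplicit false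
set_option linter.unusedSectionVars false

open scoped Classical

namespace Pool.Agent.HNS

variable {ι : Type} [DecidableEq ι]

theorem Sg_empty {G : SimpleGraph ι} (h : PF G) {M0 M1 : Finset ι} (d : Disjoint M0 M1) :
    4 ≤ Sg G ∅ M0 M1 := by
  rw [Sg_fib, Finset.powerset_empty, Finset.sum_singleton]
  have h1 := cA_empty h (R := (∅ : Finset ι)) (M0 := M0) (M1 := M1)
  rw [Finset.empty_union, Finset.empty_union] at h1
  have h2 := CC_two h d
  omega

theorem Sg_one {G : SimpleGraph ι} (h : PF G) (r : ι) : 6 ≤ Sg G {r} ∅ ∅ := by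
  rw [Sg_fib]
  have hne : (∅ : Finset ι) ≠ {r} := (Finset.singleton_ne_empty r).symm
  have hs : ({∅, {r}} : Finset (Finset ι)) ⊆ ({r} : Finset ι).powerset := by
    intro A hA
    rw [Finset.mem_insert, Finset.mem_singleton] at hA
    rw [Finset.mem_powerset]
    rcases hA with rfl | rfl
    · exact Finset.empty_subset _
    · exact Finset.Subset.refl _
  have h1 := Finset.sum_le_sum_of_subset_of_nonneg (f := fun A => cA G {r} ∅ ∅ A) hs
    (fun _ _ _ => Nat.zero_le _)
  rw [Finset.sum_pair hne] at h1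
  have h2 := cA_empty h (R := ({r} : Finset ι)) (M0 := ∅) (M1 := ∅)
  rw [Finset.union_empty] at h2
  have h3 := CC_two h (Finset.disjoint_empty_right ({r} : Finset ι))
  have h4 := CC_two h (Finset.disjoint_empty_left ({r} : Finset ι))
  have h5 := cA_two h (R := ({r} : Finset ι)) (M0 := ∅) (M1 := ∅) (A := {r})
    (Finset.disjoint_empty_right _) (Finset.disjoint_empty_right _)
    (Finset.disjoint_empty_right _) (Finset.Subset.refl _)
  omega

theorem Sg_single1 {G : SimpleGraph ι} (h : PF G) {M0 M1 : Finset ι} (d : Disjoint M0 M1)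
    {r m : ι} (h0 : r ∉ M0) (h1 : r ∉ M1) (hm : m ∈ M1) (ha : G.Adj r m) :
    8 ≤ Sg G {r} M0 M1 := by
  have hrm : r ≠ m := ha.ne
  have d0 : Disjoint ({r} : Finset ι) M0 := Finset.disjoint_singleton_left.2 h0
  have d1 : Disjoint ({r} : Finset ι) M1 := Finset.disjoint_singleton_left.2 h1
  have h2 : Sg G {r} ∅ {m} ≤ Sg G {r} M0 M1 :=
    Sg_mono h (Finset.empty_subset _) (Finset.singleton_subset_iff.2 hm) d0 d1 d
  have d2 : Disjoint ({r} : Finset ι) {m} := Finset.disjoint_singleton.2 hrm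
  have hd : DomA G ({r} ∪ ∅ ∪ {m}) m r := by
    refine ⟨ha.symm, fun v hv hmv => ?_⟩
    rw [Finset.union_empty, Finset.mem_union, Finset.mem_singleton, Finset.mem_singleton] at hv
    rcases hv with hv | hv
    · exact Or.inl hv
    · exact absurd hv.symm hmv.ne
  have h3 := rpl_M1 h (Finset.disjoint_empty_right ({r} : Finset ι)) d2
    (Finset.mem_singleton_self m) (Finset.mem_singleton_self r) hd
  have h4 : ({r} : Finset ι).erase r = ∅ := by
    rw [Finset.erase_eq_empty_iff]
    exact Or.inr rfl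
  rw [h4] at h3
  have h5 := Sg_empty h (Finset.disjoint_empty_left ({m} : Finset ι))
  omega

theorem Sg_single0 {G : SimpleGraph ι} (h : PF G) {M0 M1 : Finset ι} (d : Disjoint M0 M1)
    {r m : ι} (h0 : r ∉ M0) (h1 : r ∉ M1) (hm : m ∈ M0) (ha : ¬ G.Adj r m) :
    8 ≤ Sg G {r} M0 M1 := by
  have hrm : r ≠ m := fun hrm => h0 (hrm ▸ hm)
  have d0 : Disjoint ({r} : Finset ι) M0 := Finset.disjoint_singleton_left.2 h0
  have d1 : Disjoint ({r} : Finset ι) M1 := Finset.disjoint_singleton_left.2 h1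
  have h2 : Sg G {r} {m} ∅ ≤ Sg G {r} M0 M1 :=
    Sg_mono h (Finset.singleton_subset_iff.2 hm) (Finset.empty_subset _) d0 d1 d
  have d2 : Disjoint ({r} : Finset ι) {m} := Finset.disjoint_singleton.2 hrm
  have hd : DomN G ({r} ∪ {m} ∪ ∅) m r := by
    refine ⟨hrm.symm, fun hmr => ha hmr.symm, fun v hv hrv => ?_⟩
    rw [Finset.union_empty, Finset.mem_union, Finset.mem_singleton, Finset.mem_singleton] at hv
    rcases hv with hv | hv
    · exact absurd hv.symm hrv.ne
    · exact absurd (hv ▸ hrv) ha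
  have h3 := rpl_M0 h d2 (Finset.disjoint_empty_right ({r} : Finset ι))
    (Finset.mem_singleton_self m) (Finset.mem_singleton_self r) hd
  have h4 : ({r} : Finset ι).erase r = ∅ := by
    rw [Finset.erase_eq_empty_iff]
    exact Or.inr rfl
  rw [h4] at h3
  have h5 := Sg_empty h (Finset.disjoint_empty_right ({m} : Finset ι))
  omega

end Pool.Agent.HNS
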