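import Pool.Agent.HNS.Fib
import Pool.Agent.HNS.Ltr

/-!
# The 4-cycle with one vertex in `M1`

PROOF. `R = {o, z, o'}`, 4-cycle `o - z - o' - m - o`. `Sg_fib` over the 8 subsets `A` of `R`:
`∅`: `cA_empty`; `CC G (R ∪ ∅) {m} ≥ 4` (CC_four0: `o`, `o'`), `CC G ∅ (R ∪ {m}) ≥ 4` (CC_four1: `o ~ z`).
`{o}`: `o'` has letter `1` (anti_letter), `o' ~ m`: CC_four1, `≥ 4`; `{o'}` same. `{z}`: `o`, `o'` have
letter `0` (full_letter): CC_four0, `≥ 4`. `{o, z}`: `o'` has letter `1`: if `o' ∈ K ∈ y.2`, let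
`o ∈ T ∈ y.1`; `T` meets `K` in a vertex of the support, not `z` (`o ∈ T`), so `o ∈ K`, but `o ≁ o'`.
So `o' ∈ On`, `o' ~ m`: `≥ 4`; `{o', z}` same. `{o, o'}` and `R`: `≥ 2`. Total `8 + 20 + 4 = 32`.
-/

set_option autoImplicit false
set_option linter.unusedSectionVars false

open scoped Classical

namespace Pool.Agent.HNS

variable {ι : Type} [DecidableEq ι]

/-- a word with support containing `a` but not `b`, where `a ≁ b`, `a ~ c` and `R = {a, b, c}` as a
set, has letter `1` at `b` -/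
private theorem c4_on {G : SimpleGraph ι} (h : PF G) {R : Finset ι} {a b c : ι}
    (hR : ∀ x ∈ R, x = a ∨ x = b ∨ x = c) (hb : b ∈ R) (hab : ¬ G.Adj a b) (hne : a ≠ b)
    (hac : G.Adj a c) {y : Wrd ι} (hy : y ∈ Wd G R) (h1 : a ∈ Sp R y) (h2 : b ∉ Sp R y) :
    b ∈ On R y := by
  obtain ⟨haR, ⟨T, hT, haT⟩, -⟩ := mem_Sp.1 h1
  have hk : ¬ kL y b := by
    rintro ⟨K, hK, hbK⟩
    obtain ⟨t, ht1, ht2⟩ := exists_of_card (card_eq hy hT hK)
    rcases hR t (fst_sub hy hT ht1) with e | e | e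
    · rw [e] at ht2
      exact hab (snd_clq hy hK a ht2 b hbK hne)
    · rw [e] at ht1 ht2
      exact h2 (mem_Sp.2 ⟨hb, ⟨T, hT, ht1⟩, ⟨K, hK, ht2⟩⟩)
    · rw [e] at ht1
      exact fst_stb hy hT a haT c ht1 hac
  exact mem_On.2 ⟨hb, (cover h hy hb).resolve_right hk, hk⟩

theorem c4 {G : SimpleGraph ι} (h : PF G) {o z o' m : ι} (h1 : G.Adj o z) (h2 : G.Adj o' z)
    (h3 : G.Adj o m) (h4 : G.Adj o' m) (h5 : ¬ G.Adj o o') (h6 : ¬ G.Adj z m) (h7 : o ≠ o')
    (h8 : z ≠ m) : 32 ≤ Sg G {o, z, o'} ∅ {m} := by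
  have hoz : o ≠ z := h1.ne
  have hoz' : o' ≠ z := h2.ne
  have hom : o ≠ m := h3.ne
  have hom' : o' ≠ m := h4.ne
  obtain ⟨R, hR⟩ : ∃ R : Finset ι, R = {o, z, o'} := ⟨_, rfl⟩
  have hmem : ∀ x, x ∈ R ↔ x = o ∨ x = z ∨ x = o' := by
    intro x
    rw [hR, Finset.mem_insert, Finset.mem_insert, Finset.mem_singleton]
  have hoR : o ∈ R := (hmem o).2 (Or.inl rfl)
  have hzR : z ∈ R := (hmem z).2 (Or.inr (Or.inl rfl))
  have hoR' : o' ∈ R := (hmem o').2 (Or.inr (Or.inr rfl))
  have hmR : m ∉ R := by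
    intro hm
    rcases (hmem m).1 hm with e | e | e
    · exact hom e.symm
    · exact h8 e.symm
    · exact hom' e.symm
  have dRm : Disjoint R {m} := Finset.disjoint_singleton_right.2 hmR
  have dj : ∀ y : Wrd ι, Disjoint (Zr R y ∪ ∅) (On R y ∪ {m}) := by
    intro y
    rw [Finset.union_empty, Finset.disjoint_left]
    intro x hx hx'
    rcases Finset.mem_union.1 hx' with hx' | hx'
    · exact (mem_Zr.1 hx).2.2 (mem_On.1 hx').2.1
    · rw [Finset.mem_singleton] at hx'
      rw [hx'] at hx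
      exact hmR (mem_Zr.1 hx).1
  have hmm : ∀ y : Wrd ι, m ∈ On R y ∪ {m} := fun y =>
    Finset.mem_union_right _ (Finset.mem_singleton_self m)
  -- support ∅
  have b0 : 8 ≤ cA G R ∅ {m} ∅ := by
    have e1 := cA_empty h (R := R) (M0 := ∅) (M1 := {m})
    have e2 : 4 ≤ CC G (R ∪ ∅) {m} :=
      CC_four0 h (by rw [Finset.union_empty]; exact dRm) (Finset.mem_union_left _ hoR)
        (Finset.mem_union_left _ hoR') h7 h5
    have e3 : 4 ≤ CC G ∅ (R ∪ {m}) :=
      CC_four1 h (Finset.disjoint_empty_left _) (Finset.mem_union_left _ hoR)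
        (Finset.mem_union_left _ hzR) h1
    omega
  -- support containing `o`, not `o'`
  have bo : ∀ A ⊆ R, o ∈ A → o' ∉ A → 4 ≤ cA G R ∅ {m} A := by
    intro A hA ha ha'
    refine cA_of_le h hA fun y hy hS => ?_
    have hk : o' ∈ On R y :=
      c4_on h (a := o) (b := o') (c := z) (fun x hx => by
        rcases (hmem x).1 hx with e | e | e
        · exact Or.inl e
        · exact Or.inr (Or.inr e)
        · exact Or.inr (Or.inl e)) hoR' h5 h7 h1 hy (by rw [hS]; exact ha) (by rw [hS]; exact ha')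
    exact CC_four1 h (dj y) (Finset.mem_union_left _ hk) (hmm y) h4
  have bo' : ∀ A ⊆ R, o' ∈ A → o ∉ A → 4 ≤ cA G R ∅ {m} A := by
    intro A hA ha ha'
    refine cA_of_le h hA fun y hy hS => ?_
    have hk : o ∈ On R y :=
      c4_on h (a := o') (b := o) (c := z) (fun x hx => by
        rcases (hmem x).1 hx with e | e | e
        · exact Or.inr (Or.inl e)
        · exact Or.inr (Or.inr e)
        · exact Or.inl e) hoR (fun hh => h5 hh.symm) h7.symm h2 hy (by rw [hS]; exact ha)
        (by rw [hS]; exact ha')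
    exact CC_four1 h (dj y) (Finset.mem_union_left _ hk) (hmm y) h3
  -- support `{z}`
  have bz : 4 ≤ cA G R ∅ {m} {z} := by
    refine cA_of_le h (Finset.singleton_subset_iff.2 hzR) fun y hy hS => ?_
    have hne : (Sp R y).Nonempty := by
      rw [hS]
      exact Finset.singleton_nonempty z
    have k1 : kL y o ∧ ¬ sL y o :=
      full_letter h hy hne hoR (by rw [hS, Finset.mem_singleton]; exact hoz)
        (by
          intro v hv
          rw [hS, Finset.mem_singleton] at hv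
          rw [hv]
          exact h1)
    have k2 : kL y o' ∧ ¬ sL y o' :=
      full_letter h hy hne hoR' (by rw [hS, Finset.mem_singleton]; exact hoz')
        (by
          intro v hv
          rw [hS, Finset.mem_singleton] at hv
          rw [hv]
          exact h2)
    exact CC_four0 h (dj y) (Finset.mem_union_left _ (mem_Zr.2 ⟨hoR, k1⟩))
      (Finset.mem_union_left _ (mem_Zr.2 ⟨hoR', k2⟩)) h7 h5
  have b2 : ∀ A ⊆ R, 2 ≤ cA G R ∅ {m} A := fun A hA =>
    cA_two h (Finset.disjoint_empty_right _) dRm (Finset.disjoint_empty_left _) hA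
  -- summation
  have e1 : o' ∉ (∅ : Finset ι) := Finset.notMem_empty _
  have e2 : z ∉ insert o' (∅ : Finset ι) := by
    rw [insert_empty_eq, Finset.mem_singleton]
    exact hoz'.symm
  have e3 : o ∉ insert z (insert o' (∅ : Finset ι)) := by
    rw [insert_empty_eq, Finset.mem_insert, Finset.mem_singleton]
    rintro (e | e)
    · exact hoz e
    · exact h7 e
  have hR' : R = insert o (insert z (insert o' (∅ : Finset ι))) := by
    rw [hR, insert_empty_eq]
  have hs : ∀ f : Finset ι → ℕ, ∑ A ∈ R.powerset, f A =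
      f ∅ + f {o'} + (f {z} + f {z, o'}) + (f {o} + f {o, o'} + (f {o, z} + f {o, z, o'})) := by
    intro f
    rw [hR', Finset.sum_powerset_insert e3, Finset.sum_powerset_insert e2,
      Finset.sum_powerset_insert e2, Finset.sum_powerset_insert e1,
      Finset.sum_powerset_insert e1, Finset.sum_powerset_insert e1,
      Finset.sum_powerset_insert e1]
    simp only [Finset.powerset_empty, Finset.sum_singleton, insert_empty_eq]
  have s1 : ({o'} : Finset ι) ⊆ R := Finset.singleton_subset_iff.2 hoR'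
  have s2 : ({z, o'} : Finset ι) ⊆ R :=
    Finset.insert_subset hzR (Finset.singleton_subset_iff.2 hoR')
  have s3 : ({o} : Finset ι) ⊆ R := Finset.singleton_subset_iff.2 hoR
  have s4 : ({o, o'} : Finset ι) ⊆ R :=
    Finset.insert_subset hoR (Finset.singleton_subset_iff.2 hoR')
  have s5 : ({o, z} : Finset ι) ⊆ R :=
    Finset.insert_subset hoR (Finset.singleton_subset_iff.2 hzR)
  have c1 : 4 ≤ cA G R ∅ {m} {o'} :=
    bo' _ s1 (Finset.mem_singleton_self _) (by rw [Finset.mem_singleton]; exact h7)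
  have c2 : 4 ≤ cA G R ∅ {m} {z, o'} :=
    bo' _ s2 (Finset.mem_insert_of_mem (Finset.mem_singleton_self _)) (by
      rw [Finset.mem_insert, Finset.mem_singleton]
      rintro (e | e)
      · exact hoz e
      · exact h7 e)
  have c3 : 4 ≤ cA G R ∅ {m} {o} :=
    bo _ s3 (Finset.mem_singleton_self _) (by rw [Finset.mem_singleton]; exact h7.symm)
  have c4 : 2 ≤ cA G R ∅ {m} {o, o'} := b2 _ s4
  have c5 : 4 ≤ cA G R ∅ {m} {o, z} :=
    bo _ s5 (Finset.mem_insert_self _ _) (by
      rw [Finset.mem_insert, Finset.mem_singleton]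
      rintro (e | e)
      · exact h7 e.symm
      · exact hoz' e)
  have c6 : 2 ≤ cA G R ∅ {m} {o, z, o'} := b2 _ (by rw [hR])
  rw [← hR, Sg_fib, hs]
  omega

end Pool.Agent.HNS
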