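import Pool.Agent.HNS.Defs2

/-!
# The threshold core of a split graph

PROOF. Among all `P ⊆ Z ∪ O` with `Thr G P`, `Z \ P` complete to `P`, `O \ P` anticomplete to `P`
(`P = ∅` is one) take one of maximal cardinality. If `c ∈ Z \ P` has no neighbour in `O \ P`, then
`insert c P` also has the properties: `Thr`: a nonempty `Q ⊆ insert c P` with `c ∈ Q` has the dominating
vertex `c`; the other vertices of `Z` are adjacent to `c` (clique), the vertices of `O \ P` are not
adjacent to `c`. If `s ∈ O \ P` is complete to `Z \ P`: the same with `insert s P` (`s` is isolated in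
`insert s P`).
-/

set_option autoImplicit false
set_option linter.unusedSectionVars false

open scoped Classical

namespace Pool.Agent.HNS

variable {ι : Type} [DecidableEq ι]

theorem core {G : SimpleGraph ι} {Z O : Finset ι} (hd : Disjoint Z O) (hZ : Clq G Z)
    (hO : Stb G O) :
    ∃ P ⊆ Z ∪ O, Thr G P ∧ (∀ c ∈ Z \ P, ∀ p ∈ P, G.Adj c p) ∧
      (∀ s ∈ O \ P, ∀ p ∈ P, ¬ G.Adj s p) ∧ (∀ c ∈ Z \ P, ∃ s ∈ O \ P, G.Adj c s) ∧
      ∀ s ∈ O \ P, ∃ c ∈ Z \ P, ¬ G.Adj s c := by
  let good : Finset ι → Prop := fun P =>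
    Thr G P ∧ (∀ c ∈ Z \ P, ∀ p ∈ P, G.Adj c p) ∧ (∀ s ∈ O \ P, ∀ p ∈ P, ¬ G.Adj s p)
  have hne : ((Z ∪ O).powerset.filter good).Nonempty := by
    refine ⟨∅, ?_⟩
    rw [Finset.mem_filter]
    refine ⟨Finset.empty_mem_powerset _, ?_, ?_, ?_⟩
    · intro Q hQ hQn
      exact absurd (Finset.subset_empty.1 hQ) hQn.ne_empty
    · intro c _ p hp
      exact absurd hp (Finset.notMem_empty p)
    · intro c _ p hp
      exact absurd hp (Finset.notMem_empty p)
  obtain ⟨P, hP, hmax⟩ := Finset.exists_max_image _ Finset.card hne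
  rw [Finset.mem_filter, Finset.mem_powerset] at hP
  obtain ⟨hPs, hT, hc, hs⟩ := hP
  have key : ∀ v ∈ (Z ∪ O), v ∉ P → good (insert v P) → False := by
    intro v hv hvP hg
    have h1 := hmax (insert v P) (by
      rw [Finset.mem_filter, Finset.mem_powerset]
      exact ⟨Finset.insert_subset hv hPs, hg⟩)
    rw [Finset.card_insert_of_notMem hvP] at h1
    omega
  refine ⟨P, hPs, hT, hc, hs, ?_, ?_⟩
  · intro c hcm
    by_contra hno
    push Not at hno
    rw [Finset.mem_sdiff] at hcm
    refine key c (Finset.mem_union_left _ hcm.1) hcm.2 ⟨?_, ?_, ?_⟩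
    · intro Q hQ hQn
      by_cases hcQ : c ∈ Q
      · refine ⟨c, hcQ, Or.inl ?_⟩
        intro v hv hvc
        have hvP : v ∈ P := by
          rcases Finset.mem_insert.1 (hQ hv) with h | h
          · exact absurd h hvc
          · exact h
        exact hc c (Finset.mem_sdiff.2 hcm) v hvP
      · refine hT Q (fun v hv => ?_) hQn
        rcases Finset.mem_insert.1 (hQ hv) with h | h
        · subst h
          exact absurd hv hcQ
        · exact h
    · intro c' hc' p hp
      rw [Finset.mem_sdiff, Finset.mem_insert, not_or] at hc'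
      rcases Finset.mem_insert.1 hp with h | h
      · subst h
        exact hZ c' hc'.1 p hcm.1 hc'.2.1
      · exact hc c' (Finset.mem_sdiff.2 ⟨hc'.1, hc'.2.2⟩) p h
    · intro s hs' p hp
      rw [Finset.mem_sdiff, Finset.mem_insert, not_or] at hs'
      rcases Finset.mem_insert.1 hp with h | h
      · subst h
        intro hadj
        exact hno s (Finset.mem_sdiff.2 ⟨hs'.1, hs'.2.2⟩) hadj.symm
      · exact hs s (Finset.mem_sdiff.2 ⟨hs'.1, hs'.2.2⟩) p h
  · intro s hsm
    by_contra hno
    push Not at hno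
    rw [Finset.mem_sdiff] at hsm
    refine key s (Finset.mem_union_right _ hsm.1) hsm.2 ⟨?_, ?_, ?_⟩
    · intro Q hQ hQn
      by_cases hcQ : s ∈ Q
      · refine ⟨s, hcQ, Or.inr ?_⟩
        intro v hv
        rcases Finset.mem_insert.1 (hQ hv) with h | h
        · subst h
          exact G.irrefl
        · exact hs s (Finset.mem_sdiff.2 hsm) v h
      · refine hT Q (fun v hv => ?_) hQn
        rcases Finset.mem_insert.1 (hQ hv) with h | h
        · subst h
          exact absurd hv hcQ
        · exact h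
    · intro c hc' p hp
      rw [Finset.mem_sdiff, Finset.mem_insert, not_or] at hc'
      rcases Finset.mem_insert.1 hp with h | h
      · subst h
        exact (hno c (Finset.mem_sdiff.2 ⟨hc'.1, hc'.2.2⟩)).symm
      · exact hc c (Finset.mem_sdiff.2 ⟨hc'.1, hc'.2.2⟩) p h
    · intro s' hs' p hp
      rw [Finset.mem_sdiff, Finset.mem_insert, not_or] at hs'
      rcases Finset.mem_insert.1 hp with h | h
      · subst h
        exact hO s' hs'.1 p hsm.1
      · exact hs s' (Finset.mem_sdiff.2 ⟨hs'.1, hs'.2.2⟩) p h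

end Pool.Agent.HNS
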