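import Mathlib

/-!
# Hansen polytopes of perfect graphs: words

A word over the ground set `W` is a closed pair `(S, K)` of the relation `|T ∩ K| = 1` between the
stable subsets `T` of `W` and the cliques `K` inside `W`. The letter of a word at `i` is
`a` (`i ∈ ⋃S` and `i ∈ ⋃K`), `1` (only `i ∈ ⋃S`) or `0` (only `i ∈ ⋃K`).
-/

set_option autoImplicit false
set_option linter.unusedSectionVars false

open scoped Classical

namespace Pool.Agent.HNS

variable {ι : Type} [DecidableEq ι]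

/-- stable set -/
def Stb (G : SimpleGraph ι) (T : Finset ι) : Prop := ∀ a ∈ T, ∀ b ∈ T, ¬ G.Adj a b

/-- clique -/
def Clq (G : SimpleGraph ι) (K : Finset ι) : Prop := ∀ a ∈ K, ∀ b ∈ K, a ≠ b → G.Adj a b

/-- weighted colouring property: if every clique has weight at most `N`, the weight is a sum of
`N` stable sets -/
def WC (G : SimpleGraph ι) : Prop :=
  ∀ (W : Finset ι) (w : ι → ℕ) (N : ℕ), (∀ K ⊆ W, Clq G K → ∑ i ∈ K, w i ≤ N) →
    ∃ T : Fin N → Finset ι, (∀ j, T j ⊆ W ∧ Stb G (T j)) ∧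
      ∀ i ∈ W, (Finset.univ.filter fun j => i ∈ T j).card = w i

/-- colouring property of the induced subgraphs -/
def Pk (G : SimpleGraph ι) : Prop :=
  ∀ (W : Finset ι) (N : ℕ), (∀ K ⊆ W, Clq G K → K.card ≤ N) →
    ∃ T : Fin N → Finset ι, (∀ j, T j ⊆ W ∧ Stb G (T j)) ∧
      ∀ i ∈ W, (Finset.univ.filter fun j => i ∈ T j).card = 1

/-- the perfectness hypothesis: both `G` and its complement have the weighted colouring property -/
def PF (G : SimpleGraph ι) : Prop := WC G ∧ WC Gᶜ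

/-- pairs (family of stable sets, family of cliques) -/
abbrev Wrd (ι : Type) := Finset (Finset ι) × Finset (Finset ι)

/-- `u` is a word over `W` -/
def IsWd (G : SimpleGraph ι) (W : Finset ι) (u : Wrd ι) : Prop :=
  (∀ T, T ∈ u.1 ↔ T ⊆ W ∧ Stb G T ∧ ∀ K ∈ u.2, (T ∩ K).card = 1) ∧
  (∀ K, K ∈ u.2 ↔ K ⊆ W ∧ Clq G K ∧ ∀ T ∈ u.1, (T ∩ K).card = 1)

/-- the set of all words over `W` -/
noncomputable def Wd (G : SimpleGraph ι) (W : Finset ι) : Finset (Wrd ι) :=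
  (W.powerset.powerset ×ˢ W.powerset.powerset).filter (IsWd G W)

/-- the letter of `u` at `i` is `a` or `1` -/
def sL (u : Wrd ι) (i : ι) : Prop := ∃ T ∈ u.1, i ∈ T

/-- the letter of `u` at `i` is `a` or `0` -/
def kL (u : Wrd ι) (i : ι) : Prop := ∃ K ∈ u.2, i ∈ K

/-- support: letter `a` -/
noncomputable def Sp (W : Finset ι) (u : Wrd ι) : Finset ι := W.filter fun i => sL u i ∧ kL u i

/-- zeros: letter `0` -/
noncomputable def Zr (W : Finset ι) (u : Wrd ι) : Finset ι := W.filter fun i => kL u i ∧ ¬ sL u i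

/-- ones: letter `1` -/
noncomputable def On (W : Finset ι) (u : Wrd ι) : Finset ι := W.filter fun i => sL u i ∧ ¬ kL u i

/-- number of words over `X ∪ Y` with letters `a, 1` on `X` and `a, 0` on `Y` -/
noncomputable def CC (G : SimpleGraph ι) (X Y : Finset ι) : ℕ :=
  ((Wd G (X ∪ Y)).filter fun u => (∀ i ∈ X, sL u i) ∧ ∀ i ∈ Y, kL u i).card

/-- the main counting function -/
noncomputable def Sg (G : SimpleGraph ι) (R M0 M1 : Finset ι) : ℕ :=
  ∑ y ∈ Wd G R, CC G (Zr R y ∪ M0) (On R y ∪ M1)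

/-- `y` and `u` have different letters at `i` -/
def perp (y u : Wrd ι) (i : ι) : Prop := ¬ ((sL y i ↔ sL u i) ∧ (kL y i ↔ kL u i))

/-- pairs of words, different on `R`, the second with letters `a, 1` on `M0` and `a, 0` on `M1` -/
noncomputable def PR (G : SimpleGraph ι) (R H M0 M1 : Finset ι) : Finset (Wrd ι × Wrd ι) :=
  (Wd G R ×ˢ Wd G H).filter fun p =>
    (∀ i ∈ R, perp p.1 p.2 i) ∧ (∀ i ∈ M0, sL p.2 i) ∧ ∀ i ∈ M1, kL p.2 i

/-- `u` has no letter `a` on `A` -/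
def Uns (A : Finset ι) (u : Wrd ι) : Prop := ∀ i ∈ A, ¬ (sL u i ∧ kL u i)

/-- restriction of a word to the complement of `A` -/
noncomputable def del (A : Finset ι) (u : Wrd ι) : Wrd ι :=
  (u.1.filter fun T => Disjoint T A, u.2.filter fun K => Disjoint K A)

/-- `x ~ r` and `N_W[x] ⊆ N_W[r]` -/
def DomA (G : SimpleGraph ι) (W : Finset ι) (x r : ι) : Prop :=
  G.Adj x r ∧ ∀ v ∈ W, G.Adj x v → v = r ∨ G.Adj r v

/-- `x`, `r` not adjacent and `N_W(r) ⊆ N_W(x)` -/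
def DomN (G : SimpleGraph ι) (W : Finset ι) (x r : ι) : Prop :=
  x ≠ r ∧ ¬ G.Adj x r ∧ ∀ v ∈ W, G.Adj r v → G.Adj x v

/-- contribution of the words with support `A` -/
noncomputable def cA (G : SimpleGraph ι) (R M0 M1 A : Finset ι) : ℕ :=
  ∑ y ∈ (Wd G R).filter (fun y => Sp R y = A), CC G (Zr R y ∪ M0) (On R y ∪ M1)

theorem stb_compl {G : SimpleGraph ι} {T : Finset ι} : Stb Gᶜ T ↔ Clq G T := by
  unfold Stb Clq
  refine forall₂_congr fun a _ => forall₂_congr fun b _ => ?_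
  rw [SimpleGraph.compl_adj]
  tauto

theorem clq_compl {G : SimpleGraph ι} {T : Finset ι} : Clq Gᶜ T ↔ Stb G T := by
  unfold Stb Clq
  refine forall₂_congr fun a _ => forall₂_congr fun b _ => ?_
  rw [SimpleGraph.compl_adj]
  constructor
  · intro h hab
    exact (h hab.ne).2 hab
  · intro h hab
    exact ⟨hab, h⟩

theorem PF.compl {G : SimpleGraph ι} (h : PF G) : PF Gᶜ :=
  ⟨h.2, by rw [compl_compl]; exact h.1⟩

theorem Stb.mono {G : SimpleGraph ι} {S T : Finset ι} (h : Stb G T) (hST : S ⊆ T) : Stb G S :=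
  fun a ha b hb => h a (hST ha) b (hST hb)

theorem Clq.mono {G : SimpleGraph ι} {S T : Finset ι} (h : Clq G T) (hST : S ⊆ T) : Clq G S :=
  fun a ha b hb => h a (hST ha) b (hST hb)

theorem stb_empty (G : SimpleGraph ι) : Stb G ∅ := fun _ h => absurd h (Finset.notMem_empty _)

theorem clq_empty (G : SimpleGraph ι) : Clq G ∅ := fun _ h => absurd h (Finset.notMem_empty _)

theorem stb_singleton (G : SimpleGraph ι) (a : ι) : Stb G {a} := by
  intro x hx y hy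
  rw [Finset.mem_singleton] at hx hy
  rw [hx, hy]
  exact G.loopless.irrefl a

theorem clq_singleton (G : SimpleGraph ι) (a : ι) : Clq G {a} := by
  intro x hx y hy hxy
  rw [Finset.mem_singleton] at hx hy
  exact absurd (hx.trans hy.symm) hxy

/-- a stable set and a clique have at most one common element -/
theorem inter_card_le {G : SimpleGraph ι} {T K : Finset ι} (hT : Stb G T) (hK : Clq G K) :
    (T ∩ K).card ≤ 1 := by
  rw [Finset.card_le_one]
  intro a ha b hb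
  rw [Finset.mem_inter] at ha hb
  by_contra hab
  exact hT a ha.1 b hb.1 (hK a ha.2 b hb.2 hab)

theorem inter_card_eq {G : SimpleGraph ι} {T K : Finset ι} (hT : Stb G T) (hK : Clq G K)
    {x : ι} (h1 : x ∈ T) (h2 : x ∈ K) : (T ∩ K).card = 1 :=
  le_antisymm (inter_card_le hT hK) (Finset.card_pos.2 ⟨x, Finset.mem_inter.2 ⟨h1, h2⟩⟩)

theorem exists_of_card {T K : Finset ι} (h : (T ∩ K).card = 1) : ∃ x, x ∈ T ∧ x ∈ K := by
  obtain ⟨x, hx⟩ := Finset.card_pos.1 (h ▸ Nat.one_pos : 0 < (T ∩ K).card)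
  exact ⟨x, (Finset.mem_inter.1 hx).1, (Finset.mem_inter.1 hx).2⟩

theorem inter_card_iff {G : SimpleGraph ι} {T K : Finset ι} (hT : Stb G T) (hK : Clq G K) :
    (T ∩ K).card = 1 ↔ ∃ x, x ∈ T ∧ x ∈ K :=
  ⟨exists_of_card, fun ⟨_, h1, h2⟩ => inter_card_eq hT hK h1 h2⟩

theorem mem_Wd {G : SimpleGraph ι} {W : Finset ι} {u : Wrd ι} : u ∈ Wd G W ↔ IsWd G W u := by
  unfold Wd
  rw [Finset.mem_filter, Finset.mem_product, Finset.mem_powerset, Finset.mem_powerset]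
  refine ⟨fun h => h.2, fun h => ⟨⟨fun T hT => ?_, fun K hK => ?_⟩, h⟩⟩
  · exact Finset.mem_powerset.2 ((h.1 T).1 hT).1
  · exact Finset.mem_powerset.2 ((h.2 K).1 hK).1

section mem

variable {G : SimpleGraph ι} {W : Finset ι} {u : Wrd ι}

theorem mem_fst (hu : u ∈ Wd G W) {T : Finset ι} :
    T ∈ u.1 ↔ T ⊆ W ∧ Stb G T ∧ ∀ K ∈ u.2, (T ∩ K).card = 1 := (mem_Wd.1 hu).1 T

theorem mem_snd (hu : u ∈ Wd G W) {K : Finset ι} :
    K ∈ u.2 ↔ K ⊆ W ∧ Clq G K ∧ ∀ T ∈ u.1, (T ∩ K).card = 1 := (mem_Wd.1 hu).2 K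

theorem fst_sub (hu : u ∈ Wd G W) {T : Finset ι} (hT : T ∈ u.1) : T ⊆ W := ((mem_fst hu).1 hT).1

theorem fst_stb (hu : u ∈ Wd G W) {T : Finset ι} (hT : T ∈ u.1) : Stb G T :=
  ((mem_fst hu).1 hT).2.1

theorem snd_sub (hu : u ∈ Wd G W) {K : Finset ι} (hK : K ∈ u.2) : K ⊆ W := ((mem_snd hu).1 hK).1

theorem snd_clq (hu : u ∈ Wd G W) {K : Finset ι} (hK : K ∈ u.2) : Clq G K :=
  ((mem_snd hu).1 hK).2.1

theorem card_eq (hu : u ∈ Wd G W) {T K : Finset ι} (hT : T ∈ u.1) (hK : K ∈ u.2) :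
    (T ∩ K).card = 1 := ((mem_fst hu).1 hT).2.2 K hK

theorem mem_fst' (hu : u ∈ Wd G W) {T : Finset ι} (h1 : T ⊆ W) (h2 : Stb G T)
    (h3 : ∀ K ∈ u.2, ∃ x, x ∈ T ∧ x ∈ K) : T ∈ u.1 :=
  (mem_fst hu).2 ⟨h1, h2, fun K hK => (inter_card_iff h2 (snd_clq hu hK)).2 (h3 K hK)⟩

theorem mem_snd' (hu : u ∈ Wd G W) {K : Finset ι} (h1 : K ⊆ W) (h2 : Clq G K)
    (h3 : ∀ T ∈ u.1, ∃ x, x ∈ T ∧ x ∈ K) : K ∈ u.2 :=
  (mem_snd hu).2 ⟨h1, h2, fun T hT => (inter_card_iff (fst_stb hu hT) h2).2 (h3 T hT)⟩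

theorem sL_mem (hu : u ∈ Wd G W) {i : ι} (h : sL u i) : i ∈ W := by
  obtain ⟨T, hT, hi⟩ := h
  exact fst_sub hu hT hi

theorem kL_mem (hu : u ∈ Wd G W) {i : ι} (h : kL u i) : i ∈ W := by
  obtain ⟨T, hT, hi⟩ := h
  exact snd_sub hu hT hi

theorem mem_Sp {i : ι} : i ∈ Sp W u ↔ i ∈ W ∧ sL u i ∧ kL u i := by
  unfold Sp
  rw [Finset.mem_filter]

theorem mem_Zr {i : ι} : i ∈ Zr W u ↔ i ∈ W ∧ kL u i ∧ ¬ sL u i := by
  unfold Zr
  rw [Finset.mem_filter]

theorem mem_On {i : ι} : i ∈ On W u ↔ i ∈ W ∧ sL u i ∧ ¬ kL u i := by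
  unfold On
  rw [Finset.mem_filter]

end mem

end Pool.Agent.HNS
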