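import Pool.Agent.HNS.Defs2
import Pool.Agent.K3R.HanB

/-!
# Hansen polytopes of perfect graphs: types of faces
-/

set_option autoImplicit false
set_option linter.unusedSectionVars false

open scoped Classical

namespace Pool.Agent.HNS

variable {ι : Type} [DecidableEq ι]

/-- some point `pt T` of `F` has `i ∈ T` -/
def up (F : Set (ℝ × (ι → ℝ))) (i : ι) : Prop := ∃ T : Finset ι, i ∈ T ∧ K3R.pt T ∈ F

/-- some point `- pt T` of `F` has `i ∈ T` -/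
def dn (F : Set (ℝ × (ι → ℝ))) (i : ι) : Prop := ∃ T : Finset ι, i ∈ T ∧ -K3R.pt T ∈ F

/-- the faces `F` of `HS G W` for which `X` is the set of the `i ∈ W` with exactly one of
`up F i`, `dn F i` -/
def FX (G : SimpleGraph ι) (W X : Finset ι) : Set (Set (ℝ × (ι → ℝ))) :=
  {F | K3R.IsF (K3R.HS G W) F ∧ ∀ i ∈ W, (i ∈ X ↔ ¬ (up F i ↔ dn F i))}

/-- their number -/
noncomputable def NX (G : SimpleGraph ι) (W X : Finset ι) : ℕ := (FX G W X).ncard

/-- the functional `x ↦ 2 x(K) - x0` -/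
noncomputable def lK (K : Finset ι) : ℝ × (ι → ℝ) →ₗ[ℝ] ℝ :=
  (2 : ℝ) • (∑ i ∈ K, K3R.cx i) - LinearMap.fst ℝ ℝ (ι → ℝ)

/-- the face of a pair of words -/
def fc (G : SimpleGraph ι) (X : Finset ι) (y u : Wrd ι) : Set (ℝ × (ι → ℝ)) :=
  {x | x ∈ K3R.HS G X ∧ (∀ K ∈ y.2, K ⊆ Sp X y → lK K x = 1) ∧
    ∀ K ∈ u.2, K ⊆ Sp X u → lK K x = -1}

end Pool.Agent.HNS
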