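import Pool.Agent.HNS.Defs2

/-!
# The embedding of words, part 1

`(C, S)` balanced, every `r ∈ Q` is complete to `C` and anticomplete to `S`, `Q` disjoint from
`C ∪ S`. For `c ∈ C` let `tc c = insert c {s ∈ S : c, s not adjacent}` (stable), for `s ∈ S` let
`ks s = insert s {c ∈ C : c ~ s}` (clique).
For `y ∈ Wd G Q` let `f y = ({S ∪ T : T ∈ y.1} ∪ {tc c : c ∈ C}, {C ∪ K : K ∈ y.2} ∪ {ks s : s ∈ S})`
(Finset.image). PROOF that it is a word over `C ∪ S ∪ Q`: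
every stable set of the list meets every clique of the list: `(S ∪ T) ∩ (C ∪ K) = T ∩ K`,
`(S ∪ T) ∩ ks s = {s}`, `tc c ∩ (C ∪ K) = {c}`, `tc c ∩ ks s` is `{c}` if `c ~ s` and `{s}` otherwise.
If `T' ⊆ C ∪ S ∪ Q` is stable and meets all cliques of the list: if `c ∈ T' ∩ C` then `T' ∩ Q = ∅`,
`T' ∩ C = {c}`, and for `s ∈ S` with `c ≁ s` the clique `ks s` is met, so `s ∈ T'`; hence
`T' = tc c`. If `T' ∩ C = ∅` all `ks s` are met, so `S ⊆ T'`, `T' = S ∪ T` with `T = T' ∩ Q`, and `T`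
meets all `K ∈ y.2` (as `T' ∩ (C ∪ K) = T ∩ K`), so `T ∈ y.1`. Dually for cliques.
Letters: on `C ∪ S` always `a` (every `s ∈ S` has a non-neighbour `c`, so `s ∈ tc c`; every `c` has a
neighbour `s`, so `c ∈ ks s`), on `Q` the letters of `y`. Injective: `T ∈ y.1` iff `T ⊆ Q` and
`S ∪ T ∈ (f y).1`, and a word is determined by its first component (mem_snd).
-/

set_option autoImplicit false
set_option linter.unusedSectionVars false

open scoped Classical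

namespace Pool.Agent.HNS

variable {ι : Type} [DecidableEq ι]

/-- stable set belonging to `c` -/
noncomputable def tc (G : SimpleGraph ι) (S : Finset ι) (c : ι) : Finset ι :=
  insert c (S.filter fun s => ¬ G.Adj c s)

/-- clique belonging to `s` -/
noncomputable def ks (G : SimpleGraph ι) (C : Finset ι) (s : ι) : Finset ι :=
  insert s (C.filter fun c => G.Adj c s)

/-- the embedding of words -/
noncomputable def fE (G : SimpleGraph ι) (C S : Finset ι) (y : Wrd ι) : Wrd ι :=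
  (y.1.image (fun T => S ∪ T) ∪ C.image (tc G S), y.2.image (fun K => C ∪ K) ∪ S.image (ks G C))

section emb

variable {G : SimpleGraph ι} {C S Q : Finset ι}

theorem mem_tc {c x : ι} : x ∈ tc G S c ↔ x = c ∨ x ∈ S ∧ ¬ G.Adj c x := by
  unfold tc
  rw [Finset.mem_insert, Finset.mem_filter]

theorem mem_ks {s x : ι} : x ∈ ks G C s ↔ x = s ∨ x ∈ C ∧ G.Adj x s := by
  unfold ks
  rw [Finset.mem_insert, Finset.mem_filter]

theorem mem_fE1 {y : Wrd ι} {T : Finset ι} :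
    T ∈ (fE G C S y).1 ↔ (∃ T₀ ∈ y.1, S ∪ T₀ = T) ∨ ∃ c ∈ C, tc G S c = T := by
  unfold fE
  simp only [Finset.mem_union, Finset.mem_image]

theorem mem_fE2 {y : Wrd ι} {K : Finset ι} :
    K ∈ (fE G C S y).2 ↔ (∃ K₀ ∈ y.2, C ∪ K₀ = K) ∨ ∃ s ∈ S, ks G C s = K := by
  unfold fE
  simp only [Finset.mem_union, Finset.mem_image]

theorem stb_tc (hb : Bal G C S) (c : ι) : Stb G (tc G S c) := by
  intro a ha b hb' hab
  rw [mem_tc] at ha hb'
  rcases ha with rfl | ha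
  · rcases hb' with rfl | hb'
    · exact hab.ne rfl
    · exact hb'.2 hab
  · rcases hb' with rfl | hb'
    · exact ha.2 hab.symm
    · exact hb.stb a ha.1 b hb'.1 hab

theorem clq_ks (hb : Bal G C S) (s : ι) : Clq G (ks G C s) := by
  intro a ha b hb' hab
  rw [mem_ks] at ha hb'
  rcases ha with rfl | ha
  · rcases hb' with rfl | hb'
    · exact absurd rfl hab
    · exact hb'.2.symm
  · rcases hb' with rfl | hb'
    · exact ha.2
    · exact hb.clq a ha.1 b hb'.1 hab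

theorem stb_SU (hb : Bal G C S)
    (hq : ∀ r ∈ Q, r ∉ C ∪ S ∧ (∀ c ∈ C, G.Adj r c) ∧ ∀ s ∈ S, ¬ G.Adj r s) {T : Finset ι}
    (hT : T ⊆ Q) (hs : Stb G T) : Stb G (S ∪ T) := by
  intro a ha b hb' hab
  rw [Finset.mem_union] at ha hb'
  rcases ha with ha | ha
  · rcases hb' with hb' | hb'
    · exact hb.stb a ha b hb' hab
    · exact (hq b (hT hb')).2.2 a ha hab.symm
  · rcases hb' with hb' | hb'
    · exact (hq a (hT ha)).2.2 b hb' hab
    · exact hs a ha b hb' hab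

theorem clq_CU (hb : Bal G C S)
    (hq : ∀ r ∈ Q, r ∉ C ∪ S ∧ (∀ c ∈ C, G.Adj r c) ∧ ∀ s ∈ S, ¬ G.Adj r s) {K : Finset ι}
    (hK : K ⊆ Q) (hs : Clq G K) : Clq G (C ∪ K) := by
  intro a ha b hb' hab
  rw [Finset.mem_union] at ha hb'
  rcases ha with ha | ha
  · rcases hb' with hb' | hb'
    · exact hb.clq a ha b hb' hab
    · exact ((hq b (hK hb')).2.1 a ha).symm
  · rcases hb' with hb' | hb'
    · exact (hq a (hK ha)).2.1 b hb'
    · exact hs a ha b hb' hab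

theorem fE1_prop (hb : Bal G C S)
    (hq : ∀ r ∈ Q, r ∉ C ∪ S ∧ (∀ c ∈ C, G.Adj r c) ∧ ∀ s ∈ S, ¬ G.Adj r s) {y : Wrd ι}
    (hy : y ∈ Wd G Q) {T : Finset ι} (hT : T ∈ (fE G C S y).1) :
    T ⊆ C ∪ S ∪ Q ∧ Stb G T := by
  rcases mem_fE1.1 hT with ⟨T₀, h0, rfl⟩ | ⟨c, hc, rfl⟩
  · refine ⟨?_, stb_SU hb hq (fst_sub hy h0) (fst_stb hy h0)⟩
    intro x hx
    rcases Finset.mem_union.1 hx with hx | hx
    · exact Finset.mem_union_left _ (Finset.mem_union_right _ hx)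
    · exact Finset.mem_union_right _ (fst_sub hy h0 hx)
  · refine ⟨?_, stb_tc hb c⟩
    intro x hx
    rcases mem_tc.1 hx with rfl | hx
    · exact Finset.mem_union_left _ (Finset.mem_union_left _ hc)
    · exact Finset.mem_union_left _ (Finset.mem_union_right _ hx.1)

theorem fE2_prop (hb : Bal G C S)
    (hq : ∀ r ∈ Q, r ∉ C ∪ S ∧ (∀ c ∈ C, G.Adj r c) ∧ ∀ s ∈ S, ¬ G.Adj r s) {y : Wrd ι}
    (hy : y ∈ Wd G Q) {K : Finset ι} (hK : K ∈ (fE G C S y).2) :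
    K ⊆ C ∪ S ∪ Q ∧ Clq G K := by
  rcases mem_fE2.1 hK with ⟨K₀, h0, rfl⟩ | ⟨s, hs, rfl⟩
  · refine ⟨?_, clq_CU hb hq (snd_sub hy h0) (snd_clq hy h0)⟩
    intro x hx
    rcases Finset.mem_union.1 hx with hx | hx
    · exact Finset.mem_union_left _ (Finset.mem_union_left _ hx)
    · exact Finset.mem_union_right _ (snd_sub hy h0 hx)
  · refine ⟨?_, clq_ks hb s⟩
    intro x hx
    rcases mem_ks.1 hx with rfl | hx
    · exact Finset.mem_union_left _ (Finset.mem_union_right _ hs)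
    · exact Finset.mem_union_left _ (Finset.mem_union_left _ hx.1)

theorem fE_meet {y : Wrd ι} (hy : y ∈ Wd G Q) {T K : Finset ι} (hT : T ∈ (fE G C S y).1)
    (hK : K ∈ (fE G C S y).2) : ∃ x, x ∈ T ∧ x ∈ K := by
  rcases mem_fE1.1 hT with ⟨T₀, h0, rfl⟩ | ⟨c, hc, rfl⟩
  · rcases mem_fE2.1 hK with ⟨K₀, k0, rfl⟩ | ⟨s, hs, rfl⟩
    · obtain ⟨x, h1, h2⟩ := exists_of_card (card_eq hy h0 k0)
      exact ⟨x, Finset.mem_union_right _ h1, Finset.mem_union_right _ h2⟩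
    · exact ⟨s, Finset.mem_union_left _ hs, mem_ks.2 (Or.inl rfl)⟩
  · rcases mem_fE2.1 hK with ⟨K₀, k0, rfl⟩ | ⟨s, hs, rfl⟩
    · exact ⟨c, mem_tc.2 (Or.inl rfl), Finset.mem_union_left _ hc⟩
    · by_cases hcs : G.Adj c s
      · exact ⟨c, mem_tc.2 (Or.inl rfl), mem_ks.2 (Or.inr ⟨hc, hcs⟩)⟩
      · exact ⟨s, mem_tc.2 (Or.inr ⟨hs, hcs⟩), mem_ks.2 (Or.inl rfl)⟩

theorem fE1_max (hb : Bal G C S)
    (hq : ∀ r ∈ Q, r ∉ C ∪ S ∧ (∀ c ∈ C, G.Adj r c) ∧ ∀ s ∈ S, ¬ G.Adj r s) {y : Wrd ι}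
    (hy : y ∈ Wd G Q) {T : Finset ι} (hT : T ⊆ C ∪ S ∪ Q) (hs : Stb G T)
    (hm : ∀ K ∈ (fE G C S y).2, ∃ x, x ∈ T ∧ x ∈ K) : T ∈ (fE G C S y).1 := by
  rw [mem_fE1]
  by_cases hc : ∃ c ∈ C, c ∈ T
  · obtain ⟨c, hc, hcT⟩ := hc
    refine Or.inr ⟨c, hc, ?_⟩
    have huniq : ∀ z ∈ C, z ∈ T → z = c := by
      intro z hz hzT
      by_contra hne
      exact hs z hzT c hcT (hb.clq z hz c hc hne)
    ext x
    rw [mem_tc]
    constructor
    · rintro (rfl | ⟨hx, hnx⟩)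
      · exact hcT
      · obtain ⟨z, hz, hzk⟩ := hm _ (mem_fE2.2 (Or.inr ⟨x, hx, rfl⟩))
        rcases mem_ks.1 hzk with rfl | ⟨hzC, hza⟩
        · exact hz
        · rw [huniq z hzC hz] at hza
          exact absurd hza hnx
    · intro hx
      rcases Finset.mem_union.1 (hT hx) with h1 | h1
      · rcases Finset.mem_union.1 h1 with h1 | h1
        · exact Or.inl (huniq x h1 hx)
        · exact Or.inr ⟨h1, fun h => hs c hcT x hx h⟩
      · exact absurd ((hq x h1).2.1 c hc) (hs x hx c hcT)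
  · have hno : ∀ c ∈ C, c ∉ T := fun c hc' hcT => hc ⟨c, hc', hcT⟩
    refine Or.inl ⟨T ∩ Q, ?_, ?_⟩
    · refine mem_fst' hy Finset.inter_subset_right (hs.mono Finset.inter_subset_left) ?_
      intro K hK
      obtain ⟨z, hz, hzk⟩ := hm _ (mem_fE2.2 (Or.inl ⟨K, hK, rfl⟩))
      rcases Finset.mem_union.1 hzk with h1 | h1
      · exact absurd hz (hno z h1)
      · exact ⟨z, Finset.mem_inter.2 ⟨hz, snd_sub hy hK h1⟩, h1⟩
    · ext x
      rw [Finset.mem_union, Finset.mem_inter]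
      constructor
      · rintro (hx | hx)
        · obtain ⟨z, hz, hzk⟩ := hm _ (mem_fE2.2 (Or.inr ⟨x, hx, rfl⟩))
          rcases mem_ks.1 hzk with rfl | ⟨hzC, hza⟩
          · exact hz
          · exact absurd hz (hno z hzC)
        · exact hx.1
      · intro hx
        rcases Finset.mem_union.1 (hT hx) with h1 | h1
        · rcases Finset.mem_union.1 h1 with h1 | h1
          · exact absurd hx (hno x h1)
          · exact Or.inl h1
        · exact Or.inr ⟨hx, h1⟩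

theorem fE2_max (hb : Bal G C S)
    (hq : ∀ r ∈ Q, r ∉ C ∪ S ∧ (∀ c ∈ C, G.Adj r c) ∧ ∀ s ∈ S, ¬ G.Adj r s) {y : Wrd ι}
    (hy : y ∈ Wd G Q) {K : Finset ι} (hK : K ⊆ C ∪ S ∪ Q) (hs : Clq G K)
    (hm : ∀ T ∈ (fE G C S y).1, ∃ x, x ∈ T ∧ x ∈ K) : K ∈ (fE G C S y).2 := by
  rw [mem_fE2]
  by_cases hc : ∃ s ∈ S, s ∈ K
  · obtain ⟨s, hsS, hsK⟩ := hc
    refine Or.inr ⟨s, hsS, ?_⟩
    have huniq : ∀ z ∈ S, z ∈ K → z = s := by
      intro z hz hzK
      by_contra hne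
      exact hb.stb z hz s hsS (hs z hzK s hsK hne)
    ext x
    rw [mem_ks]
    constructor
    · rintro (rfl | ⟨hx, hnx⟩)
      · exact hsK
      · obtain ⟨z, hzt, hz⟩ := hm _ (mem_fE1.2 (Or.inr ⟨x, hx, rfl⟩))
        rcases mem_tc.1 hzt with rfl | ⟨hzS, hza⟩
        · exact hz
        · rw [huniq z hzS hz] at hza
          exact absurd hnx hza
    · intro hx
      rcases Finset.mem_union.1 (hK hx) with h1 | h1
      · rcases Finset.mem_union.1 h1 with h1 | h1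
        · refine Or.inr ⟨h1, hs x hx s hsK ?_⟩
          rintro rfl
          exact Finset.disjoint_left.1 hb.dCS h1 hsS
        · exact Or.inl (huniq x h1 hx)
      · have hne : x ≠ s := by
          rintro rfl
          exact (hq x h1).1 (Finset.mem_union_right _ hsS)
        exact absurd (hs x hx s hsK hne) ((hq x h1).2.2 s hsS)
  · have hno : ∀ s ∈ S, s ∉ K := fun s hs' hsK => hc ⟨s, hs', hsK⟩
    refine Or.inl ⟨K ∩ Q, ?_, ?_⟩
    · refine mem_snd' hy Finset.inter_subset_right (hs.mono Finset.inter_subset_left) ?_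
      intro T hT
      obtain ⟨z, hzt, hz⟩ := hm _ (mem_fE1.2 (Or.inl ⟨T, hT, rfl⟩))
      rcases Finset.mem_union.1 hzt with h1 | h1
      · exact absurd hz (hno z h1)
      · exact ⟨z, h1, Finset.mem_inter.2 ⟨hz, fst_sub hy hT h1⟩⟩
    · ext x
      rw [Finset.mem_union, Finset.mem_inter]
      constructor
      · rintro (hx | hx)
        · obtain ⟨z, hzt, hz⟩ := hm _ (mem_fE1.2 (Or.inr ⟨x, hx, rfl⟩))
          rcases mem_tc.1 hzt with rfl | ⟨hzS, hza⟩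
          · exact hz
          · exact absurd hz (hno z hzS)
        · exact hx.1
      · intro hx
        rcases Finset.mem_union.1 (hK hx) with h1 | h1
        · rcases Finset.mem_union.1 h1 with h1 | h1
          · exact Or.inl h1
          · exact absurd hx (hno x h1)
        · exact Or.inr ⟨hx, h1⟩

theorem fE_mem (hb : Bal G C S)
    (hq : ∀ r ∈ Q, r ∉ C ∪ S ∧ (∀ c ∈ C, G.Adj r c) ∧ ∀ s ∈ S, ¬ G.Adj r s)
    {y : Wrd ι} (hy : y ∈ Wd G Q) : fE G C S y ∈ Wd G (C ∪ S ∪ Q) := by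
  rw [mem_Wd]
  refine ⟨fun T => ⟨fun hT => ?_, fun hT => ?_⟩, fun K => ⟨fun hK => ?_, fun hK => ?_⟩⟩
  · obtain ⟨h1, h2⟩ := fE1_prop hb hq hy hT
    exact ⟨h1, h2, fun K hK =>
      (inter_card_iff h2 (fE2_prop hb hq hy hK).2).2 (fE_meet hy hT hK)⟩
  · exact fE1_max hb hq hy hT.1 hT.2.1 fun K hK => exists_of_card (hT.2.2 K hK)
  · obtain ⟨h1, h2⟩ := fE2_prop hb hq hy hK
    exact ⟨h1, h2, fun T hT =>
      (inter_card_iff (fE1_prop hb hq hy hT).2 h2).2 (fE_meet hy hT hK)⟩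
  · exact fE2_max hb hq hy hK.1 hK.2.1 fun T hT => exists_of_card (hK.2.2 T hT)

end emb

theorem fE_letter {G : SimpleGraph ι} {C S Q : Finset ι} (hb : Bal G C S)
    (hq : ∀ r ∈ Q, r ∉ C ∪ S ∧ (∀ c ∈ C, G.Adj r c) ∧ ∀ s ∈ S, ¬ G.Adj r s)
    {y : Wrd ι} (hy : y ∈ Wd G Q) :
    (∀ i ∈ C ∪ S, sL (fE G C S y) i ∧ kL (fE G C S y) i) ∧
      ∀ i ∈ Q, (sL (fE G C S y) i ↔ sL y i) ∧ (kL (fE G C S y) i ↔ kL y i) := by
  constructor
  · intro i hi
    rcases Finset.mem_union.1 hi with hi | hi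
    · obtain ⟨s, hs, hadj⟩ := hb.hC i hi
      exact ⟨⟨tc G S i, mem_fE1.2 (Or.inr ⟨i, hi, rfl⟩), mem_tc.2 (Or.inl rfl)⟩,
        ⟨ks G C s, mem_fE2.2 (Or.inr ⟨s, hs, rfl⟩), mem_ks.2 (Or.inr ⟨hi, hadj⟩)⟩⟩
    · obtain ⟨c, hc, hadj⟩ := hb.hS i hi
      exact ⟨⟨tc G S c, mem_fE1.2 (Or.inr ⟨c, hc, rfl⟩),
          mem_tc.2 (Or.inr ⟨hi, fun h => hadj h.symm⟩)⟩,
        ⟨ks G C i, mem_fE2.2 (Or.inr ⟨i, hi, rfl⟩), mem_ks.2 (Or.inl rfl)⟩⟩
  · intro i hi
    have hiC : i ∉ C := fun h => (hq i hi).1 (Finset.mem_union_left _ h)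
    have hiS : i ∉ S := fun h => (hq i hi).1 (Finset.mem_union_right _ h)
    constructor
    · constructor
      · rintro ⟨T, hT, hiT⟩
        rcases mem_fE1.1 hT with ⟨T₀, h0, rfl⟩ | ⟨c, hc, rfl⟩
        · rcases Finset.mem_union.1 hiT with h1 | h1
          · exact absurd h1 hiS
          · exact ⟨T₀, h0, h1⟩
        · rcases mem_tc.1 hiT with rfl | h1
          · exact absurd hc hiC
          · exact absurd h1.1 hiS
      · rintro ⟨T, hT, hiT⟩
        exact ⟨S ∪ T, mem_fE1.2 (Or.inl ⟨T, hT, rfl⟩), Finset.mem_union_right _ hiT⟩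
    · constructor
      · rintro ⟨K, hK, hiK⟩
        rcases mem_fE2.1 hK with ⟨K₀, h0, rfl⟩ | ⟨s, hs, rfl⟩
        · rcases Finset.mem_union.1 hiK with h1 | h1
          · exact absurd h1 hiC
          · exact ⟨K₀, h0, h1⟩
        · rcases mem_ks.1 hiK with rfl | h1
          · exact absurd hs hiS
          · exact absurd h1.1 hiC
      · rintro ⟨K, hK, hiK⟩
        exact ⟨C ∪ K, mem_fE2.2 (Or.inl ⟨K, hK, rfl⟩), Finset.mem_union_right _ hiK⟩

/-- a word is determined by its first component -/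
theorem eq_of_fst {G : SimpleGraph ι} {W : Finset ι} {y y' : Wrd ι} (hy : y ∈ Wd G W)
    (hy' : y' ∈ Wd G W) (h : y.1 = y'.1) : y = y' := by
  refine Prod.ext h ?_
  ext K
  rw [mem_snd hy, mem_snd hy', h]

/-- a word is determined by its second component -/
theorem eq_of_snd {G : SimpleGraph ι} {W : Finset ι} {y y' : Wrd ι} (hy : y ∈ Wd G W)
    (hy' : y' ∈ Wd G W) (h : y.2 = y'.2) : y = y' := by
  refine Prod.ext ?_ h
  ext K
  rw [mem_fst hy, mem_fst hy', h]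

theorem fE_fst_iff {G : SimpleGraph ι} {C S Q : Finset ι} (hb : Bal G C S)
    (hq : ∀ r ∈ Q, r ∉ C ∪ S ∧ (∀ c ∈ C, G.Adj r c) ∧ ∀ s ∈ S, ¬ G.Adj r s)
    {y : Wrd ι} (hy : y ∈ Wd G Q) {T : Finset ι} :
    T ∈ y.1 ↔ T ⊆ Q ∧ S ∪ T ∈ (fE G C S y).1 := by
  constructor
  · intro hT
    exact ⟨fst_sub hy hT, mem_fE1.2 (Or.inl ⟨T, hT, rfl⟩)⟩
  · rintro ⟨hTQ, hT⟩
    rcases mem_fE1.1 hT with ⟨T₀, h0, he⟩ | ⟨c, hc, he⟩
    · have h1 : T₀ = T := by
        have hd : ∀ x ∈ Q, x ∉ S := fun x hx h => (hq x hx).1 (Finset.mem_union_right _ h)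
        ext x
        constructor
        · intro hx
          have : x ∈ S ∪ T := he ▸ Finset.mem_union_right _ hx
          rcases Finset.mem_union.1 this with h2 | h2
          · exact absurd h2 (hd x (fst_sub hy h0 hx))
          · exact h2
        · intro hx
          have : x ∈ S ∪ T₀ := he ▸ Finset.mem_union_right _ hx
          rcases Finset.mem_union.1 this with h2 | h2
          · exact absurd h2 (hd x (hTQ hx))
          · exact h2
      rw [← h1]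
      exact h0
    · exfalso
      have h1 : c ∈ S ∪ T := he ▸ mem_tc.2 (Or.inl rfl)
      rcases Finset.mem_union.1 h1 with h2 | h2
      · exact Finset.disjoint_left.1 hb.dCS hc h2
      · exact (hq c (hTQ h2)).1 (Finset.mem_union_left _ hc)

theorem fE_inj {G : SimpleGraph ι} {C S Q : Finset ι} (hb : Bal G C S)
    (hq : ∀ r ∈ Q, r ∉ C ∪ S ∧ (∀ c ∈ C, G.Adj r c) ∧ ∀ s ∈ S, ¬ G.Adj r s)
    {y y' : Wrd ι} (hy : y ∈ Wd G Q) (hy' : y' ∈ Wd G Q) (he : fE G C S y = fE G C S y') :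
    y = y' := by
  refine eq_of_fst hy hy' ?_
  ext T
  rw [fE_fst_iff hb hq hy, fE_fst_iff hb hq hy', he]

end Pool.Agent.HNS
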