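import Pool.Agent.HNS.Eba
import Pool.Agent.HNS.Del
import Pool.Agent.HNS.Exs
import Pool.Agent.HNS.Cov

/-!
# The embedding of words, part 2

`Q = Rs G W C S`, `M = W \ (C ∪ S ∪ Q)`, so `W \ M = C ∪ S ∪ Q`. For `y ∈ Wd G Q` let `g y` be a word of
`Wd G W` with `Uns M (g y)` and `del M (g y) = fE G C S y` (del_surj).
Letters of `g y` at `m ∈ M` (sL_ext, kL_ext): if `m ∈ Mo` then `insert m (tc G S c)` is stable for
the `c` of the definition, so `sL`, and `¬ kL` by `Uns`; if `m ∈ Mz` then `insert m (ks G C s)` is a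
clique, so `kL` and `¬ sL`. In particular `Mz`, `Mo` are disjoint (use any word, e.g. `g (wz G Q)`).
`Mz ∪ Mo = M`: let `m ∈ M`, `m ∉ Mz`, `m ∉ Mo`. For `g (wz G Q)` (`(fE (wz G Q)).1 = C.image (tc G S)`):
`sL` would give `m ∈ Mo`; so `kL` (cover), by kL_ext some `insert m (C ∪ K)` is a clique (or
`insert m (ks G C s)`, which gives `m ∈ Mz`), so `m` is complete to `C`. For `g (wo G Q)`: `kL`
gives `m ∈ Mz`, so `sL`: `insert m (S ∪ T)` is stable, `m` is anticomplete to `S`. So `m ∈ Rs`,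
contradiction.
-/

set_option autoImplicit false
set_option linter.unusedSectionVars false

open scoped Classical

namespace Pool.Agent.HNS

variable {ι : Type} [DecidableEq ι]

theorem Rs_prop {G : SimpleGraph ι} {W C S : Finset ι} :
    ∀ r ∈ Rs G W C S, r ∉ C ∪ S ∧ (∀ c ∈ C, G.Adj r c) ∧ ∀ s ∈ S, ¬ G.Adj r s := by
  intro r hr
  unfold Rs at hr
  rw [Finset.mem_filter, Finset.mem_sdiff] at hr
  exact ⟨hr.1.2, hr.2⟩

theorem Rs_sub {G : SimpleGraph ι} {W C S : Finset ι} : Rs G W C S ⊆ W := by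
  intro r hr
  unfold Rs at hr
  rw [Finset.mem_filter, Finset.mem_sdiff] at hr
  exact hr.1.1

theorem mem_Rs {G : SimpleGraph ι} {W C S : Finset ι} {r : ι} :
    r ∈ Rs G W C S ↔ (r ∈ W ∧ r ∉ C ∪ S) ∧ (∀ c ∈ C, G.Adj r c) ∧ ∀ s ∈ S, ¬ G.Adj r s := by
  unfold Rs
  rw [Finset.mem_filter, Finset.mem_sdiff]

theorem mem_Mz {G : SimpleGraph ι} {W C S : Finset ι} {m : ι} :
    m ∈ Mz G W C S ↔ m ∈ W \ (C ∪ S ∪ Rs G W C S) ∧
      ∃ s ∈ S, G.Adj m s ∧ ∀ c ∈ C, G.Adj c s → G.Adj m c := by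
  unfold Mz
  rw [Finset.mem_filter]

theorem mem_Mo {G : SimpleGraph ι} {W C S : Finset ι} {m : ι} :
    m ∈ Mo G W C S ↔ m ∈ W \ (C ∪ S ∪ Rs G W C S) ∧
      ∃ c ∈ C, ¬ G.Adj m c ∧ ∀ s ∈ S, ¬ G.Adj c s → ¬ G.Adj m s := by
  unfold Mo
  rw [Finset.mem_filter]

theorem sdiff_M {G : SimpleGraph ι} {W C S : Finset ι} (hW : C ∪ S ⊆ W) :
    W \ (W \ (C ∪ S ∪ Rs G W C S)) = C ∪ S ∪ Rs G W C S :=
  Finset.sdiff_sdiff_eq_self (Finset.union_subset hW Rs_sub)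

theorem ext_exists {G : SimpleGraph ι} {W C S : Finset ι} (hb : Bal G C S)
    (hW : C ∪ S ⊆ W) {y : Wrd ι} (hy : y ∈ Wd G (Rs G W C S)) :
    ∃ u ∈ Wd G W, Uns (W \ (C ∪ S ∪ Rs G W C S)) u ∧
      del (W \ (C ∪ S ∪ Rs G W C S)) u = fE G C S y := by
  have h1 := fE_mem hb Rs_prop hy
  rw [← sdiff_M hW] at h1
  exact del_surj h1

/-- a vertex extends `tc c` to a stable set exactly if it satisfies the condition of `Mo` -/
theorem stb_insert_tc {G : SimpleGraph ι} {C S : Finset ι} (hb : Bal G C S) {m c : ι} :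
    Stb G (insert m (tc G S c)) ↔ ¬ G.Adj m c ∧ ∀ s ∈ S, ¬ G.Adj c s → ¬ G.Adj m s := by
  constructor
  · intro h
    refine ⟨h m (Finset.mem_insert_self _ _) c (Finset.mem_insert_of_mem (mem_tc.2 (Or.inl rfl))),
      fun s hs hcs => h m (Finset.mem_insert_self _ _) s
        (Finset.mem_insert_of_mem (mem_tc.2 (Or.inr ⟨hs, hcs⟩)))⟩
  · rintro ⟨h1, h2⟩ a ha b hb' hab
    have h3 : ∀ x ∈ tc G S c, ¬ G.Adj m x := by
      intro x hx
      rcases mem_tc.1 hx with rfl | ⟨hx, hcx⟩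
      · exact h1
      · exact h2 x hx hcx
    rcases Finset.mem_insert.1 ha with ha1 | ha1
    · rcases Finset.mem_insert.1 hb' with hb1 | hb1
      · exact hab.ne (ha1.trans hb1.symm)
      · rw [ha1] at hab
        exact h3 b hb1 hab
    · rcases Finset.mem_insert.1 hb' with hb1 | hb1
      · rw [hb1] at hab
        exact h3 a ha1 hab.symm
      · exact stb_tc hb c a ha1 b hb1 hab

theorem clq_insert_ks {G : SimpleGraph ι} {C S : Finset ι} (hb : Bal G C S) {m s : ι}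
    (hm : m ∉ C) (hms : m ≠ s) :
    Clq G (insert m (ks G C s)) ↔ G.Adj m s ∧ ∀ c ∈ C, G.Adj c s → G.Adj m c := by
  constructor
  · intro h
    refine ⟨h m (Finset.mem_insert_self _ _) s
      (Finset.mem_insert_of_mem (mem_ks.2 (Or.inl rfl))) hms, fun c hc hcs => ?_⟩
    refine h m (Finset.mem_insert_self _ _) c
        (Finset.mem_insert_of_mem (mem_ks.2 (Or.inr ⟨hc, hcs⟩))) ?_
    rintro rfl
    exact hm hc
  · rintro ⟨h1, h2⟩ a ha b hb' hab
    have h3 : ∀ x ∈ ks G C s, G.Adj m x := by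
      intro x hx
      rcases mem_ks.1 hx with rfl | ⟨hx, hcx⟩
      · exact h1
      · exact h2 x hx hcx
    rcases Finset.mem_insert.1 ha with ha1 | ha1
    · rcases Finset.mem_insert.1 hb' with hb1 | hb1
      · exact absurd (ha1.trans hb1.symm) hab
      · rw [ha1]
        exact h3 b hb1
    · rcases Finset.mem_insert.1 hb' with hb1 | hb1
      · rw [hb1]
        exact (h3 a ha1).symm
      · exact clq_ks hb s a ha1 b hb1 hab

theorem M_not {G : SimpleGraph ι} {W C S : Finset ι} {m : ι}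
    (hm : m ∈ W \ (C ∪ S ∪ Rs G W C S)) : m ∈ W ∧ m ∉ C ∧ m ∉ S ∧ m ∉ Rs G W C S := by
  rw [Finset.mem_sdiff, Finset.mem_union, Finset.mem_union] at hm
  tauto

section letters

variable {G : SimpleGraph ι} {W C S : Finset ι} {y u : Wrd ι}

theorem let_Mo (hb : Bal G C S) (hu : u ∈ Wd G W)
    (hA : Uns (W \ (C ∪ S ∪ Rs G W C S)) u)
    (hd : del (W \ (C ∪ S ∪ Rs G W C S)) u = fE G C S y) {m : ι} (hm : m ∈ Mo G W C S) :
    sL u m ∧ ¬ kL u m := by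
  obtain ⟨hm1, c, hc, h1, h2⟩ := mem_Mo.1 hm
  have h3 : sL u m := by
    rw [sL_ext hu hA hm1 (M_not hm1).1, hd]
    exact ⟨tc G S c, mem_fE1.2 (Or.inr ⟨c, hc, rfl⟩), (stb_insert_tc hb).2 ⟨h1, h2⟩⟩
  exact ⟨h3, fun hk => hA m hm1 ⟨h3, hk⟩⟩

theorem let_Mz (hb : Bal G C S) (hu : u ∈ Wd G W)
    (hA : Uns (W \ (C ∪ S ∪ Rs G W C S)) u)
    (hd : del (W \ (C ∪ S ∪ Rs G W C S)) u = fE G C S y) {m : ι} (hm : m ∈ Mz G W C S) :
    kL u m ∧ ¬ sL u m := by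
  obtain ⟨hm1, s, hs, h1, h2⟩ := mem_Mz.1 hm
  have h3 : kL u m := by
    rw [kL_ext hu hA hm1 (M_not hm1).1, hd]
    refine ⟨ks G C s, mem_fE2.2 (Or.inr ⟨s, hs, rfl⟩),
      (clq_insert_ks hb (M_not hm1).2.1 ?_).2 ⟨h1, h2⟩⟩
    rintro rfl
    exact (M_not hm1).2.2.1 hs
  exact ⟨h3, fun hk => hA m hm1 ⟨hk, h3⟩⟩

theorem let_in (hb : Bal G C S) (hy : y ∈ Wd G (Rs G W C S)) (hu : u ∈ Wd G W)
    (hA : Uns (W \ (C ∪ S ∪ Rs G W C S)) u)
    (hd : del (W \ (C ∪ S ∪ Rs G W C S)) u = fE G C S y) :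
    (∀ i ∈ C ∪ S, sL u i ∧ kL u i) ∧
      ∀ i ∈ Rs G W C S, (sL u i ↔ sL y i) ∧ (kL u i ↔ kL y i) := by
  obtain ⟨h1, h2⟩ := fE_letter hb Rs_prop hy
  have hn : ∀ i ∈ C ∪ S ∪ Rs G W C S, i ∉ W \ (C ∪ S ∪ Rs G W C S) := by
    intro i hi h
    exact (Finset.mem_sdiff.1 h).2 hi
  constructor
  · intro i hi
    have h3 := hn i (Finset.mem_union_left _ hi)
    rw [← sL_del hu hA h3, ← kL_del hu hA h3, hd]
    exact h1 i hi
  · intro i hi
    have h3 := hn i (Finset.mem_union_right _ hi)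
    rw [← sL_del hu hA h3, ← kL_del hu hA h3, hd]
    exact h2 i hi

end letters

theorem M_disj {G : SimpleGraph ι} (h : PF G) {W C S : Finset ι} (hb : Bal G C S)
    (hW : C ∪ S ⊆ W) : Disjoint (Mz G W C S) (Mo G W C S) := by
  obtain ⟨u, hu, hA, hd⟩ := ext_exists hb hW (wz_mem G (Rs G W C S))
  rw [Finset.disjoint_left]
  intro m h1 h2
  exact (let_Mz hb hu hA hd h1).2 (let_Mo hb hu hA hd h2).1

theorem M_union {G : SimpleGraph ι} (h : PF G) {W C S : Finset ι} (hb : Bal G C S)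
    (hW : C ∪ S ⊆ W) : Mz G W C S ∪ Mo G W C S = W \ (C ∪ S ∪ Rs G W C S) := by
  apply Finset.Subset.antisymm
  · intro m hm
    rcases Finset.mem_union.1 hm with hm | hm
    · exact (mem_Mz.1 hm).1
    · exact (mem_Mo.1 hm).1
  · intro m hm
    by_contra hcon
    rw [Finset.mem_union, not_or] at hcon
    obtain ⟨hz, ho⟩ := hcon
    obtain ⟨hmW, hmC, hmS, hmR⟩ := M_not hm
    have hz' : ∀ s ∈ S, ¬ Clq G (insert m (ks G C s)) := by
      intro s hs hK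
      refine hz (mem_Mz.2 ⟨hm, s, hs, (clq_insert_ks hb hmC ?_).1 hK⟩)
      rintro rfl
      exact hmS hs
    have ho' : ∀ c ∈ C, ¬ Stb G (insert m (tc G S c)) := by
      intro c hc hT
      exact ho (mem_Mo.2 ⟨hm, c, hc, (stb_insert_tc hb).1 hT⟩)
    have hC : ∀ c ∈ C, G.Adj m c := by
      obtain ⟨u, hu, hA, hd⟩ := ext_exists hb hW (wz_mem G (Rs G W C S))
      have h1 : ¬ sL u m := by
        rw [sL_ext hu hA hm hmW, hd]
        rintro ⟨T, hT, hs⟩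
        rcases mem_fE1.1 hT with ⟨T₀, h0, rfl⟩ | ⟨c, hc, rfl⟩
        · exact absurd h0 (Finset.notMem_empty _)
        · exact ho' c hc hs
      have h2 : kL u m := (cover h hu hmW).resolve_left h1
      rw [kL_ext hu hA hm hmW, hd] at h2
      obtain ⟨K, hK, hs⟩ := h2
      rcases mem_fE2.1 hK with ⟨K₀, h0, rfl⟩ | ⟨s, hs', rfl⟩
      · intro c hc
        refine hs m (Finset.mem_insert_self _ _) c
          (Finset.mem_insert_of_mem (Finset.mem_union_left _ hc)) ?_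
        rintro rfl
        exact hmC hc
      · exact absurd hs (hz' s hs')
    have hS : ∀ s ∈ S, ¬ G.Adj m s := by
      obtain ⟨u, hu, hA, hd⟩ := ext_exists hb hW (wo_mem G (Rs G W C S))
      have h1 : ¬ kL u m := by
        rw [kL_ext hu hA hm hmW, hd]
        rintro ⟨K, hK, hs⟩
        rcases mem_fE2.1 hK with ⟨K₀, h0, rfl⟩ | ⟨s, hs', rfl⟩
        · exact absurd h0 (Finset.notMem_empty _)
        · exact hz' s hs' hs
      have h2 : sL u m := (cover h hu hmW).resolve_right h1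
      rw [sL_ext hu hA hm hmW, hd] at h2
      obtain ⟨T, hT, hs⟩ := h2
      rcases mem_fE1.1 hT with ⟨T₀, h0, rfl⟩ | ⟨c, hc, rfl⟩
      · intro s hs'
        exact hs m (Finset.mem_insert_self _ _) s
          (Finset.mem_insert_of_mem (Finset.mem_union_left _ hs'))
      · exact absurd hs (ho' c hc)
    refine hmR (mem_Rs.2 ⟨⟨hmW, ?_⟩, hC, hS⟩)
    rw [Finset.mem_union, not_or]
    exact ⟨hmC, hmS⟩

theorem emb {G : SimpleGraph ι} (h : PF G) {W C S : Finset ι} (hb : Bal G C S)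
    (hW : C ∪ S ⊆ W) :
    ∃ g : Wrd ι → Wrd ι, Set.InjOn g (Wd G (Rs G W C S)) ∧ ∀ y ∈ Wd G (Rs G W C S),
      g y ∈ Wd G W ∧ Sp W (g y) = C ∪ S ∪ Sp (Rs G W C S) y ∧
      Zr W (g y) = Zr (Rs G W C S) y ∪ Mz G W C S ∧
      On W (g y) = On (Rs G W C S) y ∪ Mo G W C S := by
  have H : ∀ y, ∃ u : Wrd ι, y ∈ Wd G (Rs G W C S) → (u ∈ Wd G W ∧
      Uns (W \ (C ∪ S ∪ Rs G W C S)) u ∧
      del (W \ (C ∪ S ∪ Rs G W C S)) u = fE G C S y) := by
    intro y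
    by_cases hy : y ∈ Wd G (Rs G W C S)
    · obtain ⟨u, h1, h2, h3⟩ := ext_exists hb hW hy
      exact ⟨u, fun _ => ⟨h1, h2, h3⟩⟩
    · exact ⟨y, fun h => absurd h hy⟩
  choose g hg using H
  refine ⟨g, ?_, ?_⟩
  · intro y hy y' hy' he
    obtain ⟨-, -, h3⟩ := hg y hy
    obtain ⟨-, -, h3'⟩ := hg y' hy'
    refine fE_inj hb Rs_prop hy hy' ?_
    rw [← h3, ← h3', he]
  · intro y hy
    obtain ⟨hu, hA, hd⟩ := hg y hy
    obtain ⟨h1, h2⟩ := let_in hb hy hu hA hd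
    have h3 : ∀ i ∈ Mz G W C S, kL (g y) i ∧ ¬ sL (g y) i := fun i => let_Mz hb hu hA hd
    have h4 : ∀ i ∈ Mo G W C S, sL (g y) i ∧ ¬ kL (g y) i := fun i => let_Mo hb hu hA hd
    have hcase : ∀ i ∈ W, i ∈ C ∪ S ∨ i ∈ Rs G W C S ∨ i ∈ Mz G W C S ∨ i ∈ Mo G W C S := by
      intro i hi
      by_cases h5 : i ∈ C ∪ S ∪ Rs G W C S
      · rcases Finset.mem_union.1 h5 with h5 | h5
        · exact Or.inl h5
        · exact Or.inr (Or.inl h5)
      · have h6 : i ∈ W \ (C ∪ S ∪ Rs G W C S) := Finset.mem_sdiff.2 ⟨hi, h5⟩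
        rw [← M_union h hb hW, Finset.mem_union] at h6
        exact Or.inr (Or.inr h6)
    have hRW : ∀ i ∈ Rs G W C S, i ∈ W := fun i hi => Rs_sub hi
    have hzW : ∀ i ∈ Mz G W C S, i ∈ W := fun i hi => (M_not (mem_Mz.1 hi).1).1
    have hoW : ∀ i ∈ Mo G W C S, i ∈ W := fun i hi => (M_not (mem_Mo.1 hi).1).1
    have hRCS : ∀ i ∈ Rs G W C S, i ∉ C ∪ S := fun i hi => (Rs_prop i hi).1
    have hzR : ∀ i ∈ Mz G W C S, i ∉ Rs G W C S := fun i hi => (M_not (mem_Mz.1 hi).1).2.2.2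
    have hoR : ∀ i ∈ Mo G W C S, i ∉ Rs G W C S := fun i hi => (M_not (mem_Mo.1 hi).1).2.2.2
    have hzCS : ∀ i ∈ Mz G W C S, i ∉ C ∪ S := by
      intro i hi
      rw [Finset.mem_union, not_or]
      exact ⟨(M_not (mem_Mz.1 hi).1).2.1, (M_not (mem_Mz.1 hi).1).2.2.1⟩
    have hoCS : ∀ i ∈ Mo G W C S, i ∉ C ∪ S := by
      intro i hi
      rw [Finset.mem_union, not_or]
      exact ⟨(M_not (mem_Mo.1 hi).1).2.1, (M_not (mem_Mo.1 hi).1).2.2.1⟩
    refine ⟨hu, ?_, ?_, ?_⟩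
    · ext i
      rw [mem_Sp, Finset.mem_union, mem_Sp]
      constructor
      · rintro ⟨hi, hs, hk⟩
        rcases hcase i hi with h5 | h5 | h5 | h5
        · exact Or.inl h5
        · exact Or.inr ⟨h5, (h2 i h5).1.1 hs, (h2 i h5).2.1 hk⟩
        · exact absurd hs (h3 i h5).2
        · exact absurd hk (h4 i h5).2
      · rintro (hi | ⟨hi, hs, hk⟩)
        · exact ⟨hW hi, h1 i hi⟩
        · exact ⟨hRW i hi, (h2 i hi).1.2 hs, (h2 i hi).2.2 hk⟩
    · ext i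
      rw [mem_Zr, Finset.mem_union, mem_Zr]
      constructor
      · rintro ⟨hi, hk, hs⟩
        rcases hcase i hi with h5 | h5 | h5 | h5
        · exact absurd (h1 i h5).1 hs
        · exact Or.inl ⟨h5, (h2 i h5).2.1 hk, fun hh => hs ((h2 i h5).1.2 hh)⟩
        · exact Or.inr h5
        · exact absurd hk (h4 i h5).2
      · rintro (⟨hi, hk, hs⟩ | hi)
        · exact ⟨hRW i hi, (h2 i hi).2.2 hk, fun hh => hs ((h2 i hi).1.1 hh)⟩
        · exact ⟨hzW i hi, h3 i hi⟩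
    · ext i
      rw [mem_On, Finset.mem_union, mem_On]
      constructor
      · rintro ⟨hi, hs, hk⟩
        rcases hcase i hi with h5 | h5 | h5 | h5
        · exact absurd (h1 i h5).2 hk
        · exact Or.inl ⟨h5, (h2 i h5).1.1 hs, fun hh => hk ((h2 i h5).2.2 hh)⟩
        · exact absurd hs (h3 i h5).2
        · exact Or.inr h5
      · rintro (⟨hi, hs, hk⟩ | hi)
        · exact ⟨hRW i hi, (h2 i hi).1.2 hs, fun hh => hk ((h2 i hi).2.1 hh)⟩
        · exact ⟨hoW i hi, h4 i hi⟩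

end Pool.Agent.HNS
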