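import Pool.Agent.HNS.Cov
import Pool.Agent.HNS.Del
import Pool.Agent.HNS.Defs2

/-!
# The counting function as a number of pairs

PROOF. `perp_iff`: for `y ∈ Wd G R`, `i ∈ R`, both words cover `i` (`cover`): compare the three
letters. `Sg_eq`: it is enough that for every `y ∈ Wd G R` the number of `u ∈ Wd G H`
(`H = R ∪ M0 ∪ M1`) with `perp y u i` on `R`, `sL u` on `M0`, `kL u` on `M1` is
`CC G (Zr R y ∪ M0) (On R y ∪ M1)`. By `perp_iff` (with the roles of the words exchanged) these are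
the `u` with `Uns A u`, `A = Sp R y`, `sL u` on `Zr R y ∪ M0` and `kL u` on `On R y ∪ M1`. Now
`H \ A = (Zr R y ∪ M0) ∪ (On R y ∪ M1)` (cover for `y`) and the claim is `del_card` with
`P v = (∀ i ∈ Zr R y ∪ M0, sL v i) ∧ ∀ i ∈ On R y ∪ M1, kL v i` (sL_del, kL_del: these `i` are not
in `A`).
-/

set_option autoImplicit false
set_option linter.unusedSectionVars false

open scoped Classical

namespace Pool.Agent.HNS

variable {ι : Type} [DecidableEq ι]

theorem perp_iff {G : SimpleGraph ι} (h : PF G) {R H : Finset ι} {y u : Wrd ι}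
    (hy : y ∈ Wd G R) (hu : u ∈ Wd G H) {i : ι} (hi : i ∈ R) (hiH : i ∈ H) :
    perp y u i ↔ (i ∈ Sp R y → ¬ (sL u i ∧ kL u i)) ∧ (i ∈ Zr R y → sL u i) ∧
      (i ∈ On R y → kL u i) := by
  rw [mem_Sp, mem_Zr, mem_On]
  have h1 := cover h hy hi
  have h2 := cover h hu hiH
  unfold perp
  by_cases a1 : sL y i <;> by_cases a2 : kL y i <;> by_cases a3 : sL u i <;>
    by_cases a4 : kL u i <;> simp_all

theorem perp_comm (y u : Wrd ι) (i : ι) : perp y u i ↔ perp u y i := by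
  unfold perp
  rw [iff_comm (a := sL y i), iff_comm (a := kL y i)]

theorem Sg_eq {G : SimpleGraph ι} (h : PF G) {R M0 M1 : Finset ι} (d0 : Disjoint R M0)
    (d1 : Disjoint R M1) : Sg G R M0 M1 = (PR G R (R ∪ M0 ∪ M1) M0 M1).card := by
  unfold Sg PR
  rw [Finset.card_filter, Finset.sum_product]
  refine Finset.sum_congr rfl fun y hy => ?_
  have hAR : Sp R y ⊆ R := fun i hi => (mem_Sp.1 hi).1
  have hdecomp : (R ∪ M0 ∪ M1) \ Sp R y = (Zr R y ∪ M0) ∪ (On R y ∪ M1) := by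
    ext i
    simp only [Finset.mem_sdiff, Finset.mem_union, mem_Sp, mem_Zr, mem_On]
    constructor
    · rintro ⟨(hi | hi) | hi, hn⟩
      · have := cover h hy hi
        by_cases hs : sL y i
        · by_cases hk : kL y i
          · exact absurd ⟨hi, hs, hk⟩ hn
          · exact Or.inr (Or.inl ⟨hi, hs, hk⟩)
        · have hk : kL y i := this.resolve_left hs
          exact Or.inl (Or.inl ⟨hi, hk, hs⟩)
      · exact Or.inl (Or.inr hi)
      · exact Or.inr (Or.inr hi)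
    · rintro ((⟨hi, hk, hs⟩ | hi) | (⟨hi, hs, hk⟩ | hi))
      · exact ⟨Or.inl (Or.inl hi), fun hc => hs hc.2.1⟩
      · exact ⟨Or.inl (Or.inr hi), fun hc => Finset.disjoint_left.1 d0 hc.1 hi⟩
      · exact ⟨Or.inl (Or.inl hi), fun hc => hk hc.2.2⟩
      · exact ⟨Or.inr hi, fun hc => Finset.disjoint_left.1 d1 hc.1 hi⟩
  have hnX : ∀ i ∈ Zr R y ∪ M0, i ∉ Sp R y := by
    intro i hi hc
    rcases Finset.mem_union.1 hi with hi | hi
    · exact (mem_Zr.1 hi).2.2 (mem_Sp.1 hc).2.1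
    · exact Finset.disjoint_left.1 d0 (hAR hc) hi
  have hnY : ∀ i ∈ On R y ∪ M1, i ∉ Sp R y := by
    intro i hi hc
    rcases Finset.mem_union.1 hi with hi | hi
    · exact (mem_On.1 hi).2.2 (mem_Sp.1 hc).2.2
    · exact Finset.disjoint_left.1 d1 (hAR hc) hi
  have hcard := del_card G (R ∪ M0 ∪ M1) (Sp R y)
    (fun v => (∀ i ∈ Zr R y ∪ M0, sL v i) ∧ ∀ i ∈ On R y ∪ M1, kL v i)
  rw [hdecomp] at hcard
  have h3 : CC G (Zr R y ∪ M0) (On R y ∪ M1) = ((Wd G (R ∪ M0 ∪ M1)).filter fun u =>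
      Uns (Sp R y) u ∧ (∀ i ∈ Zr R y ∪ M0, sL (del (Sp R y) u) i) ∧
        ∀ i ∈ On R y ∪ M1, kL (del (Sp R y) u) i).card := by
    unfold CC
    convert hcard.symm
  rw [h3, Finset.card_filter]
  refine Finset.sum_congr rfl fun u hu => ?_
  have hRH : ∀ i ∈ R, i ∈ R ∪ M0 ∪ M1 := fun i hi =>
    Finset.mem_union_left _ (Finset.mem_union_left _ hi)
  have key : (Uns (Sp R y) u ∧ (∀ i ∈ Zr R y ∪ M0, sL (del (Sp R y) u) i) ∧
        ∀ i ∈ On R y ∪ M1, kL (del (Sp R y) u) i) ↔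
      ((∀ i ∈ R, perp y u i) ∧ (∀ i ∈ M0, sL u i) ∧ ∀ i ∈ M1, kL u i) := by
   constructor
   · rintro ⟨hU, hX, hY⟩
     have hX' : ∀ i ∈ Zr R y ∪ M0, sL u i := fun i hi => (sL_del hu hU (hnX i hi)).1 (hX i hi)
     have hY' : ∀ i ∈ On R y ∪ M1, kL u i := fun i hi => (kL_del hu hU (hnY i hi)).1 (hY i hi)
     refine ⟨fun i hi => (perp_iff h hy hu hi (hRH i hi)).2 ⟨fun hs => hU i hs,
       fun hz => hX' i (Finset.mem_union_left _ hz), fun ho => hY' i (Finset.mem_union_left _ ho)⟩,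
       fun i hi => hX' i (Finset.mem_union_right _ hi),
       fun i hi => hY' i (Finset.mem_union_right _ hi)⟩
   · rintro ⟨hp, h0, h1⟩
     have hp' : ∀ i ∈ R, _ := fun i hi => (perp_iff h hy hu hi (hRH i hi)).1 (hp i hi)
     have hU : Uns (Sp R y) u := fun i hi => (hp' i (hAR hi)).1 hi
     refine ⟨hU, fun i hi => (sL_del hu hU (hnX i hi)).2 ?_,
       fun i hi => (kL_del hu hU (hnY i hi)).2 ?_⟩
     · rcases Finset.mem_union.1 hi with hi | hi
       · exact (hp' i (mem_Zr.1 hi).1).2.1 hi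
       · exact h0 i hi
     · rcases Finset.mem_union.1 hi with hi | hi
       · exact (hp' i (mem_On.1 hi).1).2.2 hi
       · exact h1 i hi
  by_cases hp : (∀ i ∈ R, perp y u i) ∧ (∀ i ∈ M0, sL u i) ∧ ∀ i ∈ M1, kL u i
  · rw [if_pos (key.2 hp), if_pos hp]
  · rw [if_neg (fun hc => hp (key.1 hc)), if_neg hp]

end Pool.Agent.HNS
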