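import Pool.Agent.HNS.Defs3
import Pool.Agent.HNS.Del
import Pool.Agent.HNS.Prs

/-!
# The face of a pair of words

`y, u ∈ Wd G X`, perpendicular on `X`. Let `A = Sp X y`, `B = Sp X u`; `A`, `B` are disjoint.
PROOF of `lK_pt`: `lK K (pt T) = 2 |T ∩ K| - 1`.
PROOF of `pt_fc`: If `T ∈ y.1`, `T ∩ B = ∅`: `|T ∩ K| = 1` for `K ∈ y.2`, `|T ∩ K| = 0` for `K ⊆ B`. Conversely
let `pt T ∈ fc`. `T ⊆ X` is stable (`pt T = pt T'` implies `T = T'`, and `pt T = - pt T'` is impossible by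
the first coordinate). For `K ∈ y.2` also `K ∩ A ∈ y.2` (for `T' ∈ y.1` the common element of `T'`
and `K` has letter `a`), so `|T ∩ (K ∩ A)| = 1` and `T` meets `K`: `T ∈ y.1` (mem_fst'). If `b ∈ B`: `b ∈ K ∈ u.2`,
`K ∩ B ∈ u.2`, so `|T ∩ (K ∩ B)| = 0` and `b ∉ T`. `npt_fc`: the same with the roles exchanged.
PROOF of `up_fc`: if `i ∈ T ∈ y.1` then `T \ B ∈ y.1` (for `K ∈ y.2` the common element of `T` and `K` has
letter `a` in `y`, so it is not in `B`), and `i ∈ T \ B` if `i ∉ B`. `dn_fc` is similar.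
PROOF of `fc_type`: `i ∈ A`: `up`, not `dn`. `i ∈ B`: `dn`, not `up`. Otherwise one of the letters at `i` is
`0` and the other one is `1` (cover, perp): exactly one of `sL y i`, `sL u i`.
PROOF of `fc_face`: `Φ = ∑_K lK K - ∑_K' lK K'` (sums over the two filters of `y.2`, `u.2`), on `HS G X` all
`lK K` take the values `1`, `-1` (K is a clique, T stable), so `Φ ≤ N` with equality exactly on `fc`.
Nonempty: `X` has an element `i`, and `up` or `dn` holds at `i`.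
-/

set_option autoImplicit false
set_option linter.unusedSectionVars false

open scoped Classical

namespace Pool.Agent.HNS

variable {ι : Type} [DecidableEq ι]

theorem Fca_lK_apply (K : Finset ι) (x : ℝ × (ι → ℝ)) :
    lK K x = 2 * (∑ i ∈ K, x.2 i) - x.1 := by
  unfold lK
  rw [LinearMap.sub_apply, LinearMap.smul_apply, LinearMap.sum_apply, LinearMap.fst_apply,
    smul_eq_mul]
  rfl

theorem lK_pt (K T : Finset ι) : lK K (K3R.pt T) = 2 * ((T ∩ K).card : ℝ) - 1 := by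
  rw [Fca_lK_apply, K3R.pt_fst]
  congr 2
  simp only [K3R.pt_snd]
  rw [Finset.sum_ite_mem, Finset.sum_const, nsmul_eq_mul, mul_one, Finset.inter_comm]

theorem pt_inj {T T' : Finset ι} (h : K3R.pt T = K3R.pt T') : T = T' := by
  ext i
  have h1 := congrFun (congrArg Prod.snd h) i
  rw [K3R.pt_snd, K3R.pt_snd] at h1
  by_cases a : i ∈ T <;> by_cases b : i ∈ T' <;> simp_all

theorem pt_ne_neg (T T' : Finset ι) : K3R.pt T ≠ -K3R.pt T' := by
  intro h
  have h1 := congrArg Prod.fst h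
  rw [Prod.fst_neg, K3R.pt_fst, K3R.pt_fst] at h1
  norm_num at h1

theorem Fca_pt_HS {G : SimpleGraph ι} {X T : Finset ι} (h : K3R.pt T ∈ K3R.HS G X) :
    T ⊆ X ∧ Stb G T := by
  obtain ⟨T', h1, h2, h3 | h3⟩ := h
  · rw [pt_inj h3]
    exact ⟨h1, h2⟩
  · exact absurd h3 (pt_ne_neg T T')

theorem Fca_neg {G : SimpleGraph ι} {X : Finset ι} {y u : Wrd ι} {x : ℝ × (ι → ℝ)} :
    -x ∈ fc G X y u ↔ x ∈ fc G X u y := by
  unfold fc
  simp only [Set.mem_ofPred_eq, map_neg]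
  constructor
  · rintro ⟨h1, h2, h3⟩
    refine ⟨?_, fun K hK hK' => ?_, fun K hK hK' => ?_⟩
    · have := K3R.HS_sym G X _ h1
      rwa [neg_neg] at this
    · have := h3 K hK hK'
      linarith
    · have := h2 K hK hK'
      linarith
  · rintro ⟨h1, h2, h3⟩
    refine ⟨K3R.HS_sym G X _ h1, fun K hK hK' => ?_, fun K hK hK' => ?_⟩
    · have := h3 K hK hK'
      linarith
    · have := h2 K hK hK'
      linarith

theorem Fca_inter_mem {G : SimpleGraph ι} {X : Finset ι} {y : Wrd ι} (hy : y ∈ Wd G X)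
    {K : Finset ι} (hK : K ∈ y.2) : K ∩ Sp X y ∈ y.2 := by
  refine mem_snd' hy (Finset.inter_subset_left.trans (snd_sub hy hK))
    ((snd_clq hy hK).mono Finset.inter_subset_left) fun T hT => ?_
  obtain ⟨x, h1, h2⟩ := exists_of_card (card_eq hy hT hK)
  exact ⟨x, h1, Finset.mem_inter.2 ⟨h2, mem_Sp.2 ⟨snd_sub hy hK h2, ⟨T, hT, h1⟩, ⟨K, hK, h2⟩⟩⟩⟩

theorem Fca_card_one {n : ℕ} (h : 2 * (n : ℝ) - 1 = 1) : n = 1 := by
  have h1 : (n : ℝ) = 1 := by linarith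
  exact_mod_cast h1

theorem Fca_card_zero {n : ℕ} (h : 2 * (n : ℝ) - 1 = -1) : n = 0 := by
  have h1 : (n : ℝ) = 0 := by linarith
  exact_mod_cast h1

theorem pt_fc {G : SimpleGraph ι} {X : Finset ι} {y u : Wrd ι} (hy : y ∈ Wd G X)
    (hu : u ∈ Wd G X) {T : Finset ι} :
    K3R.pt T ∈ fc G X y u ↔ T ∈ y.1 ∧ Disjoint T (Sp X u) := by
  constructor
  · rintro ⟨h1, h2, h3⟩
    obtain ⟨hTX, hTs⟩ := Fca_pt_HS h1
    refine ⟨mem_fst' hy hTX hTs fun K hK => ?_, ?_⟩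
    · have h4 := h2 (K ∩ Sp X y) (Fca_inter_mem hy hK) Finset.inter_subset_right
      rw [lK_pt] at h4
      obtain ⟨x, hx1, hx2⟩ := exists_of_card (Fca_card_one h4)
      exact ⟨x, hx1, (Finset.mem_inter.1 hx2).1⟩
    · rw [Finset.disjoint_left]
      intro b hbT hb
      obtain ⟨-, -, K, hK, hbK⟩ := mem_Sp.1 hb
      have h4 := h3 (K ∩ Sp X u) (Fca_inter_mem hu hK) Finset.inter_subset_right
      rw [lK_pt] at h4
      have h5 := Finset.card_eq_zero.1 (Fca_card_zero h4)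
      have h6 : b ∈ T ∩ (K ∩ Sp X u) :=
        Finset.mem_inter.2 ⟨hbT, Finset.mem_inter.2 ⟨hbK, hb⟩⟩
      rw [h5] at h6
      exact Finset.notMem_empty b h6
  · rintro ⟨hT, hd⟩
    refine ⟨K3R.pt_mem (fst_sub hy hT) (fst_stb hy hT), fun K hK _ => ?_, fun K hK hK' => ?_⟩
    · rw [lK_pt, card_eq hy hT hK]
      norm_num
    · have : T ∩ K = ∅ := Finset.disjoint_iff_inter_eq_empty.1 (hd.mono_right hK')
      rw [lK_pt, this, Finset.card_empty]
      norm_num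

theorem npt_fc {G : SimpleGraph ι} {X : Finset ι} {y u : Wrd ι} (hy : y ∈ Wd G X)
    (hu : u ∈ Wd G X) {T : Finset ι} :
    -K3R.pt T ∈ fc G X y u ↔ T ∈ u.1 ∧ Disjoint T (Sp X y) := by
  rw [Fca_neg]
  exact pt_fc hu hy

theorem up_fc {G : SimpleGraph ι} {X : Finset ι} {y u : Wrd ι} (hy : y ∈ Wd G X)
    (hu : u ∈ Wd G X) (hp : ∀ i ∈ X, perp y u i) (i : ι) :
    up (fc G X y u) i ↔ sL y i ∧ i ∉ Sp X u := by
  constructor
  · rintro ⟨T, hiT, hT⟩
    obtain ⟨h1, h2⟩ := (pt_fc hy hu).1 hT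
    exact ⟨⟨T, h1, hiT⟩, fun h => Finset.disjoint_left.1 h2 hiT h⟩
  · rintro ⟨⟨T, hT, hiT⟩, hi⟩
    refine ⟨T \ Sp X u, Finset.mem_sdiff.2 ⟨hiT, hi⟩, (pt_fc hy hu).2 ⟨?_, Finset.sdiff_disjoint⟩⟩
    refine mem_fst' hy (Finset.sdiff_subset.trans (fst_sub hy hT))
      ((fst_stb hy hT).mono Finset.sdiff_subset) fun K hK => ?_
    obtain ⟨x, h1, h2⟩ := exists_of_card (card_eq hy hT hK)
    refine ⟨x, Finset.mem_sdiff.2 ⟨h1, fun hx => ?_⟩, h2⟩
    obtain ⟨hxX, hs, hk⟩ := mem_Sp.1 hx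
    exact hp x hxX ⟨⟨fun _ => hs, fun _ => ⟨T, hT, h1⟩⟩, ⟨fun _ => hk, fun _ => ⟨K, hK, h2⟩⟩⟩

theorem dn_fc {G : SimpleGraph ι} {X : Finset ι} {y u : Wrd ι} (hy : y ∈ Wd G X)
    (hu : u ∈ Wd G X) (hp : ∀ i ∈ X, perp y u i) (i : ι) :
    dn (fc G X y u) i ↔ sL u i ∧ i ∉ Sp X y := by
  rw [← up_fc hu hy (fun j hj => (perp_comm y u j).1 (hp j hj)) i]
  unfold up dn
  simp only [Fca_neg]

theorem fc_type {G : SimpleGraph ι} (h : PF G) {X : Finset ι} {y u : Wrd ι} (hy : y ∈ Wd G X)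
    (hu : u ∈ Wd G X) (hp : ∀ i ∈ X, perp y u i) {i : ι} (hi : i ∈ X) :
    ¬ (up (fc G X y u) i ↔ dn (fc G X y u) i) := by
  rw [up_fc hy hu hp, dn_fc hy hu hp, mem_Sp, mem_Sp]
  have h1 := cover h hy hi
  have h2 := cover h hu hi
  have h3 := hp i hi
  unfold perp at h3
  tauto

theorem fc_face {G : SimpleGraph ι} (h : PF G) {X : Finset ι} (hX : X.Nonempty) {y u : Wrd ι}
    (hy : y ∈ Wd G X) (hu : u ∈ Wd G X) (hp : ∀ i ∈ X, perp y u i) :
    K3R.IsF (K3R.HS G X) (fc G X y u) := by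
  have hne : (fc G X y u).Nonempty := by
    obtain ⟨i, hi⟩ := hX
    have h1 := fc_type h hy hu hp hi
    by_cases h2 : up (fc G X y u) i
    · obtain ⟨T, -, hT⟩ := h2
      exact ⟨_, hT⟩
    · by_cases h3 : dn (fc G X y u) i
      · obtain ⟨T, -, hT⟩ := h3
        exact ⟨_, hT⟩
      · exact absurd ⟨fun h => absurd h h2, fun h => absurd h h3⟩ h1
  set F1 := y.2.filter fun K => K ⊆ Sp X y with hF1
  set F2 := u.2.filter fun K => K ⊆ Sp X u with hF2
  have hbd : ∀ x ∈ K3R.HS G X, ∀ K, Clq G K → -1 ≤ lK K x ∧ lK K x ≤ 1 := by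
    rintro x ⟨T, hT, hs, hx⟩ K hK
    have h1 : ((T ∩ K).card : ℝ) ≤ 1 := by exact_mod_cast inter_card_le hs hK
    have h2 : (0 : ℝ) ≤ ((T ∩ K).card : ℝ) := Nat.cast_nonneg _
    rcases hx with rfl | rfl
    · rw [lK_pt]
      constructor <;> linarith
    · rw [map_neg, lK_pt]
      constructor <;> linarith
  refine ⟨fun x hx => hx.1, hne, ∑ K ∈ F1, lK K - ∑ K ∈ F2, lK K,
    (F1.card : ℝ) + (F2.card : ℝ), ?_, ?_⟩
  · intro x hx
    rw [LinearMap.sub_apply, LinearMap.sum_apply, LinearMap.sum_apply,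
      Finset.sum_congr rfl (g := fun _ => (1 : ℝ)) (fun K hK => hx.2.1 K (Finset.mem_filter.1 hK).1
        (Finset.mem_filter.1 hK).2),
      Finset.sum_congr rfl (g := fun _ => (-1 : ℝ)) (fun K hK => hx.2.2 K (Finset.mem_filter.1 hK).1
        (Finset.mem_filter.1 hK).2), Finset.sum_const, Finset.sum_const, nsmul_eq_mul, nsmul_eq_mul]
    ring
  · intro x hx hx'
    by_contra hcon
    rw [not_lt, LinearMap.sub_apply, LinearMap.sum_apply, LinearMap.sum_apply] at hcon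
    have n1 : ∀ K ∈ F1, 0 ≤ 1 - lK K x := fun K hK => by
      have := (hbd x hx K (snd_clq hy (Finset.mem_filter.1 hK).1)).2
      linarith
    have n2 : ∀ K ∈ F2, 0 ≤ 1 + lK K x := fun K hK => by
      have := (hbd x hx K (snd_clq hu (Finset.mem_filter.1 hK).1)).1
      linarith
    have s1 : ∑ K ∈ F1, (1 - lK K x) = (F1.card : ℝ) - ∑ K ∈ F1, lK K x := by
      rw [Finset.sum_sub_distrib, Finset.sum_const, nsmul_eq_mul, mul_one]
    have s2 : ∑ K ∈ F2, (1 + lK K x) = (F2.card : ℝ) + ∑ K ∈ F2, lK K x := by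
      rw [Finset.sum_add_distrib, Finset.sum_const, nsmul_eq_mul, mul_one]
    have p1 := Finset.sum_nonneg n1
    have p2 := Finset.sum_nonneg n2
    have z1 : ∑ K ∈ F1, (1 - lK K x) = 0 := by linarith
    have z2 : ∑ K ∈ F2, (1 + lK K x) = 0 := by linarith
    apply hx'
    refine ⟨hx, fun K hK hK' => ?_, fun K hK hK' => ?_⟩
    · have := (Finset.sum_eq_zero_iff_of_nonneg n1).1 z1 K (Finset.mem_filter.2 ⟨hK, hK'⟩)
      linarith
    · have := (Finset.sum_eq_zero_iff_of_nonneg n2).1 z2 K (Finset.mem_filter.2 ⟨hK, hK'⟩)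
      linarith

end Pool.Agent.HNS
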