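import Pool.Agent.HNS.Fca

/-!
# Different pairs of words have different faces

PROOF of `fc_inj`. Write `F = fc G X y u`, `A = Sp X y`, `B = Sp X u`.
(1) `A = {i : up F i ∧ ∀ T, i ∈ T → pt T ∈ F → pt (T.erase i) ∉ F}`. If `i ∈ A`: `up F i` by up_fc
(`i ∉ B`), and if `i ∈ T`, `pt T`, `pt (T.erase i) ∈ F`, then `T, T.erase i ∈ y.1`; let `i ∈ K ∈ y.2` (`kL y i`):
`T ∩ K = {i}`, so `T.erase i` does not meet `K`. If `up F i` and `i ∉ A`: `sL y i`, `¬ kL y i` (`i ∈ X` by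
sL_mem), `i ∉ B`; let `i ∈ T`, `pt T ∈ F`; then `T ∈ y.1`, no `K ∈ y.2` contains `i`, so `T.erase i ∈ y.1`
(mem_fst'), and `pt (T.erase i) ∈ F`.
(2) Similarly `B = {i : dn F i ∧ ∀ T, i ∈ T → - pt T ∈ F → - pt (T.erase i) ∉ F}`.
(3) `T ∈ y.1 ↔ T ⊆ X ∧ Stb G T ∧ pt (T \ B) ∈ F`: see the proof of `up_fc`; conversely `T \ B ∈ y.1` meets
all `K ∈ y.2`. So `y.1` is determined by `F`, and `y.2` by `y.1` (mem_snd). Same for `u`.
PROOF of `Sg_le_NX`: `Sg_eq` with `M0 = M1 = ∅`: `Sg G X ∅ ∅` is the number of pairs `(y, u)` of words over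
`X` (`X ∪ ∅ ∪ ∅ = X`), perpendicular on `X`; the map `(y, u) ↦ fc G X y u` into `FX G X X` (fc_face,
fc_type); `FX G X X` is finite (subset of `K3R.Fc (K3R.HS G X)`, K3R.Fc_finite, K3R.HS_finite).
-/

set_option autoImplicit false
set_option linter.unusedSectionVars false

open scoped Classical

namespace Pool.Agent.HNS

variable {ι : Type} [DecidableEq ι]

theorem Fcb_Sp {G : SimpleGraph ι} {X : Finset ι} {y u : Wrd ι}
    (hy : y ∈ Wd G X) (hu : u ∈ Wd G X) (hp : ∀ i ∈ X, perp y u i) (i : ι) :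
    i ∈ Sp X y ↔ up (fc G X y u) i ∧
      ∀ T : Finset ι, i ∈ T → K3R.pt T ∈ fc G X y u → K3R.pt (T.erase i) ∉ fc G X y u := by
  constructor
  · intro hi
    obtain ⟨hiX, hs, hk⟩ := mem_Sp.1 hi
    refine ⟨(up_fc hy hu hp i).2 ⟨hs, fun hB => ?_⟩, fun T hiT hT hT' => ?_⟩
    · obtain ⟨-, hs', hk'⟩ := mem_Sp.1 hB
      exact hp i hiX ⟨⟨fun _ => hs', fun _ => hs⟩, ⟨fun _ => hk', fun _ => hk⟩⟩
    · obtain ⟨K, hK, hiK⟩ := hk
      have h1 := ((pt_fc hy hu).1 hT).1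
      have h2 := ((pt_fc hy hu).1 hT').1
      obtain ⟨x, hx, hxK⟩ := exists_of_card (card_eq hy h2 hK)
      have h3 := Finset.card_le_one.1 (le_of_eq (card_eq hy h1 hK)) x
        (Finset.mem_inter.2 ⟨Finset.mem_of_mem_erase hx, hxK⟩) i
        (Finset.mem_inter.2 ⟨hiT, hiK⟩)
      exact Finset.ne_of_mem_erase hx h3
  · rintro ⟨hup, hT⟩
    obtain ⟨hs, -⟩ := (up_fc hy hu hp i).1 hup
    have hiX := sL_mem hy hs
    by_contra hi
    have hk : ¬ kL y i := fun hk => hi (mem_Sp.2 ⟨hiX, hs, hk⟩)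
    obtain ⟨T, hiT, hTF⟩ := hup
    obtain ⟨h1, h2⟩ := (pt_fc hy hu).1 hTF
    refine hT T hiT hTF ((pt_fc hy hu).2 ⟨?_, h2.mono_left (Finset.erase_subset _ _)⟩)
    refine mem_fst' hy ((Finset.erase_subset _ _).trans (fst_sub hy h1))
      ((fst_stb hy h1).mono (Finset.erase_subset _ _)) fun K hK => ?_
    obtain ⟨x, hx1, hx2⟩ := exists_of_card (card_eq hy h1 hK)
    refine ⟨x, Finset.mem_erase.2 ⟨?_, hx1⟩, hx2⟩
    rintro rfl
    exact hk ⟨K, hK, hx2⟩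

theorem Fcb_mem_fst {G : SimpleGraph ι} {X : Finset ι} {y u : Wrd ι}
    (hy : y ∈ Wd G X) (hu : u ∈ Wd G X) (hp : ∀ i ∈ X, perp y u i) (T : Finset ι) :
    T ∈ y.1 ↔ T ⊆ X ∧ Stb G T ∧ K3R.pt (T \ Sp X u) ∈ fc G X y u := by
  constructor
  · intro hT
    refine ⟨fst_sub hy hT, fst_stb hy hT, (pt_fc hy hu).2 ⟨?_, Finset.sdiff_disjoint⟩⟩
    refine mem_fst' hy (Finset.sdiff_subset.trans (fst_sub hy hT))
      ((fst_stb hy hT).mono Finset.sdiff_subset) fun K hK => ?_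
    obtain ⟨x, h1, h2⟩ := exists_of_card (card_eq hy hT hK)
    refine ⟨x, Finset.mem_sdiff.2 ⟨h1, fun hx => ?_⟩, h2⟩
    obtain ⟨hxX, hs, hk⟩ := mem_Sp.1 hx
    exact hp x hxX ⟨⟨fun _ => hs, fun _ => ⟨T, hT, h1⟩⟩, ⟨fun _ => hk, fun _ => ⟨K, hK, h2⟩⟩⟩
  · rintro ⟨h1, h2, h3⟩
    have h4 := ((pt_fc hy hu).1 h3).1
    refine mem_fst' hy h1 h2 fun K hK => ?_
    obtain ⟨x, hx1, hx2⟩ := exists_of_card (card_eq hy h4 hK)
    exact ⟨x, (Finset.mem_sdiff.1 hx1).1, hx2⟩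

theorem Fcb_swap {G : SimpleGraph ι} {X : Finset ι} {y u y' u' : Wrd ι}
    (he : fc G X y u = fc G X y' u') : fc G X u y = fc G X u' y' := by
  ext x
  rw [← Fca_neg, he, Fca_neg]

theorem Fcb_fst {G : SimpleGraph ι} {X : Finset ι} {y u y' u' : Wrd ι}
    (hy : y ∈ Wd G X) (hu : u ∈ Wd G X) (hp : ∀ i ∈ X, perp y u i)
    (hy' : y' ∈ Wd G X) (hu' : u' ∈ Wd G X) (hp' : ∀ i ∈ X, perp y' u' i)
    (he : fc G X y u = fc G X y' u') : y = y' := by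
  have hB : Sp X u = Sp X u' := by
    ext i
    rw [Fcb_Sp hu hy (fun j hj => (perp_comm y u j).1 (hp j hj)),
      Fcb_Sp hu' hy' (fun j hj => (perp_comm y' u' j).1 (hp' j hj)), Fcb_swap he]
  have h1 : y.1 = y'.1 := by
    ext T
    rw [Fcb_mem_fst hy hu hp, Fcb_mem_fst hy' hu' hp', he, hB]
  have h2 : y.2 = y'.2 := by
    ext K
    rw [mem_snd hy, mem_snd hy', h1]
  exact Prod.ext h1 h2

theorem fc_inj {G : SimpleGraph ι} {X : Finset ι} {y u y' u' : Wrd ι}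
    (hy : y ∈ Wd G X) (hu : u ∈ Wd G X) (hp : ∀ i ∈ X, perp y u i)
    (hy' : y' ∈ Wd G X) (hu' : u' ∈ Wd G X) (hp' : ∀ i ∈ X, perp y' u' i)
    (he : fc G X y u = fc G X y' u') : y = y' ∧ u = u' :=
  ⟨Fcb_fst hy hu hp hy' hu' hp' he,
    Fcb_fst hu hy (fun j hj => (perp_comm y u j).1 (hp j hj)) hu' hy'
      (fun j hj => (perp_comm y' u' j).1 (hp' j hj)) (Fcb_swap he)⟩

theorem Sg_le_NX {G : SimpleGraph ι} (h : PF G) {X : Finset ι} (hX : X.Nonempty) :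
    Sg G X ∅ ∅ ≤ NX G X X := by
  rw [Sg_eq h (Finset.disjoint_empty_right _) (Finset.disjoint_empty_right _),
    Finset.union_empty, Finset.union_empty, ← Set.ncard_coe_finset]
  unfold NX
  have hmem : ∀ p : Wrd ι × Wrd ι, p ∈ PR G X X ∅ ∅ →
      p.1 ∈ Wd G X ∧ p.2 ∈ Wd G X ∧ ∀ i ∈ X, perp p.1 p.2 i := by
    intro p hp
    unfold PR at hp
    rw [Finset.mem_filter, Finset.mem_product] at hp
    exact ⟨hp.1.1, hp.1.2, hp.2.1⟩
  refine Set.ncard_le_ncard_of_injOn (fun p : Wrd ι × Wrd ι => fc G X p.1 p.2) ?_ ?_ ?_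
  · intro p hp
    obtain ⟨h1, h2, h3⟩ := hmem p (Finset.mem_coe.1 hp)
    exact ⟨fc_face h hX h1 h2 h3, fun i hi => ⟨fun _ => fc_type h h1 h2 h3 hi, fun _ => hi⟩⟩
  · intro p hp q hq he
    obtain ⟨h1, h2, h3⟩ := hmem p (Finset.mem_coe.1 hp)
    obtain ⟨g1, g2, g3⟩ := hmem q (Finset.mem_coe.1 hq)
    obtain ⟨e1, e2⟩ := fc_inj h1 h2 h3 g1 g2 g3 he
    exact Prod.ext e1 e2
  · exact (K3R.Fc_finite (K3R.HS_finite G X)).subset fun F hF => hF.1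

end Pool.Agent.HNS
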