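import Pool.Agent.HNS.Defs3

/-!
# Extension of faces to one more vertex

PROOF of `NX_erase`. Let `V = W.erase r` and `F'` be a face of `HS G V` of type `X`, with functional
`φ` and value `c` (`φ = c` on `F'`, `φ < c` on `HS G V \ F'`). Let `φ0 = φ ∘ K3R.dl r` (the coordinate `r` is
set to `0`), so `φ0 (± pt T) = φ (± pt (T.erase r))`, and `± pt (T.erase r) ∈ HS G V` for
`T ⊆ W` stable. Let `U` be: there is a stable `T ⊆ W`, `r ∈ T`, `pt (T.erase r) ∈ F'`; `D`: the same with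
`-pt (T.erase r) ∈ F'`.
(a) `U` and `D` both true or both false: `F = {x ∈ HS G W : φ0 x = c}`. It is a face,
`± pt T ∈ F` iff `± pt (T.erase r) ∈ F'`, so `up F i ↔ up F' i` and `dn F i ↔ dn F' i` for `i ≠ r`,
`up F r ↔ U`, `dn F r ↔ D`, and `F ∩ HS G V = F'`.
(b) `U` true, `D` false: `F = F'` is a face of `HS G W`: functional `φ0 - ε • cx r` with small `ε > 0`: the
points `- pt T`, `r ∈ T`, have `φ0 < c` since `D` is false (finitely many, or: choose `ε` less than all
`c - φ0 (- pt T)`; `K3R.exists_large` gives such an `ε` as `1 / Λ`), the points `pt T`, `r ∈ T`, have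
`φ0 ≤ c`. `up F r`, `dn F r` are both false (`F' ⊆ HS G V`; `pt T ∈ HS G V` implies `T ⊆ V`: `pt T = pt T'`
gives `T = T'`, and `pt T ≠ - pt T'` by the first coordinate).
(c) `U` false, `D` true: symmetric, functional `φ0 + ε • cx r`.
In all cases `F' = F ∩ HS G V`, so `F' ↦ F` is injective: Set.ncard_le_ncard_of_injOn.
PROOF of `NX_ext`: induction on `(W \ X).card`, remove some `r ∈ W \ X`.
-/

set_option autoImplicit false
set_option linter.unusedSectionVars false

open scoped Classical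

namespace Pool.Agent.HNS

variable {ι : Type} [DecidableEq ι]

theorem Fex_pt_sub {G : SimpleGraph ι} {V T : Finset ι} (h : K3R.pt T ∈ K3R.HS G V) : T ⊆ V := by
  obtain ⟨T', hT', -, h | h⟩ := h
  · intro i hi
    have h1 := congrFun (congrArg Prod.snd h) i
    rw [K3R.pt_snd, K3R.pt_snd, if_pos hi] at h1
    by_contra hV
    rw [if_neg (fun h' => hV (hT' h'))] at h1
    exact one_ne_zero h1
  · have h1 := congrArg Prod.fst h
    rw [Prod.fst_neg, K3R.pt_fst, K3R.pt_fst] at h1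
    norm_num at h1

theorem Fex_npt_sub {G : SimpleGraph ι} {V T : Finset ι} (h : -K3R.pt T ∈ K3R.HS G V) :
    T ⊆ V := by
  have h1 := K3R.HS_sym G V _ h
  rw [neg_neg] at h1
  exact Fex_pt_sub h1

theorem Fex_dl_mem {G : SimpleGraph ι} {W : Finset ι} (r : ι) {x : ℝ × (ι → ℝ)}
    (hx : x ∈ K3R.HS G W) : K3R.dl r x ∈ K3R.HS G (W.erase r) := by
  rw [← K3R.dl_HS]
  exact ⟨x, hx, rfl⟩

theorem Fex_dl_self {G : SimpleGraph ι} {W : Finset ι} {r : ι} {x : ℝ × (ι → ℝ)}
    (hx : x ∈ K3R.HS G (W.erase r)) : K3R.dl r x = x := by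
  obtain ⟨T, hT, hs, rfl | rfl⟩ := hx
  · rw [K3R.dl_pt, Finset.erase_eq_of_notMem]
    intro hv
    exact Finset.notMem_erase r W (hT hv)
  · rw [map_neg, K3R.dl_pt, Finset.erase_eq_of_notMem]
    intro hv
    exact Finset.notMem_erase r W (hT hv)

theorem Fex_HS_mono {G : SimpleGraph ι} {V W : Finset ι} (h : V ⊆ W) :
    K3R.HS G V ⊆ K3R.HS G W := by
  rintro x ⟨T, hT, hs, hx⟩
  exact ⟨T, hT.trans h, hs, hx⟩

/-- the preimage of `F` under the deletion of the coordinate `r` -/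
def Fex_pre (G : SimpleGraph ι) (W : Finset ι) (r : ι) (F : Set (ℝ × (ι → ℝ))) :
    Set (ℝ × (ι → ℝ)) := {x | x ∈ K3R.HS G W ∧ K3R.dl r x ∈ F}

theorem Fex_sub_pre {G : SimpleGraph ι} {W : Finset ι} {r : ι} {F : Set (ℝ × (ι → ℝ))}
    (hF : F ⊆ K3R.HS G (W.erase r)) : F ⊆ Fex_pre G W r F := by
  intro x hx
  refine ⟨Fex_HS_mono (Finset.erase_subset r W) (hF hx), ?_⟩
  rw [Fex_dl_self (hF hx)]
  exact hx

theorem Fex_pre_inter {G : SimpleGraph ι} {W : Finset ι} {r : ι} {F : Set (ℝ × (ι → ℝ))}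
    (hF : F ⊆ K3R.HS G (W.erase r)) : Fex_pre G W r F ∩ K3R.HS G (W.erase r) = F := by
  ext x
  constructor
  · rintro ⟨⟨-, h1⟩, h2⟩
    rwa [Fex_dl_self h2] at h1
  · intro hx
    exact ⟨Fex_sub_pre hF hx, hF hx⟩

theorem Fex_pre_face {G : SimpleGraph ι} {W : Finset ι} {r : ι} {F : Set (ℝ × (ι → ℝ))}
    (hF : K3R.IsF (K3R.HS G (W.erase r)) F) : K3R.IsF (K3R.HS G W) (Fex_pre G W r F) := by
  obtain ⟨h1, h2, φ, c, h3, h4⟩ := hF
  refine ⟨fun x hx => hx.1, h2.mono (Fex_sub_pre h1), φ ∘ₗ K3R.dl r, c, ?_, ?_⟩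
  · intro x hx
    rw [LinearMap.comp_apply]
    exact h3 _ hx.2
  · intro x hx hx'
    rw [LinearMap.comp_apply]
    exact h4 _ (Fex_dl_mem r hx) fun h => hx' ⟨hx, h⟩

theorem Fex_face {G : SimpleGraph ι} {W : Finset ι} {r : ι} {F : Set (ℝ × (ι → ℝ))}
    (hF : K3R.IsF (K3R.HS G (W.erase r)) F) (s : ℝ)
    (hs : ∀ x ∈ Fex_pre G W r F, x ∉ F → 0 < s * K3R.cx r x) : K3R.IsF (K3R.HS G W) F := by
  obtain ⟨h1, h2, φ, c, h3, h4⟩ := hF
  set T : Set (ℝ × (ι → ℝ)) := {x | x ∈ K3R.HS G W ∧ x ∉ Fex_pre G W r F} with hT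
  have hTf : T.Finite := (K3R.HS_finite G W).subset fun x hx => hx.1
  have hpos : ∀ x ∈ T, 0 < c - φ (K3R.dl r x) := by
    intro x hx
    have := h4 _ (Fex_dl_mem r hx.1) fun h => hx.2 ⟨hx.1, h⟩
    linarith
  obtain ⟨Λ, hΛ0, hΛ⟩ := K3R.exists_large hTf (fun x => c - φ (K3R.dl r x))
    (fun x => -(s * K3R.cx r x)) hpos
  refine ⟨h1.trans (Fex_HS_mono (Finset.erase_subset r W)), h2,
    Λ • (φ ∘ₗ K3R.dl r) - s • K3R.cx r, Λ * c, ?_, ?_⟩
  · intro x hx
    have hx0 : K3R.cx r x = 0 := by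
      obtain ⟨T, hT, -, rfl | rfl⟩ := h1 hx
      · rw [K3R.cx_pt, if_neg]
        intro h
        exact Finset.notMem_erase r W (hT h)
      · rw [map_neg, K3R.cx_pt, if_neg, neg_zero]
        intro h
        exact Finset.notMem_erase r W (hT h)
    simp only [LinearMap.sub_apply, LinearMap.smul_apply, LinearMap.comp_apply, smul_eq_mul]
    rw [hx0, Fex_dl_self (h1 hx), h3 x hx]
    ring
  · intro x hx hx'
    simp only [LinearMap.sub_apply, LinearMap.smul_apply, LinearMap.comp_apply, smul_eq_mul]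
    by_cases h : x ∈ Fex_pre G W r F
    · have h5 := hs x h hx'
      rw [h3 _ h.2]
      linarith
    · have h5 := hΛ x ⟨hx, h⟩
      linarith

theorem Fex_type {G : SimpleGraph ι} {W : Finset ι} {r i : ι} {F : Set (ℝ × (ι → ℝ))}
    (hF : F ⊆ K3R.HS G (W.erase r)) (hi : i ≠ r) :
    (up (Fex_pre G W r F) i ↔ up F i) ∧ (dn (Fex_pre G W r F) i ↔ dn F i) := by
  refine ⟨⟨?_, ?_⟩, ⟨?_, ?_⟩⟩
  · rintro ⟨T, hT, -, h⟩
    rw [K3R.dl_pt] at h
    exact ⟨T.erase r, Finset.mem_erase.2 ⟨hi, hT⟩, h⟩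
  · rintro ⟨T, hT, h⟩
    exact ⟨T, hT, Fex_sub_pre hF h⟩
  · rintro ⟨T, hT, -, h⟩
    rw [map_neg, K3R.dl_pt] at h
    exact ⟨T.erase r, Finset.mem_erase.2 ⟨hi, hT⟩, h⟩
  · rintro ⟨T, hT, h⟩
    exact ⟨T, hT, Fex_sub_pre hF h⟩

theorem Fex_not_up {G : SimpleGraph ι} {W : Finset ι} {r : ι} {F : Set (ℝ × (ι → ℝ))}
    (hF : F ⊆ K3R.HS G (W.erase r)) : ¬ up F r ∧ ¬ dn F r := by
  refine ⟨?_, ?_⟩
  · rintro ⟨T, hT, h⟩
    exact Finset.notMem_erase r W (Fex_pt_sub (hF h) hT)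
  · rintro ⟨T, hT, h⟩
    exact Finset.notMem_erase r W (Fex_npt_sub (hF h) hT)

/-- points of the preimage which are not in `F` -/
theorem Fex_new {G : SimpleGraph ι} {W : Finset ι} {r : ι} {F : Set (ℝ × (ι → ℝ))}
    {x : ℝ × (ι → ℝ)} (hx : x ∈ Fex_pre G W r F) (hx' : x ∉ F) :
    ∃ T : Finset ι, r ∈ T ∧ (x = K3R.pt T ∨ x = -K3R.pt T) := by
  obtain ⟨⟨T, hT, hs, hxT⟩, h⟩ := hx
  refine ⟨T, ?_, hxT⟩
  by_contra hr
  apply hx'
  have : K3R.dl r x = x := by
    rcases hxT with rfl | rfl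
    · rw [K3R.dl_pt, Finset.erase_eq_of_notMem hr]
    · rw [map_neg, K3R.dl_pt, Finset.erase_eq_of_notMem hr]
  rwa [this] at h

theorem NX_erase (G : SimpleGraph ι) {W X : Finset ι} {r : ι} (hr : r ∈ W) (hX : r ∉ X) :
    NX G (W.erase r) X ≤ NX G W X := by
  unfold NX
  set f : Set (ℝ × (ι → ℝ)) → Set (ℝ × (ι → ℝ)) := fun F =>
    if up (Fex_pre G W r F) r ↔ dn (Fex_pre G W r F) r then Fex_pre G W r F else F with hf
  refine Set.ncard_le_ncard_of_injOn f ?_ ?_ ?_
  · intro F hF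
    obtain ⟨hF1, hF2⟩ := hF
    have hsub := hF1.1
    by_cases h : up (Fex_pre G W r F) r ↔ dn (Fex_pre G W r F) r
    · have e : f F = Fex_pre G W r F := by
        rw [hf]
        exact if_pos h
      rw [e]
      refine ⟨Fex_pre_face hF1, fun i hi => ?_⟩
      by_cases hir : i = r
      · rw [hir]
        exact ⟨fun h' => absurd h' hX, fun h' => absurd h h'⟩
      · obtain ⟨t1, t2⟩ := Fex_type hsub hir
        rw [t1, t2]
        exact hF2 i (Finset.mem_erase.2 ⟨hir, hi⟩)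
    · have e : f F = F := by
        rw [hf]
        exact if_neg h
      rw [e]
      refine ⟨?_, fun i hi => ?_⟩
      · by_cases hU : up (Fex_pre G W r F) r
        · have hD : ¬ dn (Fex_pre G W r F) r := fun hD => h ⟨fun _ => hD, fun _ => hU⟩
          refine Fex_face hF1 1 fun x hx hx' => ?_
          obtain ⟨T, hT, rfl | rfl⟩ := Fex_new hx hx'
          · rw [K3R.cx_pt, if_pos hT]
            norm_num
          · exact absurd ⟨T, hT, hx⟩ hD
        · refine Fex_face hF1 (-1) fun x hx hx' => ?_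
          obtain ⟨T, hT, rfl | rfl⟩ := Fex_new hx hx'
          · exact absurd ⟨T, hT, hx⟩ hU
          · rw [map_neg, K3R.cx_pt, if_pos hT]
            norm_num
      · by_cases hir : i = r
        · rw [hir]
          obtain ⟨n1, n2⟩ := Fex_not_up hsub
          exact ⟨fun h' => absurd h' hX, fun h' => absurd ⟨fun h => absurd h n1,
            fun h => absurd h n2⟩ h'⟩
        · exact hF2 i (Finset.mem_erase.2 ⟨hir, hi⟩)
  · intro F hF F' hF' hFF
    have key : ∀ F ∈ FX G (W.erase r) X, f F ∩ K3R.HS G (W.erase r) = F := by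
      intro F hF
      have hsub := hF.1.1
      by_cases h : up (Fex_pre G W r F) r ↔ dn (Fex_pre G W r F) r
      · have e : f F = Fex_pre G W r F := by
          rw [hf]
          exact if_pos h
        rw [e]
        exact Fex_pre_inter hsub
      · have e : f F = F := by
          rw [hf]
          exact if_neg h
        rw [e]
        exact Set.inter_eq_left.2 hsub
    rw [← key F hF, ← key F' hF', hFF]
  · exact (K3R.Fc_finite (K3R.HS_finite G W)).subset fun F hF => hF.1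

theorem NX_ext (G : SimpleGraph ι) {W X : Finset ι} (hX : X ⊆ W) : NX G X X ≤ NX G W X := by
  have key : ∀ D : Finset ι, Disjoint X D → NX G X X ≤ NX G (X ∪ D) X := by
    intro D
    induction D using Finset.induction_on with
    | empty =>
      intro _
      rw [Finset.union_empty]
    | insert a D ha ih =>
      intro hd
      rw [Finset.disjoint_insert_right] at hd
      refine (ih hd.2).trans ?_
      have h1 : (X ∪ insert a D).erase a = X ∪ D := by
        ext i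
        simp only [Finset.mem_erase, Finset.mem_union, Finset.mem_insert]
        constructor
        · rintro ⟨h1, h2 | h2 | h2⟩
          · exact Or.inl h2
          · exact absurd h2 h1
          · exact Or.inr h2
        · rintro (h | h)
          · exact ⟨fun h' => hd.1 (h' ▸ h), Or.inl h⟩
          · exact ⟨fun h' => ha (h' ▸ h), Or.inr (Or.inr h)⟩
      rw [← h1]
      exact NX_erase G (Finset.mem_union_right _ (Finset.mem_insert_self a D)) hd.1
  have h2 := key (W \ X) Finset.disjoint_sdiff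
  rwa [Finset.union_sdiff_of_subset hX] at h2

end Pool.Agent.HNS
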