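import Pool.Agent.HNS.Anf
import Pool.Agent.HNS.Rpl
import Pool.Agent.HNS.Sbs

/-!
# `3 * 2 ^ |W| ≤ Sg`

PROOF. Induction on `|W|`. `|W| = 1`: `Sg_one`. `|W| ≥ 2`: if there are `x, r ∈ W` with `DomA G W x r` or
`DomN G W x r`: `rpl_R` (`W ∪ ∅ ∪ ∅ = W`) and induction for `W.erase r`. Otherwise `Anti G W W`:
`anti_bound`.
-/

set_option autoImplicit false
set_option linter.unusedSectionVars false

open scoped Classical

namespace Pool.Agent.HNS

variable {ι : Type} [DecidableEq ι]

theorem t3 {G : SimpleGraph ι} (h : PF G) {W : Finset ι} (hW : W.Nonempty) :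
    3 * 2 ^ W.card ≤ Sg G W ∅ ∅ := by
  obtain ⟨n, hn⟩ : ∃ n, n = W.card := ⟨_, rfl⟩
  induction n generalizing W with
  | zero =>
    exact absurd hn.symm hW.card_pos.ne'
  | succ n ih =>
    rcases Nat.lt_or_ge W.card 2 with h2 | h2
    · have h1 : W.card = 1 := by
        have := hW.card_pos
        omega
      obtain ⟨r, rfl⟩ := Finset.card_eq_one.1 h1
      simpa using Sg_one h r
    · by_cases hd : ∃ x ∈ W, ∃ r ∈ W, DomA G W x r ∨ DomN G W x r
      · obtain ⟨x, hx, r, hr, hd⟩ := hd
        have hc : (W.erase r).card = n := by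
          rw [Finset.card_erase_of_mem hr]
          omega
        have hne : (W.erase r).Nonempty := by
          rw [← Finset.card_pos]
          omega
        have h1 := ih hne hc.symm
        have h3 : 2 * Sg G (W.erase r) ∅ ∅ ≤ Sg G W ∅ ∅ := by
          refine rpl_R h (Finset.disjoint_empty_right _) (Finset.disjoint_empty_right _) hx hr ?_
          simpa using hd
        have h4 : W.card = (W.erase r).card + 1 := by omega
        rw [h4, pow_succ]
        omega
      · refine anti_bound h (fun x hx r hr => ⟨fun h1 => hd ⟨x, hx, r, hr, Or.inl h1⟩,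
          fun h1 => hd ⟨x, hx, r, hr, Or.inr h1⟩⟩) h2

end Pool.Agent.HNS
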