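import Pool.Agent.HNS.Fcb
import Pool.Agent.HNS.Fex
import Pool.Agent.HNS.Tth

/-!
# The number of faces

PROOF. `NF_sum`: every face of `HS G W` is in exactly one `FX G W X`, `X ⊆ W`, namely for
`X = W.filter (fun i => ¬ (up F i ↔ dn F i))` (all sets finite: K3R.Fc_finite, K3R.HS_finite;
e.g. Finset.card_eq_sum_card_fiberwise for `(K3R.Fc_finite _).toFinset`).
`NX_ge`: `X ≠ ∅`: `t3`, `Sg_le_NX`, `NX_ext`. `X = ∅`: `NX G ∅ ∅ = NF (HS G ∅) ≥ 3` (K3R.HS_empty) and
`NX_ext`. `hs_bound`: `∑_{X ⊆ W} 3 * 2 ^ |X| = 3 * 3 ^ |W|` (Finset.sum_pow_mul_eq_add_pow).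
-/

set_option autoImplicit false
set_option linter.unusedSectionVars false

open scoped Classical

namespace Pool.Agent.HNS

variable {ι : Type} [DecidableEq ι]

theorem NF_sum (G : SimpleGraph ι) (W : Finset ι) :
    K3R.NF (K3R.HS G W) = ∑ X ∈ W.powerset, NX G W X := by
  have hfin := K3R.Fc_finite (K3R.HS_finite G W)
  have h0 : K3R.NF (K3R.HS G W) = hfin.toFinset.card := by
    unfold K3R.NF
    exact Set.ncard_eq_toFinset_card _ hfin
  rw [h0, Finset.card_eq_sum_card_fiberwise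
    (f := fun F => W.filter fun i => ¬ (up F i ↔ dn F i)) (t := W.powerset)
    (fun F _ => by
      simp only [Finset.coe_powerset, Set.mem_preimage, Set.mem_powerset_iff, Finset.coe_subset]
      exact Finset.filter_subset _ _)]
  refine Finset.sum_congr rfl fun X hX => ?_
  rw [Finset.mem_powerset] at hX
  unfold NX
  rw [← Set.ncard_coe_finset]
  congr 1
  ext F
  simp only [Finset.coe_filter, Set.Finite.mem_toFinset, Set.mem_ofPred_eq, FX, K3R.Fc]
  refine and_congr_right fun _ => ?_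
  rw [Finset.ext_iff]
  constructor
  · intro h i hi
    have h1 := h i
    rw [Finset.mem_filter] at h1
    rw [← h1]
    exact ⟨fun h2 => h2.2, fun h2 => ⟨hi, h2⟩⟩
  · intro h i
    rw [Finset.mem_filter]
    constructor
    · rintro ⟨h1, h2⟩
      exact (h i h1).2 h2
    · intro h1
      exact ⟨hX h1, (h i (hX h1)).1 h1⟩

theorem NX_ge {G : SimpleGraph ι} (h : PF G) {W X : Finset ι} (hX : X ⊆ W) :
    3 * 2 ^ X.card ≤ NX G W X := by
  rcases X.eq_empty_or_nonempty with rfl | hne
  · have h1 := NF_sum G ∅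
    rw [Finset.powerset_empty, Finset.sum_singleton] at h1
    have h2 := K3R.HS_empty G
    have h3 := NX_ext G hX
    rw [Finset.card_empty, pow_zero]
    omega
  · exact (t3 h hne).trans ((Sg_le_NX h hne).trans (NX_ext G hX))

theorem hs_bound {G : SimpleGraph ι} (h : PF G) (W : Finset ι) :
    3 ^ (W.card + 1) ≤ K3R.NF (K3R.HS G W) := by
  rw [NF_sum]
  have h1 : ∑ X ∈ W.powerset, 3 * 2 ^ X.card = 3 ^ (W.card + 1) := by
    rw [← Finset.mul_sum]
    have h2 := Finset.sum_pow_mul_eq_add_pow 2 1 W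
    simp only [one_pow, mul_one] at h2
    rw [h2, pow_succ]
    ring
  rw [← h1]
  exact Finset.sum_le_sum fun X hX => NX_ge h (Finset.mem_powerset.1 hX)

end Pool.Agent.HNS
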