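import Pool.Agent.HNS.Defs

/-!
# Consequences of the colouring property
-/

set_option autoImplicit false
set_option linter.unusedSectionVars false

open scoped Classical

namespace Pool.Agent.HNS

variable {ι : Type} [DecidableEq ι]

theorem starS {G : SimpleGraph ι} (h : WC G) {W : Finset ι} {w : ι → ℕ} {N : ℕ}
    (hK : ∀ K ⊆ W, Clq G K → ∑ i ∈ K, w i ≤ N) {r : ι} (hr : r ∈ W) (hw : 0 < w r) :
    ∃ T ⊆ W, Stb G T ∧ r ∈ T ∧
      ∀ K ⊆ W, Clq G K → ∑ i ∈ K, w i = N → (T ∩ K).card = 1 := by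
  obtain ⟨T, hT, hc⟩ := h W w N hK
  have h1 : 0 < (Finset.univ.filter fun j => r ∈ T j).card := by
    rw [hc r hr]
    exact hw
  obtain ⟨j0, hj0⟩ := Finset.card_pos.1 h1
  have hj0' : r ∈ T j0 := (Finset.mem_filter.1 hj0).2
  refine ⟨T j0, (hT j0).1, (hT j0).2, hj0', ?_⟩
  intro K hKW hKc hsum
  have h2 : ∑ j : Fin N, (T j ∩ K).card = N := by
    calc ∑ j : Fin N, (T j ∩ K).card = ∑ j : Fin N, ∑ i ∈ K, if i ∈ T j then 1 else 0 := by
          refine Finset.sum_congr rfl fun j _ => ?_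
          rw [← Finset.card_filter]
          congr 1
          ext i
          rw [Finset.mem_inter, Finset.mem_filter]
          tauto
      _ = ∑ i ∈ K, ∑ j : Fin N, if i ∈ T j then 1 else 0 := Finset.sum_comm
      _ = ∑ i ∈ K, w i := by
          refine Finset.sum_congr rfl fun i hi => ?_
          rw [← Finset.card_filter]
          exact hc i (hKW hi)
      _ = N := hsum
  have h3 : ∀ j ∈ (Finset.univ : Finset (Fin N)), (T j ∩ K).card ≤ 1 :=
    fun j _ => inter_card_le (hT j).2 hKc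
  have h4 : ∑ j : Fin N, (T j ∩ K).card = ∑ _j : Fin N, 1 := by
    rw [h2]
    simp
  exact (Finset.sum_eq_sum_iff_of_le h3).1 h4 j0 (Finset.mem_univ _)

theorem starK {G : SimpleGraph ι} (h : PF G) {W : Finset ι} {w : ι → ℕ} {N : ℕ}
    (hT : ∀ T ⊆ W, Stb G T → ∑ i ∈ T, w i ≤ N) {r : ι} (hr : r ∈ W) (hw : 0 < w r) :
    ∃ K ⊆ W, Clq G K ∧ r ∈ K ∧
      ∀ T ⊆ W, Stb G T → ∑ i ∈ T, w i = N → (T ∩ K).card = 1 := by
  obtain ⟨K, h1, h2, h3, h4⟩ := starS h.2 (fun K hKW hKc => hT K hKW (clq_compl.1 hKc)) hr hw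
  refine ⟨K, h1, stb_compl.1 h2, h3, fun T hTW hTs hs => ?_⟩
  rw [Finset.inter_comm]
  exact h4 T hTW (clq_compl.2 hTs) hs

theorem card_le_five {K : Finset ι} {a b c d e : ι} (hK : K ⊆ {a, b, c, d, e}) :
    K.card ≤ (if a ∈ K then 1 else 0) + ((if b ∈ K then 1 else 0) + ((if c ∈ K then 1 else 0) +
      ((if d ∈ K then 1 else 0) + (if e ∈ K then 1 else 0)))) := by
  have h0 : K = ({a, b, c, d, e} : Finset ι).filter (fun x => x ∈ K) := by
    ext x
    rw [Finset.mem_filter]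
    exact ⟨fun hx => ⟨hK hx, hx⟩, fun hx => hx.2⟩
  have hstep : ∀ (x : ι) (s : Finset ι), ((insert x s).filter (fun x => x ∈ K)).card ≤
      (if x ∈ K then 1 else 0) + (s.filter (fun x => x ∈ K)).card := by
    intro x s
    rw [Finset.filter_insert]
    by_cases hx : x ∈ K
    · rw [if_pos hx, if_pos hx, add_comm]
      exact Finset.card_insert_le _ _
    · rw [if_neg hx, if_neg hx, zero_add]
  have hlast : (({e} : Finset ι).filter (fun x => x ∈ K)).card ≤ (if e ∈ K then 1 else 0) := by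
    rw [Finset.filter_singleton]
    by_cases hx : e ∈ K
    · rw [if_pos hx, if_pos hx, Finset.card_singleton]
    · rw [if_neg hx, if_neg hx, Finset.card_empty]
  calc K.card = (({a, b, c, d, e} : Finset ι).filter (fun x => x ∈ K)).card := by
        conv_lhs => rw [h0]
    _ ≤ _ := (hstep a _).trans (Nat.add_le_add_left ((hstep b _).trans (Nat.add_le_add_left
        ((hstep c _).trans (Nat.add_le_add_left ((hstep d _).trans
          (Nat.add_le_add_left hlast _)) _)) _)) _)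

theorem ind_le {K : Finset ι} {a b : ι} (h : ¬ (a ∈ K ∧ b ∈ K)) :
    (if a ∈ K then 1 else 0) + (if b ∈ K then 1 else 0) ≤ 1 := by
  by_cases ha : a ∈ K
  · by_cases hb : b ∈ K
    · exact absurd ⟨ha, hb⟩ h
    · rw [if_pos ha, if_neg hb]
  · rw [if_neg ha]
    split_ifs <;> omega

theorem no_C5 {G : SimpleGraph ι} (h : WC G) {a b c d e : ι} (hab : G.Adj a b) (hbc : G.Adj b c)
    (hcd : G.Adj c d) (hde : G.Adj d e) (hea : G.Adj e a) (hac : ¬ G.Adj a c)
    (had : ¬ G.Adj a d) (hbd : ¬ G.Adj b d) (hbe : ¬ G.Adj b e) (hce : ¬ G.Adj c e) : False := by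
  have nac : a ≠ c := fun hh => had (hh ▸ hcd)
  have nad : a ≠ d := fun hh => hac (hh ▸ hcd.symm)
  have nbd : b ≠ d := fun hh => hbe (hh ▸ hde)
  have nbe : b ≠ e := fun hh => hbd (hh ▸ hde.symm)
  have nce : c ≠ e := fun hh => hac (hh ▸ hea.symm)
  have hK : ∀ K ⊆ ({a, b, c, d, e} : Finset ι), Clq G K → ∑ i ∈ K, (fun _ => 1) i ≤ 2 := by
    intro K hKs hKc
    have h0 := card_le_five hKs
    have h1 := ind_le (K := K) (a := a) (b := c) fun hh => hac (hKc a hh.1 c hh.2 nac)
    have h2 := ind_le (K := K) (a := a) (b := d) fun hh => had (hKc a hh.1 d hh.2 nad)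
    have h3 := ind_le (K := K) (a := b) (b := d) fun hh => hbd (hKc b hh.1 d hh.2 nbd)
    have h4 := ind_le (K := K) (a := b) (b := e) fun hh => hbe (hKc b hh.1 e hh.2 nbe)
    have h5 := ind_le (K := K) (a := c) (b := e) fun hh => hce (hKc c hh.1 e hh.2 nce)
    have h6 : ∑ i ∈ K, (fun _ => 1) i = K.card := by simp
    rw [h6]
    omega
  obtain ⟨T, hT, hc⟩ := h _ _ _ hK
  have hcov : ∀ x ∈ ({a, b, c, d, e} : Finset ι),
      (if x ∈ T 0 then 1 else 0) + (if x ∈ T 1 then 1 else 0) = 1 := by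
    intro x hx
    have h1 := hc x hx
    rw [Finset.card_filter, Fin.sum_univ_two] at h1
    exact h1
  have hst : ∀ j : Fin 2, (if a ∈ T j then 1 else 0) + ((if b ∈ T j then 1 else 0) +
      ((if c ∈ T j then 1 else 0) + ((if d ∈ T j then 1 else 0) + (if e ∈ T j then 1 else 0))))
      ≤ 2 := by
    intro j
    have hs := (hT j).2
    have h1 := ind_le (K := T j) (a := a) (b := b) fun hh => hs a hh.1 b hh.2 hab
    have h2 := ind_le (K := T j) (a := b) (b := c) fun hh => hs b hh.1 c hh.2 hbc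
    have h3 := ind_le (K := T j) (a := c) (b := d) fun hh => hs c hh.1 d hh.2 hcd
    have h4 := ind_le (K := T j) (a := d) (b := e) fun hh => hs d hh.1 e hh.2 hde
    have h5 := ind_le (K := T j) (a := e) (b := a) fun hh => hs e hh.1 a hh.2 hea
    omega
  have h0 := hst 0
  have h1 := hst 1
  have ca := hcov a (by simp)
  have cb := hcov b (by simp)
  have cc := hcov c (by simp)
  have cd := hcov d (by simp)
  have ce := hcov e (by simp)
  omega

end Pool.Agent.HNS
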