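import Pool.Agent.HNS.Cov

/-!
# The lift lemma

PROOF. Write `S = u.1`, `Q = u.2`. A candidate is a stable set `T ⊆ W` with `r ∈ T` such that every
`i` with `kL u i` is in some `K ∈ Q` with `|T ∩ K| = 1`.
(1) There is a candidate. Let `N = |Q|`, `w0 j = #{K ∈ Q : j ∈ K}`. For stable `T ⊆ W`:
`w0(T) = ∑_{K ∈ Q} |T ∩ K| ≤ N`, with equality iff `T ∈ S` (all terms `≤ 1`). Among the stable
`T ⊆ W` with `r ∈ T` (e.g. `{r}`) choose `T*` with `w0(T*)` maximal; `T* ∉ S` as `¬ sL u r`, so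
`s := N - w0(T*) ≥ 1`. Let `w = w0 + s • 1_r`. Then `w(T) ≤ N` for all stable `T ⊆ W`, with equality
for `T ∈ S` (`r ∉ T`) and for `T*`. For `i` with `kL u i` we have `w0 i > 0`, so `starK` gives a
clique `K ⊆ W`, `i ∈ K`, with `|T ∩ K| = 1` for all `T ∈ S` (so `K ∈ Q`) and `|T* ∩ K| = 1`.
(2) Choose a candidate `Tr` for which `Q~ := Q.filter (|Tr ∩ K| = 1)` has maximal cardinality. Let
`S~` be the set of all stable `T ⊆ W` with `|T ∩ K| = 1` for all `K ∈ Q~` and `u' = (S~, Q~)`.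
`u'` is a word: if a clique `K ⊆ W` has `|T ∩ K| = 1` for all `T ∈ S~` then, as `S ⊆ S~` and
`Tr ∈ S~`, `K ∈ Q` and `|Tr ∩ K| = 1`. `kL` is kept since `Tr` is a candidate; `sL` is kept since
`S ⊆ S~`; `sL u' r` by `Tr`.
(3) `S = S~.filter (r ∉ ·)`. `⊆`: `¬ sL u r`. `⊇`: let `T1 ∈ S~`, `r ∉ T1`, and suppose `T1 ∉ S`: some
`K2 ∈ Q` has `|T1 ∩ K2| = 0` (mem_fst and inter_card_le). Then `K2 ∉ Q~` so `|Tr ∩ K2| = 0` as well.
 (i) If `i ∈ T1`, `i ∉ Tr` then `sL u i`: otherwise `kL u i` (cover), so there is `K ∈ Q` with `i ∈ K`,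
 `|Tr ∩ K| = 1`, i.e. `K ∈ Q~`. `K.erase i ∈ Q` because no `T ∈ S` contains `i`; and
 `|Tr ∩ K.erase i| = 1`, so `K.erase i ∈ Q~` and `|T1 ∩ K.erase i| = 1`; together with
 `i ∈ T1 ∩ K` this contradicts `|T1 ∩ K| ≤ 1`.
 (ii) Let `x0 i = #{T ∈ S : i ∈ T}`, `N1 = |S|`, `w i = (x0 i + [i ∈ Tr]) - [i ∈ T1]` (no underflow by
 (i)). For a clique `K ⊆ W`: `w(K) = x0(K) + |Tr ∩ K| - |T1 ∩ K|`. If `K ∈ Q~`: `x0(K) = N1` and
 `w(K) = N1`. If `K ∈ Q`, `K ∉ Q~`: `x0(K) = N1`, `|Tr ∩ K| = 0`, `w(K) ≤ N1`; for `K2` we get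
 `w(K2) = N1`. If `K ∉ Q`: `x0(K) = ∑_{T ∈ S} |T ∩ K| ≤ N1 - 1` (some term is `0`), `w(K) ≤ N1`.
 `w r = 0 + 1 - 0 > 0`. By `starS` (`h.1`) there is a stable `T' ⊆ W`, `r ∈ T'`, with
 `|T' ∩ K| = 1` for all `K ∈ Q~` and for `K2`. So `T'` is a candidate with a larger
 `Q.filter (|T' ∩ K| = 1)`, contradiction.
-/

set_option autoImplicit false
set_option linter.unusedSectionVars false

open scoped Classical

namespace Pool.Agent.HNS

variable {ι : Type} [DecidableEq ι]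

/-- candidates for the new stable set -/
def LCd (G : SimpleGraph ι) (W : Finset ι) (u : Wrd ι) (r : ι) (T : Finset ι) : Prop :=
  T ⊆ W ∧ Stb G T ∧ r ∈ T ∧ ∀ i, kL u i → ∃ K ∈ u.2, i ∈ K ∧ (T ∩ K).card = 1

theorem lft_le {G : SimpleGraph ι} {W : Finset ι} {u : Wrd ι} (hu : u ∈ Wd G W) {T : Finset ι}
    (hTs : Stb G T) : ∑ K ∈ u.2, (T ∩ K).card ≤ u.2.card := by
  calc ∑ K ∈ u.2, (T ∩ K).card ≤ ∑ K ∈ u.2, 1 :=
        Finset.sum_le_sum fun K hK => inter_card_le hTs (snd_clq hu hK)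
    _ = u.2.card := by simp

theorem lft_eq {G : SimpleGraph ι} {W : Finset ι} {u : Wrd ι} (hu : u ∈ Wd G W) {T : Finset ι}
    (hT : T ∈ u.1) : ∑ K ∈ u.2, (T ∩ K).card = u.2.card := by
  rw [Finset.sum_congr rfl (fun K hK => card_eq hu hT hK)]
  simp

theorem lft_lt {G : SimpleGraph ι} {W : Finset ι} {u : Wrd ι} (hu : u ∈ Wd G W) {T : Finset ι}
    (hTW : T ⊆ W) (hTs : Stb G T) (hT : T ∉ u.1) : ∑ K ∈ u.2, (T ∩ K).card < u.2.card := by
  have h3 : ∃ K ∈ u.2, (T ∩ K).card ≠ 1 := by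
    by_contra hc
    push Not at hc
    exact hT ((mem_fst hu).2 ⟨hTW, hTs, hc⟩)
  obtain ⟨K, hK, hK1⟩ := h3
  calc ∑ K ∈ u.2, (T ∩ K).card < ∑ K ∈ u.2, 1 :=
        Finset.sum_lt_sum (fun K hK => inter_card_le hTs (snd_clq hu hK))
          ⟨K, hK, lt_of_le_of_ne (inter_card_le hTs (snd_clq hu hK)) hK1⟩
    _ = u.2.card := by simp

theorem lft_eq' {G : SimpleGraph ι} {W : Finset ι} {u : Wrd ι} (hu : u ∈ Wd G W) {K : Finset ι}
    (hK : K ∈ u.2) : ∑ T ∈ u.1, (K ∩ T).card = u.1.card := by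
  have h1 : ∀ T ∈ u.1, (K ∩ T).card = 1 := by
    intro T hT
    rw [Finset.inter_comm]
    exact card_eq hu hT hK
  rw [Finset.sum_congr rfl h1]
  simp

theorem lft_lt' {G : SimpleGraph ι} {W : Finset ι} {u : Wrd ι} (hu : u ∈ Wd G W) {K : Finset ι}
    (hKW : K ⊆ W) (hKc : Clq G K) (hK : K ∉ u.2) : ∑ T ∈ u.1, (K ∩ T).card < u.1.card := by
  have h3 : ∃ T ∈ u.1, (T ∩ K).card ≠ 1 := by
    by_contra hc
    push Not at hc
    exact hK ((mem_snd hu).2 ⟨hKW, hKc, hc⟩)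
  obtain ⟨T, hT, hT1⟩ := h3
  calc ∑ T ∈ u.1, (K ∩ T).card < ∑ T ∈ u.1, 1 :=
        Finset.sum_lt_sum (fun T hT => by
          rw [Finset.inter_comm]
          exact inter_card_le (fst_stb hu hT) hKc)
          ⟨T, hT, by
            rw [Finset.inter_comm]
            exact lt_of_le_of_ne (inter_card_le (fst_stb hu hT) hKc) hT1⟩
    _ = u.1.card := by simp

theorem lft_ex {G : SimpleGraph ι} (h : PF G) {W : Finset ι} {u : Wrd ι} (hu : u ∈ Wd G W) {r : ι}
    (hr : r ∈ W) (hs : ¬ sL u r) : ∃ T, LCd G W u r T := by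
  have hFne : (W.powerset.filter fun T => Stb G T ∧ r ∈ T).Nonempty := by
    refine ⟨{r}, Finset.mem_filter.2 ⟨Finset.mem_powerset.2 ?_, stb_singleton G r,
      Finset.mem_singleton_self r⟩⟩
    exact Finset.singleton_subset_iff.2 hr
  obtain ⟨T0, hT0, hmax⟩ := Finset.exists_max_image _
    (fun T => ∑ K ∈ u.2, (T ∩ K).card) hFne
  rw [Finset.mem_filter, Finset.mem_powerset] at hT0
  obtain ⟨hT0W, hT0s, hrT0⟩ := hT0
  have hT0n : T0 ∉ u.1 := fun hh => hs ⟨T0, hh, hrT0⟩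
  have hlt := lft_lt hu hT0W hT0s hT0n
  set s := u.2.card - ∑ K ∈ u.2, (T0 ∩ K).card with hsdef
  have hsum : ∀ T : Finset ι, ∑ j ∈ T, ((u.2.filter fun K => j ∈ K).card +
      if j = r then s else 0) = ∑ K ∈ u.2, (T ∩ K).card + if r ∈ T then s else 0 := by
    intro T
    rw [Finset.sum_add_distrib, cov_double, Finset.sum_ite_eq']
  have hle : ∀ T ⊆ W, Stb G T → ∑ j ∈ T, ((u.2.filter fun K => j ∈ K).card +
      if j = r then s else 0) ≤ u.2.card := by
    intro T hTW hTs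
    rw [hsum]
    by_cases hrT : r ∈ T
    · rw [if_pos hrT]
      have h1 := hmax T (Finset.mem_filter.2 ⟨Finset.mem_powerset.2 hTW, hTs, hrT⟩)
      omega
    · rw [if_neg hrT, add_zero]
      exact lft_le hu hTs
  refine ⟨T0, hT0W, hT0s, hrT0, ?_⟩
  intro i hi
  have hiW : i ∈ W := kL_mem hu hi
  have hpos : 0 < (u.2.filter fun K => i ∈ K).card + if i = r then s else 0 := by
    obtain ⟨K, hK, hiK⟩ := hi
    have : 0 < (u.2.filter fun K => i ∈ K).card :=
      Finset.card_pos.2 ⟨K, Finset.mem_filter.2 ⟨hK, hiK⟩⟩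
    omega
  obtain ⟨K, hKW, hKc, hiK, hKT⟩ := starK h hle hiW hpos
  refine ⟨K, ?_, hiK, ?_⟩
  · refine (mem_snd hu).2 ⟨hKW, hKc, fun T hT => hKT T (fst_sub hu hT) (fst_stb hu hT) ?_⟩
    rw [hsum, if_neg (fun hh => hs ⟨T, hT, hh⟩), add_zero]
    exact lft_eq hu hT
  · refine hKT T0 hT0W hT0s ?_
    rw [hsum, if_pos hrT0]
    omega

theorem lift {G : SimpleGraph ι} (h : PF G) {W : Finset ι} {u : Wrd ι} (hu : u ∈ Wd G W) {r : ι}
    (hr : r ∈ W) (hk : kL u r) (hs : ¬ sL u r) :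
    ∃ u' ∈ Wd G W, (∀ i, kL u i → kL u' i) ∧ (∀ i, sL u i → sL u' i) ∧ sL u' r ∧
      u.1 = u'.1.filter (fun T => r ∉ T) := by
  obtain ⟨T00, hT00⟩ := lft_ex h hu hr hs
  have hFne : (W.powerset.filter fun T => LCd G W u r T).Nonempty :=
    ⟨T00, Finset.mem_filter.2 ⟨Finset.mem_powerset.2 hT00.1, hT00⟩⟩
  obtain ⟨Tr, hTr, hmax⟩ : ∃ Tr ∈ (W.powerset.filter fun T => LCd G W u r T),
      ∀ T ∈ (W.powerset.filter fun T => LCd G W u r T),
        (u.2.filter fun K => (T ∩ K).card = 1).card ≤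
          (u.2.filter fun K => (Tr ∩ K).card = 1).card :=
    Finset.exists_max_image _ (fun T => (u.2.filter fun K => (T ∩ K).card = 1).card) hFne
  rw [Finset.mem_filter] at hTr
  obtain ⟨-, hTrW, hTrs, hrTr, hTrk⟩ := hTr
  -- membership in the new word
  have hmem1 : ∀ T, T ∈ W.powerset.filter (fun T => Stb G T ∧
      ∀ K ∈ u.2.filter (fun K => (Tr ∩ K).card = 1), (T ∩ K).card = 1) ↔
      T ⊆ W ∧ Stb G T ∧ ∀ K ∈ u.2.filter (fun K => (Tr ∩ K).card = 1), (T ∩ K).card = 1 := by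
    intro T
    rw [Finset.mem_filter, Finset.mem_powerset]
  have hsub : ∀ T ∈ u.1, T ∈ W.powerset.filter (fun T => Stb G T ∧
      ∀ K ∈ u.2.filter (fun K => (Tr ∩ K).card = 1), (T ∩ K).card = 1) := by
    intro T hT
    rw [hmem1]
    exact ⟨fst_sub hu hT, fst_stb hu hT, fun K hK => card_eq hu hT (Finset.mem_filter.1 hK).1⟩
  have hTrmem : Tr ∈ W.powerset.filter (fun T => Stb G T ∧
      ∀ K ∈ u.2.filter (fun K => (Tr ∩ K).card = 1), (T ∩ K).card = 1) := by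
    rw [hmem1]
    exact ⟨hTrW, hTrs, fun K hK => (Finset.mem_filter.1 hK).2⟩
  refine ⟨(W.powerset.filter (fun T => Stb G T ∧
      ∀ K ∈ u.2.filter (fun K => (Tr ∩ K).card = 1), (T ∩ K).card = 1),
      u.2.filter (fun K => (Tr ∩ K).card = 1)), ?_, ?_, ?_, ?_, ?_⟩
  · rw [mem_Wd]
    refine ⟨hmem1, fun K => ?_⟩
    constructor
    · intro hK
      have hK' := Finset.mem_filter.1 hK
      exact ⟨snd_sub hu hK'.1, snd_clq hu hK'.1, fun T hT => ((hmem1 T).1 hT).2.2 K hK⟩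
    · rintro ⟨hKW, hKc, hKT⟩
      refine Finset.mem_filter.2 ⟨(mem_snd hu).2 ⟨hKW, hKc, fun T hT => hKT T (hsub T hT)⟩,
        hKT Tr hTrmem⟩
  · intro i hi
    obtain ⟨K, hK, hiK, hc⟩ := hTrk i hi
    exact ⟨K, Finset.mem_filter.2 ⟨hK, hc⟩, hiK⟩
  · rintro i ⟨T, hT, hiT⟩
    exact ⟨T, hsub T hT, hiT⟩
  · exact ⟨Tr, hTrmem, hrTr⟩
  · ext T1
    rw [Finset.mem_filter]
    constructor
    · intro hT
      exact ⟨hsub T1 hT, fun hh => hs ⟨T1, hT, hh⟩⟩
    · rintro ⟨hT1, hrT1⟩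
      obtain ⟨hT1W, hT1s, hT1K⟩ := (hmem1 T1).1 hT1
      by_contra hT1n
      have h3 : ∃ K ∈ u.2, (T1 ∩ K).card ≠ 1 := by
        by_contra hc
        push Not at hc
        exact hT1n ((mem_fst hu).2 ⟨hT1W, hT1s, hc⟩)
      obtain ⟨K2, hK2, hK21⟩ := h3
      have hT1K2 : (T1 ∩ K2).card = 0 := by
        have := inter_card_le hT1s (snd_clq hu hK2)
        omega
      have hTrK2 : (Tr ∩ K2).card ≠ 1 := fun hh =>
        hK21 (hT1K K2 (Finset.mem_filter.2 ⟨hK2, hh⟩))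
      have hTrK20 : (Tr ∩ K2).card = 0 := by
        have := inter_card_le hTrs (snd_clq hu hK2)
        omega
      -- (i)
      have hi1 : ∀ i, i ∈ T1 → i ∉ Tr → sL u i := by
        intro i hiT1 hiTr
        by_contra hsi
        have hki : kL u i := (cover h hu (hT1W hiT1)).resolve_left hsi
        obtain ⟨K, hK, hiK, hc⟩ := hTrk i hki
        have hKe : K.erase i ∈ u.2 := by
          refine mem_snd' hu ((Finset.erase_subset _ _).trans (snd_sub hu hK))
            ((snd_clq hu hK).mono (Finset.erase_subset _ _)) fun T hT => ?_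
          obtain ⟨x, hxT, hxK⟩ := exists_of_card (card_eq hu hT hK)
          exact ⟨x, hxT, Finset.mem_erase.2 ⟨fun hh => hsi ⟨T, hT, hh ▸ hxT⟩, hxK⟩⟩
        have hce : (Tr ∩ K.erase i).card = 1 := by
          obtain ⟨x, hxT, hxK⟩ := exists_of_card hc
          exact inter_card_eq hTrs (snd_clq hu hKe) hxT
            (Finset.mem_erase.2 ⟨fun hh => hiTr (hh ▸ hxT), hxK⟩)
        obtain ⟨y, hyT, hyK⟩ := exists_of_card (hT1K (K.erase i)
          (Finset.mem_filter.2 ⟨hKe, hce⟩))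
        rw [Finset.mem_erase] at hyK
        exact hT1s y hyT i hiT1 (snd_clq hu hK y hyK.2 i hiK hyK.1)
      -- (ii)
      have hind : ∀ A K : Finset ι, ∑ i ∈ K, (if i ∈ A then 1 else 0) = (A ∩ K).card := by
        intro A K
        rw [← Finset.card_filter]
        congr 1
        ext i
        rw [Finset.mem_inter, Finset.mem_filter]
        tauto
      have hwi : ∀ i, ((u.1.filter fun T => i ∈ T).card + (if i ∈ Tr then 1 else 0) -
          (if i ∈ T1 then 1 else 0)) + (if i ∈ T1 then 1 else 0) =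
          (u.1.filter fun T => i ∈ T).card + (if i ∈ Tr then 1 else 0) := by
        intro i
        by_cases h1 : i ∈ T1
        · by_cases h2 : i ∈ Tr
          · rw [if_pos h1, if_pos h2]
            omega
          · rw [if_pos h1, if_neg h2]
            obtain ⟨T, hT, hiT⟩ := hi1 i h1 h2
            have : 0 < (u.1.filter fun T => i ∈ T).card :=
              Finset.card_pos.2 ⟨T, Finset.mem_filter.2 ⟨hT, hiT⟩⟩
            omega
        · rw [if_neg h1]
          omega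
      have hw : ∀ K : Finset ι, ∑ i ∈ K, ((u.1.filter fun T => i ∈ T).card +
          (if i ∈ Tr then 1 else 0) - (if i ∈ T1 then 1 else 0)) + (T1 ∩ K).card =
          ∑ T ∈ u.1, (K ∩ T).card + (Tr ∩ K).card := by
        intro K
        rw [← cov_double, ← hind T1 K, ← hind Tr K, ← Finset.sum_add_distrib,
          ← Finset.sum_add_distrib]
        exact Finset.sum_congr rfl fun i _ => hwi i
      have hle : ∀ K ⊆ W, Clq G K → ∑ i ∈ K, ((u.1.filter fun T => i ∈ T).card +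
          (if i ∈ Tr then 1 else 0) - (if i ∈ T1 then 1 else 0)) ≤ u.1.card := by
        intro K hKW hKc
        have hwK := hw K
        by_cases hKQ : K ∈ u.2
        · have h1 := lft_eq' hu hKQ
          by_cases hKt : (Tr ∩ K).card = 1
          · have h2 := hT1K K (Finset.mem_filter.2 ⟨hKQ, hKt⟩)
            omega
          · have h2 := inter_card_le hTrs hKc
            omega
        · have h1 := lft_lt' hu hKW hKc hKQ
          have h2 := inter_card_le hTrs hKc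
          omega
      have hwr : 0 < (u.1.filter fun T => r ∈ T).card +
          (if r ∈ Tr then 1 else 0) - (if r ∈ T1 then 1 else 0) := by
        rw [if_pos hrTr, if_neg hrT1]
        omega
      obtain ⟨T', hT'W, hT's, hrT', hT'K⟩ := starS h.1 hle hr hwr
      have hT'1 : ∀ K ∈ u.2, (Tr ∩ K).card = 1 → (T' ∩ K).card = 1 := by
        intro K hK hKt
        refine hT'K K (snd_sub hu hK) (snd_clq hu hK) ?_
        have h1 := lft_eq' hu hK
        have h2 := hT1K K (Finset.mem_filter.2 ⟨hK, hKt⟩)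
        have hwK := hw K
        omega
      have hT'2 : (T' ∩ K2).card = 1 := by
        refine hT'K K2 (snd_sub hu hK2) (snd_clq hu hK2) ?_
        have h1 := lft_eq' hu hK2
        have hwK := hw K2
        omega
      have hcand : LCd G W u r T' := by
        refine ⟨hT'W, hT's, hrT', fun i hi => ?_⟩
        obtain ⟨K, hK, hiK, hc⟩ := hTrk i hi
        exact ⟨K, hK, hiK, hT'1 K hK hc⟩
      have hmx := hmax T' (Finset.mem_filter.2 ⟨Finset.mem_powerset.2 hT'W, hcand⟩)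
      have hss : (u.2.filter fun K => (Tr ∩ K).card = 1) ⊂
          (u.2.filter fun K => (T' ∩ K).card = 1) := by
        rw [Finset.ssubset_iff_of_subset]
        · exact ⟨K2, Finset.mem_filter.2 ⟨hK2, hT'2⟩, fun hh => hTrK2 (Finset.mem_filter.1 hh).2⟩
        · intro K hK
          rw [Finset.mem_filter] at hK ⊢
          exact ⟨hK.1, hT'1 K hK.1 hK.2⟩
      have := Finset.card_lt_card hss
      omega

end Pool.Agent.HNS
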