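import Pool.Agent.HNS.Twd

/-!
# The lower bound when `R` is not split
-/

set_option autoImplicit false
set_option linter.unusedSectionVars false

open scoped Classical

namespace Pool.Agent.HNS

variable {ι : Type} [DecidableEq ι]

theorem lla : ∀ (n : ℕ) {G : SimpleGraph ι} (_ : PF G) {P E D : Finset ι} (_ : Lst G P E D)
    (_ : (P ∪ E ∪ D).card = n) (_ : ¬ Spl G (P ∪ E ∪ D)),
    4 * 2 ^ (P ∪ E ∪ D).card ≤ Sg G (P ∪ E ∪ D) ∅ ∅ :=
  fun n _ h _ _ _ hl hn hns => gd_nonsplit n h hl hn hns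

end Pool.Agent.HNS
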