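import Pool.Agent.HNS.Twc

/-!
# The lower bound when `R` is split
-/

set_option autoImplicit false
set_option linter.unusedSectionVars false

open scoped Classical

namespace Pool.Agent.HNS

variable {ι : Type} [DecidableEq ι]

theorem llb {G : SimpleGraph ι} (h : PF G) {R M0 M1 : Finset ι} (hR : Spl G R)
    (h2 : 2 ≤ R.card) (d0 : Disjoint R M0) (d1 : Disjoint R M1) (d01 : Disjoint M0 M1)
    (_ : Clq G M0) (_ : Stb G M1) (ha : Anti G R (R ∪ M0 ∪ M1)) :
    4 * 2 ^ R.card ≤ Sg G R M0 M1 :=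
  gd_split h ⟨d0, d1, d01⟩ hR ha h2

end Pool.Agent.HNS
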