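import Pool.Agent.HNS.Bas

/-!
# Words of the path with four vertices

PROOF. Path `x - r - s - t` (the four vertices are distinct: `x = s` contradicts `s ~ t`, `x ≁ t`;
`x = t` contradicts `s ~ t`, `x ≁ s`; `r = t` contradicts `x ~ r`, `x ≁ t`). Let `W = {x, r, s, t}`,
`W \ {t} = {x, r, s}`. `CC G {x, r, s} ∅ ≥ 4` (CC_four0, `x`, `s`). By `del_card` (`A = {t}`) this is
the number of `u ∈ Wd G W` with no letter `a` at `t` and `sL` on `{x, r, s}`. All of them have letter
`1` at `t`: otherwise `kL u t` (cover) and `¬ sL u t`; let `t ∈ K ∈ u.2`, so `K ⊆ {s, t}`; every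
`T ∈ u.1` meets `K`, not in `t`, so `s ∈ T`; but `r ∈ T` for some `T ∈ u.1`, and `r ~ s`. By
`cnt_lift1` there are at least as many words with `sL` on `{x, r, s}` and letter `a` at `t`. Both
kinds are counted in `CC G W ∅`. The second statement is the first one for `Gᶜ` and the path
`r - t - x - s` (CC_compl).
-/

set_option autoImplicit false
set_option linter.unusedSectionVars false

open scoped Classical

namespace Pool.Agent.HNS

variable {ι : Type} [DecidableEq ι]

theorem CC_p4 {G : SimpleGraph ι} (h : PF G) {x r s t : ι} (h1 : G.Adj x r) (h2 : G.Adj r s)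
    (h3 : G.Adj s t) (h4 : ¬ G.Adj x s) (h5 : ¬ G.Adj x t) (h6 : ¬ G.Adj r t) :
    8 ≤ CC G {x, r, s, t} ∅ := by
  have hxs : x ≠ s := by
    rintro rfl
    exact h5 h3
  have hxt : x ≠ t := by
    rintro rfl
    exact h4 h3.symm
  have hrt : r ≠ t := by
    rintro rfl
    exact h5 h1
  have hst : s ≠ t := h3.ne
  obtain ⟨W, hW⟩ : ∃ W : Finset ι, W = {x, r, s, t} := ⟨_, rfl⟩
  obtain ⟨X, hX⟩ : ∃ X : Finset ι, X = {x, r, s} := ⟨_, rfl⟩
  rw [← hW]
  have memW : ∀ i, i ∈ W ↔ i = x ∨ i = r ∨ i = s ∨ i = t := by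
    intro i
    rw [hW]
    simp only [Finset.mem_insert, Finset.mem_singleton]
  have memX : ∀ i, i ∈ X ↔ i = x ∨ i = r ∨ i = s := by
    intro i
    rw [hX]
    simp only [Finset.mem_insert, Finset.mem_singleton]
  have htX : t ∉ X := by
    rw [memX]
    rintro (h | h | h)
    · exact hxt h.symm
    · exact hrt h.symm
    · exact hst h.symm
  have hWX : W \ {t} = X := by
    ext i
    rw [Finset.mem_sdiff, memW, memX, Finset.mem_singleton]
    constructor
    · rintro ⟨h | h | h | h, h'⟩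
      · exact Or.inl h
      · exact Or.inr (Or.inl h)
      · exact Or.inr (Or.inr h)
      · exact absurd h h'
    · rintro (h | h | h)
      · exact ⟨Or.inl h, fun h' => hxt (h.symm.trans h')⟩
      · exact ⟨Or.inr (Or.inl h), fun h' => hrt (h.symm.trans h')⟩
      · exact ⟨Or.inr (Or.inr (Or.inl h)), fun h' => hst (h.symm.trans h')⟩
  have four : 4 ≤ CC G X ∅ := CC_four0 h (Finset.disjoint_empty_right _)
    ((memX x).2 (Or.inl rfl)) ((memX s).2 (Or.inr (Or.inr rfl))) hxs h4
  obtain ⟨P, hP⟩ : ∃ P : Wrd ι → Prop, ∀ v, P v ↔ ∀ i ∈ X, sL v i := ⟨_, fun _ => Iff.rfl⟩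
  have e1 : CC G X ∅ = ((Wd G W).filter fun u => Uns {t} u ∧ P (del {t} u)).card := by
    rw [del_card G W {t} P, hWX]
    unfold CC
    rw [Finset.union_empty]
    congr 1
    ext u
    rw [Finset.mem_filter, Finset.mem_filter, hP]
    exact ⟨fun h => ⟨h.1, h.2.1⟩, fun h => ⟨h.1, h.2, fun i hi => absurd hi
      (Finset.notMem_empty _)⟩⟩
  have e2 : 4 ≤ ((Wd G W).filter fun u => Uns ∅ u ∧ (∀ i ∈ X, sL u i) ∧
      (∀ i ∈ (∅ : Finset ι), kL u i) ∧ sL u t ∧ ¬ kL u t).card := by
    refine four.trans ?_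
    rw [e1]
    apply Finset.card_le_card
    intro u hu
    rw [Finset.mem_filter] at hu
    obtain ⟨hu, hU, hs⟩ := hu
    rw [hP] at hs
    have hs' : ∀ i ∈ X, sL u i := by
      intro i hi
      have hit : i ∉ ({t} : Finset ι) := by
        rw [Finset.mem_singleton]
        rintro rfl
        exact htX hi
      exact (sL_del hu hU hit).1 (hs i hi)
    have hU' : ¬ (sL u t ∧ kL u t) := hU t (Finset.mem_singleton_self t)
    have hk : ¬ kL u t := by
      intro hk
      have hns : ¬ sL u t := fun hs => hU' ⟨hs, hk⟩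
      obtain ⟨K, hK, htK⟩ := hk
      obtain ⟨T, hT, hrT⟩ := hs' r ((memX r).2 (Or.inr (Or.inl rfl)))
      obtain ⟨y, hyT, hyK⟩ := exists_of_card (card_eq hu hT hK)
      have hyW := (memW y).1 (fst_sub hu hT hyT)
      rcases hyW with rfl | rfl | rfl | rfl
      · exact h5 (snd_clq hu hK y hyK t htK hxt)
      · exact h6 (snd_clq hu hK y hyK t htK hrt)
      · exact fst_stb hu hT r hrT y hyT h2
      · exact hns ⟨T, hT, hyT⟩
    have hst' : sL u t := (cover h hu ((memW t).2 (Or.inr (Or.inr (Or.inr rfl))))).resolve_right hk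
    exact Finset.mem_filter.2 ⟨hu, fun i hi => absurd hi (Finset.notMem_empty _), hs',
      fun i hi => absurd hi (Finset.notMem_empty _), hst', hk⟩
  have e3 := cnt_lift1 h (W := W) (A := ∅) (X := X) (Y := ∅) (r := t)
    ((memW t).2 (Or.inr (Or.inr (Or.inr rfl)))) (Finset.notMem_empty _)
    (Finset.disjoint_empty_right _) (Finset.disjoint_empty_right _)
  have e4 : ((Wd G W).filter fun u => Uns ∅ u ∧ (∀ i ∈ X, sL u i) ∧
      (∀ i ∈ (∅ : Finset ι), kL u i) ∧ sL u t ∧ ¬ kL u t).card +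
      ((Wd G W).filter fun u => Uns ∅ u ∧ (∀ i ∈ X, sL u i) ∧
      (∀ i ∈ (∅ : Finset ι), kL u i) ∧ sL u t ∧ kL u t).card ≤ CC G W ∅ := by
    rw [← Finset.card_union_of_disjoint]
    · unfold CC
      apply Finset.card_le_card
      rw [Finset.union_empty]
      intro u hu
      rw [Finset.mem_union, Finset.mem_filter, Finset.mem_filter] at hu
      have key : u ∈ Wd G W ∧ (∀ i ∈ X, sL u i) ∧ sL u t := by
        rcases hu with hu | hu
        · exact ⟨hu.1, hu.2.2.1, hu.2.2.2.2.1⟩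
        · exact ⟨hu.1, hu.2.2.1, hu.2.2.2.2.1⟩
      refine Finset.mem_filter.2 ⟨key.1, ?_, fun i hi => absurd hi (Finset.notMem_empty _)⟩
      intro i hi
      rcases (memW i).1 hi with h | h | h | h
      · exact key.2.1 i ((memX i).2 (Or.inl h))
      · exact key.2.1 i ((memX i).2 (Or.inr (Or.inl h)))
      · exact key.2.1 i ((memX i).2 (Or.inr (Or.inr h)))
      · rw [h]
        exact key.2.2
    · rw [Finset.disjoint_left]
      intro u hu hu'
      rw [Finset.mem_filter] at hu hu'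
      exact hu.2.2.2.2.2 hu'.2.2.2.2.2
  omega

theorem CC_p4' {G : SimpleGraph ι} (h : PF G) {x r s t : ι} (h1 : G.Adj x r) (h2 : G.Adj r s)
    (h3 : G.Adj s t) (h4 : ¬ G.Adj x s) (h5 : ¬ G.Adj x t) (h6 : ¬ G.Adj r t) :
    8 ≤ CC G ∅ {x, r, s, t} := by
  have hxs : x ≠ s := by
    rintro rfl
    exact h5 h3
  have hxt : x ≠ t := by
    rintro rfl
    exact h4 h3.symm
  have hrt : r ≠ t := by
    rintro rfl
    exact h5 h1
  have a1 : Gᶜ.Adj r t := by
    rw [SimpleGraph.compl_adj]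
    exact ⟨hrt, h6⟩
  have a2 : Gᶜ.Adj t x := by
    rw [SimpleGraph.compl_adj]
    exact ⟨hxt.symm, fun h => h5 h.symm⟩
  have a3 : Gᶜ.Adj x s := by
    rw [SimpleGraph.compl_adj]
    exact ⟨hxs, h4⟩
  have a4 : ¬ Gᶜ.Adj r x := by
    rw [SimpleGraph.compl_adj]
    exact fun h => h.2 h1.symm
  have a5 : ¬ Gᶜ.Adj r s := by
    rw [SimpleGraph.compl_adj]
    exact fun h => h.2 h2
  have a6 : ¬ Gᶜ.Adj t s := by
    rw [SimpleGraph.compl_adj]
    exact fun h => h.2 h3.symm
  have := CC_p4 h.compl a1 a2 a3 a4 a5 a6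
  rw [CC_compl] at this
  have hset : ({r, t, x, s} : Finset ι) = {x, r, s, t} := by
    ext i
    simp only [Finset.mem_insert, Finset.mem_singleton]
    constructor
    · rintro (h | h | h | h)
      · exact Or.inr (Or.inl h)
      · exact Or.inr (Or.inr (Or.inr h))
      · exact Or.inl h
      · exact Or.inr (Or.inr (Or.inl h))
    · rintro (h | h | h | h)
      · exact Or.inr (Or.inr (Or.inl h))
      · exact Or.inl h
      · exact Or.inr (Or.inr (Or.inr h))
      · exact Or.inr (Or.inl h)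
  rw [hset] at this
  exact this

end Pool.Agent.HNS
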