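import Pool.Agent.HNS.Defs2

/-!
# Uniqueness of the balanced partition

PROOF. Let `c ∈ C`, `c ∈ O`. `c` has a neighbour `s ∈ S`; `s ∉ O` (`O` stable), so `s ∈ Z`. Every `c' ∈ C`,
`c' ≠ c`, is adjacent to `c`, so not in `O`, so in `Z`, and `c' ~ s` (`Z` clique, `c' ≠ s` as `C`, `S` are
disjoint). So `s` is complete to `C`, contradiction to `hS`. Hence `C ⊆ Z`. If `s ∈ S`, `s ∈ Z`: `s` is
complete to `C ⊆ Z` (`s ∉ C`), contradiction to `hS`. Hence `S ⊆ O`.
-/

set_option autoImplicit false
set_option linter.unusedSectionVars false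

open scoped Classical

namespace Pool.Agent.HNS

variable {ι : Type} [DecidableEq ι]

theorem bal_unique {G : SimpleGraph ι} {C S Z O : Finset ι} (hb : Bal G C S) (hZ : Clq G Z)
    (hO : Stb G O) (hs : C ∪ S ⊆ Z ∪ O) : C ⊆ Z ∧ S ⊆ O := by
  have hCZ : C ⊆ Z := by
    intro c hc
    by_contra hcZ
    have hcO : c ∈ O := by
      rcases Finset.mem_union.1 (hs (Finset.mem_union_left _ hc)) with h | h
      · exact absurd h hcZ
      · exact h
    obtain ⟨s, hsS, hcs⟩ := hb.hC c hc
    have hsO : s ∉ O := fun h => hO c hcO s h hcs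
    have hsZ : s ∈ Z := by
      rcases Finset.mem_union.1 (hs (Finset.mem_union_right _ hsS)) with h | h
      · exact h
      · exact absurd h hsO
    obtain ⟨c', hc', hn⟩ := hb.hS s hsS
    apply hn
    by_cases hcc : c' = c
    · subst hcc
      exact hcs.symm
    · have hadj : G.Adj c' c := hb.clq c' hc' c hc hcc
      have hc'O : c' ∉ O := fun h => hO c' h c hcO hadj
      have hc'Z : c' ∈ Z := by
        rcases Finset.mem_union.1 (hs (Finset.mem_union_left _ hc')) with h | h
        · exact h
        · exact absurd h hc'O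
      have hne : s ≠ c' := by
        rintro rfl
        exact Finset.disjoint_left.1 hb.dCS hc' hsS
      exact hZ s hsZ c' hc'Z hne
  refine ⟨hCZ, ?_⟩
  intro s hsS
  rcases Finset.mem_union.1 (hs (Finset.mem_union_right _ hsS)) with h | h
  · exfalso
    obtain ⟨c, hc, hn⟩ := hb.hS s hsS
    apply hn
    have hne : s ≠ c := by
      rintro rfl
      exact Finset.disjoint_left.1 hb.dCS hc hsS
    exact hZ s h c (hCZ hc) hne
  · exact h

end Pool.Agent.HNS
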