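import Pool.Agent.HNS.Sid
import Pool.Agent.HNS.Unq

/-!
# One of the two intervals is good

PROOF. `side` for `A` and for `W \ A` (`W \ (W \ A) = A`). If one of the two gives the first alternative,
done. Otherwise `(C, S, p)` for `A` and `(C', S', p')` for `W \ A`, `p ∈ A`, `p' ∈ W \ A`.
`C' ∪ S' ⊆ W \ A = Mz ∪ Mo` (for `C`, `S`), so by `bal_unique` `C' ⊆ Mz`, `S' ⊆ Mo`; `p` is complete to `C'`,
anticomplete to `S'`, `p ∉ C' ∪ S'` (as `p ∈ A`), so `p ∈ Rs G W C' S' = {p'}`, contradiction.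
-/

set_option autoImplicit false
set_option linter.unusedSectionVars false

open scoped Classical

namespace Pool.Agent.HNS

variable {ι : Type} [DecidableEq ι]

theorem pair_good {G : SimpleGraph ι} (h : PF G) {W A : Finset ι} (hA : A ⊆ W)
    (ha : Anti G W W) (h2 : 2 ≤ W.card) (hc : cA G W ∅ ∅ A < 4)
    (hc' : cA G W ∅ ∅ (W \ A) < 4) :
    ∃ C S : Finset ι, Bal G C S ∧ C ∪ S ⊆ W ∧
      4 * (Iv G W C S).card ≤ ∑ B ∈ Iv G W C S, cA G W ∅ ∅ B ∧
      (A ∈ Iv G W C S ∨ W \ A ∈ Iv G W C S) := by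
  have e : W \ (W \ A) = A := Finset.sdiff_sdiff_eq_self hA
  obtain ⟨C, S, hb, hs, hI, hor⟩ := side h hA ha h2 hc hc'
  obtain ⟨C', S', hb', hs', hI', hor'⟩ :=
    side h (Finset.sdiff_subset : W \ A ⊆ W) ha h2 hc' (by rw [e]; exact hc)
  rcases hor with h1 | ⟨p, hp, _, hcl, hst, hWA, hz, ho⟩
  · exact ⟨C, S, hb, hs.trans hA, h1, Or.inl hI⟩
  rcases hor' with h1 | ⟨p', hp', hR', -, -, -, -, -⟩
  · exact ⟨C', S', hb', hs'.trans Finset.sdiff_subset, h1, Or.inr hI'⟩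
  exfalso
  obtain ⟨hCz, hSo⟩ := bal_unique hb' hcl hst (hs'.trans hWA.subset)
  have hmem : p ∈ Rs G W C' S' := by
    unfold Rs
    rw [Finset.mem_filter, Finset.mem_sdiff]
    refine ⟨⟨hA hp, fun hh => ?_⟩, fun c hc => hz c (hCz hc), fun s hs => ho s (hSo hs)⟩
    exact (Finset.mem_sdiff.1 (hs' hh)).2 hp
  rw [hR', Finset.mem_singleton] at hmem
  rw [← hmem] at hp'
  exact (Finset.mem_sdiff.1 hp').2 hp

end Pool.Agent.HNS
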