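import Pool.Agent.HNS.Thd
import Pool.Agent.HNS.Cor
import Pool.Agent.HNS.Itv
import Pool.Agent.HNS.Lla
import Pool.Agent.HNS.Llb
import Pool.Agent.HNS.Sbs

/-!
# The interval of a thin set

PROOF. Let `v` be the word of `A`, `v'` the word of `W \ A` (`thin_word`). `Z = Zr W v'` is a clique,
`O = On W v'` stable, disjoint, `Z ∪ O = A` (cover). Let `P` be from `core`, `C = Z \ P`, `S = O \ P`, so
`A = P ∪ C ∪ S`. `C ≠ ∅`: otherwise `S = ∅` and `A = P` is threshold; `A ≠ ∅` (`cA_empty`, `CC_two`: `cA ∅ ≥ 4`;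
here `cA_empty` gives `CC G (W ∪ ∅) ∅ + CC G ∅ (W ∪ ∅)`), so `A` has a dominating or isolated vertex,
against `thin_no_dom`. So `Bal G C S`. `P ⊆ Rs G W C S`, hence `A ∈ Iv`. `P ≠ ∅`, otherwise `A = C ∪ S` and
`bal_four` contradicts thinness. By `itv` and `Iv_card`, `4 * 2 ^ |Rs| ≤ Sg G Rs Mz Mo` is enough for the
first alternative.
`Rs = P ∪ E ∪ D` with `E = Rs ∩ Zr W v`, `D = Rs ∩ On W v` (a vertex of `Rs` outside `P` is not in `A`).
`Lst G P E D` (E_fact, D_fact; `E ⊆ Zr W v` clique, `D ⊆ On W v` stable).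
(1) `Rs` not split: `lla`, `Sg_mono` (`M_disj`).
(2) `Clq G Mz`, `Stb G Mo`: let `y ∈ Wd G Rs` have support `P` (`exists_Sp`), `g` from `emb`; `g y` has
support `A`, so `g y = v`, `Mz ⊆ Zr W v`, `Mo ⊆ On W v`.
(3) `Rs` split, `2 ≤ |Rs|`: `llb`; `Anti G Rs (Rs ∪ Mz ∪ Mo)` follows from `ha`: `W = C ∪ S ∪ Rs ∪ Mz ∪ Mo`
(M_union), and the neighbours in `C ∪ S` of any vertex of `Rs` are exactly the vertices of `C`.
(4) `|Rs| = 1`: `Rs = P = {p}`, `p ∈ A`. If some `m ∈ Mo` has `p ~ m`: `Sg_single1`, `8 = 4 * 2 ^ 1`; if some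
`m ∈ Mz` has `p ≁ m`: `Sg_single0`. Otherwise the second alternative (`W \ A = Mz ∪ Mo` by M_union).
-/

set_option autoImplicit false
set_option linter.unusedSectionVars false

open scoped Classical

namespace Pool.Agent.HNS

variable {ι : Type} [DecidableEq ι]

private theorem sid_R {G : SimpleGraph ι} {W C S : Finset ι} :
    Disjoint (Rs G W C S) (Mz G W C S) ∧ Disjoint (Rs G W C S) (Mo G W C S) := by
  constructor
  · rw [Finset.disjoint_left]
    intro x hx hm
    exact (M_not (mem_Mz.1 hm).1).2.2.2 hx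
  · rw [Finset.disjoint_left]
    intro x hx hm
    exact (M_not (mem_Mo.1 hm).1).2.2.2 hx

private theorem sid_anti {G : SimpleGraph ι} (h : PF G) {W C S : Finset ι} (hb : Bal G C S)
    (hW : C ∪ S ⊆ W) (ha : Anti G W W) :
    Anti G (Rs G W C S) (Rs G W C S ∪ Mz G W C S ∪ Mo G W C S) := by
  have hmem : ∀ v ∈ W, v ∈ C ∨ v ∈ S ∨ v ∈ Rs G W C S ∪ Mz G W C S ∪ Mo G W C S := by
    intro v hv
    by_cases h1 : v ∈ C ∪ S ∪ Rs G W C S
    · rw [Finset.mem_union, Finset.mem_union] at h1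
      rcases h1 with (h1 | h1) | h1
      · exact Or.inl h1
      · exact Or.inr (Or.inl h1)
      · exact Or.inr (Or.inr (Finset.mem_union_left _ (Finset.mem_union_left _ h1)))
    · have h2 : v ∈ W \ (C ∪ S ∪ Rs G W C S) := Finset.mem_sdiff.2 ⟨hv, h1⟩
      rw [← M_union h hb hW, Finset.mem_union] at h2
      refine Or.inr (Or.inr ?_)
      rw [Finset.mem_union, Finset.mem_union]
      rcases h2 with h2 | h2
      · exact Or.inl (Or.inr h2)
      · exact Or.inr h2
  intro x hx r hr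
  obtain ⟨-, hxC, hxS⟩ := Rs_prop x hx
  obtain ⟨-, hrC, hrS⟩ := Rs_prop r hr
  have hh := ha x (Rs_sub hx) r (Rs_sub hr)
  constructor
  · rintro ⟨h1, h2⟩
    refine hh.1 ⟨h1, fun v hv hxv => ?_⟩
    rcases hmem v hv with h3 | h3 | h3
    · exact Or.inr (hrC v h3)
    · exact absurd hxv (hxS v h3)
    · exact h2 v h3 hxv
  · rintro ⟨h1, h2, h2'⟩
    refine hh.2 ⟨h1, h2, fun v hv hrv => ?_⟩
    rcases hmem v hv with h3 | h3 | h3
    · exact hxC v h3
    · exact absurd hrv (hrS v h3)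
    · exact h2' v h3 hrv

theorem side {G : SimpleGraph ι} (h : PF G) {W A : Finset ι} (hA : A ⊆ W)
    (ha : Anti G W W) (h2 : 2 ≤ W.card) (hc : cA G W ∅ ∅ A < 4)
    (hc' : cA G W ∅ ∅ (W \ A) < 4) :
    ∃ C S : Finset ι, Bal G C S ∧ C ∪ S ⊆ A ∧ A ∈ Iv G W C S ∧
      (4 * (Iv G W C S).card ≤ ∑ B ∈ Iv G W C S, cA G W ∅ ∅ B ∨
        ∃ p ∈ A, Rs G W C S = {p} ∧ Clq G (Mz G W C S) ∧ Stb G (Mo G W C S) ∧
          W \ A = Mz G W C S ∪ Mo G W C S ∧ (∀ m ∈ Mz G W C S, G.Adj p m) ∧
          ∀ m ∈ Mo G W C S, ¬ G.Adj p m) := by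
  obtain ⟨v, hv, hSp, huniq, hZv, hOv⟩ := thin_word h hA hc
  obtain ⟨v', hv', hSp', -, hZ', hO'⟩ := thin_word h (Finset.sdiff_subset : W \ A ⊆ W) hc'
  have hdis : Disjoint (Zr W v') (On W v') := by
    rw [Finset.disjoint_left]
    intro x hx hx'
    exact (mem_Zr.1 hx).2.2 (mem_On.1 hx').2.1
  have hZO : Zr W v' ∪ On W v' = A := by
    ext x
    rw [Finset.mem_union, mem_Zr, mem_On]
    have h3 : x ∈ W \ A ↔ x ∈ W ∧ sL v' x ∧ kL v' x := by rw [← hSp', mem_Sp]
    rw [Finset.mem_sdiff] at h3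
    constructor
    · rintro (⟨h4, h5, h6⟩ | ⟨h4, h5, h6⟩)
      · by_contra h7
        exact h6 (h3.1 ⟨h4, h7⟩).2.1
      · by_contra h7
        exact h6 (h3.1 ⟨h4, h7⟩).2.2
    · intro h4
      have h5 := hA h4
      have h6 : ¬ (sL v' x ∧ kL v' x) := fun h7 => (h3.2 ⟨h5, h7⟩).2 h4
      have h7 := cover h hv' h5
      tauto
  obtain ⟨P, hPZO, hthr, hCP, hSP, hCS, hSC⟩ := core hdis hZ' hO'
  rw [hZO] at hPZO
  have hPW : P ⊆ W := hPZO.trans hA
  generalize hCdef : Zr W v' \ P = C at hCP hCS hSC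
  generalize hSdef : On W v' \ P = S at hSP hCS hSC
  have hAe : A = P ∪ C ∪ S := by
    ext x
    rw [Finset.mem_union, Finset.mem_union, ← hCdef, ← hSdef, Finset.mem_sdiff, Finset.mem_sdiff,
      ← hZO, Finset.mem_union]
    have h3 : x ∈ P → x ∈ Zr W v' ∨ x ∈ On W v' := by
      intro h4
      have h5 := hPZO h4
      rw [← hZO, Finset.mem_union] at h5
      exact h5
    tauto
  have hdCS : Disjoint C S := by
    rw [← hCdef, ← hSdef]
    exact Finset.disjoint_of_subset_left Finset.sdiff_subset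
      (Finset.disjoint_of_subset_right Finset.sdiff_subset hdis)
  have hclqC : Clq G C := by
    rw [← hCdef]
    exact hZ'.mono Finset.sdiff_subset
  have hstbS : Stb G S := by
    rw [← hSdef]
    exact hO'.mono Finset.sdiff_subset
  have hPC : ∀ p ∈ P, p ∉ C ∪ S := by
    intro p hp
    rw [Finset.mem_union, ← hCdef, ← hSdef, Finset.mem_sdiff, Finset.mem_sdiff]
    tauto
  have hCSA : C ∪ S ⊆ A := by
    rw [hAe]
    intro x hx
    rw [Finset.mem_union] at hx
    rw [Finset.mem_union, Finset.mem_union]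
    tauto
  have hW : C ∪ S ⊆ W := hCSA.trans hA
  have hAne : A.Nonempty := by
    rw [Finset.nonempty_iff_ne_empty]
    rintro rfl
    have h3 := cA_empty h (R := W) (M0 := ∅) (M1 := ∅)
    have h4 : 2 ≤ CC G (W ∪ ∅) ∅ := CC_two h (Finset.disjoint_empty_right _)
    have h5 : 2 ≤ CC G ∅ (W ∪ ∅) := CC_two h (Finset.disjoint_empty_left _)
    omega
  have hCne : C.Nonempty := by
    by_contra hC
    rw [Finset.not_nonempty_iff_eq_empty] at hC
    have hS : S = ∅ := by
      rw [Finset.eq_empty_iff_forall_notMem]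
      intro s hs
      obtain ⟨c, hc1, -⟩ := hSC s hs
      rw [hC] at hc1
      exact absurd hc1 (Finset.notMem_empty c)
    have hAP : A = P := by rw [hAe, hC, hS, Finset.union_empty, Finset.union_empty]
    obtain ⟨q, hq, hq'⟩ := hthr P (Finset.Subset.refl P) (hAP ▸ hAne)
    have hqA : q ∈ A := by rw [hAP]; exact hq
    refine thin_no_dom h hA hc ha h2 hqA ?_
    rw [hAP]
    exact hq'
  have hb : Bal G C S := ⟨hCne, hdCS, hclqC, hstbS, hCS, hSC⟩
  have hPR : P ⊆ Rs G W C S := by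
    intro p hp
    exact mem_Rs.2 ⟨⟨hPW hp, hPC p hp⟩, fun c hc1 => (hCP c hc1 p hp).symm,
      fun s hs hps => hSP s hs p hp hps.symm⟩
  have hIv : A ∈ Iv G W C S := by
    unfold Iv
    rw [Finset.mem_Icc]
    refine ⟨hCSA, ?_⟩
    intro x hx
    rw [hAe, Finset.mem_union, Finset.mem_union] at hx
    rw [Finset.mem_union, Finset.mem_union]
    rcases hx with (hx | hx) | hx
    · exact Or.inr (hPR hx)
    · exact Or.inl (Or.inl hx)
    · exact Or.inl (Or.inr hx)
  have hPne : P.Nonempty := by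
    rw [Finset.nonempty_iff_ne_empty]
    intro hP
    have h3 := bal_four h hb hW
    rw [hAe, hP, Finset.empty_union] at hc
    omega
  refine ⟨C, S, hb, hCSA, hIv, ?_⟩
  have hkey : 4 * 2 ^ (Rs G W C S).card ≤ Sg G (Rs G W C S) (Mz G W C S) (Mo G W C S) →
      4 * (Iv G W C S).card ≤ ∑ B ∈ Iv G W C S, cA G W ∅ ∅ B := by
    intro h3
    rw [Iv_card]
    exact h3.trans (itv h hb hW)
  have d01 := M_disj h hb hW
  obtain ⟨d0, d1⟩ := sid_R (G := G) (W := W) (C := C) (S := S)
  -- the decomposition of the set `Rs`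
  have hR : Rs G W C S = P ∪ (Rs G W C S ∩ Zr W v) ∪ (Rs G W C S ∩ On W v) := by
    ext r
    rw [Finset.mem_union, Finset.mem_union, Finset.mem_inter, Finset.mem_inter]
    constructor
    · intro hr
      have hrW : r ∈ W := Rs_sub hr
      by_cases hrA : r ∈ A
      · rw [hAe, Finset.mem_union, Finset.mem_union] at hrA
        have h4 := (Rs_prop r hr).1
        rw [Finset.mem_union] at h4
        tauto
      · have h4 : ¬ (sL v r ∧ kL v r) := by
          intro h5
          apply hrA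
          rw [← hSp, mem_Sp]
          exact ⟨hrW, h5⟩
        have h5 := cover h hv hrW
        rw [mem_Zr, mem_On]
        tauto
    · rintro ((hr | hr) | hr)
      · exact hPR hr
      · exact hr.1
      · exact hr.1
  have hAS : Sp W v = P ∪ C ∪ S := hSp.trans hAe
  have hPSp : P ⊆ Sp W v := by
    rw [hSp]
    exact hPZO
  have hL : Lst G P (Rs G W C S ∩ Zr W v) (Rs G W C S ∩ On W v) := by
    refine ⟨hPne, ?_, ?_, ?_, hthr, hZv.mono Finset.inter_subset_right,
      hOv.mono Finset.inter_subset_right, ?_, ?_⟩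
    · rw [Finset.disjoint_left]
      intro x hx hx'
      exact (mem_Zr.1 (Finset.mem_inter.1 hx').2).2.2 (mem_Sp.1 (hPSp hx)).2.1
    · rw [Finset.disjoint_left]
      intro x hx hx'
      exact (mem_On.1 (Finset.mem_inter.1 hx').2).2.2 (mem_Sp.1 (hPSp hx)).2.2
    · rw [Finset.disjoint_left]
      intro x hx hx'
      exact (mem_Zr.1 (Finset.mem_inter.1 hx).2).2.2 (mem_On.1 (Finset.mem_inter.1 hx').2).2.1
    · intro e he
      rw [Finset.mem_inter] at he
      exact E_fact hv hAS hCP he.2 (Rs_prop e he.1).2.2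
    · intro d hd
      rw [Finset.mem_inter] at hd
      exact D_fact hv hAS hSP hd.2 (Rs_prop d hd.1).2.1
  by_cases hspl : Spl G (Rs G W C S)
  · -- zeros and ones outside
    obtain ⟨y, hy, hySp⟩ := exists_Sp h hPR
    obtain ⟨g, -, hg⟩ := emb h hb hW
    obtain ⟨g1, g2, g3, g4⟩ := hg y hy
    have hgv : g y = v := by
      refine huniq _ g1 ?_
      rw [g2, hySp, hAe]
      ext x
      simp only [Finset.mem_union]
      tauto
    rw [hgv] at g3 g4
    have hMz : Clq G (Mz G W C S) := by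
      refine hZv.mono ?_
      rw [g3]
      exact Finset.subset_union_right
    have hMo : Stb G (Mo G W C S) := by
      refine hOv.mono ?_
      rw [g4]
      exact Finset.subset_union_right
    by_cases hcard : 2 ≤ (Rs G W C S).card
    · exact Or.inl (hkey (llb h hspl hcard d0 d1 d01 hMz hMo (sid_anti h hb hW ha)))
    · have h1 : (Rs G W C S).card = 1 := by
        have h3 : 0 < (Rs G W C S).card := Finset.card_pos.2 (hPne.mono hPR)
        omega
      obtain ⟨p, hp⟩ := Finset.card_eq_one.1 h1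
      have hPp : P = {p} := by
        rw [hp] at hPR
        exact (Finset.subset_singleton_iff.1 hPR).resolve_left hPne.ne_empty
      have hpA : p ∈ A := by
        apply hPZO
        rw [hPp]
        exact Finset.mem_singleton_self p
      have hp0 : p ∉ Mz G W C S := by
        have h3 : p ∈ Rs G W C S := by
          rw [hp]
          exact Finset.mem_singleton_self p
        exact Finset.disjoint_left.1 d0 h3
      have hp1 : p ∉ Mo G W C S := by
        have h3 : p ∈ Rs G W C S := by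
          rw [hp]
          exact Finset.mem_singleton_self p
        exact Finset.disjoint_left.1 d1 h3
      by_cases hm1 : ∃ m ∈ Mo G W C S, G.Adj p m
      · obtain ⟨m, hm, ham⟩ := hm1
        refine Or.inl (hkey ?_)
        have h3 := Sg_single1 h d01 hp0 hp1 hm ham
        rw [h1, hp]
        omega
      by_cases hm0 : ∃ m ∈ Mz G W C S, ¬ G.Adj p m
      · obtain ⟨m, hm, ham⟩ := hm0
        refine Or.inl (hkey ?_)
        have h3 := Sg_single0 h d01 hp0 hp1 hm ham
        rw [h1, hp]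
        omega
      push Not at hm1 hm0
      refine Or.inr ⟨p, hpA, hp, hMz, hMo, ?_, hm0, hm1⟩
      rw [M_union h hb hW, hp, hAe, hPp]
      congr 1
      ext x
      simp only [Finset.mem_union]
      tauto
  · refine Or.inl (hkey ?_)
    have h3 : 4 * 2 ^ (Rs G W C S).card ≤ Sg G (Rs G W C S) ∅ ∅ := by
      have h4 := lla _ h hL rfl (by rw [← hR]; exact hspl)
      rw [← hR] at h4
      exact h4
    exact h3.trans (Sg_mono h (Finset.empty_subset _) (Finset.empty_subset _) d0 d1 d01)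

end Pool.Agent.HNS
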