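import Pool.Agent.HNS.Thn
import Pool.Agent.HNS.Swp

/-!
# A thin set has no dominating vertex

PROOF. By complement (cA_compl, domA_compl, domN_compl) it is enough to treat a `q ∈ A` adjacent to all
other vertices of `A`. Let `v` be the word of `thin_word`. (1) `q ∈ K` for all `K ∈ v.2`: otherwise let
`q ∈ T ∈ v.1` (`sL v q`); `T` meets `K` in a vertex `t` of the support `A`, `t ≠ q`, so `t ~ q`, but `T` is
stable. (2) So every zero `z ∈ K ∈ v.2` is adjacent to `q`. (3) Let `d ∈ On W v` with `d ≁ q`. The ones are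
a stable set, so the neighbours of `d` in `W` are in `A ∪ Zr W v`, `≠ q`, so adjacent to `q`:
`DomN G W q d`, contradiction to `ha`. So `q` is adjacent to all other vertices of `W` (cover: `W` is the
union of support, zeros, ones). (4) Take `x ∈ W`, `x ≠ q` (`h2`): `DomA G W x q`, contradiction.
-/

set_option autoImplicit false
set_option linter.unusedSectionVars false

open scoped Classical

namespace Pool.Agent.HNS

variable {ι : Type} [DecidableEq ι]

private theorem thd_aux {G : SimpleGraph ι} (h : PF G) {W A : Finset ι} (hA : A ⊆ W)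
    (hc : cA G W ∅ ∅ A < 4) (ha : Anti G W W) (h2 : 2 ≤ W.card) {q : ι} (hq : q ∈ A)
    (hd : ∀ v ∈ A, v ≠ q → G.Adj q v) : False := by
  obtain ⟨v, hv, hSp, -, -, hO⟩ := thin_word h hA hc
  have hqs : q ∈ Sp W v := hSp ▸ hq
  have hqW : q ∈ W := hA hq
  obtain ⟨T, hT, hqT⟩ := (mem_Sp.1 hqs).2.1
  have h1 : ∀ K ∈ v.2, q ∈ K := by
    intro K hK
    obtain ⟨t, htT, htK⟩ := exists_of_card (card_eq hv hT hK)
    by_contra hqK
    have htq : t ≠ q := fun e => hqK (e ▸ htK)
    have htA : t ∈ A := by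
      rw [← hSp, mem_Sp]
      exact ⟨fst_sub hv hT htT, ⟨T, hT, htT⟩, ⟨K, hK, htK⟩⟩
    exact fst_stb hv hT q hqT t htT (hd t htA htq)
  have h2' : ∀ z, kL v z → z ≠ q → G.Adj q z := by
    rintro z ⟨K, hK, hz⟩ hne
    exact (snd_clq hv hK) q (h1 K hK) z hz (Ne.symm hne)
  have h3 : ∀ x ∈ W, x ≠ q → G.Adj q x := by
    intro d hdW hdq
    by_cases hk : kL v d
    · exact h2' d hk hdq
    have hs : sL v d := (cover h hv hdW).resolve_right hk
    by_contra hnd
    have hdO : d ∈ On W v := mem_On.2 ⟨hdW, hs, hk⟩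
    refine (ha q hqW d hdW).2 ⟨Ne.symm hdq, hnd, fun w hw hdw => ?_⟩
    have hwq : w ≠ q := by
      rintro rfl
      exact hnd hdw.symm
    by_cases hkw : kL v w
    · exact h2' w hkw hwq
    · have hsw : sL v w := (cover h hv hw).resolve_right hkw
      exact absurd hdw (hO d hdO w (mem_On.2 ⟨hw, hsw, hkw⟩))
  obtain ⟨x, hx, hxq⟩ := Finset.exists_mem_ne (by omega : 1 < W.card) q
  refine (ha x hx q hqW).1 ⟨(h3 x hx hxq).symm, fun w hw _ => ?_⟩
  by_cases hwq : w = q
  · exact Or.inl hwq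
  · exact Or.inr (h3 w hw hwq)

theorem thin_no_dom {G : SimpleGraph ι} (h : PF G) {W A : Finset ι} (hA : A ⊆ W)
    (hc : cA G W ∅ ∅ A < 4) (ha : Anti G W W) (h2 : 2 ≤ W.card) {q : ι} (hq : q ∈ A) :
    ¬ ((∀ v ∈ A, v ≠ q → G.Adj q v) ∨ ∀ v ∈ A, ¬ G.Adj q v) := by
  rintro (hd | hd)
  · exact thd_aux h hA hc ha h2 hq hd
  · refine thd_aux (G := Gᶜ) h.compl hA ?_ ?_ h2 hq ?_
    · rw [cA_compl]
      exact hc
    · intro x hx r hr
      rw [domA_compl, domN_compl]
      exact ⟨(ha x hx r hr).2, (ha x hx r hr).1⟩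
    · intro v hv hne
      exact (G.compl_adj q v).2 ⟨Ne.symm hne, hd v hv⟩

end Pool.Agent.HNS
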