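import Pool.Agent.HNS.Fib
import Pool.Agent.HNS.Bas
import Pool.Agent.HNS.Ltr

/-!
# Thin sets

A set `A ⊆ W` is thin if `cA G W ∅ ∅ A < 4`.
PROOF of `thin_word`: `v` by `exists_Sp`, unique by `cA_pair`. `CC G (Zr W v ∪ ∅) (On W v ∪ ∅)` is one
term of the sum `cA G W ∅ ∅ A < 4`, so by `CC_four0`, `CC_four1` the zeros form a clique and the ones a
stable set.
PROOF of `E_fact`: let `e ∈ K' ∈ v.2` (`kL v e`) and `K = K' ∩ P`. Let `p ∈ P`, `p ∉ K`, so `p ∉ K'`. `sL v p`: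
let `p ∈ T ∈ v.1`, and `t ∈ T ∩ K'`. `t` is in the support (`sL`, `kL`), `t ≠ p`, `t ≁ p` (`T` stable). `t ∈ C` is
impossible (`C` complete to `P`), `t ∈ S` is impossible (`t ≠ e` since `e` is not in the support, `t, e ∈ K'`
so `t ~ e`, against `heS`). So `t ∈ P`, `t ∈ K`. `D_fact`: dual: `d ∈ T' ∈ v.1`, `T = T' ∩ P`;
`p ∈ K ∈ v.2`, `t ∈ T' ∩ K`, `t ~ p`; not in `S`; not in `C` since `t, d ∈ T'`, `d` complete to `C`.
-/

set_option autoImplicit false
set_option linter.unusedSectionVars false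

open scoped Classical

namespace Pool.Agent.HNS

variable {ι : Type} [DecidableEq ι]

private theorem disj_ZO {W : Finset ι} {v : Wrd ι} : Disjoint (Zr W v ∪ ∅) (On W v ∪ ∅) := by
  rw [Finset.union_empty, Finset.union_empty, Finset.disjoint_left]
  intro i hi hj
  rw [mem_Zr] at hi
  rw [mem_On] at hj
  exact hj.2.2 hi.2.1

theorem thin_word {G : SimpleGraph ι} (h : PF G) {W A : Finset ι} (hA : A ⊆ W)
    (hc : cA G W ∅ ∅ A < 4) :
    ∃ v ∈ Wd G W, Sp W v = A ∧ (∀ v' ∈ Wd G W, Sp W v' = A → v' = v) ∧ Clq G (Zr W v) ∧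
      Stb G (On W v) := by
  obtain ⟨v, hv, hvA⟩ := exists_Sp h hA
  have hle : CC G (Zr W v ∪ ∅) (On W v ∪ ∅) ≤ cA G W ∅ ∅ A := by
    unfold cA
    exact Finset.single_le_sum (f := fun y => CC G (Zr W y ∪ ∅) (On W y ∪ ∅))
      (fun _ _ => Nat.zero_le _) (Finset.mem_filter.2 ⟨hv, hvA⟩)
  refine ⟨v, hv, hvA, ?_, ?_, ?_⟩
  · intro v' hv' hvA'
    by_contra hne
    have := cA_pair h (Finset.disjoint_empty_right W) (Finset.disjoint_empty_right W)
      (Finset.disjoint_empty_right ∅) hv' hv hne hvA' hvA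
    omega
  · intro a ha b hb hab
    by_contra hn
    have := CC_four0 h (X := Zr W v ∪ ∅) (Y := On W v ∪ ∅) disj_ZO
      (by rw [Finset.union_empty]; exact ha) (by rw [Finset.union_empty]; exact hb) hab hn
    omega
  · intro a ha b hb hn
    have := CC_four1 h (X := Zr W v ∪ ∅) (Y := On W v ∪ ∅) disj_ZO
      (by rw [Finset.union_empty]; exact ha) (by rw [Finset.union_empty]; exact hb) hn
    omega

theorem E_fact {G : SimpleGraph ι} {W P C S : Finset ι} {v : Wrd ι} (hv : v ∈ Wd G W)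
    (hA : Sp W v = P ∪ C ∪ S) (hCP : ∀ c ∈ C, ∀ p ∈ P, G.Adj c p)
    {e : ι} (he : e ∈ Zr W v) (heS : ∀ s ∈ S, ¬ G.Adj e s) :
    ∃ K ⊆ P, Clq G K ∧ (∀ p ∈ P, p ∉ K → ∃ k ∈ K, ¬ G.Adj p k) ∧ ∀ k ∈ K, G.Adj e k := by
  rw [mem_Zr] at he
  obtain ⟨heW, hek, hes⟩ := he
  obtain ⟨K', hK', heK'⟩ := hek
  have hclq := snd_clq hv hK'
  refine ⟨K' ∩ P, Finset.inter_subset_right, hclq.mono Finset.inter_subset_left, ?_, ?_⟩
  · intro p hp hpK
    have hpK' : p ∉ K' := fun hh => hpK (Finset.mem_inter.2 ⟨hh, hp⟩)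
    have hpA : p ∈ Sp W v := by
      rw [hA]
      exact Finset.mem_union_left _ (Finset.mem_union_left _ hp)
    rw [mem_Sp] at hpA
    obtain ⟨T, hT, hpT⟩ := hpA.2.1
    have hstb := fst_stb hv hT
    obtain ⟨t, htT, htK⟩ := exists_of_card (card_eq hv hT hK')
    have htA : t ∈ Sp W v := mem_Sp.2 ⟨fst_sub hv hT htT, ⟨T, hT, htT⟩, ⟨K', hK', htK⟩⟩
    have hte : t ≠ e := by
      rintro rfl
      exact hes ⟨T, hT, htT⟩
    rw [hA, Finset.mem_union, Finset.mem_union] at htA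
    rcases htA with (ht | ht) | ht
    · exact ⟨t, Finset.mem_inter.2 ⟨htK, ht⟩, hstb p hpT t htT⟩
    · exact absurd (hCP t ht p hp) (hstb t htT p hpT)
    · exact absurd (hclq e heK' t htK hte.symm) (heS t ht)
  · intro k hk
    rw [Finset.mem_inter] at hk
    refine hclq e heK' k hk.1 ?_
    rintro rfl
    have hpA : e ∈ Sp W v := by
      rw [hA]
      exact Finset.mem_union_left _ (Finset.mem_union_left _ hk.2)
    rw [mem_Sp] at hpA
    exact hes hpA.2.1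

theorem D_fact {G : SimpleGraph ι} {W P C S : Finset ι} {v : Wrd ι} (hv : v ∈ Wd G W)
    (hA : Sp W v = P ∪ C ∪ S) (hSP : ∀ s ∈ S, ∀ p ∈ P, ¬ G.Adj s p)
    {d : ι} (hd : d ∈ On W v) (hdC : ∀ c ∈ C, G.Adj d c) :
    ∃ T ⊆ P, Stb G T ∧ (∀ p ∈ P, p ∉ T → ∃ t ∈ T, G.Adj p t) ∧ ∀ t ∈ T, ¬ G.Adj d t := by
  rw [mem_On] at hd
  obtain ⟨hdW, hds, hdk⟩ := hd
  obtain ⟨T', hT', hdT'⟩ := hds
  have hstb := fst_stb hv hT'
  refine ⟨T' ∩ P, Finset.inter_subset_right, hstb.mono Finset.inter_subset_left, ?_, ?_⟩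
  · intro p hp hpT
    have hpT' : p ∉ T' := fun hh => hpT (Finset.mem_inter.2 ⟨hh, hp⟩)
    have hpA : p ∈ Sp W v := by
      rw [hA]
      exact Finset.mem_union_left _ (Finset.mem_union_left _ hp)
    rw [mem_Sp] at hpA
    obtain ⟨K, hK, hpK⟩ := hpA.2.2
    have hclq := snd_clq hv hK
    obtain ⟨t, htT, htK⟩ := exists_of_card (card_eq hv hT' hK)
    have htA : t ∈ Sp W v := mem_Sp.2 ⟨fst_sub hv hT' htT, ⟨T', hT', htT⟩, ⟨K, hK, htK⟩⟩
    have htp : p ≠ t := by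
      rintro rfl
      exact hpT' htT
    have hadj : G.Adj p t := hclq p hpK t htK htp
    rw [hA, Finset.mem_union, Finset.mem_union] at htA
    rcases htA with (ht | ht) | ht
    · exact ⟨t, Finset.mem_inter.2 ⟨htT, ht⟩, hadj⟩
    · exact absurd (hdC t ht) (hstb d hdT' t htT)
    · exact absurd hadj.symm (hSP t ht p hp)
  · intro t ht
    rw [Finset.mem_inter] at ht
    exact hstb d hdT' t ht.1

end Pool.Agent.HNS
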