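import Pool.Agent.HNS.Rpl
import Pool.Agent.HNS.Mon
import Pool.Agent.HNS.Sbs
import Pool.Agent.HNS.P4b
import Pool.Agent.HNS.C4b

/-!
# The rules of the elimination game

`Gd G R M0 M1` says that `Sg G R M0 M1` is at least `4 * 2 ^ |R|`.
-/

set_option autoImplicit false
set_option linter.unusedSectionVars false

open scoped Classical

namespace Pool.Agent.HNS

variable {ι : Type} [DecidableEq ι]

/-- the large lower bound -/
def Gd (G : SimpleGraph ι) (R M0 M1 : Finset ι) : Prop := 4 * 2 ^ R.card ≤ Sg G R M0 M1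

/-- the three sets are disjoint -/
structure Dj (R M0 M1 : Finset ι) : Prop where
  h0 : Disjoint R M0
  h1 : Disjoint R M1
  h2 : Disjoint M0 M1

theorem Dj.swap {R M0 M1 : Finset ι} (d : Dj R M0 M1) : Dj R M1 M0 := ⟨d.h1, d.h0, d.h2.symm⟩

theorem Dj.mono {R M0 M1 R' M0' M1' : Finset ι} (d : Dj R M0 M1) (h : R' ⊆ R) (h0 : M0' ⊆ M0)
    (h1 : M1' ⊆ M1) : Dj R' M0' M1' :=
  ⟨Finset.disjoint_of_subset_left h (Finset.disjoint_of_subset_right h0 d.h0),
    Finset.disjoint_of_subset_left h (Finset.disjoint_of_subset_right h1 d.h1),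
    Finset.disjoint_of_subset_left h0 (Finset.disjoint_of_subset_right h1 d.h2)⟩

section

variable {G : SimpleGraph ι} {R M0 M1 : Finset ι}

theorem gd_compl : Gd Gᶜ R M1 M0 ↔ Gd G R M0 M1 := by
  unfold Gd
  rw [Sg_compl]

theorem gd_mono (h : PF G) {M0' M1' : Finset ι} (d : Dj R M0 M1) (h0 : M0' ⊆ M0)
    (h1 : M1' ⊆ M1) (hg : Gd G R M0' M1') : Gd G R M0 M1 :=
  le_trans hg (Sg_mono h h0 h1 d.h0 d.h1 d.h2)

theorem gd_empty (h : PF G) (d : Disjoint M0 M1) : Gd G ∅ M0 M1 := by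
  unfold Gd
  rw [Finset.card_empty]
  exact Sg_empty h d

theorem DomA.mono {W W' : Finset ι} {x r : ι} (h : DomA G W x r) (hW : W' ⊆ W) :
    DomA G W' x r := ⟨h.1, fun v hv => h.2 v (hW hv)⟩

theorem DomN.mono {W W' : Finset ι} {x r : ι} (h : DomN G W x r) (hW : W' ⊆ W) :
    DomN G W' x r := ⟨h.1, h.2.1, fun v hv => h.2.2 v (hW hv)⟩

theorem gd_step {r : ι} (hr : r ∈ R) (hg : Gd G (R.erase r) M0 M1)
    (hs : 2 * Sg G (R.erase r) M0 M1 ≤ Sg G R M0 M1) : Gd G R M0 M1 := by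
  unfold Gd at hg ⊢
  refine le_trans ?_ hs
  have h1 : R.card = (R.erase r).card + 1 := by
    rw [Finset.card_erase_of_mem hr]
    have := Finset.card_pos.2 ⟨r, hr⟩
    omega
  rw [h1, pow_succ]
  omega

theorem gd_R (h : PF G) (d : Dj R M0 M1) {x r : ι} (hx : x ∈ R) (hr : r ∈ R)
    (hd : DomA G (R ∪ M0 ∪ M1) x r ∨ DomN G (R ∪ M0 ∪ M1) x r)
    (hg : Gd G (R.erase r) M0 M1) : Gd G R M0 M1 :=
  gd_step hr hg (rpl_R h d.h0 d.h1 hx hr hd)

theorem gd_M1 (h : PF G) (d : Dj R M0 M1) {x r : ι} (hx : x ∈ M1) (hr : r ∈ R)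
    (hd : DomA G (R ∪ M0 ∪ M1) x r) (hg : Gd G (R.erase r) M0 M1) : Gd G R M0 M1 :=
  gd_step hr hg (rpl_M1 h d.h0 d.h1 hx hr hd)

theorem gd_M0 (h : PF G) (d : Dj R M0 M1) {x r : ι} (hx : x ∈ M0) (hr : r ∈ R)
    (hd : DomN G (R ∪ M0 ∪ M1) x r) (hg : Gd G (R.erase r) M0 M1) : Gd G R M0 M1 :=
  gd_step hr hg (rpl_M0 h d.h0 d.h1 hx hr hd)

/-- several vertices are eliminated by remaining ones -/
theorem gd_elim (h : PF G) {R' : Finset ι} (hR : R' ⊆ R) (d : Dj R M0 M1)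
    (he : ∀ s ∈ R, s ∉ R' → ∃ x ∈ R', DomA G (R ∪ M0 ∪ M1) x s ∨ DomN G (R ∪ M0 ∪ M1) x s)
    (hg : Gd G R' M0 M1) : Gd G R M0 M1 := by
  obtain ⟨n, hn⟩ : ∃ n, (R \ R').card = n := ⟨_, rfl⟩
  induction n generalizing R with
  | zero =>
    rw [Finset.card_eq_zero, Finset.sdiff_eq_empty_iff_subset] at hn
    rwa [Finset.Subset.antisymm hn hR]
  | succ n ih =>
    obtain ⟨s, hs⟩ : (R \ R').Nonempty := Finset.card_pos.1 (by omega)
    have hs1 := (Finset.mem_sdiff.1 hs).1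
    have hs2 := (Finset.mem_sdiff.1 hs).2
    obtain ⟨x, hx, hd⟩ := he s hs1 hs2
    refine gd_R h d (hR hx) hs1 hd ?_
    refine ih (fun v hv => Finset.mem_erase.2 ⟨fun e => hs2 (e ▸ hv), hR hv⟩)
      (d.mono (Finset.erase_subset _ _) (Finset.Subset.refl _) (Finset.Subset.refl _)) ?_ ?_
    · intro s' hs' hs''
      obtain ⟨x', hx', hd'⟩ := he s' (Finset.mem_of_mem_erase hs') hs''
      have hsub : R.erase s ∪ M0 ∪ M1 ⊆ R ∪ M0 ∪ M1 :=
        Finset.union_subset_union (Finset.union_subset_union (Finset.erase_subset _ _)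
          (Finset.Subset.refl _)) (Finset.Subset.refl _)
      exact ⟨x', hx', hd'.imp (fun h => h.mono hsub) fun h => h.mono hsub⟩
    · have e1 : (R.erase s) \ R' = (R \ R').erase s := by
        ext v
        simp only [Finset.mem_sdiff, Finset.mem_erase]
        tauto
      rw [e1, Finset.card_erase_of_mem hs]
      omega

/-- every word counts four times if `M0` is not a clique -/
theorem gd_big (h : PF G) (h4 : ∀ y ∈ Wd G R, 4 ≤ CC G (Zr R y ∪ M0) (On R y ∪ M1)) :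
    Gd G R M0 M1 := by
  unfold Gd
  rw [Sg_fib, ← Finset.card_powerset, mul_comm, ← smul_eq_mul]
  exact Finset.card_nsmul_le_sum _ _ _ fun A hA =>
    cA_of_le h (Finset.mem_powerset.1 hA) fun y hy _ => h4 y hy

theorem zo_disj (d : Dj R M0 M1) (y : Wrd ι) : Disjoint (Zr R y ∪ M0) (On R y ∪ M1) := by
  rw [Finset.disjoint_left]
  intro v hv hv'
  rw [Finset.mem_union, mem_Zr] at hv
  rw [Finset.mem_union, mem_On] at hv'
  rcases hv with hv | hv <;> rcases hv' with hv' | hv'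
  · exact hv.2.2 hv'.2.1
  · exact Finset.disjoint_left.1 d.h1 hv.1 hv'
  · exact Finset.disjoint_left.1 d.h0 hv'.1 hv
  · exact Finset.disjoint_left.1 d.h2 hv hv'

theorem gd_nc (h : PF G) (d : Dj R M0 M1) (hn : ¬ Clq G M0) : Gd G R M0 M1 := by
  unfold Clq at hn
  push Not at hn
  obtain ⟨a, ha, b, hb, hab, hn⟩ := hn
  exact gd_big h fun y _ => CC_four0 h (zo_disj d y) (Finset.mem_union_right _ ha)
    (Finset.mem_union_right _ hb) hab hn

theorem gd_ns (h : PF G) (d : Dj R M0 M1) (hn : ¬ Stb G M1) : Gd G R M0 M1 := by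
  unfold Stb at hn
  push Not at hn
  obtain ⟨a, ha, b, hb, hn⟩ := hn
  exact gd_big h fun y _ => CC_four1 h (zo_disj d y) (Finset.mem_union_right _ ha)
    (Finset.mem_union_right _ hb) hn

theorem gd_single0 (h : PF G) {r m : ι} (hrm : r ≠ m) (ha : ¬ G.Adj r m) :
    Gd G {r} {m} ∅ := by
  unfold Gd
  rw [Finset.card_singleton]
  exact Sg_single0 h (Finset.disjoint_empty_right _) (by rwa [Finset.mem_singleton])
    (Finset.notMem_empty _) (Finset.mem_singleton_self _) ha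

theorem gd_p4 (h : PF G) {x r s t : ι} (h1 : G.Adj x r) (h2 : G.Adj r s)
    (h3 : G.Adj s t) (h4 : ¬ G.Adj x s) (h5 : ¬ G.Adj x t) (h6 : ¬ G.Adj r t)
    (h7 : x ≠ t) (hR : R = {x, r, s, t}) : Gd G R ∅ ∅ := by
  have h8 : x ≠ s := fun e => h5 (e ▸ h3)
  have h9 : r ≠ t := fun e => h5 (e ▸ h1)
  have hc : ({x, r, s, t} : Finset ι).card = 4 := by
    rw [Finset.card_insert_of_notMem, Finset.card_insert_of_notMem,
      Finset.card_insert_of_notMem, Finset.card_singleton]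
    · simpa using h3.ne
    · simpa using ⟨h2.ne, h9⟩
    · simpa using ⟨h1.ne, h8, h7⟩
  unfold Gd
  rw [hR, hc]
  exact p4 h h1 h2 h3 h4 h5 h6

theorem gd_c4 (h : PF G) {o z o' m : ι} (h1 : G.Adj o z) (h2 : G.Adj o' z)
    (h3 : G.Adj o m) (h4 : G.Adj o' m) (h5 : ¬ G.Adj o o') (h6 : ¬ G.Adj z m) (h7 : o ≠ o')
    (h8 : z ≠ m) : Gd G {o, z, o'} ∅ {m} := by
  have hc : ({o, z, o'} : Finset ι).card = 3 := by
    rw [Finset.card_insert_of_notMem, Finset.card_insert_of_notMem, Finset.card_singleton]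
    · simpa using h2.ne'
    · simpa using ⟨h1.ne, h7⟩
  unfold Gd
  rw [hc]
  exact c4 h h1 h2 h3 h4 h5 h6 h7 h8

/-- `2 K_2` with one vertex in `M0` -/
theorem gd_2k2 (h : PF G) {o z o' m : ι} (h1 : ¬ G.Adj o z) (h2 : ¬ G.Adj o' z)
    (h3 : ¬ G.Adj o m) (h4 : ¬ G.Adj o' m) (h5 : G.Adj o o') (h6 : G.Adj z m)
    (h7 : o ≠ z) (h8 : o' ≠ z) (h9 : o ≠ m) (h10 : o' ≠ m) : Gd G {o, z, o'} {m} ∅ := by
  rw [← gd_compl]
  refine gd_c4 h.compl ?_ ?_ ?_ ?_ ?_ ?_ h5.ne h6.ne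
  · exact ⟨h7, h1⟩
  · exact ⟨h8, h2⟩
  · exact ⟨h9, h3⟩
  · exact ⟨h10, h4⟩
  · exact fun hh => hh.2 h5
  · exact fun hh => hh.2 h6

/-- the 4-cycle `a - b - c - e` inside `R` -/
theorem gd_c4R (h : PF G) {a b c e : ι} (h1 : G.Adj a b) (h2 : G.Adj b c) (h3 : G.Adj c e)
    (h4 : G.Adj e a) (h5 : ¬ G.Adj a c) (h6 : ¬ G.Adj b e) (h7 : a ≠ c) (h8 : b ≠ e)
    (hR : R = {a, b, c, e}) : Gd G R ∅ ∅ := by
  have hc : R.card = 4 := by
    rw [hR, Finset.card_insert_of_notMem, Finset.card_insert_of_notMem,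
      Finset.card_insert_of_notMem, Finset.card_singleton]
    · simpa using h3.ne
    · simpa using ⟨h2.ne, h8⟩
    · simpa using ⟨h1.ne, h7, h4.ne'⟩
  have he : R.erase e = {a, b, c} := by
    rw [hR]
    ext v
    simp only [Finset.mem_erase, Finset.mem_insert, Finset.mem_singleton]
    constructor
    · rintro ⟨q, q1⟩
      tauto
    · rintro (q | q | q)
      · exact ⟨q ▸ h4.ne', Or.inl q⟩
      · exact ⟨q ▸ h8, Or.inr (Or.inl q)⟩
      · exact ⟨q ▸ h3.ne, Or.inr (Or.inr (Or.inl q))⟩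
  have hd : DomN G R b e := by
    refine ⟨h8, h6, fun v hv hev => ?_⟩
    rw [hR] at hv
    simp only [Finset.mem_insert, Finset.mem_singleton] at hv
    rcases hv with rfl | rfl | rfl | rfl
    · exact h1.symm
    · exact absurd hev.symm h6
    · exact h2
    · exact absurd hev (G.loopless.irrefl _)
  have hbR : b ∈ R := by rw [hR]; simp
  have heR : e ∈ R := by rw [hR]; simp
  have h10 := rpl_halfN h hbR heR hd
  rw [he] at h10
  have h11 := gd_c4 h h1 h2.symm h4.symm h3 h5 h6 h7 h8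
  unfold Gd at h11 ⊢
  have hc3 : ({a, b, c} : Finset ι).card = 3 := by
    rw [← he, Finset.card_erase_of_mem heR, hc]
  rw [hc3] at h11
  rw [hc]
  omega

end

end Pool.Agent.HNS
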