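import Pool.Agent.HNS.Twa

/-!
# Compatible split partitions
-/

set_option autoImplicit false
set_option linter.unusedSectionVars false

open scoped Classical

namespace Pool.Agent.HNS

variable {ι : Type} [DecidableEq ι]

variable {G : SimpleGraph ι}

/-- a split partition `(A ∪ M0, B ∪ M1)` of all vertices such that every vertex of the clique part
`A` has a neighbour on the other side, and every vertex of the stable part `B` has a nonneighbour
on the other side -/
theorem gd_cs (h : PF G) {M0 M1 : Finset ι} : ∀ (n : ℕ) (A B : Finset ι), (A ∪ B).card = n →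
    Disjoint A B → Dj (A ∪ B) M0 M1 → Clq G (A ∪ M0) → Stb G (B ∪ M1) →
    (∀ a ∈ A, ∃ b ∈ B ∪ M1, G.Adj a b) → (∀ b ∈ B, ∃ a ∈ A ∪ M0, ¬ G.Adj b a) →
    Gd G (A ∪ B) M0 M1 := by
  intro n
  induction n with
  | zero =>
    intro A B hn _ d _ _ _ _
    rw [Finset.card_eq_zero] at hn
    rw [hn] at d ⊢
    exact gd_empty h d.h2
  | succ n ih =>
    intro A B hn hAB d hc hs hA hB
    have hAM : ∀ a ∈ A, a ∉ M0 ∧ a ∉ M1 ∧ a ∉ B := fun a ha =>
      ⟨Finset.disjoint_left.1 d.h0 (Finset.mem_union_left _ ha),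
        Finset.disjoint_left.1 d.h1 (Finset.mem_union_left _ ha), Finset.disjoint_left.1 hAB ha⟩
    have hBM : ∀ b ∈ B, b ∉ M0 ∧ b ∉ M1 ∧ b ∉ A := fun b hb =>
      ⟨Finset.disjoint_left.1 d.h0 (Finset.mem_union_right _ hb),
        Finset.disjoint_left.1 d.h1 (Finset.mem_union_right _ hb),
        fun h' => Finset.disjoint_left.1 hAB h' hb⟩
    have hMM : ∀ m ∈ M0, m ∉ M1 := fun m hm => Finset.disjoint_left.1 d.h2 hm
    by_cases h1 : ∃ r ∈ A, ∀ b ∈ B, ∃ a ∈ A ∪ M0, a ≠ r ∧ ¬ G.Adj b a
    · obtain ⟨r, hr, h1⟩ := h1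
      have he : (A ∪ B).erase r = A.erase r ∪ B := by
        ext v
        simp only [Finset.mem_erase, Finset.mem_union]
        constructor
        · rintro ⟨h2, h3 | h3⟩
          · exact Or.inl ⟨h2, h3⟩
          · exact Or.inr h3
        · rintro (⟨h2, h3⟩ | h3)
          · exact ⟨h2, Or.inl h3⟩
          · exact ⟨fun e => (hAM r hr).2.2 (e ▸ h3), Or.inr h3⟩
      have hrR : r ∈ A ∪ B := Finset.mem_union_left _ hr
      have hg : Gd G ((A ∪ B).erase r) M0 M1 := by
        have hcard : (A.erase r ∪ B).card = n := by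
          rw [← he, Finset.card_erase_of_mem hrR, hn]
          rfl
        rw [he]
        refine ih _ _ hcard (Finset.disjoint_of_subset_left (Finset.erase_subset _ _) hAB)
          (d.mono (Finset.union_subset_union (Finset.erase_subset _ _) (Finset.Subset.refl _))
            (Finset.Subset.refl _) (Finset.Subset.refl _))
          (hc.mono (Finset.union_subset_union (Finset.erase_subset _ _) (Finset.Subset.refl _)))
          hs (fun a ha => hA a (Finset.mem_of_mem_erase ha)) ?_
        intro b hb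
        obtain ⟨a, ha, h2, h3⟩ := h1 b hb
        refine ⟨a, ?_, h3⟩
        rw [Finset.mem_union] at ha ⊢
        exact ha.imp (fun h' => Finset.mem_erase.2 ⟨h2, h'⟩) id
      obtain ⟨o, ho, hro⟩ := hA r hr
      have hd : DomA G (A ∪ B ∪ M0 ∪ M1) o r := by
        refine ⟨hro.symm, fun v hv hov => ?_⟩
        have hvA : v ∈ A ∪ M0 := by
          by_contra hv'
          rw [Finset.mem_union, Finset.mem_union, Finset.mem_union] at hv
          rw [Finset.mem_union] at hv'
          have hv2 : v ∈ B ∪ M1 := by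
            rw [Finset.mem_union]
            tauto
          exact hs o ho v hv2 hov
        by_cases hvr : v = r
        · exact Or.inl hvr
        · exact Or.inr (hc r (Finset.mem_union_left _ hr) v hvA (Ne.symm hvr))
      rcases Finset.mem_union.1 ho with ho | ho
      · exact gd_R h d (Finset.mem_union_right _ ho) hrR (Or.inl hd) hg
      · exact gd_M1 h d ho hrR hd hg
    by_cases h2 : ∃ r ∈ B, ∀ a ∈ A, ∃ b ∈ B ∪ M1, b ≠ r ∧ G.Adj a b
    · obtain ⟨r, hr, h1⟩ := h2
      have he : (A ∪ B).erase r = A ∪ B.erase r := by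
        ext v
        simp only [Finset.mem_erase, Finset.mem_union]
        constructor
        · rintro ⟨h2, h3 | h3⟩
          · exact Or.inl h3
          · exact Or.inr ⟨h2, h3⟩
        · rintro (h3 | ⟨h2, h3⟩)
          · exact ⟨fun e => (hBM r hr).2.2 (e ▸ h3), Or.inl h3⟩
          · exact ⟨h2, Or.inr h3⟩
      have hrR : r ∈ A ∪ B := Finset.mem_union_right _ hr
      have hg : Gd G ((A ∪ B).erase r) M0 M1 := by
        have hcard : (A ∪ B.erase r).card = n := by
          rw [← he, Finset.card_erase_of_mem hrR, hn]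
          rfl
        rw [he]
        refine ih _ _ hcard (Finset.disjoint_of_subset_right (Finset.erase_subset _ _) hAB)
          (d.mono (Finset.union_subset_union (Finset.Subset.refl _) (Finset.erase_subset _ _))
            (Finset.Subset.refl _) (Finset.Subset.refl _)) hc
          (hs.mono (Finset.union_subset_union (Finset.erase_subset _ _) (Finset.Subset.refl _)))
          ?_ (fun a ha => hB a (Finset.mem_of_mem_erase ha))
        intro b hb
        obtain ⟨a, ha, h2, h3⟩ := h1 b hb
        refine ⟨a, ?_, h3⟩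
        rw [Finset.mem_union] at ha ⊢
        exact ha.imp (fun h' => Finset.mem_erase.2 ⟨h2, h'⟩) id
      obtain ⟨z, hz, hrz⟩ := hB r hr
      have hzr : z ≠ r := by
        rintro rfl
        rcases Finset.mem_union.1 hz with hz | hz
        · exact (hBM _ hr).2.2 hz
        · exact (hBM _ hr).1 hz
      have hd : DomN G (A ∪ B ∪ M0 ∪ M1) z r := by
        refine ⟨hzr, fun h' => hrz h'.symm, fun v hv hrv => ?_⟩
        have hvA : v ∈ A ∪ M0 := by
          by_contra hv'
          rw [Finset.mem_union, Finset.mem_union, Finset.mem_union] at hv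
          rw [Finset.mem_union] at hv'
          have hv2 : v ∈ B ∪ M1 := by
            rw [Finset.mem_union]
            tauto
          exact hs r (Finset.mem_union_left _ hr) v hv2 hrv
        exact hc z hz v hvA fun e => hrz (e ▸ hrv)
      rcases Finset.mem_union.1 hz with hz | hz
      · exact gd_R h d (Finset.mem_union_left _ hz) hrR (Or.inr hd) hg
      · exact gd_M0 h d hz hrR hd hg
    push Not at h1 h2
    -- every vertex is the unique eliminator of another one
    have f1 : ∀ r ∈ A, ∃ b ∈ B, ¬ G.Adj b r ∧ ∀ a ∈ A, a ≠ r → G.Adj b a := by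
      intro r hr
      obtain ⟨b, hb, h3⟩ := h1 r hr
      refine ⟨b, hb, ?_, fun a ha har => h3 a (Finset.mem_union_left _ ha) har⟩
      obtain ⟨a, ha, h4⟩ := hB b hb
      by_cases har : a = r
      · rwa [← har]
      · exact absurd (h3 a ha har) h4
    have f2 : ∀ r ∈ B, ∃ a ∈ A, G.Adj a r ∧ ∀ b ∈ B, b ≠ r → ¬ G.Adj a b := by
      intro r hr
      obtain ⟨a, ha, h3⟩ := h2 r hr
      refine ⟨a, ha, ?_, fun b hb hbr => h3 b (Finset.mem_union_left _ hb) hbr⟩
      obtain ⟨b, hb, h4⟩ := hA a ha
      by_cases hbr : b = r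
      · rwa [← hbr]
      · exact absurd h4 (h3 b hb hbr)
    have hne : ∃ z1, z1 ∈ A := by
      obtain ⟨r, hr⟩ : (A ∪ B).Nonempty := Finset.card_pos.1 (by omega)
      rcases Finset.mem_union.1 hr with hr | hr
      · exact ⟨r, hr⟩
      · obtain ⟨a, ha, -⟩ := f2 r hr
        exact ⟨a, ha⟩
    obtain ⟨z1, hz1⟩ := hne
    obtain ⟨o1, ho1, hn1, hf1⟩ := f1 z1 hz1
    obtain ⟨z2, hz2, ha2, hg2⟩ := f2 o1 ho1
    have h12 : z2 ≠ z1 := fun e => hn1 (e ▸ ha2.symm)
    obtain ⟨o2, ho2, hn2, hf2⟩ := f1 z2 hz2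
    have h21 : o2 ≠ o1 := fun e => hn2 (e ▸ ha2.symm)
    have hA2 : ∀ a ∈ A, a = z1 ∨ a = z2 := by
      intro a ha
      by_contra hcon
      push Not at hcon
      obtain ⟨o3, ho3, hn3, hf3⟩ := f1 a ha
      have h3 : G.Adj o3 z2 := hf3 z2 hz2 (Ne.symm hcon.2)
      have h4 : o3 = o1 := by
        by_contra h5
        exact hg2 o3 ho3 h5 h3.symm
      rw [h4] at hf3
      exact hn1 (hf3 z1 hz1 (Ne.symm hcon.1))
    have hB2 : ∀ b ∈ B, b = o1 ∨ b = o2 := by
      intro b hb
      by_contra hcon
      push Not at hcon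
      obtain ⟨z3, hz3, ha3, hg3⟩ := f2 b hb
      rcases hA2 z3 hz3 with rfl | rfl
      · exact hg3 o2 ho2 (Ne.symm hcon.2) (hf2 z3 hz1 (Ne.symm h12)).symm
      · exact hg3 o1 ho1 (Ne.symm hcon.1) ha2
    have hR : A ∪ B = {o2, z1, z2, o1} := by
      ext v
      simp only [Finset.mem_union, Finset.mem_insert, Finset.mem_singleton]
      constructor
      · rintro (hv | hv)
        · rcases hA2 v hv with h3 | h3
          · exact Or.inr (Or.inl h3)
          · exact Or.inr (Or.inr (Or.inl h3))
        · rcases hB2 v hv with h3 | h3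
          · exact Or.inr (Or.inr (Or.inr h3))
          · exact Or.inl h3
      · rintro (h3 | h3 | h3 | h3)
        · exact Or.inr (h3 ▸ ho2)
        · exact Or.inl (h3 ▸ hz1)
        · exact Or.inl (h3 ▸ hz2)
        · exact Or.inr (h3 ▸ ho1)
    refine gd_mono h d (Finset.empty_subset _) (Finset.empty_subset _)
      (gd_p4 h (hf2 z1 hz1 (Ne.symm h12)) ?_ ha2 (fun h' => hn2 h') ?_ (fun h' => hn1 h'.symm) h21 hR)
    · exact hc z1 (Finset.mem_union_left _ hz1) z2 (Finset.mem_union_left _ hz2) (Ne.symm h12)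
    · exact hs o2 (Finset.mem_union_left _ ho2) o1 (Finset.mem_union_left _ ho1)

end Pool.Agent.HNS
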