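import Pool.Agent.HNS.Twb

/-!
# Split graphs
-/

set_option autoImplicit false
set_option linter.unusedSectionVars false

open scoped Classical

namespace Pool.Agent.HNS

variable {ι : Type} [DecidableEq ι]

variable {G : SimpleGraph ι}

/-- a split graph with a swing vertex `r` and a vertex `m` of `M0` which is not adjacent to a vertex
`c` of the clique part -/
theorem gd_sw (h : PF G) {Z O : Finset ι} {r c m : ι} (hrZ : r ∉ Z) (hrO : r ∉ O)
    (hZO : Disjoint Z O) (hcl : Clq G (insert r Z)) (hst : Stb G (insert r O))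
    (hmZ : m ∉ Z) (hmO : m ∉ O) (hmr : m ≠ r) (hc : c ∈ Z) (hcm : ¬ G.Adj c m) :
    Gd G (insert r (Z ∪ O)) {m} ∅ := by
  have hcr : c ≠ r := fun e => hrZ (e ▸ hc)
  have hcm' : c ≠ m := fun e => hmZ (e ▸ hc)
  have hcrA : G.Adj c r := hcl c (Finset.mem_insert_of_mem hc) r (Finset.mem_insert_self _ _) hcr
  have hZZ : ∀ z ∈ Z, ∀ z' ∈ Z, z ≠ z' → G.Adj z z' := fun z hz z' hz' =>
    hcl z (Finset.mem_insert_of_mem hz) z' (Finset.mem_insert_of_mem hz')
  have hrz : ∀ z ∈ Z, G.Adj r z := fun z hz =>
    hcl r (Finset.mem_insert_self _ _) z (Finset.mem_insert_of_mem hz) fun e => hrZ (e ▸ hz)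
  have hro : ∀ o ∈ O, ¬ G.Adj r o := fun o ho =>
    hst r (Finset.mem_insert_self _ _) o (Finset.mem_insert_of_mem ho)
  have hor : ∀ o ∈ O, ¬ G.Adj o r := fun o ho hh => hro o ho hh.symm
  have hoo : ∀ o ∈ O, ∀ o' ∈ O, ¬ G.Adj o o' := fun o ho o' ho' =>
    hst o (Finset.mem_insert_of_mem ho) o' (Finset.mem_insert_of_mem ho')
  have hsingle : Gd G {c} {m} ∅ := gd_single0 h hcm' hcm
  have dj : ∀ R' : Finset ι, R' ⊆ insert r (Z ∪ O) → Dj R' {m} ∅ := by
    intro R' hR'
    refine ⟨?_, Finset.disjoint_empty_right _, Finset.disjoint_empty_right _⟩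
    rw [Finset.disjoint_singleton_right]
    intro hm
    have := hR' hm
    rw [Finset.mem_insert, Finset.mem_union] at this
    rcases this with h' | h' | h'
    · exact hmr h'
    · exact hmZ h'
    · exact hmO h'
  set A := O.filter fun o => G.Adj o m with hAdef
  have hAO : ∀ a ∈ A, a ∈ O ∧ G.Adj a m := fun a ha => by
    rw [hAdef, Finset.mem_filter] at ha
    exact ha
  have hsub1 : insert r (Z ∪ A) ⊆ insert r (Z ∪ O) :=
    Finset.insert_subset_insert _ (Finset.union_subset_union (Finset.Subset.refl _)
      (Finset.filter_subset _ _))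
  refine gd_elim h hsub1 (dj _ (Finset.Subset.refl _)) ?_ ?_
  · intro s hs hs'
    have hsO : s ∈ O ∧ ¬ G.Adj s m := by
      simp only [Finset.mem_insert, Finset.mem_union, hAdef, Finset.mem_filter, not_or,
        not_and] at hs hs'
      rcases hs with hs | hs | hs
      · exact absurd hs hs'.1
      · exact absurd hs hs'.2.1
      · exact ⟨hs, hs'.2.2 hs⟩
    refine ⟨r, Finset.mem_insert_self _ _, Or.inr ⟨fun e => hrO (e ▸ hsO.1), hro s hsO.1, ?_⟩⟩
    intro v hv hsv
    simp only [Finset.mem_insert, Finset.mem_union, Finset.mem_singleton, Finset.notMem_empty,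
      or_false] at hv
    rcases hv with (rfl | hv | hv) | rfl
    · exact absurd hsv (hor s hsO.1)
    · exact hrz v hv
    · exact absurd hsv (hoo s hsO.1 v hv)
    · exact absurd hsv hsO.2
  by_cases hm : G.Adj r m
  · -- the swing vertex is adjacent to `m`
    have hsub2 : insert r Z ⊆ insert r (Z ∪ A) :=
      Finset.insert_subset_insert _ Finset.subset_union_left
    refine gd_elim h hsub2 (dj _ hsub1) ?_ ?_
    · intro s hs hs'
      have hsA : s ∈ A := by
        simp only [Finset.mem_insert, Finset.mem_union, not_or] at hs hs'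
        rcases hs with hs | hs | hs
        · exact absurd hs hs'.1
        · exact absurd hs hs'.2
        · exact hs
      obtain ⟨hsO, hsm⟩ := hAO s hsA
      refine ⟨r, Finset.mem_insert_self _ _, Or.inr ⟨fun e => hrO (e ▸ hsO), hro s hsO, ?_⟩⟩
      intro v hv hsv
      simp only [Finset.mem_insert, Finset.mem_union, Finset.mem_singleton, Finset.notMem_empty,
        or_false] at hv
      rcases hv with (rfl | hv | hv) | rfl
      · exact absurd hsv (hor s hsO)
      · exact hrz v hv
      · exact absurd hsv (hoo s hsO v (hAO v hv).1)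
      · exact hm
    · refine gd_elim (R' := {c}) h ?_ (dj _ (hsub2.trans hsub1)) ?_ hsingle
      · rw [Finset.singleton_subset_iff]
        exact Finset.mem_insert_of_mem hc
      · intro s hs hs'
        rw [Finset.mem_singleton] at hs'
        refine ⟨c, Finset.mem_singleton_self _, Or.inl
          ⟨hcl c (Finset.mem_insert_of_mem hc) s hs (Ne.symm hs'), ?_⟩⟩
        intro v hv hcv
        by_cases hvs : v = s
        · exact Or.inl hvs
        rw [Finset.union_empty, Finset.mem_union, Finset.mem_singleton] at hv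
        rcases hv with hv | rfl
        · exact Or.inr (hcl s hs v hv (Ne.symm hvs))
        · exact absurd hcv hcm
  · -- the swing vertex is not adjacent to `m`
    have hsub2 : insert r (insert c A) ⊆ insert r (Z ∪ A) := by
      refine Finset.insert_subset_insert _ (Finset.insert_subset ?_ Finset.subset_union_right)
      exact Finset.mem_union_left _ hc
    refine gd_elim h hsub2 (dj _ hsub1) ?_ ?_
    · intro s hs hs'
      have hsZ : s ∈ Z := by
        simp only [Finset.mem_insert, Finset.mem_union, not_or] at hs hs'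
        rcases hs with hs | hs | hs
        · exact absurd hs hs'.1
        · exact hs
        · exact absurd hs hs'.2.2
      refine ⟨r, Finset.mem_insert_self _ _, Or.inl ⟨hrz s hsZ, ?_⟩⟩
      intro v hv hrv
      simp only [Finset.mem_insert, Finset.mem_union, Finset.mem_singleton, Finset.notMem_empty,
        or_false] at hv
      by_cases hvs : v = s
      · exact Or.inl hvs
      rcases hv with (rfl | hv | hv) | rfl
      · exact absurd hrv (G.loopless.irrefl _)
      · exact Or.inr (hZZ s hsZ v hv (Ne.symm hvs))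
      · exact absurd hrv (hro v (hAO v hv).1)
      · exact absurd hrv hm
    have dj2 : ∀ R' : Finset ι, R' ⊆ insert r (insert c A) → Dj R' {m} ∅ := fun R' hR' =>
      dj R' (hR'.trans (hsub2.trans hsub1))
    have hcR : c ∈ insert r (insert c A) :=
      Finset.mem_insert_of_mem (Finset.mem_insert_self _ _)
    by_cases hA : ∃ a ∈ A, G.Adj a c
    · obtain ⟨a, haA, hac⟩ := hA
      obtain ⟨haO, ham⟩ := hAO a haA
      have har : a ≠ r := fun e => hrO (e ▸ haO)
      have hsub3 : ({c, r, a} : Finset ι) ⊆ insert r (insert c A) := by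
        intro v hv
        simp only [Finset.mem_insert, Finset.mem_singleton] at hv ⊢
        rcases hv with rfl | rfl | rfl
        · exact Or.inr (Or.inl rfl)
        · exact Or.inl rfl
        · exact Or.inr (Or.inr haA)
      refine gd_elim h hsub3 (dj2 _ (Finset.Subset.refl _)) ?_ ?_
      · intro s hs hs'
        simp only [Finset.mem_insert, Finset.mem_singleton, not_or] at hs hs'
        have hsA : s ∈ A := by
          rcases hs with hs | hs | hs
          · exact absurd hs hs'.2.1
          · exact absurd hs hs'.1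
          · exact hs
        obtain ⟨hsO, hsm⟩ := hAO s hsA
        refine ⟨a, by simp, Or.inr ⟨Ne.symm hs'.2.2, hoo a haO s hsO, ?_⟩⟩
        intro v hv hsv
        simp only [Finset.mem_insert, Finset.mem_union, Finset.mem_singleton, Finset.notMem_empty,
          or_false] at hv
        rcases hv with (rfl | rfl | hv) | rfl
        · exact absurd hsv (hor s hsO)
        · exact hac
        · exact absurd hsv (hoo s hsO v (hAO v hv).1)
        · exact ham
      have hsub4 : ({c, a} : Finset ι) ⊆ {c, r, a} := by
        intro v hv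
        simp only [Finset.mem_insert, Finset.mem_singleton] at hv ⊢
        exact hv.imp_right Or.inr
      refine gd_elim h hsub4 (dj2 _ hsub3) ?_ ?_
      · intro s hs hs'
        simp only [Finset.mem_insert, Finset.mem_singleton, not_or] at hs hs'
        have hsr : s = r := by
          rcases hs with hs | hs | hs
          · exact absurd hs hs'.1
          · exact hs
          · exact absurd hs hs'.2
        subst hsr
        refine ⟨a, by simp, Or.inr ⟨har, hor a haO, ?_⟩⟩
        intro v hv hsv
        simp only [Finset.mem_insert, Finset.mem_union, Finset.mem_singleton, Finset.notMem_empty,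
          or_false] at hv
        rcases hv with (rfl | rfl | rfl) | rfl
        · exact hac
        · exact absurd hsv (G.loopless.irrefl _)
        · exact absurd hsv (hro v haO)
        · exact absurd hsv hm
      · refine gd_elim (R' := {c}) h (by simp) (dj2 _ (hsub4.trans hsub3)) ?_ hsingle
        intro s hs hs'
        simp only [Finset.mem_insert, Finset.mem_singleton] at hs hs'
        have hsa : s = a := hs.resolve_left hs'
        subst hsa
        refine ⟨c, by simp, Or.inl ⟨hac.symm, ?_⟩⟩
        intro v hv hcv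
        simp only [Finset.mem_insert, Finset.mem_union, Finset.mem_singleton, Finset.notMem_empty,
          or_false] at hv
        rcases hv with (rfl | rfl) | rfl
        · exact absurd hcv (G.loopless.irrefl _)
        · exact Or.inl rfl
        · exact absurd hcv hcm
    · push Not at hA
      rcases A.eq_empty_or_nonempty with hAe | ⟨a, haA⟩
      · refine gd_elim (R' := {c}) h (by simp) (dj2 _ (Finset.Subset.refl _)) ?_ hsingle
        intro s hs hs'
        rw [hAe] at hs ⊢
        simp only [Finset.mem_insert, Finset.mem_singleton, Finset.notMem_empty, or_false] at hs hs'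
        have hsr : s = r := hs.resolve_right hs'
        subst hsr
        refine ⟨c, by simp, Or.inl ⟨hcrA, ?_⟩⟩
        intro v hv hcv
        simp only [Finset.mem_insert, Finset.mem_union, Finset.mem_singleton, Finset.notMem_empty,
          or_false] at hv
        rcases hv with (rfl | rfl) | rfl
        · exact Or.inl rfl
        · exact absurd hcv (G.loopless.irrefl _)
        · exact absurd hcv hcm
      · obtain ⟨haO, ham⟩ := hAO a haA
        have hsub3 : ({c, a, r} : Finset ι) ⊆ insert r (insert c A) := by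
          intro v hv
          simp only [Finset.mem_insert, Finset.mem_singleton] at hv ⊢
          rcases hv with rfl | rfl | rfl
          · exact Or.inr (Or.inl rfl)
          · exact Or.inr (Or.inr haA)
          · exact Or.inl rfl
        refine gd_elim h hsub3 (dj2 _ (Finset.Subset.refl _)) ?_ ?_
        · intro s hs hs'
          simp only [Finset.mem_insert, Finset.mem_singleton, not_or] at hs hs'
          have hsA : s ∈ A := by
            rcases hs with hs | hs | hs
            · exact absurd hs hs'.2.2
            · exact absurd hs hs'.1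
            · exact hs
          obtain ⟨hsO, hsm⟩ := hAO s hsA
          refine ⟨a, by simp, Or.inr ⟨Ne.symm hs'.2.1, hoo a haO s hsO, ?_⟩⟩
          intro v hv hsv
          simp only [Finset.mem_insert, Finset.mem_union, Finset.mem_singleton,
            Finset.notMem_empty, or_false] at hv
          rcases hv with (rfl | rfl | hv) | rfl
          · exact absurd hsv (hor s hsO)
          · exact absurd hsv (hA s hsA)
          · exact absurd hsv (hoo s hsO v (hAO v hv).1)
          · exact ham
        · refine gd_2k2 h (fun hh => hA a haA hh.symm) (hro a haO) hcm hm hcrA ham ?_ ?_ hcm'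
            (Ne.symm hmr)
          · rintro rfl
            exact Finset.disjoint_left.1 hZO hc haO
          · rintro rfl
            exact hrO haO

/-- a compatible split partition and no comparable pair in `R` -/
theorem gd_cs_anti (h : PF G) {A B M0 M1 : Finset ι} (hAB : Disjoint A B)
    (d : Dj (A ∪ B) M0 M1) (hc : Clq G (A ∪ M0)) (hs : Stb G (B ∪ M1))
    (ha : Anti G (A ∪ B) (A ∪ B ∪ M0 ∪ M1)) (h2 : 2 ≤ (A ∪ B).card) :
    Gd G (A ∪ B) M0 M1 := by
  have hside : ∀ v ∈ A ∪ B ∪ M0 ∪ M1, v ∈ A ∪ M0 ∨ v ∈ B ∪ M1 := by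
    intro v hv
    simp only [Finset.mem_union] at hv ⊢
    rcases hv with ((hv | hv) | hv) | hv
    · exact Or.inl (Or.inl hv)
    · exact Or.inr (Or.inl hv)
    · exact Or.inl (Or.inr hv)
    · exact Or.inr (Or.inr hv)
  have hoth : ∀ a ∈ A ∪ B, ∃ x ∈ A ∪ B, x ≠ a := by
    intro a ha'
    exact Finset.exists_mem_ne (by omega) a
  refine gd_cs h _ A B rfl hAB d hc hs ?_ ?_
  · intro a haA
    by_contra hcon
    push Not at hcon
    have haR : a ∈ A ∪ B := Finset.mem_union_left _ haA
    obtain ⟨x, hx, hxa⟩ := hoth a haR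
    have h3 := ha a haR x hx
    rcases Finset.mem_union.1 hx with hxA | hxB
    · refine h3.1 ⟨hc a (Finset.mem_union_left _ haA) x (Finset.mem_union_left _ hxA)
        (Ne.symm hxa), fun v hv hav => ?_⟩
      rcases hside v hv with hv' | hv'
      · by_cases hvx : v = x
        · exact Or.inl hvx
        · exact Or.inr (hc x (Finset.mem_union_left _ hxA) v hv' (Ne.symm hvx))
      · exact absurd hav (hcon v hv')
    · refine h3.2 ⟨Ne.symm hxa, hcon x (Finset.mem_union_left _ hxB), fun v hv hxv => ?_⟩
      rcases hside v hv with hv' | hv'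
      · refine hc a (Finset.mem_union_left _ haA) v hv' ?_
        rintro rfl
        exact hcon x (Finset.mem_union_left _ hxB) hxv.symm
      · exact absurd hxv (hs x (Finset.mem_union_left _ hxB) v hv')
  · intro b hbB
    by_contra hcon
    push Not at hcon
    have hbR : b ∈ A ∪ B := Finset.mem_union_right _ hbB
    obtain ⟨x, hx, hxb⟩ := hoth b hbR
    have h3 := ha b hbR x hx
    rcases Finset.mem_union.1 hx with hxA | hxB
    · refine h3.1 ⟨hcon x (Finset.mem_union_left _ hxA), fun v hv hbv => ?_⟩
      rcases hside v hv with hv' | hv'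
      · by_cases hvx : v = x
        · exact Or.inl hvx
        · exact Or.inr (hc x (Finset.mem_union_left _ hxA) v hv' (Ne.symm hvx))
      · exact absurd hbv (hs b (Finset.mem_union_left _ hbB) v hv')
    · refine h3.2 ⟨Ne.symm hxb, hs b (Finset.mem_union_left _ hbB) x
        (Finset.mem_union_left _ hxB), fun v hv hxv => ?_⟩
      rcases hside v hv with hv' | hv'
      · exact hcon v hv'
      · exact absurd hxv (hs x (Finset.mem_union_left _ hxB) v hv')

/-- the case of a swing vertex `r` -/
theorem gd_swing (h : PF G) {Z O M0 M1 : Finset ι} {r : ι} (hrZ : r ∉ Z) (hrO : r ∉ O)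
    (hZO : Disjoint Z O) (hcl : Clq G (insert r Z)) (hst : Stb G (insert r O))
    (d : Dj (insert r (Z ∪ O)) M0 M1)
    (ha : Anti G (insert r (Z ∪ O)) (insert r (Z ∪ O) ∪ M0 ∪ M1))
    (h2 : 2 ≤ (insert r (Z ∪ O)).card) : Gd G (insert r (Z ∪ O)) M0 M1 := by
  by_cases hM0 : Clq G M0
  swap
  · exact gd_nc h d hM0
  by_cases hM1 : Stb G M1
  swap
  · exact gd_ns h d hM1
  have hm0 : ∀ m ∈ M0, m ∉ Z ∧ m ∉ O ∧ m ≠ r := by
    intro m hm
    have := Finset.disjoint_right.1 d.h0 hm
    rw [Finset.mem_insert, Finset.mem_union, not_or, not_or] at this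
    exact ⟨this.2.1, this.2.2, this.1⟩
  have hm1 : ∀ m ∈ M1, m ∉ Z ∧ m ∉ O ∧ m ≠ r := by
    intro m hm
    have := Finset.disjoint_right.1 d.h1 hm
    rw [Finset.mem_insert, Finset.mem_union, not_or, not_or] at this
    exact ⟨this.2.1, this.2.2, this.1⟩
  by_cases e1 : ∃ m ∈ M0, ∃ c ∈ Z, ¬ G.Adj c m
  · obtain ⟨m, hm, c, hc, hcm⟩ := e1
    exact gd_mono h d (by rwa [Finset.singleton_subset_iff]) (Finset.empty_subset _)
      (gd_sw h hrZ hrO hZO hcl hst (hm0 m hm).1 (hm0 m hm).2.1 (hm0 m hm).2.2 hc hcm)
  by_cases e2 : ∃ m ∈ M1, ∃ s ∈ O, G.Adj s m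
  · obtain ⟨m, hm, s, hs, hsm⟩ := e2
    refine gd_mono h d (Finset.empty_subset _) (by rwa [Finset.singleton_subset_iff]) ?_
    have h3 := gd_sw (G := Gᶜ) h.compl hrO hrZ hZO.symm (stb_compl.1 (by rwa [compl_compl]))
      (clq_compl.1 (by rwa [compl_compl])) (hm1 m hm).2.1 (hm1 m hm).1 (hm1 m hm).2.2 hs
      (fun hh => hh.2 hsm)
    rw [Finset.union_comm O Z, gd_compl] at h3
    exact h3
  push Not at e1 e2
  have hZM : Clq G (Z ∪ M0) := by
    intro a ha b hb hab
    rcases Finset.mem_union.1 ha with ha | ha <;> rcases Finset.mem_union.1 hb with hb | hb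
    · exact hcl a (Finset.mem_insert_of_mem ha) b (Finset.mem_insert_of_mem hb) hab
    · exact e1 b hb a ha
    · exact (e1 a ha b hb).symm
    · exact hM0 a ha b hb hab
  have hOM : Stb G (O ∪ M1) := by
    intro a ha b hb hab
    rcases Finset.mem_union.1 ha with ha | ha <;> rcases Finset.mem_union.1 hb with hb | hb
    · exact hst a (Finset.mem_insert_of_mem ha) b (Finset.mem_insert_of_mem hb) hab
    · exact e2 b hb a ha hab
    · exact e2 a ha b hb hab.symm
    · exact hM1 a ha b hb hab
  have hrz : ∀ z ∈ Z, G.Adj r z := fun z hz =>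
    hcl r (Finset.mem_insert_self _ _) z (Finset.mem_insert_of_mem hz) fun e => hrZ (e ▸ hz)
  have hro : ∀ o ∈ O, ¬ G.Adj r o := fun o ho =>
    hst r (Finset.mem_insert_self _ _) o (Finset.mem_insert_of_mem ho)
  have eA : insert r (Z ∪ O) = insert r Z ∪ O := (Finset.insert_union _ _ _).symm
  have eB : insert r (Z ∪ O) = Z ∪ insert r O := (Finset.union_insert _ _ _).symm
  have dA : Disjoint (insert r Z) O := by
    rw [Finset.disjoint_insert_left]
    exact ⟨hrO, hZO⟩
  have dB : Disjoint Z (insert r O) := by
    rw [Finset.disjoint_insert_right]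
    exact ⟨hrZ, hZO⟩
  by_cases e3 : ∀ m ∈ M0, G.Adj r m
  · rw [eA] at d ha h2 ⊢
    refine gd_cs_anti h dA d ?_ hOM ha h2
    rw [Finset.insert_union]
    intro a ha3 b hb3 hab
    rcases Finset.mem_insert.1 ha3 with ha | ha <;> rcases Finset.mem_insert.1 hb3 with hb | hb
    · exact absurd (ha.trans hb.symm) hab
    · rw [ha]
      rcases Finset.mem_union.1 hb with hb | hb
      · exact hrz b hb
      · exact e3 b hb
    · rw [hb]
      rcases Finset.mem_union.1 ha with ha | ha
      · exact (hrz a ha).symm
      · exact (e3 a ha).symm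
    · exact hZM a ha b hb hab
  by_cases e4 : ∀ m ∈ M1, ¬ G.Adj r m
  · rw [eB] at d ha h2 ⊢
    refine gd_cs_anti h dB d hZM ?_ ha h2
    rw [Finset.insert_union]
    intro a ha3 b hb3 hab
    rcases Finset.mem_insert.1 ha3 with ha | ha <;> rcases Finset.mem_insert.1 hb3 with hb | hb
    · rw [ha, hb] at hab
      exact G.loopless.irrefl _ hab
    · rw [ha] at hab
      rcases Finset.mem_union.1 hb with hb | hb
      · exact hro b hb hab
      · exact e4 b hb hab
    · rw [hb] at hab
      rcases Finset.mem_union.1 ha with ha | ha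
      · exact hro a ha hab.symm
      · exact e4 a ha hab.symm
    · exact hOM a ha b hb hab
  push Not at e3 e4
  obtain ⟨m0, hm0M, hm0r⟩ := e3
  obtain ⟨m1, hm1M, hm1r⟩ := e4
  by_cases e5 : ∃ o ∈ O, (∀ z ∈ Z, G.Adj o z) ∧ G.Adj o m0
  · obtain ⟨o, ho, hoz, hom⟩ := e5
    refine gd_mono h d (Finset.empty_subset _)
      (by rwa [Finset.singleton_subset_iff] : ({m1} : Finset ι) ⊆ M1) ?_
    have d' : Dj (insert r (Z ∪ O)) ∅ {m1} :=
      d.mono (Finset.Subset.refl _) (Finset.empty_subset _) (by rwa [Finset.singleton_subset_iff])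
    rw [eA] at d' ⊢
    refine gd_cs h _ (insert r Z) O rfl dA d' ?_ ?_ ?_ ?_
    · rwa [Finset.union_empty]
    · refine hOM.mono (Finset.union_subset_union (Finset.Subset.refl _) ?_)
      rwa [Finset.singleton_subset_iff]
    · intro a ha
      rcases Finset.mem_insert.1 ha with rfl | ha
      · exact ⟨m1, by simp, hm1r⟩
      · exact ⟨o, Finset.mem_union_left _ ho, (hoz a ha).symm⟩
    · intro b hb
      exact ⟨r, by simp, fun hh => hro b hb hh.symm⟩
  · push Not at e5
    refine gd_mono h d (by rwa [Finset.singleton_subset_iff] : ({m0} : Finset ι) ⊆ M0)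
      (Finset.empty_subset _) ?_
    have d' : Dj (insert r (Z ∪ O)) {m0} ∅ :=
      d.mono (Finset.Subset.refl _) (by rwa [Finset.singleton_subset_iff]) (Finset.empty_subset _)
    rw [eB] at d' ⊢
    refine gd_cs h _ Z (insert r O) rfl dB d' ?_ ?_ ?_ ?_
    · refine hZM.mono (Finset.union_subset_union (Finset.Subset.refl _) ?_)
      rwa [Finset.singleton_subset_iff]
    · rwa [Finset.union_empty]
    · intro a ha
      exact ⟨r, by simp, (hrz a ha).symm⟩
    · intro b hb
      rcases Finset.mem_insert.1 hb with rfl | hb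
      · exact ⟨m0, by simp, hm0r⟩
      · by_contra hcon
        push Not at hcon
        exact e5 b hb (fun z hz => hcon z (Finset.mem_union_left _ hz)) (hcon m0 (by simp))

/-- split case -/
theorem gd_split (h : PF G) {R M0 M1 : Finset ι} (d : Dj R M0 M1) (hs : Spl G R)
    (ha : Anti G R (R ∪ M0 ∪ M1)) (h2 : 2 ≤ R.card) : Gd G R M0 M1 := by
  obtain ⟨Z, O, hR, hZO, hZ, hO⟩ := hs
  subst hR
  by_cases e1 : ∀ z ∈ Z, ∃ o ∈ O, G.Adj z o
  swap
  · push Not at e1
    obtain ⟨r, hr, hro⟩ := e1
    have hrO : r ∉ O := Finset.disjoint_left.1 hZO hr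
    have he : Z ∪ O = insert r (Z.erase r ∪ O) := by
      rw [← Finset.insert_union, Finset.insert_erase hr]
    rw [he] at d ha h2 ⊢
    refine gd_swing h (Finset.notMem_erase _ _) hrO
      (Finset.disjoint_of_subset_left (Finset.erase_subset _ _) hZO) ?_ ?_ d ha h2
    · rwa [Finset.insert_erase hr]
    · intro a ha3 b hb3 hab
      rcases Finset.mem_insert.1 ha3 with ha | ha <;> rcases Finset.mem_insert.1 hb3 with hb | hb
      · rw [ha, hb] at hab
        exact G.loopless.irrefl _ hab
      · rw [ha] at hab
        exact hro b hb hab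
      · rw [hb] at hab
        exact hro a ha hab.symm
      · exact hO a ha b hb hab
  by_cases e2 : ∀ o ∈ O, ∃ z ∈ Z, ¬ G.Adj o z
  swap
  · push Not at e2
    obtain ⟨r, hr, hrz⟩ := e2
    have hrZ : r ∉ Z := Finset.disjoint_right.1 hZO hr
    have he : Z ∪ O = insert r (Z ∪ O.erase r) := by
      rw [← Finset.union_insert, Finset.insert_erase hr]
    rw [he] at d ha h2 ⊢
    refine gd_swing h hrZ (Finset.notMem_erase _ _)
      (Finset.disjoint_of_subset_right (Finset.erase_subset _ _) hZO) ?_ ?_ d ha h2
    · intro a ha3 b hb3 hab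
      rcases Finset.mem_insert.1 ha3 with ha | ha <;> rcases Finset.mem_insert.1 hb3 with hb | hb
      · exact absurd (ha.trans hb.symm) hab
      · rw [ha]
        exact hrz b hb
      · rw [hb]
        exact (hrz a ha).symm
      · exact hZ a ha b hb hab
    · rwa [Finset.insert_erase hr]
  refine gd_mono h d (Finset.empty_subset _) (Finset.empty_subset _) ?_
  refine gd_cs h _ Z O rfl hZO (d.mono (Finset.Subset.refl _) (Finset.empty_subset _)
    (Finset.empty_subset _)) ?_ ?_ ?_ ?_
  · rwa [Finset.union_empty]
  · rwa [Finset.union_empty]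
  · intro z hz
    obtain ⟨o, ho, hzo⟩ := e1 z hz
    exact ⟨o, Finset.mem_union_left _ ho, hzo⟩
  · intro o ho
    obtain ⟨z, hz, hzo⟩ := e2 o ho
    exact ⟨z, Finset.mem_union_left _ hz, hzo⟩

end Pool.Agent.HNS
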