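import Pool.Agent.HNS.Twc

/-!
# Nonsplit local structures
-/

set_option autoImplicit false
set_option linter.unusedSectionVars false

open scoped Classical

namespace Pool.Agent.HNS

variable {ι : Type} [DecidableEq ι]

variable {G : SimpleGraph ι}

theorem dj0 (R : Finset ι) : Dj R ∅ ∅ :=
  ⟨Finset.disjoint_empty_right _, Finset.disjoint_empty_right _, Finset.disjoint_empty_right _⟩

/-- elimination without `M0`, `M1` -/
theorem gd_elim0 (h : PF G) {R R' : Finset ι} (hR : R' ⊆ R)
    (he : ∀ s ∈ R, s ∉ R' → ∃ x ∈ R', DomA G R x s ∨ DomN G R x s)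
    (hg : Gd G R' ∅ ∅) : Gd G R ∅ ∅ := by
  refine gd_elim h hR (dj0 R) (fun s hs hs' => ?_) hg
  rw [Finset.union_empty, Finset.union_empty]
  exact he s hs hs'

/-- first step: a vertex `p` complete to `Q` and anticomplete to the stable set `L` -/
theorem gd_peel (h : PF G) {L Q R : Finset ι} {p : ι} (hR : ∀ v, v ∈ R ↔ v = p ∨ v ∈ L ∨ v ∈ Q)
    (hQ : ∀ q ∈ Q, G.Adj p q) (hpL : ∀ l ∈ L, l ≠ p ∧ ¬ G.Adj p l) (hL : Stb G L)
    (hne : Q.Nonempty) (hg : Gd G Q ∅ ∅) : Gd G R ∅ ∅ := by
  have hsub1 : insert p Q ⊆ R := by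
    intro v hv
    rw [Finset.mem_insert] at hv
    rw [hR]
    exact hv.imp_right Or.inr
  refine gd_elim0 h hsub1 ?_ ?_
  · intro s hs hs'
    rw [Finset.mem_insert, not_or] at hs'
    have hsL : s ∈ L := by
      rcases (hR s).1 hs with hs | hs | hs
      · exact absurd hs hs'.1
      · exact hs
      · exact absurd hs hs'.2
    refine ⟨p, Finset.mem_insert_self _ _, Or.inr ⟨Ne.symm hs'.1, (hpL s hsL).2, ?_⟩⟩
    intro v hv hsv
    rcases (hR v).1 hv with rfl | hv | hv
    · exact absurd hsv.symm (hpL s hsL).2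
    · exact absurd hsv (hL s hsL v hv)
    · exact hQ v hv
  · refine gd_elim0 h (Finset.subset_insert _ _) ?_ hg
    intro s hs hs'
    have hsp : s = p := by
      rcases Finset.mem_insert.1 hs with hs | hs
      · exact hs
      · exact absurd hs hs'
    subst hsp
    obtain ⟨q, hq⟩ := hne
    refine ⟨q, hq, Or.inl ⟨(hQ q hq).symm, fun v hv hqv => ?_⟩⟩
    rcases Finset.mem_insert.1 hv with hv | hv
    · exact Or.inl hv
    · exact Or.inr (hQ v hv)

/-- the main case: `Q` has a swing vertex `t` and `o ∈ L` has a neighbour `s` in the stable part -/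
theorem gd_nsw (h : PF G) {L Z O R : Finset ι} {p t o s : ι}
    (hR : ∀ v, v ∈ R ↔ v = p ∨ v ∈ L ∨ v = t ∨ v ∈ Z ∨ v ∈ O)
    (hpt : G.Adj p t) (hpZ : ∀ q ∈ Z, G.Adj p q) (hpO : ∀ q ∈ O, G.Adj p q)
    (hpL : ∀ l ∈ L, l ≠ p ∧ ¬ G.Adj p l) (hL : Stb G L)
    (hZ : Clq G Z) (htZ : ∀ z ∈ Z, G.Adj t z) (hO : Stb G O) (htO : ∀ v ∈ O, ¬ G.Adj t v)
    (htO' : t ∉ O) (hZO : Disjoint Z O)
    (ho : o ∈ L) (hs : s ∈ O) (hos : G.Adj o s) : Gd G R ∅ ∅ := by
  obtain ⟨hop, hpo⟩ := hpL o ho
  have hst : s ≠ t := fun e => htO' (e ▸ hs)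
  have hps : G.Adj p s := hpO s hs
  have hot : o ≠ t := by
    rintro rfl
    exact hpo hpt
  have hoZ : ∀ z ∈ Z, o ≠ z := by
    rintro z hz rfl
    exact hpo (hpZ _ hz)
  have hoO : ∀ z ∈ O, o ≠ z := by
    rintro z hz rfl
    exact hpo (hpO _ hz)
  -- remove `L` except `o`
  set R1 : Finset ι := insert p (insert o (insert t (Z ∪ O))) with hR1
  have mem1 : ∀ v, v ∈ R1 ↔ v = p ∨ v = o ∨ v = t ∨ v ∈ Z ∨ v ∈ O := by
    intro v
    rw [hR1]
    simp only [Finset.mem_insert, Finset.mem_union]
  have hsub1 : R1 ⊆ R := by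
    intro v hv
    rw [hR]
    rcases (mem1 v).1 hv with hv | rfl | hv | hv | hv
    · exact Or.inl hv
    · exact Or.inr (Or.inl ho)
    · exact Or.inr (Or.inr (Or.inl hv))
    · exact Or.inr (Or.inr (Or.inr (Or.inl hv)))
    · exact Or.inr (Or.inr (Or.inr (Or.inr hv)))
  refine gd_elim0 h hsub1 ?_ ?_
  · intro x hx hx'
    rw [mem1] at hx'
    have hxL : x ∈ L := by
      rcases (hR x).1 hx with hx | hx | hx | hx | hx
      · exact absurd (Or.inl hx) hx'
      · exact hx
      · exact absurd (Or.inr (Or.inr (Or.inl hx))) hx'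
      · exact absurd (Or.inr (Or.inr (Or.inr (Or.inl hx)))) hx'
      · exact absurd (Or.inr (Or.inr (Or.inr (Or.inr hx)))) hx'
    refine ⟨p, (mem1 p).2 (Or.inl rfl), Or.inr ⟨(hpL x hxL).1.symm, (hpL x hxL).2, ?_⟩⟩
    intro v hv hxv
    rcases (hR v).1 hv with rfl | hv | rfl | hv | hv
    · exact absurd hxv.symm (hpL x hxL).2
    · exact absurd hxv (hL x hxL v hv)
    · exact hpt
    · exact hpZ v hv
    · exact hpO v hv
  by_cases hto : G.Adj o t
  · -- the swing vertex is adjacent to `o`
    set R2 : Finset ι := insert p (insert o (insert t (insert s Z))) with hR2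
    have mem2 : ∀ v, v ∈ R2 ↔ v = p ∨ v = o ∨ v = t ∨ v = s ∨ v ∈ Z := by
      intro v
      rw [hR2]
      simp only [Finset.mem_insert]
    have hsub2 : R2 ⊆ R1 := by
      intro v hv
      rw [mem1]
      rcases (mem2 v).1 hv with hv | hv | hv | rfl | hv
      · exact Or.inl hv
      · exact Or.inr (Or.inl hv)
      · exact Or.inr (Or.inr (Or.inl hv))
      · exact Or.inr (Or.inr (Or.inr (Or.inr hs)))
      · exact Or.inr (Or.inr (Or.inr (Or.inl hv)))
    refine gd_elim0 h hsub2 ?_ ?_
    · intro x hx hx'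
      rw [mem2] at hx'
      have hxO : x ∈ O := by
        rcases (mem1 x).1 hx with hx | hx | hx | hx | hx
        · exact absurd (Or.inl hx) hx'
        · exact absurd (Or.inr (Or.inl hx)) hx'
        · exact absurd (Or.inr (Or.inr (Or.inl hx))) hx'
        · exact absurd (Or.inr (Or.inr (Or.inr (Or.inr hx)))) hx'
        · exact hx
      refine ⟨t, (mem2 t).2 (Or.inr (Or.inr (Or.inl rfl))), Or.inr
        ⟨fun e => htO' (e ▸ hxO), htO x hxO, ?_⟩⟩
      intro v hv hxv
      rcases (mem1 v).1 hv with rfl | rfl | rfl | hv | hv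
      · exact hpt.symm
      · exact hto.symm
      · exact absurd hxv.symm (htO x hxO)
      · exact htZ v hv
      · exact absurd hxv (hO x hxO v hv)
    -- remove the vertices of `Z` adjacent to `o`
    set Z1 : Finset ι := Z.filter fun z => ¬ G.Adj z o with hZ1
    have memZ1 : ∀ v, v ∈ Z1 ↔ v ∈ Z ∧ ¬ G.Adj v o := by
      intro v
      rw [hZ1, Finset.mem_filter]
    set R3 : Finset ι := insert p (insert o (insert t (insert s Z1))) with hR3
    have mem3 : ∀ v, v ∈ R3 ↔ v = p ∨ v = o ∨ v = t ∨ v = s ∨ v ∈ Z1 := by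
      intro v
      rw [hR3]
      simp only [Finset.mem_insert]
    have hsub3 : R3 ⊆ R2 := by
      intro v hv
      rw [mem2]
      rcases (mem3 v).1 hv with hv | hv | hv | hv | hv
      · exact Or.inl hv
      · exact Or.inr (Or.inl hv)
      · exact Or.inr (Or.inr (Or.inl hv))
      · exact Or.inr (Or.inr (Or.inr (Or.inl hv)))
      · exact Or.inr (Or.inr (Or.inr (Or.inr ((memZ1 v).1 hv).1)))
    refine gd_elim0 h hsub3 ?_ ?_
    · intro x hx hx'
      rw [mem3] at hx'
      have hxZ : x ∈ Z ∧ G.Adj x o := by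
        rcases (mem2 x).1 hx with hx | hx | hx | hx | hx
        · exact absurd (Or.inl hx) hx'
        · exact absurd (Or.inr (Or.inl hx)) hx'
        · exact absurd (Or.inr (Or.inr (Or.inl hx))) hx'
        · exact absurd (Or.inr (Or.inr (Or.inr (Or.inl hx)))) hx'
        · refine ⟨hx, ?_⟩
          by_contra hcon
          exact hx' (Or.inr (Or.inr (Or.inr (Or.inr ((memZ1 x).2 ⟨hx, hcon⟩)))))
      refine ⟨t, (mem3 t).2 (Or.inr (Or.inr (Or.inl rfl))), Or.inl ⟨htZ x hxZ.1, ?_⟩⟩
      intro v hv htv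
      rcases (mem2 v).1 hv with rfl | rfl | rfl | rfl | hv
      · exact Or.inr (hpZ x hxZ.1).symm
      · exact Or.inr hxZ.2
      · exact absurd htv (G.loopless.irrefl _)
      · exact absurd htv (htO _ hs)
      · by_cases hvx : v = x
        · exact Or.inl hvx
        · exact Or.inr (hZ x hxZ.1 v hv (Ne.symm hvx))
    -- remove the vertices of `Z1` adjacent to `s`
    set Z2 : Finset ι := Z1.filter fun z => ¬ G.Adj z s with hZ2
    have memZ2 : ∀ v, v ∈ Z2 ↔ v ∈ Z1 ∧ ¬ G.Adj v s := by
      intro v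
      rw [hZ2, Finset.mem_filter]
    set R4 : Finset ι := insert p (insert o (insert t (insert s Z2))) with hR4
    have mem4 : ∀ v, v ∈ R4 ↔ v = p ∨ v = o ∨ v = t ∨ v = s ∨ v ∈ Z2 := by
      intro v
      rw [hR4]
      simp only [Finset.mem_insert]
    have hsub4 : R4 ⊆ R3 := by
      intro v hv
      rw [mem3]
      rcases (mem4 v).1 hv with hv | hv | hv | hv | hv
      · exact Or.inl hv
      · exact Or.inr (Or.inl hv)
      · exact Or.inr (Or.inr (Or.inl hv))
      · exact Or.inr (Or.inr (Or.inr (Or.inl hv)))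
      · exact Or.inr (Or.inr (Or.inr (Or.inr ((memZ2 v).1 hv).1)))
    refine gd_elim0 h hsub4 ?_ ?_
    · intro x hx hx'
      rw [mem4] at hx'
      have hxZ : x ∈ Z ∧ G.Adj x s := by
        rcases (mem3 x).1 hx with hx | hx | hx | hx | hx
        · exact absurd (Or.inl hx) hx'
        · exact absurd (Or.inr (Or.inl hx)) hx'
        · exact absurd (Or.inr (Or.inr (Or.inl hx))) hx'
        · exact absurd (Or.inr (Or.inr (Or.inr (Or.inl hx)))) hx'
        · refine ⟨((memZ1 x).1 hx).1, ?_⟩
          by_contra hcon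
          exact hx' (Or.inr (Or.inr (Or.inr (Or.inr ((memZ2 x).2 ⟨hx, hcon⟩)))))
      refine ⟨p, (mem4 p).2 (Or.inl rfl), Or.inl ⟨hpZ x hxZ.1, ?_⟩⟩
      intro v hv hpv
      rcases (mem3 v).1 hv with rfl | rfl | rfl | rfl | hv
      · exact absurd hpv (G.loopless.irrefl _)
      · exact absurd hpv hpo
      · exact Or.inr (htZ x hxZ.1).symm
      · exact Or.inr hxZ.2
      · by_cases hvx : v = x
        · exact Or.inl hvx
        · exact Or.inr (hZ x hxZ.1 v ((memZ1 v).1 hv).1 (Ne.symm hvx))
    rcases Z2.eq_empty_or_nonempty with hZe | ⟨z, hz⟩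
    · -- a 4-cycle is left
      refine gd_c4R h hps hos.symm hto hpt.symm (fun hh => hpo hh) (fun hh => htO s hs hh.symm)
        hop.symm hst ?_
      ext v
      rw [mem4, hZe]
      simp only [Finset.mem_insert, Finset.mem_singleton, Finset.notMem_empty, or_false]
      constructor
      · rintro (hv | hv | hv | hv)
        · exact Or.inl hv
        · exact Or.inr (Or.inr (Or.inl hv))
        · exact Or.inr (Or.inr (Or.inr hv))
        · exact Or.inr (Or.inl hv)
      · rintro (hv | hv | hv | hv)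
        · exact Or.inl hv
        · exact Or.inr (Or.inr (Or.inr hv))
        · exact Or.inr (Or.inl hv)
        · exact Or.inr (Or.inr (Or.inl hv))
    · have hzZ1 := ((memZ2 z).1 hz).1
      have hzs := ((memZ2 z).1 hz).2
      have hzZ := ((memZ1 z).1 hzZ1).1
      have hzo := ((memZ1 z).1 hzZ1).2
      set R5 : Finset ι := {p, o, t, s, z} with hR5
      have mem5 : ∀ v, v ∈ R5 ↔ v = p ∨ v = o ∨ v = t ∨ v = s ∨ v = z := by
        intro v
        rw [hR5]
        simp only [Finset.mem_insert, Finset.mem_singleton]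
      have hsub5 : R5 ⊆ R4 := by
        intro v hv
        rw [mem4]
        rcases (mem5 v).1 hv with hv | hv | hv | hv | rfl
        · exact Or.inl hv
        · exact Or.inr (Or.inl hv)
        · exact Or.inr (Or.inr (Or.inl hv))
        · exact Or.inr (Or.inr (Or.inr (Or.inl hv)))
        · exact Or.inr (Or.inr (Or.inr (Or.inr hz)))
      refine gd_elim0 h hsub5 ?_ ?_
      · intro x hx hx'
        rw [mem5] at hx'
        have hxZ : x ∈ Z := by
          rcases (mem4 x).1 hx with hx | hx | hx | hx | hx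
          · exact absurd (Or.inl hx) hx'
          · exact absurd (Or.inr (Or.inl hx)) hx'
          · exact absurd (Or.inr (Or.inr (Or.inl hx))) hx'
          · exact absurd (Or.inr (Or.inr (Or.inr (Or.inl hx)))) hx'
          · exact ((memZ1 x).1 ((memZ2 x).1 hx).1).1
        have hxz : x ≠ z := fun e => hx' (Or.inr (Or.inr (Or.inr (Or.inr e))))
        refine ⟨z, (mem5 z).2 (Or.inr (Or.inr (Or.inr (Or.inr rfl)))), Or.inl
          ⟨hZ z hzZ x hxZ (Ne.symm hxz), ?_⟩⟩
        intro v hv hzv
        rcases (mem4 v).1 hv with rfl | rfl | rfl | rfl | hv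
        · exact Or.inr (hpZ x hxZ).symm
        · exact absurd hzv hzo
        · exact Or.inr (htZ x hxZ).symm
        · exact absurd hzv hzs
        · by_cases hvx : v = x
          · exact Or.inl hvx
          · exact Or.inr (hZ x hxZ v ((memZ1 v).1 ((memZ2 v).1 hv).1).1 (Ne.symm hvx))
      · -- now `p` is dominated by `z`
        refine gd_elim0 (R' := {s, o, t, z}) h ?_ ?_ ?_
        · intro v hv
          simp only [Finset.mem_insert, Finset.mem_singleton] at hv
          rw [mem5]
          rcases hv with hv | hv | hv | hv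
          · exact Or.inr (Or.inr (Or.inr (Or.inl hv)))
          · exact Or.inr (Or.inl hv)
          · exact Or.inr (Or.inr (Or.inl hv))
          · exact Or.inr (Or.inr (Or.inr (Or.inr hv)))
        · intro x hx hx'
          simp only [Finset.mem_insert, Finset.mem_singleton, not_or] at hx'
          have hxp : x = p := by
            rcases (mem5 x).1 hx with hx | hx | hx | hx | hx
            · exact hx
            · exact absurd hx hx'.2.1
            · exact absurd hx hx'.2.2.1
            · exact absurd hx hx'.1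
            · exact absurd hx hx'.2.2.2
          subst hxp
          refine ⟨z, by simp, Or.inl ⟨(hpZ z hzZ).symm, ?_⟩⟩
          intro v hv hzv
          rcases (mem5 v).1 hv with rfl | rfl | rfl | rfl | rfl
          · exact Or.inl rfl
          · exact absurd hzv hzo
          · exact Or.inr hpt
          · exact absurd hzv hzs
          · exact absurd hzv (G.loopless.irrefl _)
        · refine gd_p4 h hos.symm hto (htZ z hzZ) (fun hh => htO s hs hh.symm)
            (fun hh => hzs hh.symm) (fun hh => hzo hh.symm) ?_ rfl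
          rintro rfl
          exact Finset.disjoint_left.1 hZO hzZ hs
  · -- the swing vertex is not adjacent to `o`
    set O1 : Finset ι := O.filter fun v => G.Adj v o with hO1
    have memO1 : ∀ v, v ∈ O1 ↔ v ∈ O ∧ G.Adj v o := by
      intro v
      rw [hO1, Finset.mem_filter]
    set R2 : Finset ι := insert p (insert o (insert t (Z ∪ O1))) with hR2
    have mem2 : ∀ v, v ∈ R2 ↔ v = p ∨ v = o ∨ v = t ∨ v ∈ Z ∨ v ∈ O1 := by
      intro v
      rw [hR2]
      simp only [Finset.mem_insert, Finset.mem_union]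
    have hsub2 : R2 ⊆ R1 := by
      intro v hv
      rw [mem1]
      rcases (mem2 v).1 hv with hv | hv | hv | hv | hv
      · exact Or.inl hv
      · exact Or.inr (Or.inl hv)
      · exact Or.inr (Or.inr (Or.inl hv))
      · exact Or.inr (Or.inr (Or.inr (Or.inl hv)))
      · exact Or.inr (Or.inr (Or.inr (Or.inr ((memO1 v).1 hv).1)))
    refine gd_elim0 h hsub2 ?_ ?_
    · intro x hx hx'
      rw [mem2] at hx'
      have hxO : x ∈ O ∧ ¬ G.Adj x o := by
        rcases (mem1 x).1 hx with hx | hx | hx | hx | hx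
        · exact absurd (Or.inl hx) hx'
        · exact absurd (Or.inr (Or.inl hx)) hx'
        · exact absurd (Or.inr (Or.inr (Or.inl hx))) hx'
        · exact absurd (Or.inr (Or.inr (Or.inr (Or.inl hx)))) hx'
        · exact ⟨hx, fun hh => hx' (Or.inr (Or.inr (Or.inr (Or.inr ((memO1 x).2 ⟨hx, hh⟩)))))⟩
      refine ⟨t, (mem2 t).2 (Or.inr (Or.inr (Or.inl rfl))), Or.inr
        ⟨fun e => htO' (e ▸ hxO.1), htO x hxO.1, ?_⟩⟩
      intro v hv hxv
      rcases (mem1 v).1 hv with rfl | rfl | rfl | hv | hv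
      · exact hpt.symm
      · exact absurd hxv hxO.2
      · exact absurd hxv.symm (htO x hxO.1)
      · exact htZ v hv
      · exact absurd hxv (hO x hxO.1 v hv)
    set R3 : Finset ι := insert p (insert o (insert t O1)) with hR3
    have mem3 : ∀ v, v ∈ R3 ↔ v = p ∨ v = o ∨ v = t ∨ v ∈ O1 := by
      intro v
      rw [hR3]
      simp only [Finset.mem_insert]
    have hsub3 : R3 ⊆ R2 := by
      intro v hv
      rw [mem2]
      rcases (mem3 v).1 hv with hv | hv | hv | hv
      · exact Or.inl hv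
      · exact Or.inr (Or.inl hv)
      · exact Or.inr (Or.inr (Or.inl hv))
      · exact Or.inr (Or.inr (Or.inr (Or.inr hv)))
    refine gd_elim0 h hsub3 ?_ ?_
    · intro x hx hx'
      rw [mem3] at hx'
      have hxZ : x ∈ Z := by
        rcases (mem2 x).1 hx with hx | hx | hx | hx | hx
        · exact absurd (Or.inl hx) hx'
        · exact absurd (Or.inr (Or.inl hx)) hx'
        · exact absurd (Or.inr (Or.inr (Or.inl hx))) hx'
        · exact hx
        · exact absurd (Or.inr (Or.inr (Or.inr hx))) hx'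
      refine ⟨t, (mem3 t).2 (Or.inr (Or.inr (Or.inl rfl))), Or.inl ⟨htZ x hxZ, ?_⟩⟩
      intro v hv htv
      rcases (mem2 v).1 hv with rfl | rfl | rfl | hv | hv
      · exact Or.inr (hpZ x hxZ).symm
      · exact absurd htv.symm hto
      · exact absurd htv (G.loopless.irrefl _)
      · by_cases hvx : v = x
        · exact Or.inl hvx
        · exact Or.inr (hZ x hxZ v hv (Ne.symm hvx))
      · exact absurd htv (htO v ((memO1 v).1 hv).1)
    · refine gd_elim0 (R' := {t, p, s, o}) h ?_ ?_ ?_
      · intro v hv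
        simp only [Finset.mem_insert, Finset.mem_singleton] at hv
        rw [mem3]
        rcases hv with hv | hv | rfl | hv
        · exact Or.inr (Or.inr (Or.inl hv))
        · exact Or.inl hv
        · exact Or.inr (Or.inr (Or.inr ((memO1 v).2 ⟨hs, hos.symm⟩)))
        · exact Or.inr (Or.inl hv)
      · intro x hx hx'
        simp only [Finset.mem_insert, Finset.mem_singleton, not_or] at hx'
        have hxO : x ∈ O := by
          rcases (mem3 x).1 hx with hx | hx | hx | hx
          · exact absurd hx hx'.2.1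
          · exact absurd hx hx'.2.2.2
          · exact absurd hx hx'.1
          · exact ((memO1 x).1 hx).1
        refine ⟨s, by simp, Or.inr ⟨Ne.symm hx'.2.2.1, hO s hs x hxO, ?_⟩⟩
        intro v hv hxv
        rcases (mem3 v).1 hv with rfl | rfl | rfl | hv
        · exact hps.symm
        · exact hos.symm
        · exact absurd hxv.symm (htO x hxO)
        · exact absurd hxv (hO x hxO v ((memO1 v).1 hv).1)
      · exact gd_p4 h hpt.symm hps hos.symm (htO s hs) (fun hh => hto hh.symm) hpo
          (Ne.symm hot) rfl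

/-- nonsplit case, `p` complete to the split graph `Q` -/
theorem gd_ns1 (h : PF G) {L Q R : Finset ι} {p : ι} (hR : ∀ v, v ∈ R ↔ v = p ∨ v ∈ L ∨ v ∈ Q)
    (hQ : ∀ q ∈ Q, G.Adj p q) (hpL : ∀ l ∈ L, l ≠ p ∧ ¬ G.Adj p l) (hL : Stb G L)
    (hns : ¬ Spl G R) (hg : Spl G Q ∨ Gd G Q ∅ ∅) : Gd G R ∅ ∅ := by
  have hne : Q.Nonempty := by
    by_contra hcon
    rw [Finset.not_nonempty_iff_eq_empty] at hcon
    refine hns ⟨{p}, L, ?_, ?_, clq_singleton G p, hL⟩
    · ext v
      rw [hR, hcon]
      simp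
    · rw [Finset.disjoint_singleton_left]
      exact fun hh => (hpL p hh).1 rfl
  have hpQ : p ∉ Q := fun hh => G.loopless.irrefl _ (hQ p hh)
  have hLQ : ∀ l ∈ L, l ∉ Q := fun l hl hh => (hpL l hl).2 (hQ l hh)
  rcases hg with hspl | hg
  swap
  · exact gd_peel h hR hQ hpL hL hne hg
  obtain ⟨Z, O, hZOQ, hZO, hZ, hO⟩ := hspl
  -- no swing vertex
  by_cases e1 : (∀ z ∈ Z, ∃ v ∈ O, G.Adj z v) ∧ ∀ v ∈ O, ∃ z ∈ Z, ¬ G.Adj v z
  · refine gd_peel h hR hQ hpL hL hne ?_
    rw [← hZOQ]
    refine gd_cs h _ Z O rfl hZO (dj0 _) ?_ ?_ ?_ ?_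
    · rwa [Finset.union_empty]
    · rwa [Finset.union_empty]
    · intro z hz
      obtain ⟨v, hv, hzv⟩ := e1.1 z hz
      exact ⟨v, Finset.mem_union_left _ hv, hzv⟩
    · intro z hz
      obtain ⟨v, hv, hzv⟩ := e1.2 z hz
      exact ⟨v, Finset.mem_union_left _ hv, hzv⟩
  -- a swing vertex
  have main : ∀ (t : ι) (Z O : Finset ι), t ∉ Z → t ∉ O → Disjoint Z O → insert t (Z ∪ O) = Q →
      Clq G (insert t Z) → Stb G (insert t O) → Gd G R ∅ ∅ := by
    intro t Z O htZ htO hZO hQe hcl hst
    have htQ : t ∈ Q := hQe ▸ Finset.mem_insert_self _ _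
    have hZQ : ∀ z ∈ Z, z ∈ Q := fun z hz =>
      hQe ▸ Finset.mem_insert_of_mem (Finset.mem_union_left _ hz)
    have hOQ : ∀ z ∈ O, z ∈ Q := fun z hz =>
      hQe ▸ Finset.mem_insert_of_mem (Finset.mem_union_right _ hz)
    have hRv : ∀ v, v ∈ R ↔ v = p ∨ v ∈ L ∨ v = t ∨ v ∈ Z ∨ v ∈ O := by
      intro v
      rw [hR, ← hQe, Finset.mem_insert, Finset.mem_union]
    by_cases e2 : ∃ o ∈ L, ∃ s ∈ O, G.Adj o s
    · obtain ⟨o, ho, s, hs, hos⟩ := e2
      exact gd_nsw h hRv (hQ t htQ) (fun q hq => hQ q (hZQ q hq)) (fun q hq => hQ q (hOQ q hq))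
        hpL hL (hcl.mono (Finset.subset_insert _ _))
        (fun z hz => hcl t (Finset.mem_insert_self _ _) z (Finset.mem_insert_of_mem hz)
          fun e => htZ (e ▸ hz))
        (hst.mono (Finset.subset_insert _ _))
        (fun z hz => hst t (Finset.mem_insert_self _ _) z (Finset.mem_insert_of_mem hz))
        htO hZO ho hs hos
    · push Not at e2
      exfalso
      refine hns ⟨insert p (insert t Z), O ∪ L, ?_, ?_, ?_, ?_⟩
      · ext v
        rw [hRv]
        simp only [Finset.mem_insert, Finset.mem_union]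
        constructor
        · rintro ((hv | hv | hv) | hv | hv)
          · exact Or.inl hv
          · exact Or.inr (Or.inr (Or.inl hv))
          · exact Or.inr (Or.inr (Or.inr (Or.inl hv)))
          · exact Or.inr (Or.inr (Or.inr (Or.inr hv)))
          · exact Or.inr (Or.inl hv)
        · rintro (hv | hv | hv | hv | hv)
          · exact Or.inl (Or.inl hv)
          · exact Or.inr (Or.inr hv)
          · exact Or.inl (Or.inr (Or.inl hv))
          · exact Or.inl (Or.inr (Or.inr hv))
          · exact Or.inr (Or.inl hv)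
      · rw [Finset.disjoint_left]
        intro v hv hv'
        rw [Finset.mem_insert, Finset.mem_insert] at hv
        rw [Finset.mem_union] at hv'
        rcases hv with hv | hv | hv <;> rcases hv' with hv' | hv'
        · exact hpQ (hv ▸ hOQ v hv')
        · exact (hpL v hv').1 hv
        · exact htO (hv ▸ hv')
        · exact hLQ v hv' (hv ▸ htQ)
        · exact Finset.disjoint_left.1 hZO hv hv'
        · exact hLQ v hv' (hZQ v hv)
      · intro a ha b hb hab
        rcases Finset.mem_insert.1 ha with ha | ha <;> rcases Finset.mem_insert.1 hb with hb | hb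
        · exact absurd (ha.trans hb.symm) hab
        · rw [ha]
          refine hQ b ?_
          rcases Finset.mem_insert.1 hb with hb | hb
          · exact hb ▸ htQ
          · exact hZQ b hb
        · rw [hb]
          refine (hQ a ?_).symm
          rcases Finset.mem_insert.1 ha with ha | ha
          · exact ha ▸ htQ
          · exact hZQ a ha
        · exact hcl a ha b hb hab
      · intro a ha b hb hab
        rcases Finset.mem_union.1 ha with ha | ha <;> rcases Finset.mem_union.1 hb with hb | hb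
        · exact hst a (Finset.mem_insert_of_mem ha) b (Finset.mem_insert_of_mem hb) hab
        · exact e2 b hb a ha hab.symm
        · exact e2 a ha b hb hab
        · exact hL a ha b hb hab
  rw [not_and_or] at e1
  push Not at e1
  rcases e1 with ⟨t, ht, hto⟩ | ⟨t, ht, htz⟩
  · refine main t (Z.erase t) O (Finset.notMem_erase _ _) (Finset.disjoint_left.1 hZO ht)
      (Finset.disjoint_of_subset_left (Finset.erase_subset _ _) hZO) ?_ ?_ ?_
    · rw [← Finset.insert_union, Finset.insert_erase ht, hZOQ]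
    · rwa [Finset.insert_erase ht]
    · intro a ha b hb hab
      rcases Finset.mem_insert.1 ha with ha | ha <;> rcases Finset.mem_insert.1 hb with hb | hb
      · rw [ha, hb] at hab
        exact G.loopless.irrefl _ hab
      · rw [ha] at hab
        exact hto b hb hab
      · rw [hb] at hab
        exact hto a ha hab.symm
      · exact hO a ha b hb hab
  · refine main t Z (O.erase t) (Finset.disjoint_right.1 hZO ht) (Finset.notMem_erase _ _)
      (Finset.disjoint_of_subset_right (Finset.erase_subset _ _) hZO) ?_ ?_ ?_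
    · rw [← Finset.union_insert, Finset.insert_erase ht, hZOQ]
    · intro a ha b hb hab
      rcases Finset.mem_insert.1 ha with ha | ha <;> rcases Finset.mem_insert.1 hb with hb | hb
      · exact absurd (ha.trans hb.symm) hab
      · rw [ha]
        exact htz b hb
      · rw [hb]
        exact (htz a ha).symm
      · exact hZ a ha b hb hab
    · rwa [Finset.insert_erase ht]

/-- the induction step at a dominating vertex of `P` -/
theorem gd_lst_dom (h : PF G) {P E D : Finset ι} (hl : Lst G P E D) {p : ι} (hp : p ∈ P)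
    (hdom : ∀ v ∈ P, v ≠ p → G.Adj p v) (hns : ¬ Spl G (P ∪ E ∪ D))
    (ih : ∀ P' E' D' : Finset ι, Lst G P' E' D' → (P' ∪ E' ∪ D').card < (P ∪ E ∪ D).card →
      ¬ Spl G (P' ∪ E' ∪ D') → Gd G (P' ∪ E' ∪ D') ∅ ∅) : Gd G (P ∪ E ∪ D) ∅ ∅ := by
  have hE : ∀ e ∈ E, G.Adj p e := by
    intro e he
    obtain ⟨K, hK, hKc, hmax, heK⟩ := hl.hE e he
    have hpK : p ∈ K := by
      by_contra hpK
      obtain ⟨k, hk, hpk⟩ := hmax p hp hpK
      exact hpk (hdom k (hK hk) fun e' => hpK (e' ▸ hk))
    exact (heK p hpK).symm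
  set D1 : Finset ι := D.filter fun v => G.Adj p v with hD1
  set L : Finset ι := D.filter fun v => ¬ G.Adj p v with hL
  set P1 : Finset ι := P.erase p with hP1
  have hR : ∀ v, v ∈ P ∪ E ∪ D ↔ v = p ∨ v ∈ L ∨ v ∈ P1 ∪ E ∪ D1 := by
    intro v
    simp only [hL, hD1, hP1, Finset.mem_union, Finset.mem_filter, Finset.mem_erase]
    constructor
    · rintro ((hv | hv) | hv)
      · by_cases hvp : v = p
        · exact Or.inl hvp
        · exact Or.inr (Or.inr (Or.inl (Or.inl ⟨hvp, hv⟩)))
      · exact Or.inr (Or.inr (Or.inl (Or.inr hv)))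
      · by_cases hpv : G.Adj p v
        · exact Or.inr (Or.inr (Or.inr ⟨hv, hpv⟩))
        · exact Or.inr (Or.inl ⟨hv, hpv⟩)
    · rintro (rfl | hv | (hv | hv) | hv)
      · exact Or.inl (Or.inl hp)
      · exact Or.inr hv.1
      · exact Or.inl (Or.inl hv.2)
      · exact Or.inl (Or.inr hv)
      · exact Or.inr hv.1
  have hQ : ∀ q ∈ P1 ∪ E ∪ D1, G.Adj p q := by
    intro q hq
    simp only [hD1, hP1, Finset.mem_union, Finset.mem_filter, Finset.mem_erase] at hq
    rcases hq with (hq | hq) | hq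
    · exact hdom q hq.2 hq.1
    · exact hE q hq
    · exact hq.2
  have hpL : ∀ l ∈ L, l ≠ p ∧ ¬ G.Adj p l := by
    intro l hl'
    rw [hL, Finset.mem_filter] at hl'
    refine ⟨?_, hl'.2⟩
    rintro rfl
    exact Finset.disjoint_left.1 hl.dPD hp hl'.1
  refine gd_ns1 h hR hQ hpL (hl.stbD.mono (Finset.filter_subset _ _)) hns ?_
  by_cases hspl : Spl G (P1 ∪ E ∪ D1)
  · exact Or.inl hspl
  right
  have hne : P1.Nonempty := by
    by_contra hcon
    rw [Finset.not_nonempty_iff_eq_empty] at hcon
    refine hspl ⟨E, ∅, ?_, Finset.disjoint_empty_right _, hl.clqE, stb_empty G⟩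
    have hD1e : D1 = ∅ := by
      rw [Finset.eq_empty_iff_forall_notMem]
      intro d hd
      rw [hD1, Finset.mem_filter] at hd
      obtain ⟨T, hT, hTs, hmax, hdT⟩ := hl.hD d hd.1
      have hPp : ∀ v ∈ P, v = p := by
        intro v hv
        by_contra hvp
        have : v ∈ P1 := Finset.mem_erase.2 ⟨hvp, hv⟩
        rw [hcon] at this
        exact Finset.notMem_empty _ this
      by_cases hpT : p ∈ T
      · exact hdT p hpT hd.2.symm
      · obtain ⟨t, ht, hpt⟩ := hmax p hp hpT
        rw [hPp t (hT ht)] at hpt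
        exact G.loopless.irrefl _ hpt
    rw [hcon, hD1e, Finset.union_empty, Finset.union_empty, Finset.empty_union]
  have hpn : p ∉ P1 ∪ E ∪ D1 := fun hh => G.loopless.irrefl _ (hQ p hh)
  have hlst : Lst G P1 E D1 := by
    refine ⟨hne, Finset.disjoint_of_subset_left (Finset.erase_subset _ _) hl.dPE,
      Finset.disjoint_of_subset_left (Finset.erase_subset _ _)
        (Finset.disjoint_of_subset_right (Finset.filter_subset _ _) hl.dPD),
      Finset.disjoint_of_subset_right (Finset.filter_subset _ _) hl.dED, ?_, hl.clqE,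
      hl.stbD.mono (Finset.filter_subset _ _), ?_, ?_⟩
    · intro Q' hQ' hne'
      exact hl.thr Q' (hQ'.trans (Finset.erase_subset _ _)) hne'
    · intro e he
      obtain ⟨K, hK, hKc, hmax, heK⟩ := hl.hE e he
      refine ⟨K.erase p, Finset.erase_subset_erase _ hK, hKc.mono (Finset.erase_subset _ _), ?_,
        fun k hk => heK k (Finset.mem_of_mem_erase hk)⟩
      intro v hv hvK
      rw [hP1, Finset.mem_erase] at hv
      have hvK' : v ∉ K := fun hh => hvK (Finset.mem_erase.2 ⟨hv.1, hh⟩)
      obtain ⟨k, hk, hvk⟩ := hmax v hv.2 hvK'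
      refine ⟨k, Finset.mem_erase.2 ⟨?_, hk⟩, hvk⟩
      rintro rfl
      exact hvk (hdom v hv.2 hv.1).symm
    · intro d hd
      rw [hD1, Finset.mem_filter] at hd
      obtain ⟨T, hT, hTs, hmax, hdT⟩ := hl.hD d hd.1
      have hpT : p ∉ T := fun hh => hdT p hh hd.2.symm
      refine ⟨T, fun v hv => Finset.mem_erase.2 ⟨fun e => hpT (e ▸ hv), hT hv⟩, hTs, ?_, hdT⟩
      intro v hv hvT
      exact hmax v (Finset.mem_of_mem_erase hv) hvT
  refine ih P1 E D1 hlst ?_ hspl
  refine Finset.card_lt_card ?_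
  rw [Finset.ssubset_iff_of_subset]
  · exact ⟨p, (hR p).2 (Or.inl rfl), hpn⟩
  · intro v hv
    exact (hR v).2 (Or.inr (Or.inr hv))

/-- the nonsplit case -/
theorem gd_nonsplit : ∀ (n : ℕ) {G : SimpleGraph ι} (_ : PF G) {P E D : Finset ι}
    (_ : Lst G P E D) (_ : (P ∪ E ∪ D).card = n) (_ : ¬ Spl G (P ∪ E ∪ D)),
    Gd G (P ∪ E ∪ D) ∅ ∅ := by
  intro n
  induction n using Nat.strong_induction_on with
  | _ n ih =>
    intro G h P E D hl hn hns
    obtain ⟨p, hp, hdom | hiso⟩ := hl.thr P (Finset.Subset.refl _) hl.ne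
    · exact gd_lst_dom h hl hp hdom hns fun P' E' D' hl' hlt hns' =>
        ih _ (hn ▸ hlt) h hl' rfl hns'
    · have e1 : P ∪ E ∪ D = P ∪ D ∪ E := Finset.union_right_comm _ _ _
      have h1 : Gd Gᶜ (P ∪ D ∪ E) ∅ ∅ := by
        refine gd_lst_dom h.compl (lst_compl hl) hp (fun v hv hvp => ⟨Ne.symm hvp, hiso v hv⟩) ?_ ?_
        · rw [spl_compl, ← e1]
          exact hns
        · intro P' E' D' hl' hlt hns'
          refine ih _ ?_ h.compl hl' rfl hns'
          rw [← hn, e1]
          exact hlt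
      rw [gd_compl] at h1
      rwa [e1]

end Pool.Agent.HNS
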